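import Pool.Agent.Lib.MP_688fd0_co.SQ2.V.M
import Pool.Agent.Lib.MP_688fd0_co.SQ2.V.A

/-!
Chapter V, stage E: Lemmas M, A, B under weaker hypotheses (symmetrised over the states before and after the gadgets).

Instead of `Three` and `Avoid` it is enough that every strand has at least two neighbours (`TwoN`) and that no strand is a
cut vertex (`NoCut`). This covers the components which are cycles of strands (A2, B2 of the paper).
-/

set_option autoImplicit false

namespace Pool.Agent.Lib.MP_688fd0_co.SQ2.V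

namespace Puz

section defs

variable {S R : Type} [DecidableEq S] (P : Puz S R)

/-- Every strand of a rung has at least two neighbours. -/
def TwoN : Prop := ∀ r v, P.On r v → ∃ r', P.Adj r r' v

/-- No strand is a cut vertex: the rungs that avoid `L` are connected by sharing strands (not `L`). -/
def NoCut : Prop := ∀ L r r', ¬ P.On r L → ¬ P.On r' L →
  Relation.ReflTransGen (fun a b => ¬ P.On a L ∧ ¬ P.On b L ∧ ∃ v, P.On a v ∧ P.On b v) r r'

/-- All rungs are connected by sharing strands. -/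
def ConnS : Prop := ∀ r r', Relation.ReflTransGen (fun a b => ∃ v, P.On a v ∧ P.On b v) r r'

theorem Three.twoN {P : Puz S R} (h : P.Three) : P.TwoN := by
  intro r v hv
  obtain ⟨r', _, h1, _, _⟩ := h r v hv
  exact ⟨r', h1⟩

theorem Conn.connS {P : Puz S R} (h : P.Conn) : P.ConnS := by
  intro r r'
  exact Relation.ReflTransGen.mono (fun a b ⟨v, hv⟩ => ⟨v, hv.1, hv.2.1⟩) _ _ (h r r')

theorem Avoid.noCut {P : Puz S R} (h : P.Avoid) : P.NoCut := by
  intro L r r' h1 h2
  exact Relation.ReflTransGen.mono (fun a b ⟨ha, hb, v, hv⟩ => ⟨ha, hb, v, hv.1, hv.2.1⟩) _ _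
    ((h L).1 r r' h1 h2)

end defs

section basic

variable {S R : Type} [DecidableEq S] {P : Puz S R} {Tok : Type}

/-- Parallel rungs have the same ends. -/
theorem on_of_par {r r' : R} {v : S} (h : P.On r v) (h' : P.On r' v) (e : P.oth r v = P.oth r' v) (L : S) :
    P.On r L ↔ P.On r' L := by
  rw [on_iff h, on_iff h', e]

theorem J_par {r r' q : R} {v : S} (e : P.oth r v = P.oth r' v) : P.J r q v = P.J r' q v := by
  unfold J; rw [e]

theorem J_par' {r r' q : R} {v : S} (e : P.oth r v = P.oth r' v) : P.J q r v = P.J q r' v := by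
  unfold J; rw [e]

theorem run_fst (l : List P.Rule) : ∀ (r : R) (p p' : Tok → S), (run l (r, p)).1 = (run l (r, p')).1 := by
  induction l with
  | nil => intro r p p'; rfl
  | cons ρ l ih => intro r p p'; exact ih _ _ _

theorem run_inj (l : List P.Rule) : Function.Injective (run l : St S R Tok → St S R Tok) := by
  induction l with
  | nil => exact fun _ _ h => h
  | cons ρ l ih => exact fun _ _ h => act_inj ρ (ih h)

end basic

section fibres

variable {S R : Type} [Fintype S] [DecidableEq S] [Fintype R] {P : Puz S R} {Tok : Type} [Fintype Tok]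

/-- The placements of one rung are as many as those of any other rung which is reached. -/
theorem card_fib_le (s₀ : St S R Tok) {r r' : R} {p p' : Tok → S} (h : P.Reach s₀ (r, p))
    (h' : P.Reach (r, p) (r', p')) : (fib P s₀ r).card ≤ (fib P s₀ r').card := by
  obtain ⟨l, hl⟩ := h'
  refine Finset.card_le_card_of_injOn (fun q => (run l (r, q)).2) ?_ ?_
  · intro q hq
    have h1 : (run l (r, q)).1 = r' := by rw [run_fst l r q p, hl]
    refine Finset.mem_coe.2 (mem_fib.2 ?_)
    have h2 : P.Reach s₀ (run l (r, q)) := (mem_fib.1 (Finset.mem_coe.1 hq)).trans ⟨l, rfl⟩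
    have h3 : (r', (run l (r, q)).2) = run l (r, q) := by rw [← h1]
    rw [h3]
    exact h2
  · intro q _ q' _ e
    have h1 : run l (r, q) = run l (r, q') := Prod.ext (run_fst l r q q') e
    exact congrArg Prod.snd (run_inj l h1)

theorem card_fib_eq (s₀ : St S R Tok) {r : R} (h : (fib P s₀ r).Nonempty) :
    (fib P s₀ r).card = (fib P s₀ s₀.1).card := by
  obtain ⟨p, hp⟩ := h
  have hr := mem_fib.1 hp
  refine le_antisymm ?_ ?_
  · exact card_fib_le (r := r) (p := p) (r' := s₀.1) (p' := s₀.2) s₀ hr (Reach.symm hr)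
  · exact card_fib_le (r := s₀.1) (p := s₀.2) (r' := r) (p' := p) s₀ (Reach.refl _) hr

theorem card_pre_eq (s₀ : St S R Tok) (r : R) : (pre P s₀ r).card = (fib P s₀ (P.tau r)).card := by
  refine Finset.card_nbij' (fun pos t => P.T r (pos t)) (fun pos t => (P.T r).symm (pos t)) ?_ ?_ ?_ ?_
  · intro pos h
    exact Finset.mem_coe.2 (mem_fib.2 (mem_pre.1 (Finset.mem_coe.1 h)))
  · intro pos h
    refine Finset.mem_coe.2 (mem_pre.2 ?_)
    have h1 : (fun t => P.T r ((P.T r).symm (pos t))) = pos := by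
      funext t; simp
    show P.Reach s₀ (P.tau r, fun t => P.T r ((P.T r).symm (pos t)))
    rw [h1]
    exact mem_fib.1 (Finset.mem_coe.1 h)
  · intro pos _; funext t; simp
  · intro pos _; funext t; simp

/-- Placements before and after the gadget. -/
noncomputable def nn (P : Puz S R) (s₀ : St S R Tok) (r : R) : ℕ := (fib P s₀ r).card + (pre P s₀ r).card

theorem nn_adj (hF : P.Full) (s₀ : St S R Tok) {r r' : R} {v : S} (ha : P.Adj r r' v) :
    nn P s₀ r' = nn P s₀ r := by
  unfold nn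
  rw [card_pre hF s₀ ha, ← card_pre hF s₀ ha.symm, add_comm]

/-- Sharing a strand. -/
theorem const_share {α : Type} (h2 : P.TwoN) (f : R → α) (h : ∀ r r' v, P.Adj r r' v → f r' = f r) {r r' : R} {v : S}
    (hr : P.On r v) (hr' : P.On r' v) : f r' = f r := by
  by_cases e : P.oth r v = P.oth r' v
  · obtain ⟨q, hq⟩ := h2 r v hr
    have hq' : P.Adj r' q v := ⟨hr', hq.2.1, fun h' => hq.2.2 (e.trans h')⟩
    rw [← h _ _ _ hq, ← h _ _ _ hq']
  · exact h _ _ _ ⟨hr, hr', e⟩

theorem nn_const (hF : P.Full) (h2 : P.TwoN) (hC : P.ConnS) (s₀ : St S R Tok) (r r' : R) :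
    nn P s₀ r' = nn P s₀ r := by
  induction hC r r' with
  | refl => rfl
  | tail _ h ih =>
    obtain ⟨v, h3, h4⟩ := h
    rw [← ih]
    exact const_share h2 (nn P s₀) (fun _ _ _ ha => nn_adj hF s₀ ha) h3 h4

theorem nn_ne_zero {F : Type} [Field F] (hF : P.Full) (h2 : P.TwoN) (hC : P.ConnS) {s₀ : St S R Tok} (hg : P.Good s₀)
    (hf : ((Fintype.card Tok).factorial : F) ≠ 0) (h20 : (2 : F) ≠ 0) (r : R) : (nn P s₀ r : F) ≠ 0 := by
  rw [nn_const hF h2 hC s₀ s₀.1 r]
  have hn : ((fib P s₀ s₀.1).card : F) ≠ 0 := by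
    intro hz
    obtain ⟨k, hk⟩ := card_fib_dvd hg
    apply hf
    rw [hk, Nat.cast_mul, hz, zero_mul]
  unfold nn
  rw [card_pre_eq]
  by_cases h : (fib P s₀ (P.tau s₀.1)).Nonempty
  · rw [card_fib_eq s₀ h, ← two_mul, Nat.cast_mul]
    exact mul_ne_zero (by exact_mod_cast h20) hn
  · rw [Finset.not_nonempty_iff_eq_empty.1 h, Finset.card_empty, add_zero]
    exact hn

variable {F : Type} [Field F]

/-- The weights before and after the gadget. -/
noncomputable def GG (P : Puz S R) (d : Tok → F) (s₀ : St S R Tok) (r : R) (L : S) : F :=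
  MM P d s₀ r L + MP P d s₀ r L

theorem MP_eq_zero (d : Tok → F) {s₀ : St S R Tok} (hg : P.Good s₀) {r : R} {L : S} (h : P.On r L) :
    MP P d s₀ r L = 0 := by
  unfold MP
  refine Finset.sum_eq_zero fun pos hp => Finset.sum_eq_zero fun t _ => ?_
  rw [if_neg]
  intro e
  have h1 := ((mem_pre.1 hp).good hg).2 (P.T r L)
  exact (h1.1 ⟨t, by show P.T r (pos t) = _; rw [e]⟩) ((on_tau r L).2 h)

theorem sum_MP (d : Tok → F) (s₀ : St S R Tok) (r : R) :
    ∑ L, MP P d s₀ r L = (pre P s₀ r).card * ∑ t, d t := by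
  unfold MP
  rw [Finset.sum_comm]
  rw [Finset.sum_congr rfl (g := fun _ => ∑ t, d t)]
  · rw [Finset.sum_const, nsmul_eq_mul]
  · intro pos _
    rw [Finset.sum_comm]
    refine Finset.sum_congr rfl fun t _ => ?_
    simp

theorem GG_adj (hF : P.Full) (d : Tok → F) (s₀ : St S R Tok) {r r' : R} {v : S} (ha : P.Adj r r' v) {L : S}
    (h : ¬ P.On r L) (h' : ¬ P.On r' L) : GG P d s₀ r' L = GG P d s₀ r L := by
  unfold GG
  rw [MP_eq_of_avoid hF d s₀ ha h h', MP_eq_of_avoid hF d s₀ ha.symm h' h, add_comm]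

theorem GG_par (hF : P.Full) (h2 : P.TwoN) (d : Tok → F) (s₀ : St S R Tok) {r r' : R} {v : S} (h : P.On r v)
    (h' : P.On r' v) (e : P.oth r v = P.oth r' v) (L : S) : GG P d s₀ r' L = GG P d s₀ r L := by
  obtain ⟨q, hq⟩ := h2 r v h
  have hq' : P.Adj r' q v := ⟨h', hq.2.1, fun h3 => hq.2.2 (e.trans h3)⟩
  have h3 : MM P d s₀ r L = MP P d s₀ q (P.J r q v L) := by
    rw [MP_eq hF d s₀ hq, J_J]
  have h4 : MM P d s₀ r' L = MP P d s₀ q (P.J r' q v L) := by
    rw [MP_eq hF d s₀ hq', J_J]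
  unfold GG
  rw [h3, h4, MP_eq hF d s₀ hq.symm, MP_eq hF d s₀ hq'.symm, J_par e, J_par' e]

/-- The common value. -/
theorem exists_GG (hF : P.Full) (h2 : P.TwoN) (hN : P.NoCut) (d : Tok → F) (s₀ : St S R Tok) :
    ∃ G : S → F, ∀ r L, ¬ P.On r L → GG P d s₀ r L = G L := by
  have key : ∀ L, ∃ m : F, ∀ r, ¬ P.On r L → GG P d s₀ r L = m := by
    intro L
    by_cases h0 : ∃ r, ¬ P.On r L
    · obtain ⟨a, ha⟩ := h0
      refine ⟨GG P d s₀ a L, fun r hr => ?_⟩
      induction hN L a r ha hr with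
      | refl => rfl
      | @tail b c _ hstep ih =>
        obtain ⟨hx, hy, v, h3, h4⟩ := hstep
        rw [← ih hx]
        by_cases e : P.oth b v = P.oth c v
        · exact GG_par hF h2 d s₀ h3 h4 e L
        · exact GG_adj hF d s₀ ⟨h3, h4, e⟩ hx hy
    · exact ⟨0, fun r hr => absurd ⟨r, hr⟩ h0⟩
  choose G hG using key
  exact ⟨G, fun r L h => hG L r h⟩

/-- LEMMA M, symmetrised. -/
theorem lemmaMP (hF : P.Full) (h2 : P.TwoN) (hN : P.NoCut) (hC : P.ConnS) (d : Tok → F) {s₀ : St S R Tok}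
    (hg : P.Good s₀) (hf : ((Fintype.card Tok).factorial : F) ≠ 0) (h20 : (2 : F) ≠ 0) :
    ∃ (G : S → F) (n : F), n ≠ 0 ∧ (∀ r L, ¬ P.On r L → MM P d s₀ r L + MP P d s₀ r L = G L) ∧
      (∀ r r' v, P.Adj r r' v → G (P.oth r v) = G (P.oth r' v) ∧
        MM P d s₀ r (P.oth r' v) + MM P d s₀ r' (P.oth r v) = G (P.oth r v)) ∧
      (∀ r, (∑ L, if P.On r L then (0 : F) else G L) = n * ∑ t, d t) ∧
      ∀ r, ((fib P s₀ r).card : F) + ((pre P s₀ r).card : F) = n := by
  obtain ⟨G, hG⟩ := exists_GG hF h2 hN d s₀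
  refine ⟨G, nn P s₀ s₀.1, nn_ne_zero hF h2 hC hg hf h20 _, hG, ?_, ?_, ?_⟩
  · intro r r' v ha
    have h3 : MP P d s₀ r' (P.oth r v) = MM P d s₀ r (P.oth r' v) := by
      rw [MP_eq hF d s₀ ha]
      congr 1
      exact Equiv.swap_apply_right _ _
    have h4 : MP P d s₀ r (P.oth r' v) = MM P d s₀ r' (P.oth r v) := by
      rw [MP_eq hF d s₀ ha.symm]
      congr 1
      exact Equiv.swap_apply_right _ _
    have h5 : MM P d s₀ r' (P.oth r v) + MP P d s₀ r' (P.oth r v) = G (P.oth r v) := hG r' _ ha.not_on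
    have h6 : MM P d s₀ r (P.oth r' v) + MP P d s₀ r (P.oth r' v) = G (P.oth r' v) := hG r _ ha.symm.not_on
    rw [h3] at h5
    rw [h4] at h6
    refine ⟨?_, ?_⟩
    · rw [← h5, ← h6, add_comm]
    · rw [← h5, add_comm]
  · intro r
    have h3 : (∑ L, if P.On r L then (0 : F) else G L) = ∑ L, GG P d s₀ r L := by
      refine Finset.sum_congr rfl fun L _ => ?_
      by_cases h : P.On r L
      · rw [if_pos h]
        unfold GG
        rw [MM_eq_zero d hg h, MP_eq_zero d hg h, add_zero]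
      · rw [if_neg h, hG r L h]
    rw [h3]
    unfold GG
    rw [Finset.sum_add_distrib, sum_MM, sum_MP, ← add_mul, ← Nat.cast_add]
    congr 2
    exact nn_const hF h2 hC s₀ s₀.1 r
  · intro r
    rw [← Nat.cast_add]
    congr 1
    exact nn_const hF h2 hC s₀ s₀.1 r

end fibres

end Puz

open Puz

/-- LEMMA A under the weaker hypotheses. -/
def LemmaAp : Prop := ∀ (S R Tok F : Type) [Fintype S] [DecidableEq S] [Fintype R] [Fintype Tok] [Field F]
  (P : Puz S R) (V : R → F) (θ : R → S → F) (d : Tok → F) (s₀ : St S R Tok),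
  P.Full → P.TwoN → P.NoCut → P.ConnS → P.Good s₀ →
  ((Fintype.card Tok).factorial : F) ≠ 0 → (2 : F) ≠ 0 → (∑ t, d t) ≠ 0 →
  (∃ δ : ℕ, (δ : F) ≠ 0 ∧ ∀ L, {r | P.On r L}.ncard = δ) →
  (∀ l l' : List P.Rule, run l s₀ = run l' s₀ → costs V θ d l s₀ = costs V θ d l' s₀) →
  ∃ B : S → F, ∀ r, V r = B (P.y r) - B (P.x r)

/-- LEMMA B under the weaker hypotheses. -/
def LemmaBp : Prop := ∀ (S R Tok F : Type) [Fintype S] [DecidableEq S] [Fintype R] [Fintype Tok] [Field F]
  (P : Puz S R) (χ : S → F) (C : F) (d : Tok → F) (s₀ : St S R Tok),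
  P.Full → P.TwoN → P.NoCut → P.ConnS → P.Good s₀ →
  ((Fintype.card Tok).factorial : F) ≠ 0 → (2 : F) ≠ 0 → (∑ t, d t) ≠ 0 →
  (∃ δ : ℕ, (δ : F) ≠ 0 ∧ ∀ L, {r | P.On r L}.ncard = δ) →
  (∀ (s : St S R Tok) (r' : R) (v : S), P.Reach s₀ s → P.Adj s.1 r' v →
    (∑ t, d t * (χ (s.2 t) + if s.2 t = P.oth r' v then χ (P.oth s.1 v) - χ v else 0)) = C) →
  ∀ r, χ (P.x r) = χ (P.y r)

namespace VAp

open VA VB

variable {S R : Type} [DecidableEq S] (P : Puz S R)

theorem split {F : Type} [Fintype S] [Field F] (M : S → F) (c : F)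
    (h : ∀ r, (∑ L, if P.On r L then (0 : F) else M L) = c) (r : R) :
    M (P.x r) + M (P.y r) + c = ∑ L, M L := by
  rw [← sum_on P M r, ← h r, ← Finset.sum_add_distrib]
  apply Finset.sum_congr rfl
  intro L _
  by_cases ho : P.On r L
  · rw [if_pos ho, if_pos ho, add_zero]
  · rw [if_neg ho, if_neg ho, zero_add]

/-- The sum of the values at the ends of a rung does not vanish. -/
theorem mu_ne {F : Type} [Fintype S] [Fintype R] [Field F] (M : S → F) (c : F) (hc : c ≠ 0)
    (hδ : ∃ δ : ℕ, (δ : F) ≠ 0 ∧ ∀ L, {r | P.On r L}.ncard = δ)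
    (h : ∀ r, (∑ L, if P.On r L then (0 : F) else M L) = c) (r : R) :
    M (P.x r) + M (P.y r) ≠ 0 := by
  classical
  intro h0
  have hsplit := split P M c h
  have hall : ∀ r', M (P.x r') + M (P.y r') = 0 := by
    intro r'
    have h1 := hsplit r'
    rw [← hsplit r, h0] at h1
    exact add_right_cancel h1
  obtain ⟨δ, hδ0, hδ1⟩ := hδ
  have hcount : ∑ r', (M (P.x r') + M (P.y r')) = δ * ∑ L, M L := by
    rw [Finset.sum_congr rfl (fun r' _ => (sum_on P M r').symm), Finset.sum_comm, Finset.mul_sum]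
    apply Finset.sum_congr rfl
    intro L _
    rw [← Finset.sum_filter, Finset.sum_const, nsmul_eq_mul]
    congr 2
    rw [← hδ1 L, Set.ncard_eq_toFinset_card']
    congr 1
    ext r'
    simp
  rw [Finset.sum_eq_zero (fun r' _ => hall r')] at hcount
  have hM0 : ∑ L, M L = 0 := by
    rcases mul_eq_zero.1 hcount.symm with h1 | h1
    · exact absurd h1 hδ0
    · exact h1
  have h2 := hsplit r
  rw [h0, hM0, zero_add] at h2
  exact hc h2

end VAp

open VA VB VAp

theorem lemmaAp : LemmaAp := by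
  intro S R Tok F _ _ _ _ _ P V θ d s₀ hFull h2N hNo hConn hGood hf h20 hd hδ hyp
  classical
  obtain ⟨M, n, hn, hM1, hM2, hM3, hM4⟩ := lemmaMP hFull h2N hNo hConn d hGood hf h20
  obtain ⟨Φ, hΦ⟩ := exists_potential P V θ d s₀ hyp
  let Ψ : R → F := fun r => ∑ pos ∈ fib P s₀ r, Φ (r, pos)
  let Ψ' : R → F := fun r => ∑ pos ∈ pre P s₀ r, (Φ (P.tau r, fun t => P.T r (pos t)) - ∑ t, d t * θ r (pos t))
  have hrel : ∀ r r' v, P.Adj r r' v →
      Ψ' r' = Ψ r + MM P d s₀ r (P.oth r' v) * (P.vol V r v - P.vol V r' v) := by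
    intro r r' v ha
    obtain ⟨ρ, hρ1, hρ2⟩ := hFull r r' v ha
    have hact : ∀ pos : Tok → S, ρ.act (r, pos) =
        (P.tau r', fun t => P.T r' (P.J r r' v (pos t))) := by
      intro pos
      simp only [Puz.Rule.act, Puz.step, hρ1, hρ2]
    have h1 : Ψ' r' = ∑ pos ∈ fib P s₀ r, (Φ (r, pos) + ∑ t, d t * P.cJ V r r' v (pos t)) := by
      show (∑ pos ∈ pre P s₀ r', (Φ (P.tau r', fun t => P.T r' (pos t)) - ∑ t, d t * θ r' (pos t))) = _
      refine Finset.sum_nbij' (fun pos t => P.J r r' v (pos t)) (fun pos t => P.J r r' v (pos t)) ?_ ?_ ?_ ?_ ?_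
      · intro pos h
        rw [← J_mem_pre hFull ha]
        simp only [J_J]
        exact h
      · intro pos h
        exact (J_mem_pre hFull ha).2 h
      · intro pos _
        funext t
        exact J_J _
      · intro pos _
        funext t
        exact J_J _
      · intro pos h
        have hmem : P.Reach s₀ (r, fun t => P.J r r' v (pos t)) := by
          rw [← mem_fib, ← J_mem_pre hFull ha]
          simp only [J_J]
          exact h
        have h2 := hΦ _ hmem ρ
        rw [hact] at h2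
        simp only [J_J] at h2
        rw [h2]
        have h3 : cost V θ d ρ (r, fun t => P.J r r' v (pos t)) =
            (∑ t, d t * P.cJ V r r' v (P.J r r' v (pos t))) + ∑ t, d t * θ r' (pos t) := by
          unfold Puz.cost
          simp only [hρ1, hρ2, J_J]
          rw [← Finset.sum_add_distrib]
          refine Finset.sum_congr rfl (fun t _ => ?_)
          rw [mul_add]
        rw [h3]
        ring
    rw [h1, Finset.sum_add_distrib]
    congr 1
    unfold MM
    rw [Finset.sum_mul]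
    refine Finset.sum_congr rfl (fun pos _ => ?_)
    rw [Finset.sum_mul]
    refine Finset.sum_congr rfl (fun t _ => ?_)
    unfold Puz.cJ
    by_cases h : pos t = P.oth r' v
    · rw [if_pos h, if_pos h]
    · rw [if_neg h, if_neg h]; ring
  -- the value at a strand
  have key : ∀ v, ∃ c, ∀ r, P.On r v → Ψ r + Ψ' r + M (P.oth r v) * P.vol V r v = c := by
    intro v
    by_cases hv : ∃ r, P.On r v
    · obtain ⟨r₀, hr₀⟩ := hv
      refine ⟨Ψ r₀ + Ψ' r₀ + M (P.oth r₀ v) * P.vol V r₀ v, fun r hr => ?_⟩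
      have hadj : ∀ r r', P.Adj r r' v → Ψ r' + Ψ' r' + M (P.oth r' v) * P.vol V r' v =
          Ψ r + Ψ' r + M (P.oth r v) * P.vol V r v := by
        intro r r' ha
        have h1 := hrel r r' v ha
        have h2 := hrel r' r v ha.symm
        obtain ⟨h3, h4⟩ := hM2 r r' v ha
        rw [h1, h2, ← h3, ← h4]
        ring
      by_cases e : P.oth r₀ v = P.oth r v
      · obtain ⟨q, hq⟩ := h2N r₀ v hr₀
        have hq' : P.Adj r q v := ⟨hr, hq.2.1, fun h' => hq.2.2 (e.trans h')⟩
        rw [← hadj _ _ hq, ← hadj _ _ hq']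
      · exact hadj _ _ ⟨hr₀, hr, e⟩
    · exact ⟨0, fun r hr => absurd ⟨r, hr⟩ hv⟩
  choose B hB using key
  by_cases hR : Nonempty R
  · obtain ⟨r₀⟩ := hR
    have hmu := mu_ne P M (n * ∑ t, d t) (mul_ne_zero hn hd) hδ hM3 r₀
    have hconst : ∀ r, M (P.x r) + M (P.y r) = M (P.x r₀) + M (P.y r₀) := by
      intro r
      have h1 := split P M _ hM3 r
      rw [← split P M _ hM3 r₀] at h1
      exact add_right_cancel h1
    refine ⟨fun v => - B v / (M (P.x r₀) + M (P.y r₀)), fun r => ?_⟩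
    have h1 := hB (P.x r) r (Or.inl rfl)
    have h2 := hB (P.y r) r (Or.inr rfl)
    rw [oth_x, vol_x] at h1
    rw [oth_y, vol_y] at h2
    have h3 : B (P.x r) - B (P.y r) = (M (P.x r₀) + M (P.y r₀)) * V r := by
      rw [← hconst r, ← h1, ← h2]
      ring
    have h4 : - B (P.y r) / (M (P.x r₀) + M (P.y r₀)) - - B (P.x r) / (M (P.x r₀) + M (P.y r₀))
        = (B (P.x r) - B (P.y r)) / (M (P.x r₀) + M (P.y r₀)) := by
      rw [← sub_div]
      congr 1
      ring
    simp only
    rw [h4, h3, mul_comm, mul_div_assoc, div_self hmu, mul_one]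
  · exact ⟨fun _ => 0, fun r => absurd ⟨r⟩ hR⟩

theorem lemmaBp : LemmaBp := by
  intro S R Tok F _ _ _ _ _ P χ C d s₀ hFull h2N hNo hConn hGood hf h20 hd hδ hyp r
  classical
  obtain ⟨M, n, hn, hM1, hM2, hM3, hM4⟩ := lemmaMP hFull h2N hNo hConn d hGood hf h20
  have hmu := mu_ne P M (n * ∑ t, d t) (mul_ne_zero hn hd) hδ hM3 r
  let T₁ : R → F := fun r => ∑ pos ∈ fib P s₀ r, ∑ t, d t * χ (pos t)
  let T₂ : R → F := fun r => ∑ pos ∈ pre P s₀ r, ∑ t, d t * χ (pos t)
  -- after the gadget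
  have k1 : ∀ r r' v, P.Adj r r' v → T₁ r + (χ (P.oth r v) - χ v) * MM P d s₀ r (P.oth r' v) =
      (fib P s₀ r).card * C := by
    intro r r' v ha
    have h2 : ∀ pos ∈ fib P s₀ r,
        (∑ t, d t * (χ (pos t) + if pos t = P.oth r' v then χ (P.oth r v) - χ v else 0)) = C :=
      fun pos hpos => hyp (r, pos) r' v (mem_fib.1 hpos) ha
    have h4 := Finset.sum_congr rfl h2
    rw [Finset.sum_const, nsmul_eq_mul] at h4
    rw [← h4]
    show (∑ pos ∈ fib P s₀ r, ∑ t, d t * χ (pos t)) + _ = _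
    unfold MM
    rw [Finset.mul_sum, ← Finset.sum_add_distrib]
    apply Finset.sum_congr rfl
    intro pos _
    rw [Finset.mul_sum, ← Finset.sum_add_distrib]
    apply Finset.sum_congr rfl
    intro t _
    by_cases ht : pos t = P.oth r' v
    · rw [if_pos ht, if_pos ht]; ring
    · rw [if_neg ht, if_neg ht]; ring
  -- before the gadget
  have k2 : ∀ r r' v, P.Adj r r' v → T₂ r' = T₁ r + (χ (P.oth r v) - χ (P.oth r' v)) * MM P d s₀ r (P.oth r' v) := by
    intro r r' v ha
    have h1 : T₂ r' = ∑ pos ∈ fib P s₀ r, ∑ t, d t * χ (P.J r r' v (pos t)) := by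
      refine Finset.sum_nbij' (fun pos t => P.J r r' v (pos t)) (fun pos t => P.J r r' v (pos t)) ?_ ?_ ?_ ?_ ?_
      · intro pos h
        rw [← J_mem_pre hFull ha]
        simp only [J_J]
        exact h
      · intro pos h
        exact (J_mem_pre hFull ha).2 h
      · intro pos _
        funext t
        exact J_J _
      · intro pos _
        funext t
        exact J_J _
      · intro pos _
        simp only [J_J]
    rw [h1]
    show _ = (∑ pos ∈ fib P s₀ r, ∑ t, d t * χ (pos t)) + _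
    unfold MM
    rw [Finset.mul_sum, ← Finset.sum_add_distrib]
    apply Finset.sum_congr rfl
    intro pos hpos
    rw [Finset.mul_sum, ← Finset.sum_add_distrib]
    apply Finset.sum_congr rfl
    intro t _
    have hgp := (mem_fib.1 hpos).good hGood
    have hnot : pos t ≠ P.oth r v := by
      intro e
      exact (hgp.2 (P.oth r v)).1 ⟨t, e⟩ (on_oth r v)
    unfold Puz.J
    by_cases ht : pos t = P.oth r' v
    · rw [if_pos ht, ht, Equiv.swap_apply_left]; ring
    · rw [if_neg ht, Equiv.swap_apply_of_ne_of_ne ht hnot]; ring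
  have key : ∀ v, P.On r v → T₁ r + T₂ r + (χ (P.oth r v) - χ v) * M (P.oth r v) = n * C := by
    intro v hv
    obtain ⟨r', ha⟩ := h2N r v hv
    have a1 := k1 r r' v ha
    have a2 := k1 r' r v ha.symm
    have a3 := k2 r' r v ha.symm
    obtain ⟨_, a4⟩ := hM2 r r' v ha
    have a5 := hM4 r
    have a6 : ((pre P s₀ r).card : F) = ((fib P s₀ r').card : F) := by rw [card_pre hFull s₀ ha.symm]
    rw [← a5, a6, add_mul, ← a1, ← a2, a3, ← a4]
    ring
  have kx := key (P.x r) (Or.inl rfl)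
  have ky := key (P.y r) (Or.inr rfl)
  rw [VB.oth_x] at kx
  rw [VB.oth_y] at ky
  have h6 : (χ (P.y r) - χ (P.x r)) * (M (P.x r) + M (P.y r)) = 0 := by
    have := kx.trans ky.symm
    linear_combination this
  rcases mul_eq_zero.1 h6 with h7 | h7
  · exact (sub_eq_zero.1 h7).symm
  · exact absurd h7 hmu

end Pool.Agent.Lib.MP_688fd0_co.SQ2.V
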