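import Pool.Agent.Lib.MP_688fd0_co.SQ3.V.Loc
import Pool.Agent.Lib.MP_688fd0_co.SQ3.V.MP
import Pool.Agent.Lib.MP_688fd0_co.SQ2.V.SubL
import Pool.Agent.Lib.MP_688fd0_co.SQ2.V.Flip2

/-!
Chapter V, stage E: FLIP A, FLIP B (from `lemmaAp`, `lemmaBp`), and NOTEXACT.
-/

set_option autoImplicit false

namespace Pool.Agent.Lib.MP_688fd0_co.SQ3.V

open Pool.Agent.Lib.MP_688fd0_co.SQ2.V
open Puz

section

variable {S R : Type} [DecidableEq S] {P : Puz S R}

/-- Without exactness there are two walks with the same end and different costs. -/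
theorem flip_of_Ap [Fintype S] [Fintype R] {Tok F : Type} [Fintype Tok] [Field F] (V : R → F)
    (θ : R → S → F) (d : Tok → F) (s₀ : St S R Tok) (h1 : P.Full) (h2 : P.TwoN) (h3 : P.NoCut) (h4 : P.ConnS)
    (h5 : P.Good s₀) (h6 : ((Fintype.card Tok).factorial : F) ≠ 0) (h20 : (2 : F) ≠ 0) (h7 : (∑ t, d t) ≠ 0)
    (h8 : ∃ δ : ℕ, (δ : F) ≠ 0 ∧ ∀ L, {r | P.On r L}.ncard = δ)
    (hV : ¬ ∃ B : S → F, ∀ r, V r = B (P.y r) - B (P.x r)) :
    ∃ l l' : List (R × S), P.Ok s₀ l ∧ P.Ok s₀ l' ∧ P.go s₀ l = P.go s₀ l' ∧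
      P.wcost V θ d s₀ l ≠ P.wcost V θ d s₀ l' := by
  by_contra hcon
  push Not at hcon
  refine hV (lemmaAp S R Tok F P V θ d s₀ h1 h2 h3 h4 h5 h6 h20 h7 h8 fun l l' h => ?_)
  rw [← wcost_wk, ← wcost_wk]
  exact hcon _ _ (ok_wk l s₀) (ok_wk l' s₀) (by rw [go_wk, go_wk, h])

/-- If the waits are equal at all states then `χ` is constant on the ends of the rungs. -/
theorem flip_of_Bp [Fintype S] [Fintype R] {Tok F : Type} [Fintype Tok] [Field F] (χ : S → F) (C : F)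
    (d : Tok → F) (s₀ : St S R Tok) (h1 : P.Full) (h2 : P.TwoN) (h3 : P.NoCut) (h4 : P.ConnS)
    (h5 : P.Good s₀) (h6 : ((Fintype.card Tok).factorial : F) ≠ 0) (h20 : (2 : F) ≠ 0) (h7 : (∑ t, d t) ≠ 0)
    (h8 : ∃ δ : ℕ, (δ : F) ≠ 0 ∧ ∀ L, {r | P.On r L}.ncard = δ)
    (hχ : ∃ r, χ (P.x r) ≠ χ (P.y r)) :
    ∃ (l : List (R × S)) (r' : R) (v : S), P.Ok s₀ l ∧ P.Adj (P.go s₀ l).1 r' v ∧
      P.gam χ d (P.go s₀ l) r' v ≠ C := by
  by_contra hcon
  push Not at hcon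
  obtain ⟨r, hr⟩ := hχ
  refine hr (lemmaBp S R Tok F P χ C d s₀ h1 h2 h3 h4 h5 h6 h20 h7 h8 (fun s r' v hs hv => ?_) r)
  obtain ⟨l, rfl⟩ := hs
  have := hcon (wk l s₀) r' v (ok_wk l s₀) (by rw [go_wk]; exact hv)
  rw [go_wk] at this
  exact this

end

open Classical in
theorem flipAE : FlipAES := by
  intro S R Sb Rb F _ _ _ _ _ _ _ P Pb E V θ d f g l₀ s r hsym hgf hθ hs hr hi hg hd hF hT hAv hC hf h20 hδ hV
  have hlen : Fintype.card {t : P.TokOf f // s.2 t ∈ Set.range E.iS} ≤ Fintype.card Sb := by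
    refine Fintype.card_le_of_injective (fun t => t.2.choose) fun t t' h => ?_
    apply Subtype.ext
    apply hi
    rw [← t.2.choose_spec, ← t'.2.choose_spec]
    exact congrArg E.iS h
  obtain ⟨sb, hsb, hcm⟩ := E.exists_cm s r hr
  have hsum : (∑ t : {t : P.TokOf f // s.2 t ∈ Set.range E.iS}, d t) ≠ 0 := by
    intro h0
    apply hd
    refine Eq.trans ?_ h0
    rw [← Finset.sum_filter]
    exact Finset.sum_subtype _ (fun t => by simp) _
  obtain ⟨l, l', h1, h2, h3, h4⟩ := flip_of_Ap (fun r => V (E.iR r)) (fun r s => θ (E.iR r) (E.iS s))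
    (fun t : {t : P.TokOf f // s.2 t ∈ Set.range E.iS} => d t) sb hF hT hAv hC (E.good_cm hi hg hcm)
    (factorial_ne_zero_of_le hlen hf) h20 hsum hδ hV
  have e1 : P.go s (E.lift l) = P.go s (E.lift l') := by
    have k1 := hcm.go l
    have k2 := hcm.go l'
    rw [← h3] at k2
    exact k1.ext k2
  have hw : P.WReach s (P.go s (E.lift l)) := ⟨_, hcm.ok l h1, rfl⟩
  have hstb : P.WReach (P.st₁ f) (P.stb f g l₀) := by
    refine hsym _ _ ?_
    rw [← P.stb_step hgf]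
    exact WReach.step hgf
  obtain ⟨w₁, hw1, hw2⟩ := hs
  obtain ⟨w₂, hw3, hw4⟩ : P.WReach (P.go s (E.lift l)) (P.stb f g l₀) :=
    (hsym _ _ (WReach.trans ⟨w₁, hw1, hw2⟩ hw)).trans hstb
  refine ⟨w₁ ++ E.lift l ++ w₂, w₁ ++ E.lift l' ++ w₂, ?_, ?_, ?_, ?_, ?_⟩
  · rw [ok_append, ok_append, go_append, hw2]
    exact ⟨⟨hw1, hcm.ok l h1⟩, hw3⟩
  · rw [go_append, go_append, hw2, hw4]
  · rw [ok_append, ok_append, go_append, hw2]
    exact ⟨⟨hw1, hcm.ok l' h2⟩, by rw [← e1]; exact hw3⟩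
  · rw [go_append, go_append, hw2, ← e1, hw4]
  · rw [wcost_append, wcost_append, wcost_append, wcost_append, go_append, go_append, hw2, ← e1,
      hcm.wcost V θ _ hθ, hcm.wcost V θ _ hθ]
    intro h5
    exact h4 (add_left_cancel (add_right_cancel h5))

open Classical in
theorem flipBE : FlipBES := by
  intro S R Sb Rb F _ _ _ _ _ _ _ P Pb E χ d f s r hs hr hi hg hd hF hT hAv hC hf h20 hδ hχ
  have hlen : Fintype.card {t : P.TokOf f // s.2 t ∈ Set.range E.iS} ≤ Fintype.card Sb := by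
    refine Fintype.card_le_of_injective (fun t => t.2.choose) fun t t' h => ?_
    apply Subtype.ext
    apply hi
    rw [← t.2.choose_spec, ← t'.2.choose_spec]
    exact congrArg E.iS h
  obtain ⟨sb, hsb, hcm⟩ := E.exists_cm s r hr
  have hsum : (∑ t : {t : P.TokOf f // s.2 t ∈ Set.range E.iS}, d t) ≠ 0 := by
    intro h0
    apply hd
    refine Eq.trans ?_ h0
    rw [← Finset.sum_filter]
    exact Finset.sum_subtype _ (fun t => by simp) _
  obtain ⟨l, r', v, h1, h2, h3⟩ := flip_of_Bp (fun s => χ (E.iS s))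
    (∑ s, d s * χ s - ∑ t : {t : P.TokOf f // ¬ s.2 t ∈ Set.range E.iS}, d t * χ (s.2 t))
    (fun t : {t : P.TokOf f // s.2 t ∈ Set.range E.iS} => d t) sb hF hT hAv hC (E.good_cm hi hg hcm)
    (factorial_ne_zero_of_le hlen hf) h20 hsum hδ hχ
  have k1 := hcm.go l
  refine ⟨P.go s (E.lift l), E.iR r', E.iS v, hs.trans ⟨_, hcm.ok l h1, rfl⟩, ?_, ?_⟩
  · rw [k1.r, E.adj_iff]
    exact h2
  · rw [k1.gam]
    intro h4
    exact h3 (eq_sub_of_add_eq h4)

end Pool.Agent.Lib.MP_688fd0_co.SQ3.V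

namespace Pool.Agent.Lib.MP_688fd0_co.SQ3

open Subgroup (zpowers)

theorem notExact2 : NotExact2S := by
  intro G F _ _ a c χ nb B0 B1 h n₀ hn
  have h1 : ∀ g : G, χ g * χ g⁻¹ = 1 := fun g => by rw [← map_mul, mul_inv_cancel, map_one]
  have ha : ∀ g : G, B0 ((g * a : G) : G ⧸ zpowers a) = B0 (g : G ⧸ zpowers a) := by
    intro g
    congr 1
    refine QuotientGroup.eq.2 ?_
    rw [mul_inv_rev, mul_assoc, inv_mul_cancel, mul_one]
    exact inv_mem (Subgroup.mem_zpowers a)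
  have hc : ∀ g : G, B1 ((g * c : G) : G ⧸ zpowers c) = B1 (g : G ⧸ zpowers c) := by
    intro g
    congr 1
    refine QuotientGroup.eq.2 ?_
    rw [mul_inv_rev, mul_assoc, inv_mul_cancel, mul_one]
    exact inv_mem (Subgroup.mem_zpowers c)
  have k1 : ∀ g : G, B0 ((g * c : G) : G ⧸ zpowers a) = B0 (g : G ⧸ zpowers a) + χ g * nb * (1 - χ c) := by
    intro g
    have e1 := h g
    have e2 := h (g * c)
    rw [hc, map_mul] at e2
    linear_combination e2 - e1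
  have k2 : ∀ g : G, B0 ((g * (c * a) : G) : G ⧸ zpowers a) =
      B0 ((g * (a * c) : G) : G ⧸ zpowers a) + χ g * nb * (1 - χ c) * (1 - χ a) := by
    intro g
    rw [← mul_assoc, ha, k1, ← mul_assoc, k1, ha, map_mul]
    ring
  have hκ : χ ((a * c)⁻¹ * (c * a)) = 1 := by
    rw [map_mul, map_mul χ c a, mul_comm (χ c), ← map_mul χ a c, mul_comm, h1]
  have key : ∀ k : ℕ, B0 ((a * c * ((a * c)⁻¹ * (c * a)) ^ k : G) : G ⧸ zpowers a) =
      B0 ((a * c : G) : G ⧸ zpowers a) + k * (nb * (1 - χ c) * (1 - χ a)) := by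
    intro k
    induction k with
    | zero => simp
    | succ k ih =>
      have e := k2 (a * c * ((a * c)⁻¹ * (c * a)) ^ k * (a * c)⁻¹)
      have e1 : a * c * ((a * c)⁻¹ * (c * a)) ^ k * (a * c)⁻¹ * (c * a) =
          a * c * ((a * c)⁻¹ * (c * a)) ^ (k + 1) := by rw [pow_succ]; group
      have e2 : a * c * ((a * c)⁻¹ * (c * a)) ^ k * (a * c)⁻¹ * (a * c) =
          a * c * ((a * c)⁻¹ * (c * a)) ^ k := by group
      have e3 : χ (a * c * ((a * c)⁻¹ * (c * a)) ^ k * (a * c)⁻¹) = 1 := by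
        rw [map_mul, map_mul, map_pow, hκ, one_pow, mul_one, h1]
      rw [e1, e2, e3, ih] at e
      rw [e]
      push_cast
      ring
  have e := key n₀
  rw [hn, mul_one] at e
  have e' : (n₀ : F) * (nb * (1 - χ c) * (1 - χ a)) = 0 := by
    have := e.symm
    exact add_eq_left.1 this
  linear_combination e'

end Pool.Agent.Lib.MP_688fd0_co.SQ3
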