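import Pool.Agent.Lib.MP_688fd0_co.SQ3.V.RealA

/-!
REAL A, REAL B for weights which are constant only on the strands, without conditions on the weights of `f` and `g`.
-/

set_option autoImplicit false

namespace Pool.Agent.Lib.MP_688fd0_co.SQ3

open Pool.Agent.Lib.MP_688fd0_co.OSF Pool.Agent.Lib.MP_688fd0_co.SQ2
open V (Puz short shortR)
open V.Puz (St)
open _root_.Pool.Agent.Lib.MP_688fd0_co.SQ3.Real


universe u v w

/-- REAL A for local weights. -/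
def RealA0S : Prop := ∀ (S R : Type) [Fintype S] [DecidableEq S] [Fintype R] (P : Puz S R) (Q : Type) [Group Q]
  [DecidableEq Q] (B : Lb.{0, v} Q) (U : Up B) (Z : Real P B U) (ζ : Q) (F : Type) [CommRing F] (V : Vd B F)
  (cu ca : R → F) (θ : R → S → F) (w : Q → F) (f g : R) (l₀ : S) (h : ℕ) (E : TW B) (n₀ : ℕ),
  Per U Z.e ζ →
  (∀ r, Z.H r ≤ h) → P.Adj g f l₀ → (∀ s s' : Puz.St S R (P.TokOf f), P.WReach s s' → P.WReach s' s) →
  Vols Z ζ V cu ca θ → (∀ x, V.n (U.up x) = 0) → (∀ r, ca r = cu (P.tau r)) →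
  (∀ s, w (Z.vt s (Z.lev f)) = w (Z.g s)) →
  EWr Z f g l₀ E n₀ → P.Flip cu θ (fun s => w (Z.g s)) f g l₀ →
  ∃ (X X' : TW B) (n : ℕ), Ver U X X' n (Z.vt (P.oth g l₀) (Z.lev f)) ∧ EWr Z f g l₀ X n ∧ X.cap = E.cap ∧
    n ≤ n₀ + (2 * NW S R + 4) * (Z.e + h) ∧ dvolw V w X X' ≠ 0

/-- REAL B for local weights. -/
def RealB0S : Prop := ∀ (S R : Type) [Fintype S] [DecidableEq S] [Fintype R] (P : Puz S R) (Q : Type) [Group Q]
  [DecidableEq Q] (B : Lb.{0, v} Q) (U : Up B) (Z : Real P B U) (ζ : Q) (F : Type) [Field F] (V : Vd B F)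
  (cu ca : R → F) (θ : R → S → F) (w : Q → F) (f g : R) (l₀ : S) (h : ℕ) (E : TW B) (n₀ : ℕ),
  Per U Z.e ζ →
  (∀ r, Z.H r ≤ h) → P.Adj g f l₀ → (∀ s s' : Puz.St S R (P.TokOf f), P.WReach s s' → P.WReach s' s) →
  Vols Z ζ V cu ca θ → (∀ x, U.wt V (U.U x) = U.wt V x) → (Z.e : F) ≠ 0 →
  (∀ s, w (Z.vt s (Z.lev f)) = w (Z.g s)) →
  EWr Z f g l₀ E n₀ →
  (∃ (s : Puz.St S R (P.TokOf f)) (r' : R) (v : S), P.WReach (P.st₁ f) s ∧ P.Adj s.1 r' v ∧
    P.gam (fun s => U.wt V (Z.g s)) (fun t : P.TokOf f => w (Z.g t)) s r' v ≠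
      P.gam (fun s => U.wt V (Z.g s)) (fun t : P.TokOf f => w (Z.g t)) (P.stb f g l₀) f l₀) →
  ∃ (X X' : TW B) (n : ℕ), Ver U X X' n (Z.vt (P.oth g l₀) (Z.lev f)) ∧ EWr Z f g l₀ X n ∧ X.cap = E.cap ∧
    n ≤ n₀ + (2 * NW S R + 4) * (Z.e + h) ∧ dvolw V w X X' ≠ 0

/-- REAL A. -/
theorem realA0 : RealA0S.{v} := by
  intro S R _ _ _ P Q _ _ B U Z ζ F _ V cu ca θ wt f g l₀ h E n₀ ⟨hz, _⟩ hH hadj hsym hv hn hca hd hE hflip
  have hcard := card_tok P f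
  obtain ⟨l, l', ok, go, ok', go', hne, hl, hl'⟩ := short S R (P.TokOf f) F P cu θ
    (fun t : P.TokOf f => wt (Z.g t)) (P.st₁ f) (P.stb f g l₀) hsym (by
      obtain ⟨l, l', h1, h2, h3, h4, h5⟩ := hflip
      exact ⟨l, l', h1, h2, h3, h4, h5⟩)
  obtain ⟨m, hm, okm, gom⟩ := shortR S R (P.TokOf f) P (P.st₁ f) (P.stb f g l₀) ⟨l, ok, go⟩
  set N := Nat.card R * Nat.card S ^ Nat.card (P.TokOf f) with hN
  set K := (2 * N + 1) * (Z.e + h) with hK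
  let W : WData Z := mkW hH hadj m okm gom K
  have hb : ∀ l : List (R × S), l.length ≤ 2 * N + 1 → Z.endT W.t₁ (Z.timed W.t₁ l) ≤ W.tC := by
    intro l hl
    refine le_trans (endT_timed hH _ _) ?_
    have := Nat.mul_le_mul_right (Z.e + h) hl
    show Z.lev f + Z.H f + _ ≤ Z.lev f + Z.H f + K
    omega
  obtain ⟨X, X', hX, hver, hdv⟩ := W.two.{0, v, 0} (Z.timed W.t₁ l) (Z.timed W.t₁ l')
    (val_timed l W.t₁ (P.st₁ f) ok) (by rw [runT_timed]; exact go) (hb l hl)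
    (val_timed l' W.t₁ (P.st₁ f) ok') (by rw [runT_timed]; exact go') (hb l' hl')
  have hEW : EWr Z f g l₀ X (W.T - W.t₀) := Is.ew (W := W) hX rfl (Z.lastT_dvd _ _)
  obtain ⟨z, hz'⟩ := pow_z hz hEW.dvd
  obtain ⟨Y, Y', y1, y2, y3, y4, y5, y6, y7⟩ := hver.comp_right (m := n₀) (Y := E) hE.flat
    (by rw [hE.L₀, hEW.L₀]) (by rw [hE.u₀, hEW.u₀]) (by rw [hE.u₁, hEW.u₁]) hz'
  refine ⟨Y, Y', W.T - W.t₀ + n₀, y1, ⟨y1.flat, by rw [y2, hEW.L₀], by rw [y3, hEW.u₀], by rw [y4, hEW.u₁],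
    Nat.dvd_add hEW.dvd hE.dvd, by rw [y5, hEW.cup]⟩, y6, ?_, ?_⟩
  · have h1 := mkW_T_le hH hadj m okm gom K
    have h2 : K + (m.length + 2) * (Z.e + h) ≤ (2 * NW S R + 4) * (Z.e + h) := by
      rw [hK, ← Nat.add_mul]
      refine Nat.mul_le_mul_right _ ?_
      unfold NW
      omega
    have h3 : W.T - W.t₀ ≤ (2 * NW S R + 4) * (Z.e + h) := le_trans h1 h2
    omega
  · rw [y7 V wt, hdv V (vdA hv hn) wt (fun s => wt (Z.g s)) hd]
    have e1 : ∀ w, wcs (vdA hv hn) (fun i : P.TokOf f => wt (Z.g i.1)) (ca f) W.t₁ (P.st₁ f) (Z.timed W.t₁ w) =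
        P.wcost cu θ (fun t : P.TokOf f => wt (Z.g t)) (P.st₁ f) w := by
      intro w
      have := wcs_eq (vdA hv hn) (fun i : P.TokOf f => wt (Z.g i.1)) (fun _ => rfl) hca (Z.timed W.t₁ w) (ca f)
        W.t₁ (P.st₁ f) (hca f)
      rw [untime_timed] at this
      exact this
    intro h0
    apply hne
    have e2 := e1 l
    have e3 := e1 l'
    have h0' : wcs (vdA hv hn) (fun i : P.TokOf f => wt (Z.g i.1)) (ca f) W.t₁ (P.st₁ f) (Z.timed W.t₁ l') -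
        wcs (vdA hv hn) (fun i : P.TokOf f => wt (Z.g i.1)) (ca f) W.t₁ (P.st₁ f) (Z.timed W.t₁ l) -
        ((0 : F) - 0) * Gam (vdA hv hn) (fun i : P.TokOf f => wt (Z.g i.1)) (P.stb f g l₀) f l₀ = 0 := h0
    rw [e2, e3] at h0'
    linear_combination -h0'

/-- REAL B. -/
theorem realB0 : RealB0S.{v} := by
  intro S R _ _ _ P Q _ _ B U Z ζ F _ V cu ca θ wt f g l₀ h E n₀ ⟨hz, _⟩ hH hadj hsym hv homU he hd hE hflip
  have hcard := card_tok P f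
  obtain ⟨s, r', v, hr, hadj', hgam⟩ := hflip
  obtain ⟨w₁, hw₁, ok₁, go₁⟩ := shortR S R (P.TokOf f) P _ _ hr
  have hr2 : P.WReach (P.step r' v s) (P.stb f g l₀) := by
    have h1 : P.WReach (P.st₁ f) (P.step r' v s) := hr.trans (Puz.WReach.step hadj')
    have h2 : P.WReach (P.stb f g l₀) (P.st₁ f) := by
      have := Puz.WReach.step (P := P) (s := P.stb f g l₀) hadj
      rwa [P.stb_step hadj] at this
    exact (hsym _ _ h1).trans (hsym _ _ h2)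
  obtain ⟨w₂, hw₂, ok₂, go₂⟩ := shortR S R (P.TokOf f) P _ _ hr2
  obtain ⟨m, hm, okm, gom⟩ := shortR S R (P.TokOf f) P (P.st₁ f) (P.stb f g l₀)
    ((hr.trans (Puz.WReach.step hadj')).trans hr2)
  set N := Nat.card R * Nat.card S ^ Nat.card (P.TokOf f) with hN
  set K := (2 * N + 2) * (Z.e + h) with hK
  let W : WData Z := mkW hH hadj m okm gom K
  -- the two words
  set A := Z.timed W.t₁ w₁ with hA
  set tA := Z.endT W.t₁ A with htA
  set x : TL S R := ⟨r', v, Z.nx tA r'⟩ with hx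
  set C := Z.timed (x.t + Z.H r') w₂ with hC
  have hxC : Z.timed tA ((r', v) :: w₂) = x :: C := rfl
  have hrA : runT P A (P.st₁ f) = s := by rw [hA, runT_timed]; exact go₁
  have hvA : Z.Val W.t₁ (P.st₁ f).1 A := val_timed w₁ W.t₁ (P.st₁ f) ok₁
  have hvC : Z.Val tA s.1 (x :: C) := by
    rw [← hxC]
    exact val_timed ((r', v) :: w₂) tA s ⟨hadj', ok₂⟩
  have hrC : runT P (x :: C) s = P.stb f g l₀ := by
    rw [← hxC, runT_timed]; exact go₂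
  have hvC' : Z.Val tA s.1 ((x :: C).map (TL.sh Z.e)) := by
    have h1 := val_sh 1 (x :: C) tA s.1 hvC
    rw [mul_one] at h1
    exact val_le _ (Nat.le_add_right _ _) h1
  have htA' : tA ≤ W.t₁ + N * (Z.e + h) := by
    refine le_trans (endT_timed hH _ _) ?_
    have := Nat.mul_le_mul_right (Z.e + h) hw₁
    omega
  have hend : Z.endT tA (x :: C) ≤ W.t₁ + (2 * N + 1) * (Z.e + h) := by
    rw [← hxC]
    refine le_trans (endT_timed hH _ _) ?_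
    have h1 := Nat.mul_le_mul_right (Z.e + h) hw₂
    have h2 : (2 * N + 1) * (Z.e + h) = N * (Z.e + h) + (N * (Z.e + h) + (Z.e + h)) := by ring
    rw [List.length_cons, Nat.add_mul, one_mul, h2]
    omega
  have hend' : Z.endT tA ((x :: C).map (TL.sh Z.e)) = Z.endT tA (x :: C) + Z.e := endT_sh Z.e tA (x :: C)
  have htC : W.tC = W.t₁ + K := rfl
  have hK2 : K = (2 * N + 1) * (Z.e + h) + (Z.e + h) := by rw [hK]; ring
  obtain ⟨X, X', hX, hver, hdv⟩ := W.two.{0, v, 0} (A ++ x :: C) (A ++ (x :: C).map (TL.sh Z.e))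
    (val_append _ _ W.t₁ (P.st₁ f) hvA (by rw [hrA]; exact hvC)) (by rw [runT_append]; exact hrA ▸ hrC)
    (by rw [endT_append, ← htA]; omega)
    (val_append _ _ W.t₁ (P.st₁ f) hvA (by rw [hrA]; exact hvC')) (by
      rw [runT_append, runT_sh]; exact hrA ▸ hrC)
    (by rw [endT_append, ← htA, hend']; omega)
  have hEW : EWr Z f g l₀ X (W.T - W.t₀) := Is.ew (W := W) hX rfl (Z.lastT_dvd _ _)
  obtain ⟨z, hz'⟩ := pow_z hz hEW.dvd
  obtain ⟨Y, Y', y1, y2, y3, y4, y5, y6, y7⟩ := hver.comp_right (m := n₀) (Y := E) hE.flat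
    (by rw [hE.L₀, hEW.L₀]) (by rw [hE.u₀, hEW.u₀]) (by rw [hE.u₁, hEW.u₁]) hz'
  refine ⟨Y, Y', W.T - W.t₀ + n₀, y1, ⟨y1.flat, by rw [y2, hEW.L₀], by rw [y3, hEW.u₀], by rw [y4, hEW.u₁],
    Nat.dvd_add hEW.dvd hE.dvd, by rw [y5, hEW.cup]⟩, y6, ?_, ?_⟩
  · have h1 := mkW_T_le hH hadj m okm gom K
    have h2 : K + (m.length + 2) * (Z.e + h) ≤ (2 * NW S R + 4) * (Z.e + h) := by
      rw [hK, ← Nat.add_mul]
      refine Nat.mul_le_mul_right _ ?_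
      unfold NW
      omega
    have h3 : W.T - W.t₀ ≤ (2 * NW S R + 4) * (Z.e + h) := le_trans h1 h2
    omega
  · set D := vdB hv homU with hD
    have hG : ∀ t, D.gg (t + Z.e) = D.gg t + Z.e := by
      intro t
      show ((t + Z.e : ℕ) : F) = (t : F) + Z.e
      rw [Nat.cast_add]
    have h1 := hdv V D wt (fun s => wt (Z.g s)) hd
    have h2 : wcs D (fun i : P.TokOf f => wt (Z.g i.1)) (D.ca f) W.t₁ (P.st₁ f)
        (A ++ (x :: C).map (TL.sh Z.e)) = wcs D (fun i : P.TokOf f => wt (Z.g i.1)) (D.ca f) W.t₁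
        (P.st₁ f) (A ++ x :: C) + Z.e * Gam D (fun i : P.TokOf f => wt (Z.g i.1)) s r' v := by
      rw [wcs_append, wcs_append, hrA, wcs_wait D _ hG _ _ s x C hadj']
      ring
    have h3 : D.gg (Z.endT W.t₁ (A ++ (x :: C).map (TL.sh Z.e))) - D.gg (Z.endT W.t₁ (A ++ x :: C)) =
        Z.e := by
      rw [endT_append, endT_append, ← htA, hend', hG]; ring
    rw [y7 V wt, h1]
    have h5 : wcs D (fun i : P.TokOf f => wt (Z.g i.1)) (D.ca f) W.t₁ (P.st₁ f)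
        (A ++ (x :: C).map (TL.sh Z.e)) - wcs D (fun i : P.TokOf f => wt (Z.g i.1)) (D.ca f) W.t₁
        (P.st₁ f) (A ++ x :: C) - (D.gg (Z.endT W.t₁ (A ++ (x :: C).map (TL.sh Z.e))) -
          D.gg (Z.endT W.t₁ (A ++ x :: C))) * Gam D (fun i : P.TokOf f => wt (Z.g i.1))
            (P.stb f g l₀) f l₀ =
        Z.e * (P.gam (fun s => U.wt V (Z.g s)) (fun t : P.TokOf f => wt (Z.g t.1)) s r' v -
          P.gam (fun s => U.wt V (Z.g s)) (fun t : P.TokOf f => wt (Z.g t.1)) (P.stb f g l₀) f l₀) := by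
      rw [h2, h3]
      show _ = Z.e * (Gam D (fun i : P.TokOf f => wt (Z.g i.1)) s r' v -
        Gam D (fun i : P.TokOf f => wt (Z.g i.1)) (P.stb f g l₀) f l₀)
      ring
    show wcs D (fun i : P.TokOf f => wt (Z.g i.1)) (D.ca f) W.t₁ (P.st₁ f)
        (A ++ (x :: C).map (TL.sh Z.e)) - wcs D (fun i : P.TokOf f => wt (Z.g i.1)) (D.ca f) W.t₁
        (P.st₁ f) (A ++ x :: C) - (D.gg (Z.endT W.t₁ (A ++ (x :: C).map (TL.sh Z.e))) -
          D.gg (Z.endT W.t₁ (A ++ x :: C))) * Gam D (fun i : P.TokOf f => wt (Z.g i.1))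
            (P.stb f g l₀) f l₀ ≠ 0
    rw [h5]
    exact mul_ne_zero he (sub_ne_zero.2 hgam)

end Pool.Agent.Lib.MP_688fd0_co.SQ3
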