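import Pool.Agent.Lib.MP_688fd0_co.SQ3.H98.BG

/-!
CGAD: the base gadget of a label which commutes with `U`. All tokens go straight up; cup and cap use the same edge on
two consecutive levels.
-/

set_option autoImplicit false

namespace Pool.Agent.Lib.MP_688fd0_co.SQ3

open Pool.Agent.Lib.MP_688fd0_co.OSF Pool.Agent.Lib.MP_688fd0_co.SQ2 Finset

namespace CGad

section basic

universe u v w

variable {Q : Type u} [Group Q] {B : Lb.{u, v} Q} (U : Up B) {b : B.L}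

/-- From `x` up `p` levels, the edge `b`, down `q` levels to `y`. -/
def up (b : B.L) (p : ℕ) (x : Q) (q : ℕ) (y : Q) : List B.L := U.str p x ++ (b :: U.dn q y)

/-- From `U ^ m x` down to `x`, the edge `b` to `y`, up `m'` levels. -/
def dn (b : B.L) (m : ℕ) (x : Q) (m' : ℕ) (y : Q) : List B.L := U.dn m x ++ (b :: U.str m' y)

theorem up_fin {x y : Q} {p q : ℕ} (h : (U.U ^ p) x * B.q b = (U.U ^ q) y) : B.fin x (up U b p x q y) = y := by
  unfold up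
  rw [fin_append, U.fin_str]
  show B.fin ((U.U ^ p) x * B.q b) (U.dn q y) = y
  rw [h, U.fin_dn]

theorem up_verts {x y : Q} {p q : ℕ} (h : (U.U ^ p) x * B.q b = (U.U ^ q) y) :
    (B.verts x (up U b p x q y) : Multiset Q) =
      ∑ i ∈ range (p + 1), {(U.U ^ i) x} + ∑ i ∈ range (q + 1), {(U.U ^ i) y} := by
  rw [verts_eq, up_fin U h]
  unfold up
  rw [src_append, U.fin_str]
  show (((src B x (U.str p x) ++ ((U.U ^ p) x :: src B ((U.U ^ p) x * B.q b) (U.dn q y))) ++ [y] :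
    List Q) : Multiset Q) = _
  rw [h, ← Multiset.coe_add, ← Multiset.coe_add, U.src_str, ← Multiset.cons_coe, ← Multiset.singleton_add]
  have h1 := U.src_dn q y
  have e2 : (([y] : List Q) : Multiset Q) = {y} := rfl
  rw [Finset.sum_range_succ, Finset.sum_range_succ, e2, add_assoc, add_assoc ({(U.U ^ p) x} : Multiset Q), h1]
  abel

theorem dn_fin {x y : Q} {m m' : ℕ} (h : x * B.q b = y) :
    B.fin ((U.U ^ m) x) (dn U b m x m' y) = (U.U ^ m') y := by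
  unfold dn
  rw [fin_append, U.fin_dn]
  show B.fin (x * B.q b) (U.str m' y) = _
  rw [h, U.fin_str]

theorem dn_ne {x y : Q} {m m' : ℕ} : dn U b m x m' y ≠ [] := by
  unfold dn; simp

theorem dn_src {x y : Q} {m m' : ℕ} (h : x * B.q b = y) :
    ((src B ((U.U ^ m) x) (dn U b m x m' y)).tail : Multiset Q) =
      ∑ i ∈ range m, {(U.U ^ i) x} + ∑ i ∈ range m', {(U.U ^ i) y} := by
  have h0 : (src B ((U.U ^ m) x) (dn U b m x m' y) : Multiset Q) = {(U.U ^ m) x} +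
      (∑ i ∈ range m, {(U.U ^ i) x} + ∑ i ∈ range m', {(U.U ^ i) y}) := by
    unfold dn
    rw [src_append, U.fin_dn]
    show ((src B ((U.U ^ m) x) (U.dn m x) ++ (x :: src B (x * B.q b) (U.str m' y)) : List Q) : Multiset Q) = _
    rw [h, ← Multiset.coe_add, ← Multiset.cons_coe, ← Multiset.singleton_add, U.src_str, ← add_assoc, U.src_dn,
      add_assoc]
  rw [src_ne_nil _ (dn_ne U), ← Multiset.cons_coe, ← Multiset.singleton_add] at h0
  exact add_left_cancel h0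

section vol

variable {R : Type w} [CommRing R] (V : Vd B R)

theorem vol_dn0 (hV : ∀ x, V.n (U.up x) = 0) (n : ℕ) (x : Q) : V.vol ((U.U ^ n) x) (U.dn n x) = 0 := by
  unfold Up.dn
  rw [← U.fin_str, vol_rev, U.vol_str V hV, neg_zero]

theorem vol_up (hV : ∀ x, V.n (U.up x) = 0) {x y : Q} {p q : ℕ} (h : (U.U ^ p) x * B.q b = (U.U ^ q) y) :
    V.vol x (up U b p x q y) = V.chi ((U.U ^ p) x) * V.n b := by
  unfold up
  rw [vol_append, U.fin_str, U.vol_str V hV]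
  show 0 + (V.chi ((U.U ^ p) x) * V.n b + V.vol ((U.U ^ p) x * B.q b) (U.dn q y)) = _
  rw [h, vol_dn0 U V hV]
  ring

theorem vol_dn (hV : ∀ x, V.n (U.up x) = 0) (x y : Q) (m m' : ℕ) :
    V.vol ((U.U ^ m) x) (dn U b m x m' y) = V.chi x * V.n b + V.vol (x * B.q b) (U.str m' y) := by
  unfold dn
  rw [vol_append, U.fin_dn, vol_dn0 U V hV]
  show 0 + (V.chi x * V.n b + V.vol (x * B.q b) (U.str m' y)) = _
  ring

end vol

end basic

universe v

variable {Q : Type} [Group Q] [DecidableEq Q] {B : Lb.{0, v} Q} (U : Up B) {D : Subgroup Q} {F : Finset Q} {e : ℕ}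

/-- The window. -/
def win (F : Finset Q) (b : B.L) (s0 s1 : F) (hne : s0 ≠ s1) (p q H : ℕ) (hp : p + 1 ≤ H) (hq : q + 1 ≤ H)
    (h : (U.U ^ p) (s0 : Q) * B.q b = (U.U ^ q) (s1 : Q))
    (h' : (U.U ^ (p + 1)) (s0 : Q) * B.q b = (U.U ^ (q + 1)) (s1 : Q)) : TW B where
  L₀ := F
  L₁ := im (U.U ^ H) F
  u₀ := s0
  u₁ := s1
  w₀ := (U.U ^ H) s0
  w₁ := (U.U ^ H) s1
  cup := up U b p s0 q s1
  cap := dn U b (H - (p + 1)) ((U.U ^ (p + 1)) (s0 : Q)) (H - (q + 1)) ((U.U ^ (q + 1)) (s1 : Q))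
  f := fun x => (U.U ^ H) x
  path := fun x => U.str H x
  hu₀ := s0.2
  hu₁ := s1.2
  hu := fun h0 => hne (Subtype.ext h0)
  hw₀ := map_mem_im.2 s0.2
  hw₁ := map_mem_im.2 s1.2
  hw := fun h0 => hne (Subtype.ext ((U.U ^ H).injective h0))
  cup_fin := up_fin U h
  cap_fin := by
    have h1 := dn_fin U (m := H - (p + 1)) (m' := H - (q + 1)) h'
    rwa [← U.U_pow_add, ← U.U_pow_add, Nat.add_sub_cancel' hp, Nat.add_sub_cancel' hq] at h1
  path_fin := fun x _ _ _ => U.fin_str H x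
  f_mem := fun x hx h0 h1 => ⟨map_mem_im.2 hx, fun h2 => h0 ((U.U ^ H).injective h2),
    fun h2 => h1 ((U.U ^ H).injective h2)⟩
  f_inj := fun x _ _ _ y _ _ _ h2 => (U.U ^ H).injective h2
  f_surj := fun y hy h0 h1 => by
    have h3 : (U.U ^ H) ((U.U ^ H)⁻¹ y) = y := (U.U ^ H).apply_symm_apply y
    refine ⟨(U.U ^ H)⁻¹ y, mem_im.1 hy, ?_, ?_, h3⟩
    · intro h2; exact h0 (by rw [← h2, h3])
    · intro h2; exact h1 (by rw [← h2, h3])

theorem win_R (F : Finset Q) (b : B.L) (s0 s1 : F) (hne : s0 ≠ s1) (p q H : ℕ) (hp : p + 1 ≤ H) (hq : q + 1 ≤ H)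
    (h : (U.U ^ p) (s0 : Q) * B.q b = (U.U ^ q) (s1 : Q))
    (h' : (U.U ^ (p + 1)) (s0 : Q) * B.q b = (U.U ^ (q + 1)) (s1 : Q)) :
    (win U F b s0 s1 hne p q H hp hq h h').R = ∑ i ∈ range H, (im (U.U ^ i) F).val := by
  have e0 : (win U F b s0 s1 hne p q H hp hq h h').R =
      ∑ x ∈ (win U F b s0 s1 hne p q H hp hq h h').tok₀, (src B x (U.str H x) : Multiset Q) +
      (B.verts (s0 : Q) (up U b p s0 q s1) : Multiset Q) +
      ((src B ((U.U ^ H) (s0 : Q)) (dn U b (H - (p + 1)) ((U.U ^ (p + 1)) (s0 : Q)) (H - (q + 1))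
        ((U.U ^ (q + 1)) (s1 : Q)))).tail : Multiset Q) := rfl
  have e1 : ((src B ((U.U ^ H) (s0 : Q)) (dn U b (H - (p + 1)) ((U.U ^ (p + 1)) (s0 : Q)) (H - (q + 1))
        ((U.U ^ (q + 1)) (s1 : Q)))).tail : Multiset Q) =
      ∑ i ∈ Finset.Ico (p + 1) H, {(U.U ^ i) (s0 : Q)} + ∑ i ∈ Finset.Ico (q + 1) H, {(U.U ^ i) (s1 : Q)} := by
    have h1 := dn_src U (m := H - (p + 1)) (m' := H - (q + 1)) h'
    rw [← U.U_pow_add, Nat.add_sub_cancel' hp] at h1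
    rw [h1, Finset.sum_Ico_eq_sum_range, Finset.sum_Ico_eq_sum_range]
    congr 1
    · refine Finset.sum_congr rfl fun i _ => ?_
      rw [← U.U_pow_add (p + 1) i]
    · refine Finset.sum_congr rfl fun i _ => ?_
      rw [← U.U_pow_add (q + 1) i]
  have e2 : ∑ x ∈ (win U F b s0 s1 hne p q H hp hq h h').tok₀, (src B x (U.str H x) : Multiset Q) =
      ∑ x ∈ (win U F b s0 s1 hne p q H hp hq h h').tok₀, ∑ i ∈ range H, {(U.U ^ i) x} :=
    Finset.sum_congr rfl fun x _ => U.src_str H x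
  have e3 := U.lev_eq F H
  unfold Up.lev at e3
  rw [e0, e1, e2, up_verts U h, e3]
  have e4 : ∑ x ∈ F, ∑ i ∈ range H, ({(U.U ^ i) x} : Multiset Q) =
      ∑ x ∈ (win U F b s0 s1 hne p q H hp hq h h').tok₀, ∑ i ∈ range H, {(U.U ^ i) x} +
        ∑ i ∈ range H, {(U.U ^ i) (s0 : Q)} + ∑ i ∈ range H, {(U.U ^ i) (s1 : Q)} := by
    have h1 : (s1 : Q) ∈ F.erase (s0 : Q) := Finset.mem_erase.2 ⟨fun h0 => hne (Subtype.ext h0.symm), s1.2⟩
    rw [← Finset.sum_erase_add F _ s0.2, ← Finset.sum_erase_add (F.erase (s0 : Q)) _ h1]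
    rw [add_right_comm]
    rfl
  rw [e4]
  have e5 : ∀ (x : Q) (r : ℕ), r ≤ H → ∑ i ∈ range H, ({(U.U ^ i) x} : Multiset Q) =
      ∑ i ∈ range r, {(U.U ^ i) x} + ∑ i ∈ Finset.Ico r H, {(U.U ^ i) x} := by
    intro x r hr
    rw [← Finset.sum_range_add_sum_Ico _ hr]
  rw [e5 s0 (p + 1) hp, e5 s1 (q + 1) hq]
  abel

end CGad

open CGad

universe v

/-- CGAD. -/
theorem cgad {Q : Type} [Group Q] [DecidableEq Q] {B : Lb.{0, v} Q} {U : Up B} {P D : Subgroup Q} {z : Q}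
    {F : Finset Q} {e : ℕ} (h : FrD U P D z F e) (b : B.L) (hb : ∀ x, U.U (x * B.q b) = U.U x * B.q b) (s0 s1 : F)
    (hne : s0 ≠ s1) (j : ℤ) (hj : (s0 : Q) * B.q b = (U.U ^ j) (s1 : Q)) :
    ∃ (G : BGad h.toFrt) (p p' : ℕ), COK h G b p p' ∧ G.x = s0 ∧ G.y = s1 ∧ G.H ≤ j.natAbs + 1 ∧
      (∀ s : F, G.X.path s = U.str G.H s) ∧ (p' : ℤ) - p = j ∧ p ≤ j.natAbs := by
  have hcom : ∀ (n : ℕ) (x : Q), (U.U ^ n) (x * B.q b) = (U.U ^ n) x * B.q b := by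
    intro n
    induction n with
    | zero => intro x; rfl
    | succ n ih => intro x; rw [U.U_pow_succ, hb, ih, U.U_pow_succ]
  have key : ∀ n : ℕ, (U.U ^ ((-j).toNat + n)) (s0 : Q) * B.q b = (U.U ^ (j.toNat + n)) (s1 : Q) := by
    intro n
    rw [← hcom, hj]
    have e1 : U.U ^ (j.toNat + n) = U.U ^ ((-j).toNat + n) * U.U ^ j := by
      rw [← zpow_natCast, ← zpow_natCast, ← zpow_add]
      congr 1
      push_cast
      omega
    rw [e1]; rfl
  have h0 : (U.U ^ (-j).toNat) (s0 : Q) * B.q b = (U.U ^ j.toNat) (s1 : Q) := key 0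
  have h1 : (U.U ^ ((-j).toNat + 1)) (s0 : Q) * B.q b = (U.U ^ (j.toNat + 1)) (s1 : Q) := key 1
  have hp : (-j).toNat + 1 ≤ j.natAbs + 1 := by omega
  have hq : j.toNat + 1 ≤ j.natAbs + 1 := by omega
  have hgen : U.gen (s0 : Q) = U.gen (s1 : Q) := by
    have e2 : U.gen ((s0 : Q) * B.q b) = U.gen (s0 : Q) := by
      unfold Up.gen
      rw [hb]; group
    rw [← e2, hj, gen_up h.dat]
  have hfix : h.cj (s0 : Q) • s1 = s1 := by
    refine Subtype.ext (U.U.injective ?_)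
    rw [h.cj_up, hgen, U.gen_mul]
  refine ⟨{
    x := s0
    y := s1
    ne := hne
    δ := h.cj (s0 : Q)
    T := 1
    Tx := (h.cj_self s0).symm
    Ty := hfix.symm
    H := j.natAbs + 1
    X := win U F b s0 s1 hne (-j).toNat j.toNat (j.natAbs + 1) hp hq h0 h1
    L₀ := rfl
    L₁ := rfl
    u₀ := rfl
    u₁ := rfl
    w₀ := by rw [h.cj_self]; rfl
    w₁ := by rw [hfix]; rfl
    f := fun s _ _ => rfl
    reg := win_R U F b s0 s1 hne (-j).toNat j.toNat (j.natAbs + 1) hp hq h0 h1 }, (-j).toNat, j.toNat, ?_, rfl, rfl,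
    le_refl _, fun _ => rfl, by omega, by omega⟩
  refine ⟨hb, h0, rfl, rfl, ?_, ?_, ?_⟩
  · intro R _ V ha
    exact vol_up U V ha h0
  · intro R _ V ha hal
    show V.vol ((U.U ^ (j.natAbs + 1)) (s0 : Q)) (dn U b (j.natAbs + 1 - ((-j).toNat + 1))
      ((U.U ^ ((-j).toNat + 1)) (s0 : Q)) (j.natAbs + 1 - (j.toNat + 1)) ((U.U ^ (j.toNat + 1)) (s1 : Q))) =
      Xc V (h.cj (s0 : Q)) * V.vol (s0 : Q) (up U b (-j).toNat s0 j.toNat s1)
    have e1 := vol_dn U (b := b) V ha ((U.U ^ ((-j).toNat + 1)) (s0 : Q)) ((U.U ^ (j.toNat + 1)) (s1 : Q))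
      (j.natAbs + 1 - ((-j).toNat + 1)) (j.natAbs + 1 - (j.toNat + 1))
    rw [← U.U_pow_add, Nat.add_sub_cancel' hp, h1, U.vol_str V ha, add_zero] at e1
    rw [e1, vol_up U V ha h0]
    have hlv : ((1 : ℕ) : ZMod e) = lv (h.cj (s0 : Q)) := by rw [Nat.cast_one, h.cj_lv]
    have e3 := Xc_eq V hal s0 (h.cj (s0 : Q)) 1 hlv
    rw [← e3, uu_eq (h.cj (s0 : Q)) 1 hlv s0, h.cj_self, pow_one]
    have e4 : (U.U ^ ((-j).toNat + 1)) (s0 : Q) = U.U (s0 : Q) * (s0 : Q)⁻¹ * (U.U ^ (-j).toNat) (s0 : Q) := by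
      have e5 := h.dat.zpow_gen (s0 : Q) (((-j).toNat + 1 : ℕ) : ℤ)
      have e6 := h.dat.zpow_gen (s0 : Q) (((-j).toNat : ℕ) : ℤ)
      rw [zpow_natCast, zpow_natCast] at e5 e6
      rw [e5, e6]
      unfold Up.gen
      rw [pow_succ', mul_assoc]
    rw [e4, map_mul]
    ring
  · intro R _ V ha s _ _
    exact U.vol_str V ha _ _

theorem cgadS : CGadS.{v} := by
  intro Q _ _ B U P D z F e h b hb s₀ s₁ j hne hj
  obtain ⟨G, p, p', h1, h2, h3, h4, -, h5, -⟩ := cgad h b hb s₀ s₁ hne j hj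
  exact ⟨G, p, p', h2, h3, h4, h5, h1⟩

end Pool.Agent.Lib.MP_688fd0_co.SQ3
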