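import Pool.Agent.Lib.MP_688fd0_co.SQ3.V.Loc
import Pool.Agent.Lib.MP_688fd0_co.SQ2.V.Start
import Pool.Agent.Lib.MP_688fd0_co.SQ2.V.FC2

/-!
Chapter V, stage E, module KEY: flips from two parallel rungs whose gadgets move nothing, at any reachable state; reachable
states one step back.
-/

set_option autoImplicit false

namespace Pool.Agent.Lib.MP_688fd0_co.SQ3.V

open Pool.Agent.Lib.MP_688fd0_co.SQ2.V
open Puz FC1 FC2

namespace Key

variable {S R : Type} [DecidableEq S] {P : Puz S R}

theorem good_st₁ (f : R) : P.Good (P.st₁ f) := by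
  have hon : ∀ L, P.On (P.tau f) L ↔ ∃ M, P.On f M ∧ P.T f M = L := by
    intro L
    rcases P.T_ends f with ⟨a, b⟩ | ⟨a, b⟩
    · constructor
      · rintro (h | h)
        · exact ⟨P.x f, Or.inl rfl, a.trans h.symm⟩
        · exact ⟨P.y f, Or.inr rfl, b.trans h.symm⟩
      · rintro ⟨M, h | h, h'⟩
        · exact Or.inl (by rw [← h', h, a])
        · exact Or.inr (by rw [← h', h, b])
    · constructor
      · rintro (h | h)
        · exact ⟨P.y f, Or.inr rfl, b.trans h.symm⟩
        · exact ⟨P.x f, Or.inl rfl, a.trans h.symm⟩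
      · rintro ⟨M, h | h, h'⟩
        · exact Or.inr (by rw [← h', h, a])
        · exact Or.inl (by rw [← h', h, b])
  constructor
  · intro a b h
    exact Subtype.ext ((P.T f).injective h)
  · intro L
    show (∃ t : P.TokOf f, P.T f t = L) ↔ ¬ P.On (P.tau f) L
    rw [hon]
    constructor
    · rintro ⟨t, ht⟩ ⟨M, hM, hM'⟩
      have h1 := (P.T f).injective (ht.trans hM'.symm)
      exact t.2 (by rw [h1]; exact hM)
    · intro h
      refine ⟨⟨(P.T f).symm L, fun h1 => h ⟨_, h1, Equiv.apply_symm_apply _ _⟩⟩, Equiv.apply_symm_apply _ _⟩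

theorem good_go {Tok : Type} (l : List (R × S)) : ∀ {s : St S R Tok}, P.Good s → P.Ok s l → P.Good (P.go s l) := by
  induction l with
  | nil => intro s h _; exact h
  | cons p l ih => intro s h hl; exact ih (good_step hl.1 h) hl.2

theorem good_reach {f : R} {s : St S R (P.TokOf f)} (h : P.WReach (P.st₁ f) s) : P.Good s := by
  obtain ⟨l, h1, rfl⟩ := h
  exact good_go l (good_st₁ f) h1

/-- The end `stb` can be reached. -/
theorem reach_stb {f g : R} {l₀ : S} (hsym : ∀ s s' : St S R (P.TokOf f), P.WReach s s' → P.WReach s' s)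
    (ha : P.Adj g f l₀) : P.WReach (P.st₁ f) (P.stb f g l₀) := by
  refine hsym _ _ ?_
  rw [← P.stb_step ha]
  exact WReach.step ha

/-- One step back and another cap: if the step to `r` over `v` is possible at `s`, and `r₂`, `r` share `v₂` only, then
the state with cap `r₂` from which the step to `r` over `v₂` gives the same state can be reached. -/
theorem reach_pre {Tok : Type} {s₀ s : St S R Tok}
    (hsym : ∀ s s' : St S R Tok, P.WReach s s' → P.WReach s' s) (hs : P.WReach s₀ s) {r r₂ : R} {v v₂ : S}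
    (h : P.Adj s.1 r v) (h₂ : P.Adj r₂ r v₂) :
    P.WReach s₀ (r₂, fun t => P.J r₂ r v₂ (P.J s.1 r v (s.2 t))) := by
  refine (hs.trans (WReach.step h)).trans (hsym _ _ ?_)
  have h1 : P.step r v₂ (r₂, fun t => P.J r₂ r v₂ (P.J s.1 r v (s.2 t))) = P.step r v s := by
    refine Prod.ext rfl (funext fun t => ?_)
    show P.T r (P.J r₂ r v₂ (P.J r₂ r v₂ (P.J s.1 r v (s.2 t)))) = P.T r (P.J s.1 r v (s.2 t))
    unfold J
    rw [Equiv.swap_apply_self]
  rw [← h1]
  exact WReach.step (s := (r₂, fun t => P.J r₂ r v₂ (P.J s.1 r v (s.2 t)))) h₂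

/-- The state before the gadget of `f` with another cap `r`. -/
theorem reach_home {f r : R} {v : S} (hsym : ∀ s s' : St S R (P.TokOf f), P.WReach s s' → P.WReach s' s)
    (h : P.Adj r f v) : P.WReach (P.st₁ f) (r, fun t : P.TokOf f => P.J r f v t) := by
  refine hsym _ _ ?_
  have h1 : P.step f v ((r, fun t : P.TokOf f => P.J r f v t) : St S R (P.TokOf f)) = P.st₁ f := by
    refine Prod.ext rfl (funext fun t => ?_)
    show P.T f (P.J r f v (P.J r f v t)) = P.T f t
    unfold J
    rw [Equiv.swap_apply_self]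
  rw [← h1]
  exact WReach.step (s := ((r, fun t : P.TokOf f => P.J r f v t) : St S R (P.TokOf f))) h

/-- The gadget of the cup moves nothing: the state after it. -/
theorem reach_one {Tok : Type} {s₀ s : St S R Tok} (hs : P.WReach s₀ s) {r : R} {v : S} (h : P.Adj s.1 r v)
    (hT : P.T r = 1) : P.WReach s₀ (P.tau r, fun t => P.J s.1 r v (s.2 t)) := by
  have h1 : P.step r v s = (P.tau r, fun t => P.J s.1 r v (s.2 t)) := by
    refine Prod.ext rfl (funext fun t => ?_)
    show P.T r (P.J s.1 r v (s.2 t)) = P.J s.1 r v (s.2 t)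
    rw [hT]; rfl
  rw [← h1]
  exact hs.trans (WReach.step h)

/-- The gadget of `f` moves nothing: all tokens at home. -/
theorem st₁_one {f : R} (hT : P.T f = 1) : P.st₁ f = (P.tau f, fun t : P.TokOf f => (t : S)) := by
  refine Prod.ext rfl (funext fun t => ?_)
  show P.T f t = t
  rw [hT]; rfl

end Key

open Key

/-- KEY A. -/
theorem keyA : KeyAS := by
  intro S R F _ _ _ P V θ d f g l₀ s t v e hsym hgf hs he hT hT' hθ ht hd hV
  obtain ⟨k1, k2⟩ := tau_on P hT he.2.1
  have hadj' : P.Adj s.1 (P.tau e) v := ⟨he.1, k1, by rw [k2]; exact he.2.2⟩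
  have hgood := good_reach hs
  obtain ⟨a1, a2, a3⟩ := two P V θ (fun t : P.TokOf f => d t) s.2 he hT
  obtain ⟨b1, b2, b3⟩ := two P V θ (fun t : P.TokOf f => d t) s.2 hadj' hT'
  have hss : (s.1, s.2) = s := rfl
  rw [hss] at a1 a2 a3 b1 b2 b3
  obtain ⟨w₀, c1, c2⟩ := hs
  have hend : P.WReach (P.go s [(e, v), (s.1, v)]) (P.stb f g l₀) := by
    refine (hsym _ _ (WReach.trans ⟨w₀, c1, c2⟩ ⟨_, a1, rfl⟩)).trans (reach_stb hsym hgf)
  obtain ⟨w₁, c3, c4⟩ := hend
  rw [a2] at c3 c4
  refine ⟨w₀ ++ ([(e, v), (s.1, v)] ++ w₁), w₀ ++ ([(P.tau e, v), (s.1, v)] ++ w₁), ?_, ?_, ?_, ?_, ?_⟩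
  · rw [ok_append, c2, ok_append, a2]
    exact ⟨c1, a1, c3⟩
  · rw [go_append, c2, go_append, a2, c4]
  · rw [ok_append, c2, ok_append, b2]
    exact ⟨c1, b1, c3⟩
  · rw [go_append, c2, go_append, b2, c4]
  · rw [show P.wcost V θ (fun t : P.TokOf f => d t) (P.st₁ f) (w₀ ++ ([(e, v), (s.1, v)] ++ w₁)) = _ from by
      rw [wcost_append, c2, wcost_append, a2, a3]]
    rw [show P.wcost V θ (fun t : P.TokOf f => d t) (P.st₁ f) (w₀ ++ ([(P.tau e, v), (s.1, v)] ++ w₁)) = _ from by
      rw [wcost_append, c2, wcost_append, b2, b3]]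
    intro h
    have h' := add_right_cancel (add_left_cancel h)
    rw [← sub_eq_zero, ← Finset.sum_sub_distrib] at h'
    have hng : ∀ t, ¬ P.On s.1 (s.2 t) := fun t => (hgood.2 _).1 ⟨t, rfl⟩
    have hθ' : ∀ t : P.TokOf f, θ e (Equiv.swap (P.oth e v) (P.oth s.1 v) (s.2 t)) =
        θ (P.tau e) (Equiv.swap (P.oth e v) (P.oth s.1 v) (s.2 t)) := by
      intro t
      apply hθ
      rw [on_iff P he.2.1]
      by_cases h1 : s.2 t = P.oth e v
      · rw [h1, Equiv.swap_apply_left]
        rintro (h2 | h2)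
        · exact FC1.oth_ne P he.1 h2
        · exact he.2.2 h2
      · rw [Equiv.swap_apply_of_ne_of_ne h1 (fun h2 => hng t ((on_iff P he.1 _).2 (Or.inr h2)))]
        rintro (h2 | h2)
        · exact hng t ((on_iff P he.1 _).2 (Or.inl h2))
        · exact h1 h2
    rw [Finset.sum_eq_single t] at h'
    · rw [k2, if_pos ht, if_pos ht, hθ'] at h'
      have h2 : d t * ((P.volr V e v - P.volr V (P.tau e) v) -
          (P.volr V (P.tau e) v - P.volr V (P.tau (P.tau e)) v)) = 0 := by
        linear_combination -h'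
      rcases mul_eq_zero.1 h2 with h3 | h3
      · exact hd h3
      · exact hV (sub_eq_zero.1 h3)
    · intro t' _ ht'
      have h1 : ¬ s.2 t' = P.oth e v := fun h1 => ht' (hgood.1 (h1.trans ht.symm))
      rw [k2, if_neg h1, if_neg h1, hθ']
      ring
    · intro h1; exact absurd (Finset.mem_univ _) h1

/-- KEY B. -/
theorem keyB : KeyBS := by
  intro S R F _ _ _ P χ d f s t t' v r r' hno hs hr hχ ht
  have hgood := good_reach hs
  have hw : ∀ (t : P.TokOf f) (L : S), s.2 t = L → Wt (fun t : P.TokOf f => d t) s L = d t := by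
    intro t L h
    unfold Wt
    rw [Finset.sum_eq_single t]
    · rw [if_pos h]
    · intro t' _ ht'
      rw [if_neg (fun h1 => ht' (hgood.1 (h1.trans h.symm)))]
    · intro h1; exact absurd (Finset.mem_univ _) h1
  have hg : ∀ (r' : R) (v' : S), P.Adj s.1 r' v' →
      (∑ L, Wt (fun t : P.TokOf f => d t) s L * χ L) +
        Wt (fun t : P.TokOf f => d t) s (P.oth r' v') * (χ (P.oth s.1 v') - χ v') = ∑ s, d s * χ s := by
    intro r' v' h
    rw [← gam_wt]
    by_contra hc
    exact hno ⟨s, r', v', hs, h, hc⟩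
  have h1 := hg r v hr
  rw [hw t _ ht] at h1
  constructor
  · intro hr' ht'
    have h2 := hg r' v hr'
    rw [hw t' _ ht'] at h2
    have h3 : (d t' - d t) * (χ (P.oth s.1 v) - χ v) = 0 := by linear_combination h2 - h1
    rcases mul_eq_zero.1 h3 with h4 | h4
    · exact sub_eq_zero.1 h4
    · exact absurd (sub_eq_zero.1 h4).symm hχ
  · intro hr' ht'
    have h2 := hg r' _ hr'
    rw [hw t' _ ht', (FC2.oth_oth P hr.1).2] at h2
    have h3 : (d t' + d t) * (χ (P.oth s.1 v) - χ v) = 0 := by linear_combination h1 - h2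
    rcases mul_eq_zero.1 h3 with h4 | h4
    · linear_combination h4
    · exact absurd (sub_eq_zero.1 h4).symm hχ

end Pool.Agent.Lib.MP_688fd0_co.SQ3.V
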