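import Pool.Agent.Lib.MP_688fd0_co.SQ3.V.Sym
import Pool.Agent.Lib.MP_688fd0_co.SQ2.Iface

/-!
Base gadgets of a label on one frontier, in the language of `Up`.
-/

set_option autoImplicit false

namespace Pool.Agent.Lib.MP_688fd0_co.SQ3

open Pool.Agent.Lib.MP_688fd0_co.OSF Pool.Agent.Lib.MP_688fd0_co.SQ2

universe v

/-- A base gadget of the label `b`: its rung is the edge from `U ^ p x` to `U ^ p' y`; it moves only strands of the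
component of `Γ`. -/
structure GOK {Q : Type} [Group Q] [DecidableEq Q] {B : Lb.{0, v} Q} {U : Up B} {P D : Subgroup Q} {z : Q}
    {F : Finset Q} {e : ℕ} (h : FrD U P D z F e) (G : BGad h.toFrt) (b : B.L) (p p' : ℕ)
    (Γ : Subgroup (Sy h.toFrt)) : Prop where
  edge : (U.U ^ p) (G.x : Q) * B.q b = (U.U ^ p') (G.y : Q)
  del : G.δ ∈ Γ
  out : ∀ s : F, (∀ g ∈ Γ, g • G.x ≠ s ∧ g • G.y ≠ s) → G.T s = s
  cup : ∀ (R : Type) [CommRing R] (V : Vd B R), (∀ x, V.n (U.up x) = 0) →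
    V.vol G.x G.X.cup = V.chi ((U.U ^ p) (G.x : Q)) * V.n b
  cap : ∀ (R : Type) [CommRing R] (V : Vd B R), (∀ x, V.n (U.up x) = 0) → V.chi z ^ e = 1 →
    V.vol G.X.w₀ G.X.cap = Xc V G.δ * V.vol G.x G.X.cup
  path : ∀ (R : Type) [CommRing R] (V : Vd B R), (∀ x, V.n (U.up x) = 0) → ∀ s : F,
    (∀ g ∈ Γ, g • G.x ≠ s ∧ g • G.y ≠ s) → V.vol s (G.X.path s) = 0

/-- A gadget of a label which commutes with `U`: all tokens go straight up. -/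
structure COK {Q : Type} [Group Q] [DecidableEq Q] {B : Lb.{0, v} Q} {U : Up B} {P D : Subgroup Q} {z : Q}
    {F : Finset Q} {e : ℕ} (h : FrD U P D z F e) (G : BGad h.toFrt) (b : B.L) (p p' : ℕ) : Prop where
  com : ∀ x, U.U (x * B.q b) = U.U x * B.q b
  edge : (U.U ^ p) (G.x : Q) * B.q b = (U.U ^ p') (G.y : Q)
  T : G.T = 1
  del : G.δ = h.cj G.x
  cup : ∀ (R : Type) [CommRing R] (V : Vd B R), (∀ x, V.n (U.up x) = 0) →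
    V.vol G.x G.X.cup = V.chi ((U.U ^ p) (G.x : Q)) * V.n b
  cap : ∀ (R : Type) [CommRing R] (V : Vd B R), (∀ x, V.n (U.up x) = 0) → V.chi z ^ e = 1 →
    V.vol G.X.w₀ G.X.cap = Xc V G.δ * V.vol G.x G.X.cup
  path : ∀ (R : Type) [CommRing R] (V : Vd B R), (∀ x, V.n (U.up x) = 0) → ∀ s : F, s ≠ G.x → s ≠ G.y →
    V.vol s (G.X.path s) = 0

/-- GADN2: two sheets. `o` is the offset of the far sheet. -/
def GadN2S : Prop :=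
  ∀ (Q : Type) [Group Q] [DecidableEq Q] (B : Lb.{0, v} Q) (U : Up B) (P D : Subgroup Q) (z : Q) (F : Finset Q)
    (e : ℕ) (h : FrD U P D z F e) (c W : ℕ),
    (∀ s ∈ F, ∀ t : ℤ, |t| ≤ W → (U.U ^ t) s ∈ F → t = 0) → c ≤ W → ∀ (b : B.L) (s₀ : F) (o : ℤ), |o| ≤ c →
    (U.U ^ (-o)) ((s₀ : Q) * B.q b) ∈ F → (s₀ : Q)⁻¹ * (U.U ^ (-o)) ((s₀ : Q) * B.q b) ∉ D →
    ∃ (G : BGad h.toFrt) (p p' : ℕ), G.x = s₀ ∧ G.H ≤ hgt F.card c ∧ (p' : ℤ) - p = o ∧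
      (∀ k : Sy h.toFrt, k • G.x ≠ G.y) ∧
      GOK h G b p p' (Subgroup.closure {h.cj (G.x : Q), h.cj (G.y : Q)})

/-- GADN1: one sheet. -/
def GadN1S : Prop :=
  ∀ (Q : Type) [Group Q] [DecidableEq Q] (B : Lb.{0, v} Q) (U : Up B) (P D : Subgroup Q) (z : Q) (F : Finset Q)
    (e : ℕ) (h : FrD U P D z F e) (c : ℕ) (b : B.L) (j : ℤ), |j| ≤ 1 → ∀ s₀ : F,
    (s₀ : Q)⁻¹ * (U.U ^ (-j)) ((s₀ : Q) * B.q b) ∈ D → (U.U ^ (-j)) ((s₀ : Q) * B.q b) ≠ s₀ →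
    ∃ (G : BGad h.toFrt) (p p' : ℕ) (η : Sy h.toFrt), G.x = s₀ ∧ G.H ≤ hgt F.card c ∧ (p' : ℤ) - p = j ∧
      η • G.x = G.y ∧ lv η = (p' : ZMod e) - p ∧ GOK h G b p p' (Subgroup.closure {h.cj (G.x : Q), η})

/-- CGAD: a label which commutes with `U`. -/
def CGadS : Prop :=
  ∀ (Q : Type) [Group Q] [DecidableEq Q] (B : Lb.{0, v} Q) (U : Up B) (P D : Subgroup Q) (z : Q) (F : Finset Q)
    (e : ℕ) (h : FrD U P D z F e) (b : B.L), (∀ x, U.U (x * B.q b) = U.U x * B.q b) →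
    ∀ (s₀ s₁ : F) (j : ℤ), s₀ ≠ s₁ → (s₀ : Q) * B.q b = (U.U ^ j) (s₁ : Q) →
    ∃ (G : BGad h.toFrt) (p p' : ℕ), G.x = s₀ ∧ G.y = s₁ ∧ G.H ≤ j.natAbs + 1 ∧ (p' : ℤ) - p = j ∧ COK h G b p p'

end Pool.Agent.Lib.MP_688fd0_co.SQ3
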