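import Pool.Agent.Lib.MP_688fd0_co.SQ3.V.SyL
import Pool.Agent.Lib.MP_688fd0_co.SQ2.V.Coset2
import Pool.Agent.Lib.MP_688fd0_co.SQ2.V.FlipDefs

/-!
The component of a base gadget with two sheets in the big puzzle, in the language of `Up`.
-/

set_option autoImplicit false

namespace Pool.Agent.Lib.MP_688fd0_co.SQ3

open Pool.Agent.Lib.MP_688fd0_co.OSF Pool.Agent.Lib.MP_688fd0_co.SQ2
open SQ2.V (Puz)
open SQ2.V.Puz

universe v

section comp2

variable {Q : Type} [Group Q] [DecidableEq Q] {B : Lb.{0, v} Q} {U : Up B} {P D : Subgroup Q} {z : Q}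
    {F : Finset Q} {e : ℕ} (h : FrD U P D z F e) {ι : Type} (G : ι → BGad h.toFrt) (i : ι)

/-- The group of the component. -/
abbrev Gc2 (x y : F) : Subgroup (Sy h.toFrt) := Subgroup.closure {h.cj (x : Q), h.cj (y : Q)}

theorem cx_mem (x y : F) : h.cj (x : Q) ∈ Gc2 h x y := Subgroup.subset_closure (by simp)
theorem cy_mem (x y : F) : h.cj (y : Q) ∈ Gc2 h x y := Subgroup.subset_closure (by simp)

/-- The generators. -/
noncomputable def gx (x y : F) : Gc2 h x y := ⟨_, cx_mem h x y⟩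
noncomputable def gy (x y : F) : Gc2 h x y := ⟨_, cy_mem h x y⟩

/-- The strands of the component. -/
noncomputable def iS2 (x y : F) : SQ2.V.S2 (gx h x y) (gy h x y) → F :=
  Sum.elim
    (fun q => Quotient.liftOn' q (fun g : Gc2 h x y => (g : Sy h.toFrt) • x) (by
      intro g g' hg
      have hg' := QuotientGroup.leftRel_apply.1 hg
      have h1 := (h.stab_sub (Gc2 h x y) x (cx_mem h x y) (g⁻¹ * g')).2 hg'
      have h2 : ((g : Sy h.toFrt)⁻¹ * (g' : Sy h.toFrt)) • x = x := h1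
      rw [mul_smul, inv_smul_eq_iff] at h2
      exact h2.symm))
    (fun q => Quotient.liftOn' q (fun g : Gc2 h x y => (g : Sy h.toFrt) • y) (by
      intro g g' hg
      have hg' := QuotientGroup.leftRel_apply.1 hg
      have h1 := (h.stab_sub (Gc2 h x y) y (cy_mem h x y) (g⁻¹ * g')).2 hg'
      have h2 : ((g : Sy h.toFrt)⁻¹ * (g' : Sy h.toFrt)) • y = y := h1
      rw [mul_smul, inv_smul_eq_iff] at h2
      exact h2.symm))

theorem iS2_inl (x y : F) (g : Gc2 h x y) : iS2 h x y (Sum.inl (g : Gc2 h x y ⧸ _)) = (g : Sy h.toFrt) • x := rfl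
theorem iS2_inr (x y : F) (g : Gc2 h x y) : iS2 h x y (Sum.inr (g : Gc2 h x y ⧸ _)) = (g : Sy h.toFrt) • y := rfl

theorem iS2_inj (x y : F) (hxy : ∀ k : Sy h.toFrt, k • x ≠ y) : Function.Injective (iS2 h x y) := by
  rintro (q | q) (q' | q') hq
  · obtain ⟨g, rfl⟩ := QuotientGroup.mk_surjective q
    obtain ⟨g', rfl⟩ := QuotientGroup.mk_surjective q'
    rw [iS2_inl, iS2_inl] at hq
    congr 1
    refine QuotientGroup.eq.2 ((h.stab_sub (Gc2 h x y) x (cx_mem h x y) (g⁻¹ * g')).1 ?_)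
    show ((g : Sy h.toFrt)⁻¹ * (g' : Sy h.toFrt)) • x = x
    rw [mul_smul, ← hq, inv_smul_smul]
  · obtain ⟨g, rfl⟩ := QuotientGroup.mk_surjective q
    obtain ⟨g', rfl⟩ := QuotientGroup.mk_surjective q'
    rw [iS2_inl, iS2_inr] at hq
    exfalso
    apply hxy ((g' : Sy h.toFrt)⁻¹ * (g : Sy h.toFrt))
    rw [mul_smul, hq, inv_smul_smul]
  · obtain ⟨g, rfl⟩ := QuotientGroup.mk_surjective q
    obtain ⟨g', rfl⟩ := QuotientGroup.mk_surjective q'
    rw [iS2_inl, iS2_inr] at hq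
    exfalso
    apply hxy ((g : Sy h.toFrt)⁻¹ * (g' : Sy h.toFrt))
    rw [mul_smul, ← hq, inv_smul_smul]
  · obtain ⟨g, rfl⟩ := QuotientGroup.mk_surjective q
    obtain ⟨g', rfl⟩ := QuotientGroup.mk_surjective q'
    rw [iS2_inr, iS2_inr] at hq
    congr 1
    refine QuotientGroup.eq.2 ((h.stab_sub (Gc2 h x y) y (cy_mem h x y) (g⁻¹ * g')).1 ?_)
    show ((g : Sy h.toFrt)⁻¹ * (g' : Sy h.toFrt)) • y = y
    rw [mul_smul, ← hq, inv_smul_smul]

theorem iS2_range (x y : F) (s : F) :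
    s ∈ Set.range (iS2 h x y) ↔ ∃ k ∈ Gc2 h x y, k • x = s ∨ k • y = s := by
  constructor
  · rintro ⟨q | q, rfl⟩
    · obtain ⟨g, rfl⟩ := QuotientGroup.mk_surjective q
      exact ⟨g, g.2, Or.inl rfl⟩
    · obtain ⟨g, rfl⟩ := QuotientGroup.mk_surjective q
      exact ⟨g, g.2, Or.inr rfl⟩
  · rintro ⟨k, hk, rfl | rfl⟩
    · exact ⟨Sum.inl ((⟨k, hk⟩ : Gc2 h x y) : Gc2 h x y ⧸ _), rfl⟩
    · exact ⟨Sum.inr ((⟨k, hk⟩ : Gc2 h x y) : Gc2 h x y ⧸ _), rfl⟩

/-- COMP, two sheets. -/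
theorem comp2 (b : B.L) (p₀ p₁ : ℕ) (gok : GOK h (G i) b p₀ p₁ (Gc2 h (G i).x (G i).y))
    (hxy : ∀ k : Sy h.toFrt, k • (G i).x ≠ (G i).y) :
    ∃ (tau : Equiv.Perm (Gc2 h (G i).x (G i).y))
      (T : Gc2 h (G i).x (G i).y → Equiv.Perm (SQ2.V.S2 (gx h (G i).x (G i).y) (gy h (G i).x (G i).y))) (hT : _)
      (E : SQ2.V.Sub (bigP G) (SQ2.V.puz2 (gx h (G i).x (G i).y) (gy h (G i).x (G i).y) tau T hT)),
      (∀ g, E.iR g = ⟨i, g⟩) ∧ E.iS = iS2 h (G i).x (G i).y := by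
  classical
  set x := (G i).x with hx
  set y := (G i).y with hy
  have hinj := iS2_inj h x y hxy
  have hfix : ∀ (r : Gc2 h x y) (s : F), s ∉ Set.range (iS2 h x y) → (bigP G).T ⟨i, r⟩ s = s := by
    intro r s hs
    show (r : Sy h.toFrt) • (G i).T ((r : Sy h.toFrt)⁻¹ • s) = s
    rw [gok.out, smul_inv_smul]
    intro g hg
    constructor
    · intro h0
      apply hs
      rw [iS2_range]
      exact ⟨r * g, (Gc2 h x y).mul_mem r.2 hg, Or.inl (by rw [mul_smul, h0, smul_inv_smul])⟩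
    · intro h0
      apply hs
      rw [iS2_range]
      exact ⟨r * g, (Gc2 h x y).mul_mem r.2 hg, Or.inr (by rw [mul_smul, h0, smul_inv_smul])⟩
  have hpres : ∀ (r : Gc2 h x y) (s : F), (bigP G).T ⟨i, r⟩ s ∈ Set.range (iS2 h x y) ↔ s ∈ Set.range (iS2 h x y) := by
    intro r s
    constructor
    · intro h1
      by_contra h2
      rw [hfix r s h2] at h1
      exact h2 h1
    · intro h1
      by_contra h2
      have h3 := hfix r _ h2
      have h4 := ((bigP G).T ⟨i, r⟩).injective h3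
      rw [h4] at h2
      exact h2 h1
  let ev := Equiv.ofInjective (iS2 h x y) hinj
  let T : Gc2 h x y → Equiv.Perm (SQ2.V.S2 (gx h x y) (gy h x y)) := fun r =>
    (ev.trans (((bigP G).T ⟨i, r⟩).subtypePerm (hpres r))).trans ev.symm
  have hTs : ∀ (r : Gc2 h x y) s, iS2 h x y (T r s) = (bigP G).T ⟨i, r⟩ (iS2 h x y s) := by
    intro r s
    have h1 : ev (T r s) = ((bigP G).T ⟨i, r⟩).subtypePerm (hpres r) (ev s) := by
      show ev (ev.symm _) = _
      rw [Equiv.apply_symm_apply]; rfl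
    exact congrArg Subtype.val h1
  let tau : Equiv.Perm (Gc2 h x y) := Equiv.mulRight ⟨(G i).δ, gok.del⟩
  have hT : ∀ r : Gc2 h x y, (T r (Sum.inl (r : Gc2 h x y ⧸ _)) = Sum.inl (tau r : Gc2 h x y ⧸ _) ∧
      T r (Sum.inr (r : Gc2 h x y ⧸ _)) = Sum.inr (tau r : Gc2 h x y ⧸ _)) ∨
      (T r (Sum.inl (r : Gc2 h x y ⧸ _)) = Sum.inr (tau r : Gc2 h x y ⧸ _) ∧
        T r (Sum.inr (r : Gc2 h x y ⧸ _)) = Sum.inl (tau r : Gc2 h x y ⧸ _)) := by
    intro r
    left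
    constructor
    · apply hinj
      rw [hTs, iS2_inl, iS2_inl]
      show (r : Sy h.toFrt) • (G i).T ((r : Sy h.toFrt)⁻¹ • (r : Sy h.toFrt) • x) =
        ((r : Sy h.toFrt) * (G i).δ) • x
      rw [inv_smul_smul, mul_smul]
      exact congrArg (fun s : F => (r : Sy h.toFrt) • s) (G i).Tx
    · apply hinj
      rw [hTs, iS2_inr, iS2_inr]
      show (r : Sy h.toFrt) • (G i).T ((r : Sy h.toFrt)⁻¹ • (r : Sy h.toFrt) • y) =
        ((r : Sy h.toFrt) * (G i).δ) • y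
      rw [inv_smul_smul, mul_smul]
      exact congrArg (fun s : F => (r : Sy h.toFrt) • s) (G i).Ty
  refine ⟨tau, T, hT, ⟨iS2 h x y, fun g => ⟨i, g⟩, hinj, fun r => rfl, fun r => rfl, fun r => rfl,
    fun r s => (hTs r s).symm, fun r s hs => hfix r s hs⟩, fun g => rfl, rfl⟩

end comp2

end Pool.Agent.Lib.MP_688fd0_co.SQ3
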