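import Pool.Agent.Lib.MP_688fd0_co.SQ2.V.AvoidOf
import Pool.Agent.Lib.MP_688fd0_co.SQ3.V.MP

/-!
Chapter V, stage E: edge transitivity, two neighbours and connectedness give `NoCut`.
-/

set_option autoImplicit false
set_option linter.unusedSectionVars false

namespace Pool.Agent.Lib.MP_688fd0_co.SQ2.V

open Puz

namespace AvoidOf

variable {S R : Type} [DecidableEq S] {P : Puz S R}

/-- Strands with rungs are connected. -/
theorem conn_strands' (hc : P.ConnS) {r r' : R} {s t : S} (hs : P.On r s) (ht : P.On r' t) :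
    Relation.ReflTransGen (N P) s t := by
  have hloc : ∀ {r : R} {s t : S}, P.On r s → P.On r t → Relation.ReflTransGen (N P) s t := by
    intro r s t h1 h2
    rcases (on_iff_oth h1).1 h2 with rfl | rfl
    · exact Relation.ReflTransGen.refl
    · exact Relation.ReflTransGen.single (N_of_on h1)
  have key : ∀ {r r' : R}, Relation.ReflTransGen (fun a b => ∃ v, P.On a v ∧ P.On b v) r r' →
      ∀ {s t : S}, P.On r s → P.On r' t → Relation.ReflTransGen (N P) s t := by
    intro r r' h
    induction h with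
    | refl => intro s t h1 h2; exact hloc h1 h2
    | tail _ hbc ih =>
      intro s t h1 h2
      obtain ⟨v, hv⟩ := hbc
      exact (ih h1 hv.1).trans (hloc hv.2 h2)
  exact key (hc r r') hs ht

/-- At least one neighbour besides `L`. -/
theorem exists_nb' (h3 : P.TwoN) {s t L : S} (h : N P s t) : ∃ u, N P s u ∧ u ≠ L := by
  obtain ⟨r, h1, h2⟩ := rung_of_N h
  obtain ⟨r', a1⟩ := h3 r s h1
  by_cases e : P.oth r s = L
  · exact ⟨P.oth r' s, N_of_on a1.2.1, fun h => a1.2.2 (e.trans h.symm)⟩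
  · exact ⟨P.oth r s, N_of_on h1, e⟩

variable {Γ : Type} [Group Γ] [MulAction Γ S] [MulAction Γ R]

open Classical in
/-- No strand is a cut vertex. -/
theorem no_cut' [Fintype S] (hxy : ∀ (g : Γ) (r : R), (P.x (g • r) = g • P.x r ∧ P.y (g • r) = g • P.y r) ∨
      (P.x (g • r) = g • P.y r ∧ P.y (g • r) = g • P.x r)) (htr : ∀ r r' : R, ∃ g : Γ, g • r = r')
    (h3 : P.TwoN) (hc : P.ConnS) : ∀ (n : ℕ) (L s : S), (Finset.univ.filter fun u => C P L s u).card = n →
      s ≠ L → (∃ m, N P L m) → (∃ m, N P s m) → ∀ t, t ≠ L → (∃ m, N P t m) → C P L s t := by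
  intro n
  induction n using Nat.strong_induction_on with
  | _ n ih =>
    intro L s hn hsL hL hs t htL ht
    by_contra hst
    obtain ⟨m, hm⟩ := hs
    obtain ⟨s', hs', hs'L⟩ := exists_nb' h3 (L := L) hm
    obtain ⟨mL, hmL⟩ := hL
    obtain ⟨g, hg⟩ := move hxy htr hmL hs'
    obtain ⟨mt, hmt⟩ := ht
    -- the new cut vertex
    have hL'C : C P L s (g • L) := by
      rcases hg with h | h
      · rw [h]; exact Relation.ReflTransGen.refl
      · rw [h]; exact Relation.ReflTransGen.single ⟨hs', hsL, hs'L⟩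
    have hL'L : g • L ≠ L := by
      rcases hg with h | h
      · rw [h]; exact hsL
      · rw [h]; exact hs'L
    have hdis : ¬ C P (g • L) (g • s) (g • t) := fun h => hst ((C_smul_iff hxy g).1 h)
    have hd : ∃ d, d ≠ g • L ∧ (∃ m, N P d m) ∧ ¬ C P (g • L) d L := by
      by_cases h1 : C P (g • L) (g • s) L
      · refine ⟨g • t, fun e => htL (smul_left_cancel g e), ⟨_, N_smul hxy g hmt⟩, fun h2 => hdis (h1.trans h2.symm)⟩
      · exact ⟨g • s, fun e => hsL (smul_left_cancel g e), ⟨_, N_smul hxy g hm⟩, h1⟩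
    obtain ⟨d, hd1, ⟨md, hmd⟩, hd3⟩ := hd
    -- the smaller component
    have hsub : ∀ u, C P (g • L) d u → u ≠ L ∧ C P L d u := by
      intro u hu
      have hdL : d ≠ L := fun e => hd3 (e ▸ Relation.ReflTransGen.refl)
      induction hu with
      | refl => exact ⟨hdL, Relation.ReflTransGen.refl⟩
      | @tail b c hb hbc ihb =>
        have hcL : c ≠ L := fun e => hd3 (Eq.mp (congrArg (fun z => C P (g • L) d z) e)
          (Relation.ReflTransGen.tail hb hbc))
        exact ⟨hcL, ihb.2.tail ⟨hbc.1, ihb.1, hcL⟩⟩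
    have hconn : Relation.ReflTransGen (N P) d (g • L) := by
      obtain ⟨r1, hr1, _⟩ := rung_of_N hmd
      obtain ⟨r2, hr2, _⟩ := rung_of_N (N_smul hxy g hmL)
      exact conn_strands' hc hr1 hr2
    have hLd : C P L s d := by
      rcases first_hit hd1 hconn with h | ⟨e, he1, he2, he3⟩
      · exact absurd rfl h.1
      · obtain ⟨e4, e5⟩ := hsub e he1
        have h6 : C P L e (g • L) := Relation.ReflTransGen.single ⟨he3, e4, hL'L⟩
        exact hL'C.trans (C.symm (e5.trans h6))
    have hlt : (Finset.univ.filter fun u => C P (g • L) d u).card < n := by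
      rw [← hn]
      apply Finset.card_lt_card
      rw [Finset.ssubset_iff_of_subset]
      · refine ⟨g • L, by simpa using hL'C, ?_⟩
        simp only [Finset.mem_filter, Finset.mem_univ, true_and]
        intro h
        have h7 : ∀ u, C P (g • L) d u → u ≠ g • L := by
          intro u hu
          induction hu with
          | refl => exact hd1
          | tail _ hbc _ => exact hbc.2.2
        exact h7 _ h rfl
      · intro u hu
        simp only [Finset.mem_filter, Finset.mem_univ, true_and] at hu ⊢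
        exact hLd.trans (hsub u hu).2
    exact hd3 (ih _ hlt (g • L) d rfl hd1 ⟨_, N_smul hxy g hmL⟩ ⟨md, hmd⟩ L hL'L.symm ⟨mL, hmL⟩)

end AvoidOf

open AvoidOf in
/-- Edge transitivity, at least two neighbours and connectedness give `NoCut`. -/
theorem noCut_of_trans {S R : Type} [Finite S] [DecidableEq S] (P : Puz S R) {Γ : Type} [Group Γ] [MulAction Γ S]
    [MulAction Γ R]
    (hxy : ∀ (g : Γ) (r : R), (P.x (g • r) = g • P.x r ∧ P.y (g • r) = g • P.y r) ∨
      (P.x (g • r) = g • P.y r ∧ P.y (g • r) = g • P.x r))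
    (htr : ∀ r r' : R, ∃ g : Γ, g • r = r') (h3 : P.TwoN) (hc : P.ConnS) : P.NoCut := by
  haveI := Fintype.ofFinite S
  intro L
  -- connectedness of the complement of `L`
  have hC : ∀ s t, s ≠ L → t ≠ L → (∃ m, N P s m) → (∃ m, N P t m) → C P L s t := by
    intro s t hs ht ms mt
    by_cases hL : ∃ m, N P L m
    · exact no_cut' hxy htr h3 hc _ L s rfl hs hL ms t ht mt
    · obtain ⟨m1, h1⟩ := ms
      obtain ⟨m2, h2⟩ := mt
      obtain ⟨r1, hr1, _⟩ := rung_of_N h1
      obtain ⟨r2, hr2, _⟩ := rung_of_N h2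
      rcases first_hit hs (conn_strands' hc hr1 hr2) with h | ⟨e, _, _, he⟩
      · exact h.2
      · exact absurd ⟨e, he.symm⟩ hL
  have hav : ∀ {r : R} {v : S}, P.On r v → v ≠ L → P.oth r v ≠ L → ¬ P.On r L := by
    intro r v h1 h2 h4 h5
    rcases (on_iff_oth h1).1 h5 with h | h
    · exact h2 h.symm
    · exact h4 h.symm
  have hav' : ∀ {r : R} {v : S}, P.On r v → ¬ P.On r L → v ≠ L ∧ P.oth r v ≠ L := by
    intro r v h1 h2
    refine ⟨fun h => h2 (h ▸ h1), fun h => h2 ((on_iff_oth h1).2 (Or.inr h.symm))⟩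
  have key : ∀ {a b : S}, C P L a b → ∀ {r r' : R}, ¬ P.On r L → ¬ P.On r' L → P.On r a → P.On r' b →
      Relation.ReflTransGen (fun a b => ¬ P.On a L ∧ ¬ P.On b L ∧ ∃ v, P.On a v ∧ P.On b v) r r' := by
    intro a b h
    induction h with
    | refl => intro r r' h1 h2 h4 h5; exact Relation.ReflTransGen.single ⟨h1, h2, _, h4, h5⟩
    | tail _ hbc ih =>
      intro r r' h1 h2 h4 h5
      obtain ⟨q, hq1, hq2⟩ := rung_of_N hbc.1
      have hq : ¬ P.On q L := hav hq1 hbc.2.1 (by rw [hq2]; exact hbc.2.2)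
      have hqc := (on_iff_oth hq1).2 (Or.inr hq2.symm)
      exact (ih h1 hq h4 hq1).trans (Relation.ReflTransGen.single ⟨hq, h2, _, hqc, h5⟩)
  intro r r' h1 h2
  exact key (hC (P.x r) (P.x r') (hav' (on_x r) h1).1 (hav' (on_x r') h2).1 ⟨_, N_of_on (on_x r)⟩
    ⟨_, N_of_on (on_x r')⟩) h1 h2 (on_x r) (on_x r')

end Pool.Agent.Lib.MP_688fd0_co.SQ2.V
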