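import Pool.Agent.Lib.MP_688fd0_co.SQ3.V.Loc
import Pool.Agent.Lib.MP_688fd0_co.SQ3.V.NoCut
import Pool.Agent.Lib.MP_688fd0_co.SQ2.V.Coset1
import Pool.Agent.Lib.MP_688fd0_co.SQ2.V.Coset2

/-!
Chapter V, stage E: the coset puzzles (one and two sheets) for all parities.
-/

set_option autoImplicit false

namespace Pool.Agent.Lib.MP_688fd0_co.SQ3

open Pool.Agent.Lib.MP_688fd0_co.SQ2.V
open Puz
open Subgroup (zpowers closure mem_zpowers)

/-- Steps by the elements of a generating set connect the rungs. -/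
theorem connS_of_step {S G : Type} [DecidableEq S] [Group G] (P : Puz S G) (X : Set G) (hX : closure X = ⊤)
    (h : ∀ g ∈ X, ∀ r : G, ∃ v, P.On r v ∧ P.On (r * g) v) : P.ConnS := by
  intro r r'
  have key : ∀ g ∈ closure X, ∀ r : G, Relation.ReflTransGen (fun s t => ∃ v, P.On s v ∧ P.On t v) r (r * g) := by
    intro g hg
    induction hg using Subgroup.closure_induction with
    | mem g hg => intro r; exact Relation.ReflTransGen.single (h g hg r)
    | one => intro r; simpa using Relation.ReflTransGen.refl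
    | mul g h _ _ ig ih => intro r; have := (ig r).trans (ih (r * g)); simpa [mul_assoc] using this
    | inv g _ ig =>
      intro r
      have h2 : Relation.ReflTransGen (fun s t => ∃ v, P.On s v ∧ P.On t v) (r * g⁻¹) r := by
        simpa using ig (r * g⁻¹)
      have hs : Std.Symm (fun s t => ∃ v, P.On s v ∧ P.On t v) := ⟨fun s t ⟨v, h1, h2⟩ => ⟨v, h2, h1⟩⟩
      exact (@Relation.ReflTransGen.stdSymm _ _ hs).symm _ _ h2
  have h := key (r⁻¹ * r') (by rw [hX]; exact Subgroup.mem_top _) r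
  simpa using h

theorem coset2 : Coset2S := by
  intro G _ _ a c tau T hT ha hord hG
  have hc : c ∉ zpowers a := by
    intro h
    apply ha
    have h1 : zpowers c ≤ zpowers a := Subgroup.zpowers_le.2 h
    have h2 : zpowers c = zpowers a := by
      refine Subgroup.eq_of_le_of_card_ge h1 ?_
      rw [Nat.card_zpowers, Nat.card_zpowers, hord]
    rw [h2]
    exact mem_zpowers a
  have e1 : ∀ r g : G, r⁻¹ * (r * g) = g := fun r g => by group
  have hT2 : (SQ2.V.puz2 a c tau T hT).TwoN := by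
    intro r v hv
    rcases v with q | q
    · refine ⟨r * a, adj_inl.2 ⟨on_inl.1 hv, ?_, ?_⟩⟩
      · rw [e1]; exact mem_zpowers a
      · rw [e1]; exact ha
    · refine ⟨r * c, adj_inr.2 ⟨on_inr.1 hv, ?_, ?_⟩⟩
      · rw [e1]; exact mem_zpowers c
      · rw [e1]; exact hc
  have hC : (SQ2.V.puz2 a c tau T hT).ConnS := by
    refine connS_of_step _ _ hG ?_
    intro g hg r
    rcases hg with rfl | hg
    · refine ⟨Sum.inl (r : G ⧸ zpowers g), on_inl.2 rfl, on_inl.2 (QuotientGroup.eq.2 ?_)⟩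
      rw [e1]; exact mem_zpowers g
    · have hg' : g = c := hg
      subst hg'
      refine ⟨Sum.inr (r : G ⧸ zpowers g), on_inr.2 rfl, on_inr.2 (QuotientGroup.eq.2 ?_)⟩
      rw [e1]; exact mem_zpowers g
  refine ⟨full2, hT2, ?_, hC, fun L => deg2 hord L⟩
  refine noCut_of_trans (Γ := G) (SQ2.V.puz2 a c tau T hT) ?_ ?_ hT2 hC
  · intro g r
    exact Or.inl ⟨rfl, rfl⟩
  · intro r r'
    exact ⟨r' * r⁻¹, by simp⟩

theorem coset1 : Coset1S := by
  intro G _ _ a b hb tau T hT ha hG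
  have R : SQ2.V.Reg (SQ2.V.puz1 a b hb tau T hT) := reg1
  have hc : b * a * b⁻¹ ∉ zpowers a := fun h => ha (conj_iff.1 h)
  have hT2 : (SQ2.V.puz1 a b hb tau T hT).TwoN := by
    intro r v hv
    have hv' : (SQ2.V.puz1 a b hb tau T hT).On 1 (r⁻¹ • v) := by
      rw [← R.on r 1, smul_inv_smul, mul_one]; exact hv
    have key : ∀ w, (SQ2.V.puz1 a b hb tau T hT).On 1 w → ∃ s, (SQ2.V.puz1 a b hb tau T hT).Adj 1 s w := by
      rintro w (rfl | rfl)
      · exact ⟨a, adj_xx (mem_zpowers a) ha⟩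
      · have k1 : b⁻¹ * (b * a * b⁻¹) * b = a := by group
        exact ⟨b * a * b⁻¹, adj_yy hc (by rw [k1]; exact mem_zpowers a)⟩
    obtain ⟨s, h2⟩ := key _ hv'
    have k2 := (R.adj r 1 s _).2 h2
    rw [smul_inv_smul, mul_one] at k2
    exact ⟨r * s, k2⟩
  have hC : (SQ2.V.puz1 a b hb tau T hT).ConnS := by
    refine connS_of_step _ _ hG ?_
    intro g hg r
    rcases hg with rfl | hg
    · refine ⟨(r : G ⧸ zpowers g), Or.inl rfl, Or.inl ?_⟩
      refine QuotientGroup.eq.2 ?_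
      rw [inv_mul_cancel_left]; exact mem_zpowers g
    · have hg' : g = b := hg
      subst hg'
      exact ⟨((r * g : G) : G ⧸ zpowers a), Or.inr rfl, Or.inl rfl⟩
  refine ⟨full1, hT2, ?_, hC, fun L => deg1 L⟩
  refine noCut_of_trans (Γ := G) (SQ2.V.puz1 a b hb tau T hT) ?_ ?_ hT2 hC
  · intro g r
    exact Or.inl (R g r)
  · intro r r'
    exact ⟨r' * r⁻¹, by simp⟩

end Pool.Agent.Lib.MP_688fd0_co.SQ3
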