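import Pool.Agent.Lib.MP_688fd0_co.SQ3.V.NCore
import Pool.Agent.Lib.MP_688fd0_co.SQ3.V.Comp2B
import Pool.Agent.Lib.MP_688fd0_co.SQ3.V.Coset
import Pool.Agent.Lib.MP_688fd0_co.SQ3.H98.BG

/-!
NC2: a label that does not commute with `U`, two sheets.
-/

set_option autoImplicit false

namespace Pool.Agent.Lib.MP_688fd0_co.SQ3

open Pool.Agent.Lib.MP_688fd0_co.OSF Pool.Agent.Lib.MP_688fd0_co.SQ2
open V (Puz)

section

variable {Q : Type} [Group Q] {B : Lb.{0, 0} Q} {U : Up B} {P D : Subgroup Q} {z : Q} {F : Finset Q} {e : ℕ}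

/-- The ends of a rung of a label that does not commute with `U` have different generators. -/
theorem gen_ne (dat : U.Dat P D z) {b : B.L} {p₀ p₁ : ℕ} {x y : Q} (edge : (U.U ^ p₀) x * B.q b = (U.U ^ p₁) y)
    (hcomm : ∀ x, U.U (x * B.q b) ≠ U.U x * B.q b) : U.gen x ≠ U.gen y := by
  intro h0
  apply hcomm ((U.U ^ p₀) x)
  have h1 := gen_up_nat dat x p₀
  have h2 := gen_up_nat dat y p₁
  rw [edge, ← U.gen_mul, h2, ← h0, ← h1, ← edge, ← mul_assoc, U.gen_mul]

/-- A symmetry `gen x` in the stabiliser of `y`. -/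
theorem cj_fix (h : FrD U P D z F e) (x y : F) (h0 : h.cj (x : Q) • y = y) : U.gen (x : Q) = U.gen (y : Q) := by
  have h1 := h.cj_up (x : Q) y
  rw [h0, ← U.gen_mul (y : Q)] at h1
  exact (mul_right_cancel h1).symm

theorem wt_pow {p : ℕ} {V : Vd B (ZMod p)} (hom : ∀ x, U.wt V (U.U x) = U.wt V x) (n : ℕ) (x : Q) :
    U.wt V ((U.U ^ n) x) = U.wt V x := by
  induction n generalizing x with
  | zero => rfl
  | succ n ih => rw [U.U_pow_succ, ih, hom]

/-- The volumes of the steps up are different at the ends of a rung. -/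
theorem wt_ne {p : ℕ} {V : Vd B (ZMod p)} {b : B.L} (hII : CaseII U V b) {p₀ p₁ : ℕ} {x y : Q}
    (edge : (U.U ^ p₀) x * B.q b = (U.U ^ p₁) y) : U.wt V x ≠ U.wt V y := by
  intro h0
  apply hII.ne ((U.U ^ p₀) x)
  rw [edge, wt_pow hII.om, wt_pow hII.om, h0]

open Classical in
/-- The sum of the weights of a component. -/
theorem wsum_eq (h : FrD U P D z F e) (Γ : Subgroup (Sy h.toFrt)) (x y : F) {R : Type} [CommRing R] (w : Q → R)
    {Sb : Type} [Fintype Sb] (i : Sb → F) (hinj : Function.Injective i)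
    (hr : ∀ s, s ∈ Set.range i ↔ ∃ g ∈ Γ, g • x = s ∨ g • y = s) :
    (∑ s, w (i s : Q)) = wsum h Γ x y w := by
  unfold wsum
  rw [← Finset.sum_filter]
  refine Finset.sum_nbij i ?_ (fun a _ b _ hab => hinj hab) ?_ (fun _ _ => rfl)
  · intro s _
    exact Finset.mem_filter.2 ⟨Finset.mem_univ _, (hr _).1 ⟨s, rfl⟩⟩
  · intro s hs
    obtain ⟨t, ht⟩ := (hr s).2 (Finset.mem_filter.1 (Finset.mem_coe.1 hs)).2
    exact ⟨t, Finset.mem_coe.2 (Finset.mem_univ _), ht⟩

end

open Classical in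
theorem nc2 : NC2S := by
  intro Q _ _ B U P D z F e h ι G hm f g l₀ p V w lc i b p₀ p₁ gok hxy hcomm hl hws hws' hc
  have : Finite Q := lc.finQ
  have : Fact p.Prime := ⟨lc.prime⟩
  have hNe : NeZero e := ⟨h.he.ne'⟩
  have hep : 0 < e := h.he
  have hbig := lc.big
  set x := (G i).x with hx
  set y := (G i).y with hy
  have hDe : Nat.card D ≤ e := Nat.le_of_dvd hep lc.card
  have hDpos : 0 < Nat.card D := Nat.card_pos
  have hal : V.chi z ^ e = 1 := by rw [lc.al, one_pow]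
  obtain ⟨tau, T, hT, E, hER, hES⟩ := comp2 h G i b p₀ p₁ gok hxy
  have hofa : orderOf (gx h x y) = e := by
    rw [gx, Subgroup.orderOf_mk]; exact h.cj_order x
  have hofc : orderOf (gy h x y) = e := by
    rw [gy, Subgroup.orderOf_mk]; exact h.cj_order y
  have hane : gx h x y ∉ Subgroup.zpowers (gy h x y) := by
    intro hmem
    have h1 := (h.stab_sub (Gc2 h x y) y (cy_mem h x y) (gx h x y)).2 hmem
    exact gen_ne h.dat gok.edge hcomm (cj_fix h x y h1)
  have hG : Subgroup.closure ({gx h x y, gy h x y} : Set (Gc2 h x y)) = ⊤ := by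
    have h1 := Subgroup.closure_closure_coe_preimage (k := ({h.cj (x : Q), h.cj (y : Q)} : Set (Sy h.toFrt)))
    have h2 : (Subtype.val ⁻¹' ({h.cj (x : Q), h.cj (y : Q)} : Set (Sy h.toFrt)) : Set (Gc2 h x y)) =
        {gx h x y, gy h x y} := by
      ext z
      constructor
      · rintro (hz | hz)
        · exact Or.inl (Subtype.ext hz)
        · exact Or.inr (Subtype.ext hz)
      · rintro (hz | hz)
        · exact Or.inl (congrArg Subtype.val hz)
        · exact Or.inr (congrArg Subtype.val hz)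
    rw [← h2]
    exact h1
  obtain ⟨hFull, hTwo, hNo, hCo, hdeg⟩ := coset2 (Gc2 h x y) (gx h x y) (gy h x y) tau T hT hane
    (hofa.trans hofc.symm) hG
  have : Fintype (Gc2 h x y) := Fintype.ofFinite _
  have : Fintype (SQ2.V.S2 (gx h x y) (gy h x y)) := Fintype.ofFinite _
  -- sizes
  have hcx : Nat.card (Gc2 h x y ⧸ Subgroup.zpowers (gx h x y)) ≤ Nat.card D :=
    h.card_quot _ x _ fun g hg => (h.stab_sub (Gc2 h x y) x (cx_mem h x y) g).1 hg
  have hcy : Nat.card (Gc2 h x y ⧸ Subgroup.zpowers (gy h x y)) ≤ Nat.card D :=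
    h.card_quot _ y _ fun g hg => (h.stab_sub (Gc2 h x y) y (cy_mem h x y) g).1 hg
  have hcS : Fintype.card (SQ2.V.S2 (gx h x y) (gy h x y)) =
      Nat.card (Gc2 h x y ⧸ Subgroup.zpowers (gx h x y)) + Nat.card (Gc2 h x y ⧸ Subgroup.zpowers (gy h x y)) := by
    rw [← Nat.card_eq_fintype_card, Nat.card_sum]
  have hcSp : Fintype.card (SQ2.V.S2 (gx h x y) (gy h x y)) < p := by omega
  have heF : ((e : ℕ) : ZMod p) ≠ 0 := by
    rw [Ne, ZMod.natCast_eq_zero_iff]
    intro h0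
    have := Nat.le_of_dvd hep h0
    omega
  -- the base strand
  have hv₀ : E.iS (Sum.inl ((1 : Gc2 h x y) : Gc2 h x y ⧸ _)) = x := by
    rw [hES, iS2_inl]
    show (1 : Sy h.toFrt) • x = x
    rw [one_smul]
  have hone : ∀ n : ℕ, ((1 : Gc2 h x y) : Gc2 h x y ⧸ Subgroup.zpowers (gx h x y)) =
      ((gx h x y ^ n : Gc2 h x y) : Gc2 h x y ⧸ Subgroup.zpowers (gx h x y)) := fun n =>
    QuotientGroup.eq.2 (by rw [inv_one, one_mul]; exact Subgroup.npow_mem_zpowers _ _)
  have hsum : (∑ s, w (E.iS s : Q)) = wsum h (Gc2 h x y) x y w :=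
    wsum_eq h (Gc2 h x y) x y w E.iS E.inj fun s => by rw [hES]; exact iS2_range h x y s
  obtain ⟨n, hn⟩ := hws'
  have hoth : (SQ2.V.puz2 (gx h x y) (gy h x y) tau T hT).oth (gx h x y ^ n)
      (Sum.inl ((1 : Gc2 h x y) : Gc2 h x y ⧸ _)) = Sum.inr ((gx h x y ^ n : Gc2 h x y) : Gc2 h x y ⧸ _) := by
    rw [hone n]
    exact SQ2.V.oth_inl _
  have hoth' : E.iS ((SQ2.V.puz2 (gx h x y) (gy h x y) tau T hT).oth (gx h x y ^ n)
      (Sum.inl ((1 : Gc2 h x y) : Gc2 h x y ⧸ _))) = h.cj (x : Q) ^ n • y := by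
    rw [hoth, hES, iS2_inr]
    rfl
  refine ncore h G hm f g l₀ p V w lc i b p₀ p₁ (Gc2 h x y) gok (SQ2.V.puz2 (gx h x y) (gy h x y) tau T hT) E
    (fun r => ⟨r, r.2, hER r⟩) ?_ (Sum.inl ((1 : Gc2 h x y) : Gc2 h x y ⧸ _)) ?_ (gx h x y ^ n) ?_ ?_ ?_
    hFull hTwo hNo hCo hcSp ⟨e, heF, fun L => by rw [hdeg, hofa]⟩ ?_
  · intro s hs
    rw [hES, iS2_range]
    exact hs
  · rw [hv₀]
    exact hl
  · left
    show (Sum.inl ((1 : Gc2 h x y) : Gc2 h x y ⧸ _) : SQ2.V.S2 (gx h x y) (gy h x y)) =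
      Sum.inl ((gx h x y ^ n : Gc2 h x y) : Gc2 h x y ⧸ _)
    rw [hone n]
  · rw [hsum]
    exact hws
  · rw [hsum, hv₀, hoth']
    exact hn
  · rcases hc with hI | hII
    · left
      refine ⟨hI, ?_⟩
      rintro ⟨β, hβ⟩
      have hcne0 : V.chi ((U.U ^ p₀) (x : Q)) ≠ 0 := by
        intro h0
        have h1 : V.chi ((U.U ^ p₀) (x : Q)) * V.chi ((U.U ^ p₀) (x : Q))⁻¹ = 1 := by
          rw [← map_mul, mul_inv_cancel, map_one]
        rw [h0, zero_mul] at h1
        exact zero_ne_one h1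
      have h1 := notExact2 (Gc2 h x y) (ZMod p) (gx h x y) (gy h x y) ((Xh V hal x).comp (Gc2 h x y).subtype)
        (V.chi ((U.U ^ p₀) (x : Q)) * V.n b) (fun q => β (Sum.inl q)) (fun q => β (Sum.inr q)) (fun r => by
          have h2 := hβ r
          rw [hER] at h2
          exact h2) (Nat.card D) (by
          apply Subtype.ext
          show ((h.cj (x : Q) * h.cj (y : Q))⁻¹ * (h.cj (y : Q) * h.cj (x : Q))) ^ Nat.card D = 1
          apply lv0_pow
          rw [lv_mul, lv_inv, lv_mul, lv_mul, h.cj_lv, h.cj_lv, neg_add_cancel])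
      have hDF : ((Nat.card D : ℕ) : ZMod p) ≠ 0 := by
        rw [Ne, ZMod.natCast_eq_zero_iff]
        intro h0
        have := Nat.le_of_dvd hDpos h0
        omega
      have h3 : ((Xh V hal x).comp (Gc2 h x y).subtype) (gx h x y) = V.chi (B.q (U.up (x : Q))) :=
        Xc_cj_self V h hal x
      have h4 : ((Xh V hal x).comp (Gc2 h x y).subtype) (gy h x y) = V.chi (B.q (U.up (y : Q))) :=
        Xc_cj_self V h hal y
      rw [h3, h4] at h1
      rcases mul_eq_zero.1 h1 with h5 | h5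
      · rcases mul_eq_zero.1 h5 with h6 | h6
        · rcases mul_eq_zero.1 h6 with h7 | h7
          · exact hDF h7
          · exact (mul_ne_zero hcne0 hI.nb) h7
        · exact hI.al _ (sub_eq_zero.1 h6)
      · exact hI.al _ (sub_eq_zero.1 h5)
    · right
      refine ⟨hII, 1, ?_⟩
      have h1 : E.iS ((SQ2.V.puz2 (gx h x y) (gy h x y) tau T hT).x 1) = x := hv₀
      have h2 : E.iS ((SQ2.V.puz2 (gx h x y) (gy h x y) tau T hT).y 1) = y := by
        show E.iS (Sum.inr ((1 : Gc2 h x y) : Gc2 h x y ⧸ _)) = y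
        rw [hES, iS2_inr]
        show (1 : Sy h.toFrt) • y = y
        rw [one_smul]
      rw [h1, h2]
      exact wt_ne hII gok.edge

end Pool.Agent.Lib.MP_688fd0_co.SQ3
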