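import Pool.Agent.Lib.MP_688fd0_co.SQ3.V.Big
import Pool.Agent.Lib.MP_688fd0_co.SQ3.H98.Sheet

/-!
The symmetry group of a frontier: elements, in the language of `Up`.
-/

set_option autoImplicit false

namespace Pool.Agent.Lib.MP_688fd0_co.SQ3

open Pool.Agent.Lib.MP_688fd0_co.OSF Pool.Agent.Lib.MP_688fd0_co.SQ2

universe v

variable {Q : Type} [Group Q] {B : Lb.{0, v} Q} {U : Up B} {P D : Subgroup Q} {z : Q} {F : Finset Q} {e : ℕ}

theorem Up.Dat.com_pow_inv (h : U.Dat P D z) {g : Q} (hg : g ∈ P) (n : ℕ) (x : Q) :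
    (U.U ^ n)⁻¹ (g * x) = g * (U.U ^ n)⁻¹ x := by
  have := h.com_zpow hg (-(n : ℤ)) x
  rwa [zpow_neg, zpow_natCast] at this

/-- A frontier that consists of sheets. -/
structure FrD (U : Up B) (P D : Subgroup Q) (z : Q) (F : Finset Q) (e : ℕ) : Prop extends Frt U P D z F e where
  inv : ∀ s ∈ F, ∀ d ∈ D, d * s ∈ F

theorem FrD.inv' (h : FrD U P D z F e) {s y : Q} (hs : s ∈ F) (hy : s⁻¹ * y ∈ D) : y ∈ F := by
  have h1 := h.inv s hs _ (h.dat.conj s hy)
  have e1 : s * (s⁻¹ * y) * s⁻¹ * s = y := by group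
  rwa [e1] at h1

/-- The image of a strand. -/
theorem FrD.mem (h : FrD U P D z F e) {d : Q} (hd : d ∈ D) (t : ℕ) {s : Q} (hs : s ∈ F) :
    (U.U ^ t)⁻¹ (d * z ^ t * s) ∈ F := by
  rw [h.dat.com_pow_inv (h.toFrt.mem_P hd t)]
  refine h.inv' hs ?_
  have h2 := h.dat.mem_zpow (-(t : ℤ)) s
  rw [zpow_neg, zpow_natCast, zpow_neg, zpow_natCast, inv_inv] at h2
  have h3 := D.mul_mem (h.dat.conj' s hd) h2
  have e1 : s⁻¹ * d * s * (s⁻¹ * (z ^ t * (U.U ^ t)⁻¹ s)) = s⁻¹ * (d * z ^ t * (U.U ^ t)⁻¹ s) := by group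
  rwa [e1] at h3

/-- The permutation of the strands by `d z ^ t`. -/
noncomputable def FrD.perm (h : FrD U P D z F e) {d : Q} (hd : d ∈ D) (t : ℕ) : Equiv.Perm F :=
  Equiv.ofBijective (fun s : F => (⟨_, h.mem hd t s.2⟩ : F)) (Finite.injective_iff_bijective.1 (by
    intro s s' hs
    have h1 : (U.U ^ t)⁻¹ (d * z ^ t * (s : Q)) = (U.U ^ t)⁻¹ (d * z ^ t * (s' : Q)) := congrArg Subtype.val hs
    exact Subtype.ext (mul_left_cancel ((U.U ^ t)⁻¹.injective h1))))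

/-- The symmetry `d z ^ t`. -/
noncomputable def FrD.sy (h : FrD U P D z F e) {d : Q} (hd : d ∈ D) (t : ℕ) : Sy h.toFrt :=
  ⟨(h.perm hd t, Multiplicative.ofAdd (t : ZMod e)), t, d, rfl, hd, fun s =>
    ((U.U ^ t).apply_symm_apply (d * z ^ t * (s : Q))).symm⟩

theorem FrD.sy_smul (h : FrD U P D z F e) {d : Q} (hd : d ∈ D) (t : ℕ) (s : F) :
    ((h.sy hd t • s : F) : Q) = (U.U ^ t)⁻¹ (d * z ^ t * (s : Q)) := rfl

theorem FrD.sy_up (h : FrD U P D z F e) {d : Q} (hd : d ∈ D) (t : ℕ) (s : F) :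
    (U.U ^ t) ((h.sy hd t • s : F) : Q) = d * z ^ t * (s : Q) :=
  (U.U ^ t).apply_symm_apply (d * z ^ t * (s : Q))

theorem FrD.sy_lv (h : FrD U P D z F e) {d : Q} (hd : d ∈ D) (t : ℕ) : lv (h.sy hd t) = (t : ZMod e) := rfl

/-- Equal symmetries. -/
theorem sy_ext {hF : Frt U P D z F e} {h k : Sy hF} (h1 : lv h = lv k) (h2 : ∀ s : F, h • s = k • s) : h = k :=
  Subtype.ext (Prod.ext (Equiv.ext h2) h1)

/-- A symmetry is determined by its level and the image of one strand. -/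
theorem sy_ext' {hF : Frt U P D z F e} {h k : Sy hF} (h1 : lv h = lv k) (s : F) (h2 : h • s = k • s) : h = k := by
  refine sy_ext h1 fun s' => ?_
  obtain ⟨t, d, ht, hd⟩ := h.2
  obtain ⟨t', d', ht', hd'⟩ := k.2
  have hd' := hd'.shift hF (t' := t) (by rw [ht', ht]; exact h1.symm)
  have e1 := hd.2 s
  have e2 := hd'.2 s
  have e3 : (h.1.1 s : F) = k.1.1 s := h2
  rw [e3, ← e2, mul_assoc d, mul_assoc d'] at e1
  have e4 : d = d' := mul_right_cancel e1
  have e5 := hd.2 s'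
  have e6 := hd'.2 s'
  rw [← e4, e5] at e6
  exact Subtype.ext ((U.U ^ t).injective e6)

theorem FrD.gen_D (h : FrD U P D z F e) (w : Q) : U.gen w * z⁻¹ ∈ D := by
  have h1 := h.dat.conj z (h.dat.conj w (h.dat.mem w))
  have e1 : z * (w * (w⁻¹ * (z⁻¹ * U.U w)) * w⁻¹) * z⁻¹ = U.gen w * z⁻¹ := by unfold Up.gen; group
  rwa [e1] at h1

/-- The symmetry `gen w`. -/
noncomputable def FrD.cj (h : FrD U P D z F e) (w : Q) : Sy h.toFrt := h.sy (h.gen_D w) 1

theorem FrD.cj_up (h : FrD U P D z F e) (w : Q) (s : F) :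
    U.U ((h.cj w • s : F) : Q) = U.gen w * (s : Q) := by
  have h1 := h.sy_up (h.gen_D w) 1 s
  rw [pow_one, pow_one, inv_mul_cancel_right] at h1
  exact h1

theorem FrD.cj_smul (h : FrD U P D z F e) (w : Q) (s : F) :
    ((h.cj w • s : F) : Q) = U.U⁻¹ (U.gen w * (s : Q)) := by
  rw [← h.cj_up]
  exact (U.U.symm_apply_apply _).symm

theorem FrD.cj_lv (h : FrD U P D z F e) (w : Q) : lv (h.cj w) = 1 := by
  unfold FrD.cj
  rw [FrD.sy_lv, Nat.cast_one]

/-- The strand `s` is fixed by `gen s`. -/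
theorem FrD.cj_self (h : FrD U P D z F e) (s : F) : h.cj (s : Q) • s = s := by
  refine Subtype.ext (U.U.injective ?_)
  rw [FrD.cj_up, U.gen_mul]

theorem FrD.cj_pow_lv (h : FrD U P D z F e) (w : Q) (n : ℕ) : lv (h.cj w ^ n) = (n : ZMod e) := by
  induction n with
  | zero => simp [lv_one]
  | succ n ih => rw [pow_succ, lv_mul, ih, FrD.cj_lv, Nat.cast_succ]

theorem FrD.cj_pow_self (h : FrD U P D z F e) (s : F) (n : ℕ) : h.cj (s : Q) ^ n • s = s := by
  induction n with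
  | zero => simp
  | succ n ih => rw [pow_succ, mul_smul, h.cj_self, ih]

/-- The powers of `gen w` at level `n`. -/
theorem FrD.cj_pow_up (h : FrD U P D z F e) (w : Q) (n : ℕ) (s : F) :
    (U.U ^ n) ((h.cj w ^ n • s : F) : Q) = U.gen w ^ n * (s : Q) := by
  induction n generalizing s with
  | zero => simp
  | succ n ih =>
    rw [U.U_pow_succ', pow_succ, mul_smul, ih, h.dat.com (P.pow_mem (h.dat.gen_mem w) _), h.cj_up, ← mul_assoc,
      ← pow_succ]

/-- The stabiliser of a strand. -/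
theorem FrD.stab (h : FrD U P D z F e) (s : F) (k : Sy h.toFrt) :
    k • s = s ↔ k ∈ Subgroup.zpowers (h.cj (s : Q)) := by
  have : NeZero e := ⟨h.he.ne'⟩
  constructor
  · intro hk
    have h1 : k = h.cj (s : Q) ^ (lv k).val := by
      refine sy_ext' (s := s) ?_ ?_
      · rw [h.cj_pow_lv, ZMod.natCast_zmod_val]
      · rw [hk, h.cj_pow_self]
    rw [h1]
    exact Subgroup.npow_mem_zpowers _ _
  · intro hk
    have h2 : h.cj (s : Q) ∈ MulAction.stabilizer (Sy h.toFrt) s := h.cj_self s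
    have h3 := (Subgroup.zpowers_le.2 h2) hk
    exact h3

/-- The order of `gen w` is `e`. -/
theorem FrD.cj_order (h : FrD U P D z F e) (s : F) : orderOf (h.cj (s : Q)) = e := by
  have : NeZero e := ⟨h.he.ne'⟩
  apply Nat.dvd_antisymm
  · apply orderOf_dvd_of_pow_eq_one
    refine sy_ext' (s := s) ?_ ?_
    · rw [h.cj_pow_lv, ZMod.natCast_self, lv_one]
    · rw [h.cj_pow_self, one_smul]
  · have h1 := pow_orderOf_eq_one (h.cj (s : Q))
    have h2 := h.cj_pow_lv (s : Q) (orderOf (h.cj (s : Q)))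
    rw [h1, lv_one] at h2
    exact (ZMod.natCast_eq_zero_iff _ _).1 h2.symm

end Pool.Agent.Lib.MP_688fd0_co.SQ3
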