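import Pool.Agent.Lib.MP_688fd0_co.SQ3.Iface
import Pool.Agent.Lib.MP_688fd0_co.SQ3.V.Sym

/-!
From `Hyp` and `Fr` of the interface to `Up.Dat`, `Frt`, `FrD`; the lines and the commuting labels.
-/

set_option autoImplicit false

namespace Pool.Agent.Lib.MP_688fd0_co.SQ3

open Pool.Agent.Lib.MP_688fd0_co.OSF Pool.Agent.Lib.MP_688fd0_co.SQ2

universe u v

section upE

variable {Q : Type u} [Group Q] (B : Lb.{u, v} Q) (a : B.L) (eps : Q →* ℤˣ) (h : eps (B.q a) = 1)

theorem upE_U (x : Q) : (upE B a eps h).U x = x * B.q a ^ ((eps x : ℤˣ) : ℤ) := rfl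

theorem upE_pos {x : Q} (hx : eps x = 1) : (upE B a eps h).up x = a := if_pos hx

theorem upE_neg {x : Q} (hx : eps x = -1) : (upE B a eps h).up x = B.inv a :=
  if_neg (by rw [hx]; decide)

include h in
theorem eps_mul_zpow (x : Q) (n : ℤ) : eps (x * B.q a ^ n) = eps x := by
  rw [map_mul, map_zpow, h, one_zpow, mul_one]

/-- `U ^ n x = x A ^ (n eps x)`. -/
theorem upE_zpow (x : Q) (n : ℤ) : ((upE B a eps h).U ^ n) x = x * B.q a ^ (((eps x : ℤˣ) : ℤ) * n) := by
  induction n using Int.induction_on with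
  | zero => rw [zpow_zero, mul_zero, zpow_zero, mul_one]; rfl
  | succ n ih =>
    rw [add_comm, zpow_add, zpow_one]
    show (upE B a eps h).U (((upE B a eps h).U ^ (n : ℤ)) x) = _
    rw [ih, upE_U, eps_mul_zpow B a eps h, mul_assoc, ← zpow_add]
    congr 2
    ring
  | pred n ih =>
    rw [sub_eq_add_neg, add_comm, zpow_add, zpow_neg_one]
    show (upE B a eps h).U⁻¹ (((upE B a eps h).U ^ (-(n : ℤ))) x) = _
    rw [ih, Equiv.Perm.inv_eq_iff_eq, upE_U, eps_mul_zpow B a eps h, mul_assoc, ← zpow_add]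
    congr 2
    ring

theorem upE_pow (x : Q) (n : ℕ) : ((upE B a eps h).U ^ n) x = x * B.q a ^ (((eps x : ℤˣ) : ℤ) * n) := by
  have := upE_zpow B a eps h x n
  rwa [zpow_natCast] at this

/-- A label which commutes with `U`. -/
theorem upE_com_iff (b : B.L) : (∀ x, (upE B a eps h).U (x * B.q b) = (upE B a eps h).U x * B.q b) ↔
    B.q b * B.q a ^ ((eps (B.q b) : ℤˣ) : ℤ) = B.q a * B.q b := by
  constructor
  · intro h1
    have h2 := h1 1
    rw [upE_U, upE_U, one_mul, one_mul, map_one, Units.val_one, zpow_one] at h2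
    exact h2
  · intro h1 x
    rw [upE_U, upE_U, map_mul]
    rcases Int.units_eq_one_or (eps x) with hx | hx <;> rcases Int.units_eq_one_or (eps (B.q b)) with hb | hb
    · rw [hb, Units.val_one, zpow_one] at h1
      rw [hx, hb, mul_one, Units.val_one, zpow_one, mul_assoc, mul_assoc, h1]
    · rw [hb, Units.val_neg, Units.val_one, zpow_neg_one] at h1
      rw [hx, hb, one_mul, Units.val_neg, Units.val_one, zpow_neg_one, zpow_one, mul_assoc, mul_assoc, h1]
    · rw [hb, Units.val_one, zpow_one] at h1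
      rw [hx, hb, mul_one, Units.val_neg, Units.val_one, zpow_neg_one, mul_assoc, mul_assoc]
      congr 1
      rw [mul_inv_eq_iff_eq_mul, mul_assoc, h1, inv_mul_cancel_left]
    · rw [hb, Units.val_neg, Units.val_one, zpow_neg_one] at h1
      rw [hx, hb, Units.val_neg, Units.val_one, neg_mul_neg, one_mul, Units.val_one, zpow_neg_one, zpow_one,
        mul_assoc, mul_assoc]
      congr 1
      rw [eq_inv_mul_iff_mul_eq, ← mul_assoc, ← h1, inv_mul_cancel_right]

end upE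

section hyp

variable {Q : Type} [Group Q] {B : Lb.{0, 0} Q} {a : B.L} {eps : Q →* ℤˣ} {D : Subgroup Q} {z : Q} {k : ℕ}
  (H : Hyp B a eps D z k)

include H

theorem Hyp.ez : eps z = 1 := by
  have h1 := H.le H.mem
  have h2 : eps (z⁻¹ * B.q a) = 1 := h1
  rw [map_mul, map_inv, H.ea, mul_one, inv_eq_one] at h2
  exact h2

/-- `z` commutes with the kernel of `eps`. -/
theorem Hyp.zc {g : Q} (hg : g ∈ eps.ker) : g * z = z * g := by
  have h1 := H.tw g
  have h2 : eps g = 1 := hg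
  rw [h2, Units.val_one, zpow_one] at h1
  exact mul_inv_eq_iff_eq_mul.1 h1

theorem Hyp.mem_sheet (x : Q) : x⁻¹ * (z⁻¹ * H.up.U x) ∈ D := by
  have hD := H.nrm
  show x⁻¹ * (z⁻¹ * (x * B.q a ^ ((eps x : ℤˣ) : ℤ))) ∈ D
  have h1 := H.tw x⁻¹
  rw [map_inv, inv_inv] at h1
  have h2 : ((eps x)⁻¹ : ℤˣ) = eps x := Int.units_inv_eq_self _
  rw [h2] at h1
  have e : x⁻¹ * (z⁻¹ * (x * B.q a ^ ((eps x : ℤˣ) : ℤ))) =
      (x⁻¹ * z * x)⁻¹ * B.q a ^ ((eps x : ℤˣ) : ℤ) := by group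
  rw [e, h1]
  rcases Int.units_eq_one_or (eps x) with hx | hx
  · rw [hx, Units.val_one, zpow_one, zpow_one]
    exact H.mem
  · rw [hx, Units.val_neg, Units.val_one, zpow_neg_one, zpow_neg_one, inv_inv]
    have h3 := hD.conj_mem _ (D.inv_mem H.mem) z
    have e1 : z * (z⁻¹ * B.q a)⁻¹ * z⁻¹ = z * (B.q a)⁻¹ := by group
    rwa [e1] at h3

theorem Hyp.dat : H.up.Dat eps.ker D z where
  upc := fun g hg x => by
    show (if eps (g * x) = 1 then a else B.inv a) = if eps x = 1 then a else B.inv a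
    have h1 : eps g = 1 := hg
    rw [map_mul, h1, one_mul]
  nrm := H.nrm
  le := H.le
  hz := H.ez
  mem := H.mem_sheet

theorem Hyp.pow_k : B.q a ^ k = z ^ k := by
  have hfin := H.fin
  have h1 : Commute z (z⁻¹ * B.q a) := (H.zc (H.le H.mem)).symm
  have h2 : B.q a = z * (z⁻¹ * B.q a) := (mul_inv_cancel_left _ _).symm
  have h3 : (z⁻¹ * B.q a) ^ k = 1 := by
    have h4 : (⟨z⁻¹ * B.q a, H.mem⟩ : D) ^ k = 1 :=
      orderOf_dvd_iff_pow_eq_one.1 ((orderOf_dvd_natCard _).trans H.card)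
    have h5 := congrArg Subtype.val h4
    exact h5
  conv_lhs => rw [h2]
  rw [h1.mul_pow, h3, mul_one]

theorem Hyp.per (x : Q) : (H.up.U ^ k) x = z ^ k * x := by
  have h1 : (H.up.U ^ k) x = x * B.q a ^ (((eps x : ℤˣ) : ℤ) * k) := upE_pow B a eps H.ea x k
  rw [h1]
  have h2 := H.tw x
  have h3 : B.q a ^ (((eps x : ℤˣ) : ℤ) * k) = z ^ (((eps x : ℤˣ) : ℤ) * k) := by
    rw [mul_comm, zpow_mul, zpow_mul, zpow_natCast, zpow_natCast, H.pow_k]
  have h4 : x * z ^ (((eps x : ℤˣ) : ℤ) * k) * x⁻¹ = z ^ k := by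
    rw [← conj_zpow, h2, ← zpow_mul, ← zpow_natCast z k]
    congr 1
    rcases Int.units_eq_one_or (eps x) with hx | hx
    · rw [hx]; simp
    · rw [hx]; simp
  rw [h3, ← h4, inv_mul_cancel_right]

theorem Hyp.frt (F : Finset Q) : Frt H.up eps.ker D z F k :=
  ⟨H.dat, H.kpos, fun _ hg => H.zc hg, H.per⟩

theorem Hyp.frd {F : Finset Q} {W : ℕ} (hF : Fr H.up D W F) : FrD H.up eps.ker D z F k where
  toFrt := H.frt F
  inv := fun s hs d hd => by
    have h1 := hF.inv s hs _ (H.dat.conj' s hd)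
    have e : s * (s⁻¹ * d * s) = d * s := by group
    rwa [e] at h1

/-- The commuting labels. -/
theorem Hyp.com_iff (b : B.L) : (∀ x, H.up.U (x * B.q b) = H.up.U x * B.q b) ↔
    B.q b * B.q a ^ ((eps (B.q b) : ℤˣ) : ℤ) = B.q a * B.q b := upE_com_iff B a eps H.ea b

/-- In the gauge `n a = 0` the labels of the lines have volume `0`. -/
theorem Hyp.gauge {R : Type} [CommRing R] (V : Vd B R) (ha : V.n a = 0) (x : Q) : V.n (H.up.up x) = 0 := by
  show V.n (if eps x = 1 then a else B.inv a) = 0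
  split_ifs
  · exact ha
  · rw [V.n_inv, ha, mul_zero, neg_zero]

end hyp

end Pool.Agent.Lib.MP_688fd0_co.SQ3
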