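import Pool.Agent.Lib.MP_688fd0_co.SQ3.Words
import Pool.Agent.Lib.MP_688fd0_co.SQ3.Flat
import Pool.Agent.Lib.MP_688fd0_co.SQ2.V.RealDefs

/-!
From flips in the big puzzle to versions of flat windows: statements, in the language of `Up`.
-/

set_option autoImplicit false

namespace Pool.Agent.Lib.MP_688fd0_co.SQ3

open Pool.Agent.Lib.MP_688fd0_co.OSF Pool.Agent.Lib.MP_688fd0_co.SQ2
open V (Puz)

universe v

/-- `U ^ n` is the left multiplication by `ζ`, which preserves the labels. -/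
structure Per {Q : Type*} [Group Q] {B : Lb.{_, v} Q} (U : Up B) (n : ℕ) (ζ : Q) : Prop where
  per : ∀ x, (U.U ^ n) x = ζ * x
  up : ∀ x, U.up (ζ * x) = U.up x

/-- The volumes of the gadgets: `cu` of the cups, `ca` of the caps (both from `x` to `y`), `θ` of the token paths. -/
structure Vols {S R : Type} [Fintype S] [DecidableEq S] {P : Puz S R} {Q : Type} [Group Q] [DecidableEq Q]
    {B : Lb.{0, v} Q} {U : Up B} (Z : Real P B U) (ζ : Q) {F : Type} [CommRing F] (V : Vd B F) (cu ca : R → F)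
    (θ : R → S → F) : Prop where
  al : V.chi ζ = 1
  cup : ∀ r t, t % Z.e = Z.lev r → V.vol (Z.vt (P.x r) t) (Z.gad r t).cup = cu r
  cap : ∀ r t, t % Z.e = Z.lev r → V.vol (Z.gad r t).w₀ (Z.gad r t).cap = ca r
  path : ∀ r t, t % Z.e = Z.lev r → ∀ s, ¬ P.On r s → V.vol (Z.vt s t) ((Z.gad r t).path (Z.vt s t)) = θ r s

/-- The windows of one tree path: `E` is a flat window from the cup `f` to the cap `g`. -/
structure EWr {S R : Type} [Fintype S] [DecidableEq S] {P : Puz S R} {Q : Type} [Group Q] [DecidableEq Q]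
    {B : Lb.{0, v} Q} {U : Up B} (Z : Real P B U) (f g : R) (l₀ : S) (E : TW B) (n : ℕ) : Prop where
  flat : Flat U E n (Z.vt (P.oth g l₀) (Z.lev f))
  L₀ : E.L₀ = Z.Fr (Z.lev f)
  u₀ : E.u₀ = Z.vt (P.oth f l₀) (Z.lev f)
  u₁ : E.u₁ = Z.vt l₀ (Z.lev f)
  dvd : Z.e ∣ n
  cup : E.cup = if l₀ = P.y f then (Z.gad f (Z.lev f)).cup else B.rev (Z.gad f (Z.lev f)).cup

/-- REAL0: the flat window exists. `h` bounds the heights of the gadgets. -/
def Real0S : Prop := ∀ (S R : Type) [Fintype S] [DecidableEq S] [Fintype R] (P : Puz S R) (Q : Type) [Group Q]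
  [DecidableEq Q] (B : Lb.{0, v} Q) (U : Up B) (Z : Real P B U) (ζ : Q) (f g : R) (l₀ : S) (h : ℕ),
  Per U Z.e ζ →
  (∀ r, Z.H r ≤ h) → P.Adj g f l₀ → P.WReach (P.st₁ f) (P.stb f g l₀) →
  ∃ (E : TW B) (n : ℕ), EWr Z f g l₀ E n ∧ n ≤ (NW S R + 2) * (Z.e + h)

/-- REAL A: a flip in the gauge `n (up x) = 0` gives two versions of a flat window. -/
def RealAS : Prop := ∀ (S R : Type) [Fintype S] [DecidableEq S] [Fintype R] (P : Puz S R) (Q : Type) [Group Q]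
  [DecidableEq Q] (B : Lb.{0, v} Q) (U : Up B) (Z : Real P B U) (ζ : Q) (F : Type) [CommRing F] (V : Vd B F)
  (cu ca : R → F) (θ : R → S → F) (w : Q → F) (f g : R) (l₀ : S) (h : ℕ) (E : TW B) (n₀ : ℕ),
  Per U Z.e ζ →
  (∀ r, Z.H r ≤ h) → P.Adj g f l₀ → (∀ s s' : Puz.St S R (P.TokOf f), P.WReach s s' → P.WReach s' s) →
  Vols Z ζ V cu ca θ → (∀ x, V.n (U.up x) = 0) → (∀ r, ca r = cu (P.tau r)) → (∀ x, w (U.U x) = w x) →
  EWr Z f g l₀ E n₀ → P.Flip cu θ (fun s => w (Z.g s)) f g l₀ →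
  ∃ (X X' : TW B) (n : ℕ), Ver U X X' n (Z.vt (P.oth g l₀) (Z.lev f)) ∧ EWr Z f g l₀ X n ∧ X.cap = E.cap ∧
    n ≤ n₀ + (2 * NW S R + 4) * (Z.e + h) ∧ dvolw V w X X' ≠ 0

/-- The volume of one step up at `x`. -/
def _root_.Pool.Agent.Lib.MP_688fd0_co.SQ3.Up.wt {Q : Type} [Group Q] {B : Lb.{0, v} Q} (U : Up B) {F : Type} [CommRing F] (V : Vd B F)
    (x : Q) : F := V.chi x * V.n (U.up x)

/-- REAL B: the case that the volume of one step up does not depend on the level. -/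
def RealBS : Prop := ∀ (S R : Type) [Fintype S] [DecidableEq S] [Fintype R] (P : Puz S R) (Q : Type) [Group Q]
  [DecidableEq Q] (B : Lb.{0, v} Q) (U : Up B) (Z : Real P B U) (ζ : Q) (F : Type) [Field F] (V : Vd B F)
  (cu ca : R → F) (θ : R → S → F) (w : Q → F) (f g : R) (l₀ : S) (h : ℕ) (E : TW B) (n₀ : ℕ),
  Per U Z.e ζ →
  (∀ r, Z.H r ≤ h) → P.Adj g f l₀ → (∀ s s' : Puz.St S R (P.TokOf f), P.WReach s s' → P.WReach s' s) →
  Vols Z ζ V cu ca θ → (∀ x, U.wt V (U.U x) = U.wt V x) → (Z.e : F) ≠ 0 → (∀ x, w (U.U x) = w x) →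
  w (Z.g (P.oth f l₀)) = - w (Z.g l₀) → w (Z.g (P.oth g l₀)) = - w (Z.g l₀) →
  EWr Z f g l₀ E n₀ → P.FlipG (fun s => U.wt V (Z.g s)) (fun s => w (Z.g s)) f →
  ∃ (X X' : TW B) (n : ℕ), Ver U X X' n (Z.vt (P.oth g l₀) (Z.lev f)) ∧ EWr Z f g l₀ X n ∧ X.cap = E.cap ∧
    n ≤ n₀ + (2 * NW S R + 4) * (Z.e + h) ∧ dvolw V w X X' ≠ 0

section gauge

variable {Q : Type} [Group Q] {B : Lb.{0, v} Q} {F : Type} [CommRing F]

/-- Versions with the same ends have the same difference in all gauges. -/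
theorem gauge_dvolw [DecidableEq Q] (V : Vd B F) (c : F) (w : Q → F) {U : Up B} {X X' : TW B} {n : ℕ} {xs : Q}
    (h : Ver U X X' n xs) : dvolw (V.gauge c) w X X' = dvolw V w X X' := by
  unfold dvolw
  refine Finset.sum_congr rfl fun x hx => ?_
  have h1 := TW.mem_tok₀.1 hx
  have hx' : x ∈ X'.tok₀ := by rw [h.tok₀]; exact hx
  have h2 := TW.mem_tok₀.1 hx'
  rw [gauge_vol, gauge_vol, X.path_fin x h1.1 h1.2.1 h1.2.2, X'.path_fin x h2.1 h2.2.1 h2.2.2, h.fin hx]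
  ring

end gauge

end Pool.Agent.Lib.MP_688fd0_co.SQ3
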