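import Pool.Agent.Lib.MP_688fd0_co.SQ3.Words4
import Pool.Agent.Lib.MP_688fd0_co.SQ3.V.RealDefs
import Pool.Agent.Lib.MP_688fd0_co.SQ2.V.Short
import Pool.Agent.Lib.MP_688fd0_co.SQ2.V.RealA

/-!
REAL0, REAL A, REAL B: from flips in the big puzzle to versions of flat windows (in the language of `Up`).
-/

set_option autoImplicit false

namespace Pool.Agent.Lib.MP_688fd0_co.SQ3

open Pool.Agent.Lib.MP_688fd0_co.OSF Pool.Agent.Lib.MP_688fd0_co.SQ2
open V (Puz short shortR)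
open V.Puz (St)

universe u v w

section block

variable {Q : Type u} [Group Q] [DecidableEq Q] {B : Lb.{u, v} Q} {U : Up B}

omit [DecidableEq Q] in
theorem im_eq_lt {σ : Equiv.Perm Q} {z : Q} (hz : ∀ x, σ x = z * x) (L : Finset Q) : im σ L = lt z L := by
  ext x
  rw [mem_im, mem_lt]
  have h : σ⁻¹ x = z⁻¹ * x := by rw [Equiv.Perm.inv_eq_iff_eq, hz, mul_inv_cancel_left]
  rw [h]

omit [DecidableEq Q] in
/-- A power of `U` that is a left translation. -/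
theorem Up.pow_add_z {n : ℕ} {z : Q} (hz : ∀ x, (U.U ^ n) x = z * x) (k : ℕ) (x : Q) :
    (U.U ^ (n + k)) x = z * (U.U ^ k) x := by
  rw [add_comm, U.U_pow_add, hz]

/-- Two flat windows, one above the other. -/
theorem blk2 {X Y : TW B} {n m : ℕ} {xs : Q} (hX : Flat U X n xs) (hY : Flat U Y m xs)
    (hL : Y.L₀ = X.L₀) (h0 : Y.u₀ = X.u₀) (h1 : Y.u₁ = X.u₁) {z : Q}
    (hz : ∀ x, (U.U ^ n) x = z * x) :
    ∃ W : TW B, Flat U W (n + m) xs ∧ W.L₀ = X.L₀ ∧ W.u₀ = X.u₀ ∧ W.u₁ = X.u₁ ∧ W.cup = X.cup ∧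
      W.cap = Y.cap ∧ (∀ x ∈ X.tok₀, x ≠ xs → W.path x = X.path x ++ Y.path x) ∧
      W.path xs = X.path xs ++ ((Y.cup ++ X.cap) ++ Y.path xs) := by
  have hxs := TW.mem_tok₀.1 hX.xs_mem
  have htok : Y.tok₀ = X.tok₀ := by
    ext x; rw [TW.mem_tok₀, TW.mem_tok₀, hL, h0, h1]
  have c1 : X.L₁ = (Y.tr z).L₀ := by
    show X.L₁ = lt z Y.L₀
    rw [hX.top, hL, im_eq_lt hz]
  have c2 : X.w₀ = (Y.tr z).u₁ := by
    show X.w₀ = z * Y.u₁
    rw [hX.w₀, h1, hz]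
  have c3 : X.w₁ ≠ (Y.tr z).u₀ := by
    show X.w₁ ≠ z * Y.u₀
    rw [hX.w₁, h0, hz]
    exact fun h => hxs.2.1 (mul_left_cancel h)
  have him : ∀ (k : ℕ) (L : Finset Q), lt z (im (U.U ^ k) L) = im (U.U ^ (n + k)) L := fun k L => by
    rw [← im_eq_lt hz, ← im_mul, ← pow_add]
  -- the jump
  have hj : ∀ x ∈ X.tok₀, x ≠ xs → TW.jump X (Y.tr z) (X.f x) = z * x ∧
      TW.jumpl X (Y.tr z) (X.f x) = [] := by
    intro x hx hne
    have hx' := TW.mem_tok₀.1 hx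
    have e1 : X.f x ≠ (Y.tr z).u₀ := by
      show X.f x ≠ z * Y.u₀
      rw [hX.f x hx hne, h0, hz]
      exact fun h => hx'.2.1 (mul_left_cancel h)
    unfold TW.jump TW.jumpl
    rw [if_neg e1, if_neg e1, hX.f x hx hne, hz]
    exact ⟨rfl, rfl⟩
  have hjs : TW.jump X (Y.tr z) (X.f xs) = z * xs ∧
      TW.jumpl X (Y.tr z) (X.f xs) = Y.cup ++ X.cap := by
    have e1 : X.f xs = (Y.tr z).u₀ := by
      show X.f xs = z * Y.u₀
      rw [hX.f_xs, h0, hz]
    unfold TW.jump TW.jumpl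
    rw [if_pos e1, if_pos e1, hX.w₁, hz]
    exact ⟨rfl, rfl⟩
  refine ⟨X.comp (Y.tr z) c1 c2 c3, ⟨?_, ?_, ?_, ?_, ?_, ?_, ?_, ?_⟩, rfl, rfl, rfl, rfl, rfl, ?_, ?_⟩
  · have := hX.pos; omega
  · show lt z Y.L₁ = im (U.U ^ (n + m)) X.L₀
    rw [hY.top, him, hL]
  · rw [TW.comp_R, TW.tr_R, hX.reg, hY.reg, Finset.sum_range_add]
    congr 1
    rw [← Multiset.coe_mapAddMonoidHom, map_sum]
    refine Finset.sum_congr rfl fun i _ => ?_
    show Multiset.map (z * ·) (im (U.U ^ i) Y.L₀).val = _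
    rw [← lt_val, him, hL]
    rfl
  · exact hX.xs_mem
  · show z * Y.w₀ = (U.U ^ (n + m)) X.u₁
    rw [hY.w₀, h1, Up.pow_add_z hz]
  · show z * Y.w₁ = (U.U ^ (n + m)) xs
    rw [hY.w₁, Up.pow_add_z hz]
  · show z * Y.f (z⁻¹ * TW.jump X (Y.tr z) (X.f xs)) = (U.U ^ (n + m)) X.u₀
    rw [hjs.1, inv_mul_cancel_left, hY.f_xs, h0, Up.pow_add_z hz]
  · intro x hx hne
    show z * Y.f (z⁻¹ * TW.jump X (Y.tr z) (X.f x)) = (U.U ^ (n + m)) x
    rw [(hj x hx hne).1, inv_mul_cancel_left, hY.f x (by rw [htok]; exact hx) hne, Up.pow_add_z hz]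
  · intro x hx hne
    show X.path x ++ (TW.jumpl X (Y.tr z) (X.f x) ++ Y.path (z⁻¹ * TW.jump X (Y.tr z) (X.f x))) = _
    rw [(hj x hx hne).1, (hj x hx hne).2, inv_mul_cancel_left]
    rfl
  · show X.path xs ++ (TW.jumpl X (Y.tr z) (X.f xs) ++ Y.path (z⁻¹ * TW.jump X (Y.tr z) (X.f xs))) = _
    rw [hjs.1, hjs.2, inv_mul_cancel_left]

/-- Two versions, followed by the same flat window. -/
theorem Ver.comp_right {X X' Y : TW B} {n m : ℕ} {xs : Q} (h : Ver U X X' n xs) (hY : Flat U Y m xs)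
    (hL : Y.L₀ = X.L₀) (h0 : Y.u₀ = X.u₀) (h1 : Y.u₁ = X.u₁) {z : Q} (hz : ∀ x, (U.U ^ n) x = z * x) :
    ∃ W W' : TW B, Ver U W W' (n + m) xs ∧ W.L₀ = X.L₀ ∧ W.u₀ = X.u₀ ∧ W.u₁ = X.u₁ ∧ W.cup = X.cup ∧
      W.cap = Y.cap ∧ ∀ {F : Type w} [CommRing F] (V : Vd B F) (c : Q → F), dvolw V c W W' = dvolw V c X X' := by
  obtain ⟨W, w1, w2, w3, w4, w5, w6, w7, w8⟩ := blk2 h.flat hY hL h0 h1 hz
  obtain ⟨W', w1', w2', w3', w4', w5', w6', w7', w8'⟩ := blk2 h.flat' hY (hL.trans h.L₀.symm)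
    (h0.trans h.u₀.symm) (h1.trans h.u₁.symm) hz
  refine ⟨W, W', ⟨w1, w1', by rw [w2', h.L₀, w2], by rw [w3', h.u₀, w3], by rw [w4', h.u₁, w4],
    by rw [w5', h.cup, w5], by rw [w6', w6]⟩, w2, w3, w4, w5, w6, ?_⟩
  intro F _ V c
  have htok : W.tok₀ = X.tok₀ := by ext x; rw [TW.mem_tok₀, TW.mem_tok₀, w2, w3, w4]
  unfold dvolw
  rw [htok]
  refine Finset.sum_congr rfl fun x hx => ?_
  have hx' : x ∈ X'.tok₀ := by rw [h.tok₀]; exact hx
  have hm := TW.mem_tok₀.1 hx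
  have hm' := TW.mem_tok₀.1 hx'
  congr 1
  by_cases hxs : x = xs
  · subst hxs
    rw [w8, w8', vol_append V x (X'.path x), vol_append V x (X.path x), X.path_fin x hm.1 hm.2.1 hm.2.2,
      X'.path_fin x hm'.1 hm'.2.1 hm'.2.2, h.fin hx, h.cap]
    ring
  · rw [w7 x hx hxs, w7' x hx' hxs, vol_append, vol_append, X.path_fin x hm.1 hm.2.1 hm.2.2,
      X'.path_fin x hm'.1 hm'.2.1 hm'.2.2, h.fin hx]
    ring

end block

namespace Real

variable {S R : Type} [Fintype S] [DecidableEq S] {P : Puz S R} {Q : Type u} [Group Q] [DecidableEq Q]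
  {B : Lb.{u, v} Q} {U : Up B} (Z : Real P B U)

/-- The last level of the window. -/
def lastT (f : R) (K : ℕ) : ℕ := Z.lev f + Z.e * (K / Z.e + 1)

theorem lastT_dvd (f : R) (K : ℕ) : Z.e ∣ Z.lastT f K - Z.lev f := by
  unfold lastT
  rw [Nat.add_sub_cancel_left]
  exact Dvd.intro _ rfl

theorem le_lastT (f : R) (K : ℕ) : Z.lev f + K < Z.lastT f K := by
  unfold lastT
  have h1 := Nat.div_add_mod K Z.e
  have h2 := Nat.mod_lt K Z.he
  rw [mul_add, mul_one]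
  omega

theorem lastT_le (f : R) (K : ℕ) : Z.lastT f K - Z.lev f ≤ K + Z.e := by
  unfold lastT
  rw [Nat.add_sub_cancel_left, mul_add, mul_one]
  have h1 := Nat.mul_div_le K Z.e
  omega

variable {Z}

theorem pow_z {ζ : Q} (hz : ∀ x : Q, (U.U ^ Z.e) x = ζ * x) {n : ℕ} (hn : Z.e ∣ n) :
    ∃ z : Q, ∀ x : Q, (U.U ^ n) x = z * x := by
  obtain ⟨k, rfl⟩ := hn
  refine ⟨ζ ^ k, fun x => ?_⟩
  induction k generalizing x with
  | zero => rw [mul_zero, pow_zero, pow_zero, one_mul]; rfl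
  | succ k ih => rw [mul_add, mul_one, U.U_pow_add, hz, ih, pow_succ', mul_assoc]

/-- The data of the windows of one tree path. -/
def mkW {f g : R} {l₀ : S} {h : ℕ} (hH : ∀ r, Z.H r ≤ h) (hadj : P.Adj g f l₀) (m : List (R × S))
    (ok : P.Ok (P.st₁ f) m) (go : P.go (P.st₁ f) m = P.stb f g l₀) (K : ℕ) : WData Z where
  f := f
  g := g
  v := l₀
  t₀ := Z.lev f
  m := m
  tC := Z.lev f + Z.H f + K
  T := Z.lastT f (Z.H f + K + (m.length + 1) * (Z.e + h))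
  adj := hadj
  ht₀ := Nat.mod_eq_of_lt (Z.lev_lt f)
  ok := ok
  go := go
  hC := Nat.le_add_right _ _
  hT := by
    refine le_trans (endT_timed hH _ _) ?_
    have := Z.le_lastT f (Z.H f + K + (m.length + 1) * (Z.e + h))
    rw [List.length_cons]
    omega
  h0 := by
    have := Z.le_lastT f (Z.H f + K + (m.length + 1) * (Z.e + h))
    omega

theorem cupF_eq {f : R} {l₀ : S} (hv : P.On f l₀) (t : ℕ) :
    cupF Z f l₀ t = if l₀ = P.y f then (Z.gad f t).cup else B.rev (Z.gad f t).cup := by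
  unfold cupF
  by_cases h : l₀ = P.x f
  · rw [if_pos h, if_neg (by rw [h]; exact P.ne f)]
  · rcases hv with h1 | h1
    · exact absurd h1 h
    · rw [if_neg h, if_pos h1]

theorem Is.ew {Q : Type} [Group Q] [DecidableEq Q] {B : Lb.{0, v} Q} {U : Up B} {Z : Real P B U} {W : WData Z} {X : TW B} (hX : W.Is X) (h0 : W.t₀ = Z.lev W.f) (hd : Z.e ∣ W.T - W.t₀) :
    EWr Z W.f W.g W.v X (W.T - W.t₀) := by
  refine ⟨?_, ?_, ?_, ?_, hd, ?_⟩
  · rw [← h0]; exact hX.flat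
  · rw [← h0]; exact hX.L₀
  · rw [← h0]; exact hX.u₀
  · rw [← h0]; exact hX.u₁
  · rw [hX.cup, cupF_eq W.adj.2.1, h0]

end Real

open _root_.Pool.Agent.Lib.MP_688fd0_co.SQ3.Real

/-- REAL0. -/
theorem real0 : Real0S.{v} := by
  intro S R _ _ _ P Q _ _ B U Z ζ f g l₀ h _ hH hadj hr
  obtain ⟨m, hm, ok, go⟩ := shortR S R (P.TokOf f) P _ _ hr
  have hcard := card_tok P f
  obtain ⟨X, x1, x2, x3, x4, -, x6, -⟩ := flat.{0, v, 0} (Z := Z) f g l₀ hadj (t₀ := Z.lev f)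
    (Nat.mod_eq_of_lt (Z.lev_lt f))
    (Z.timed (Z.lev f + Z.H f) m) (val_timed m _ (P.st₁ f) ok) (by rw [runT_timed]; exact go)
    (T := Z.lastT f (Z.H f + m.length * (Z.e + h))) (by
      refine le_trans (endT_timed hH _ _) ?_
      have := Z.le_lastT f (Z.H f + m.length * (Z.e + h))
      omega) (by
      have := Z.le_lastT f (Z.H f + m.length * (Z.e + h))
      omega)
  refine ⟨X, _, ⟨x6, x1, x2, x3, Z.lastT_dvd _ _, by rw [x4, cupF_eq hadj.2.1]⟩, ?_⟩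
  refine le_trans (Z.lastT_le _ _) ?_
  have h1 := hH f
  have h2 : m.length ≤ NW S R := by unfold NW; omega
  have h3 := Nat.mul_le_mul_right (Z.e + h) h2
  rw [Nat.add_mul]
  omega

/-- Costs of words when waiting is free. -/
theorem wcs_eq {S R : Type} [Fintype S] [DecidableEq S] {P : Puz S R} {Q : Type u} [Group Q] [DecidableEq Q]
    {B : Lb.{u, v} Q} {U : Up B} {Z : Real P B U} {F : Type} [CommRing F] {V : Vd B F} (D : Z.VD V)
    {Tok : Type} [Fintype Tok] (d : Tok → F) (hgg : ∀ t, D.gg t = 0) (hca : ∀ r, D.ca r = D.cu (P.tau r))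
    (l : List (TL S R)) : ∀ (c : F) (t₀ : ℕ) (s : St S R Tok), c = D.cu s.1 →
      wcs D d c t₀ s l = P.wcost D.cu D.th d s (untime l) := by
  induction l with
  | nil => intro c t₀ s _; rfl
  | cons x l ih =>
    intro c t₀ s hc
    show wc D d c t₀ s x + wcs D d (D.ca x.r) _ (P.step x.r x.v s) l =
      P.scost D.cu D.th d s x.r x.v + P.wcost D.cu D.th d (P.step x.r x.v s) (untime l)
    rw [ih _ _ (P.step x.r x.v s) (hca x.r)]
    congr 1
    unfold wc Puz.scost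
    refine Finset.sum_congr rfl fun i _ => ?_
    congr 1
    unfold tc Puz.volr
    rw [hgg, hgg, hc]
    by_cases h : s.2 i = P.oth x.r x.v
    · rw [if_pos h, if_pos h]
      by_cases h1 : x.v = P.x x.r
      · by_cases h2 : x.v = P.x s.1
        · rw [if_pos h1, if_pos h2, if_pos h1, if_pos h2]; ring
        · rw [if_pos h1, if_neg h2, if_pos h1, if_neg h2]; ring
      · by_cases h2 : x.v = P.x s.1
        · rw [if_neg h1, if_pos h2, if_neg h1, if_pos h2]; ring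
        · rw [if_neg h1, if_neg h2, if_neg h1, if_neg h2]; ring
    · rw [if_neg h, if_neg h]; ring

/-- The drifts are zero in the gauge `n (up x) = 0`. -/
def vdA {S R : Type} [Fintype S] [DecidableEq S] {P : Puz S R} {Q : Type} [Group Q] [DecidableEq Q]
    {B : Lb.{0, v} Q} {U : Up B} {Z : Real P B U} {ζ : Q} {F : Type} [CommRing F] {V : Vd B F} {cu ca : R → F}
    {θ : R → S → F} (hv : Vols Z ζ V cu ca θ) (hn : ∀ x, V.n (U.up x) = 0) : Z.VD V where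
  gg := fun _ => 0
  om := fun _ => 0
  cu := cu
  ca := ca
  th := θ
  h_om := fun s t k => by rw [U.vol_str V hn, mul_zero]
  h_cu := hv.cup
  h_ca := hv.cap
  h_th := fun r t s ht hs => hv.path r t ht s hs


theorem w_pow {Q : Type u} {M : Type w} {σ : Equiv.Perm Q} {f : Q → M} (h : ∀ x, f (σ x) = f x) (t : ℕ) (x : Q) :
    f ((σ ^ t) x) = f x := by
  induction t with
  | zero => rfl
  | succ t ih => rw [pow_succ']; show f (σ ((σ ^ t) x)) = f x; rw [h, ih]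

/-- The drifts for labels which do not depend on the level. -/
def vdB {S R : Type} [Fintype S] [DecidableEq S] {P : Puz S R} {Q : Type} [Group Q] [DecidableEq Q]
    {B : Lb.{0, v} Q} {U : Up B} {Z : Real P B U} {ζ : Q} {F : Type} [CommRing F] {V : Vd B F} {cu ca : R → F}
    {θ : R → S → F} (hv : Vols Z ζ V cu ca θ) (homU : ∀ x, U.wt V (U.U x) = U.wt V x) : Z.VD V where
  gg := fun t => t
  om := fun s => U.wt V (Z.g s)
  cu := cu
  ca := ca
  th := θ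
  h_om := fun s t k => by
    have h1 : ∀ x, V.vol x (U.str k x) = k * U.wt V x := by
      induction k with
      | zero => intro x; show (0 : F) = _; rw [Nat.cast_zero, zero_mul]
      | succ k ih =>
        intro x
        rw [U.str_succ]
        show V.chi x * V.n (U.up x) + V.vol (x * B.q (U.up x)) (U.str k (U.U x)) = _
        rw [← U.hU, ih, homU, Nat.cast_succ]; unfold Up.wt; ring
    rw [h1]
    unfold vt
    rw [w_pow homU, Nat.cast_add]; ring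
  h_cu := hv.cup
  h_ca := hv.cap
  h_th := fun r t s ht hs => hv.path r t ht s hs

theorem mkW_T_le {S R : Type} [Fintype S] [DecidableEq S] {P : Puz S R} {Q : Type u} [Group Q] [DecidableEq Q]
    {B : Lb.{u, v} Q} {U : Up B} {Z : Real P B U} {f g : R} {l₀ : S} {h : ℕ} (hH : ∀ r, Z.H r ≤ h)
    (hadj : P.Adj g f l₀) (m : List (R × S)) (ok : P.Ok (P.st₁ f) m) (go : P.go (P.st₁ f) m = P.stb f g l₀) (K : ℕ) :
    (mkW hH hadj m ok go K).T - (mkW hH hadj m ok go K).t₀ ≤ K + (m.length + 2) * (Z.e + h) := by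
  refine le_trans (Z.lastT_le _ _) ?_
  have h1 := hH f
  have h2 : (m.length + 2) * (Z.e + h) = (m.length + 1) * (Z.e + h) + (Z.e + h) := by ring
  rw [h2]
  omega

/-- REAL A. -/
theorem realA : RealAS.{v} := by
  intro S R _ _ _ P Q _ _ B U Z ζ F _ V cu ca θ wt f g l₀ h E n₀ ⟨hz, _⟩ hH hadj hsym hv hn hca hd hE hflip
  have hcard := card_tok P f
  obtain ⟨l, l', ok, go, ok', go', hne, hl, hl'⟩ := short S R (P.TokOf f) F P cu θ
    (fun t : P.TokOf f => wt (Z.g t)) (P.st₁ f) (P.stb f g l₀) hsym (by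
      obtain ⟨l, l', h1, h2, h3, h4, h5⟩ := hflip
      exact ⟨l, l', h1, h2, h3, h4, h5⟩)
  obtain ⟨m, hm, okm, gom⟩ := shortR S R (P.TokOf f) P (P.st₁ f) (P.stb f g l₀) ⟨l, ok, go⟩
  set N := Nat.card R * Nat.card S ^ Nat.card (P.TokOf f) with hN
  set K := (2 * N + 1) * (Z.e + h) with hK
  let W : WData Z := mkW hH hadj m okm gom K
  have hb : ∀ l : List (R × S), l.length ≤ 2 * N + 1 → Z.endT W.t₁ (Z.timed W.t₁ l) ≤ W.tC := by
    intro l hl
    refine le_trans (endT_timed hH _ _) ?_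
    have := Nat.mul_le_mul_right (Z.e + h) hl
    show Z.lev f + Z.H f + _ ≤ Z.lev f + Z.H f + K
    omega
  obtain ⟨X, X', hX, hver, hdv⟩ := W.two.{0, v, 0} (Z.timed W.t₁ l) (Z.timed W.t₁ l')
    (val_timed l W.t₁ (P.st₁ f) ok) (by rw [runT_timed]; exact go) (hb l hl)
    (val_timed l' W.t₁ (P.st₁ f) ok') (by rw [runT_timed]; exact go') (hb l' hl')
  have hEW : EWr Z f g l₀ X (W.T - W.t₀) := Is.ew (W := W) hX rfl (Z.lastT_dvd _ _)
  obtain ⟨z, hz'⟩ := pow_z hz hEW.dvd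
  obtain ⟨Y, Y', y1, y2, y3, y4, y5, y6, y7⟩ := hver.comp_right (m := n₀) (Y := E) hE.flat
    (by rw [hE.L₀, hEW.L₀]) (by rw [hE.u₀, hEW.u₀]) (by rw [hE.u₁, hEW.u₁]) hz'
  refine ⟨Y, Y', W.T - W.t₀ + n₀, y1, ⟨y1.flat, by rw [y2, hEW.L₀], by rw [y3, hEW.u₀], by rw [y4, hEW.u₁],
    Nat.dvd_add hEW.dvd hE.dvd, by rw [y5, hEW.cup]⟩, y6, ?_, ?_⟩
  · have h1 := mkW_T_le hH hadj m okm gom K
    have h2 : K + (m.length + 2) * (Z.e + h) ≤ (2 * NW S R + 4) * (Z.e + h) := by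
      rw [hK, ← Nat.add_mul]
      refine Nat.mul_le_mul_right _ ?_
      unfold NW
      omega
    have h3 : W.T - W.t₀ ≤ (2 * NW S R + 4) * (Z.e + h) := le_trans h1 h2
    omega
  · rw [y7 V wt, hdv V (vdA hv hn) wt (fun s => wt (Z.g s)) (fun s => w_pow hd _ _)]
    have e1 : ∀ w, wcs (vdA hv hn) (fun i : P.TokOf f => wt (Z.g i.1)) (ca f) W.t₁ (P.st₁ f) (Z.timed W.t₁ w) =
        P.wcost cu θ (fun t : P.TokOf f => wt (Z.g t)) (P.st₁ f) w := by
      intro w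
      have := wcs_eq (vdA hv hn) (fun i : P.TokOf f => wt (Z.g i.1)) (fun _ => rfl) hca (Z.timed W.t₁ w) (ca f)
        W.t₁ (P.st₁ f) (hca f)
      rw [untime_timed] at this
      exact this
    intro h0
    apply hne
    have e2 := e1 l
    have e3 := e1 l'
    have h0' : wcs (vdA hv hn) (fun i : P.TokOf f => wt (Z.g i.1)) (ca f) W.t₁ (P.st₁ f) (Z.timed W.t₁ l') -
        wcs (vdA hv hn) (fun i : P.TokOf f => wt (Z.g i.1)) (ca f) W.t₁ (P.st₁ f) (Z.timed W.t₁ l) -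
        ((0 : F) - 0) * Gam (vdA hv hn) (fun i : P.TokOf f => wt (Z.g i.1)) (P.stb f g l₀) f l₀ = 0 := h0
    rw [e2, e3] at h0'
    linear_combination -h0'

/-- REAL B. -/
theorem realB : RealBS.{v} := by
  intro S R _ _ _ P Q _ _ B U Z ζ F _ V cu ca θ wt f g l₀ h E n₀ ⟨hz, _⟩ hH hadj hsym hv homU he hd hd₁ hd₂ hE hflip
  have hcard := card_tok P f
  obtain ⟨s, r', v, hr, hadj', hgam⟩ := hflip
  obtain ⟨w₁, hw₁, ok₁, go₁⟩ := shortR S R (P.TokOf f) P _ _ hr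
  have hr2 : P.WReach (P.step r' v s) (P.stb f g l₀) := by
    have h1 : P.WReach (P.st₁ f) (P.step r' v s) := hr.trans (Puz.WReach.step hadj')
    have h2 : P.WReach (P.stb f g l₀) (P.st₁ f) := by
      have := Puz.WReach.step (P := P) (s := P.stb f g l₀) hadj
      rwa [P.stb_step hadj] at this
    exact (hsym _ _ h1).trans (hsym _ _ h2)
  obtain ⟨w₂, hw₂, ok₂, go₂⟩ := shortR S R (P.TokOf f) P _ _ hr2
  obtain ⟨m, hm, okm, gom⟩ := shortR S R (P.TokOf f) P (P.st₁ f) (P.stb f g l₀)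
    ((hr.trans (Puz.WReach.step hadj')).trans hr2)
  set N := Nat.card R * Nat.card S ^ Nat.card (P.TokOf f) with hN
  set K := (2 * N + 2) * (Z.e + h) with hK
  let W : WData Z := mkW hH hadj m okm gom K
  -- the two words
  set A := Z.timed W.t₁ w₁ with hA
  set tA := Z.endT W.t₁ A with htA
  set x : TL S R := ⟨r', v, Z.nx tA r'⟩ with hx
  set C := Z.timed (x.t + Z.H r') w₂ with hC
  have hxC : Z.timed tA ((r', v) :: w₂) = x :: C := rfl
  have hrA : runT P A (P.st₁ f) = s := by rw [hA, runT_timed]; exact go₁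
  have hvA : Z.Val W.t₁ (P.st₁ f).1 A := val_timed w₁ W.t₁ (P.st₁ f) ok₁
  have hvC : Z.Val tA s.1 (x :: C) := by
    rw [← hxC]
    exact val_timed ((r', v) :: w₂) tA s ⟨hadj', ok₂⟩
  have hrC : runT P (x :: C) s = P.stb f g l₀ := by
    rw [← hxC, runT_timed]; exact go₂
  have hvC' : Z.Val tA s.1 ((x :: C).map (TL.sh Z.e)) := by
    have h1 := val_sh 1 (x :: C) tA s.1 hvC
    rw [mul_one] at h1
    exact val_le _ (Nat.le_add_right _ _) h1
  have htA' : tA ≤ W.t₁ + N * (Z.e + h) := by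
    refine le_trans (endT_timed hH _ _) ?_
    have := Nat.mul_le_mul_right (Z.e + h) hw₁
    omega
  have hend : Z.endT tA (x :: C) ≤ W.t₁ + (2 * N + 1) * (Z.e + h) := by
    rw [← hxC]
    refine le_trans (endT_timed hH _ _) ?_
    have h1 := Nat.mul_le_mul_right (Z.e + h) hw₂
    have h2 : (2 * N + 1) * (Z.e + h) = N * (Z.e + h) + (N * (Z.e + h) + (Z.e + h)) := by ring
    rw [List.length_cons, Nat.add_mul, one_mul, h2]
    omega
  have hend' : Z.endT tA ((x :: C).map (TL.sh Z.e)) = Z.endT tA (x :: C) + Z.e := endT_sh Z.e tA (x :: C)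
  have htC : W.tC = W.t₁ + K := rfl
  have hK2 : K = (2 * N + 1) * (Z.e + h) + (Z.e + h) := by rw [hK]; ring
  obtain ⟨X, X', hX, hver, hdv⟩ := W.two.{0, v, 0} (A ++ x :: C) (A ++ (x :: C).map (TL.sh Z.e))
    (val_append _ _ W.t₁ (P.st₁ f) hvA (by rw [hrA]; exact hvC)) (by rw [runT_append]; exact hrA ▸ hrC)
    (by rw [endT_append, ← htA]; omega)
    (val_append _ _ W.t₁ (P.st₁ f) hvA (by rw [hrA]; exact hvC')) (by
      rw [runT_append, runT_sh]; exact hrA ▸ hrC)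
    (by rw [endT_append, ← htA, hend']; omega)
  have hEW : EWr Z f g l₀ X (W.T - W.t₀) := Is.ew (W := W) hX rfl (Z.lastT_dvd _ _)
  obtain ⟨z, hz'⟩ := pow_z hz hEW.dvd
  obtain ⟨Y, Y', y1, y2, y3, y4, y5, y6, y7⟩ := hver.comp_right (m := n₀) (Y := E) hE.flat
    (by rw [hE.L₀, hEW.L₀]) (by rw [hE.u₀, hEW.u₀]) (by rw [hE.u₁, hEW.u₁]) hz'
  refine ⟨Y, Y', W.T - W.t₀ + n₀, y1, ⟨y1.flat, by rw [y2, hEW.L₀], by rw [y3, hEW.u₀], by rw [y4, hEW.u₁],
    Nat.dvd_add hEW.dvd hE.dvd, by rw [y5, hEW.cup]⟩, y6, ?_, ?_⟩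
  · have h1 := mkW_T_le hH hadj m okm gom K
    have h2 : K + (m.length + 2) * (Z.e + h) ≤ (2 * NW S R + 4) * (Z.e + h) := by
      rw [hK, ← Nat.add_mul]
      refine Nat.mul_le_mul_right _ ?_
      unfold NW
      omega
    have h3 : W.T - W.t₀ ≤ (2 * NW S R + 4) * (Z.e + h) := le_trans h1 h2
    omega
  · set D := vdB hv homU with hD
    have hG : ∀ t, D.gg (t + Z.e) = D.gg t + Z.e := by
      intro t
      show ((t + Z.e : ℕ) : F) = (t : F) + Z.e
      rw [Nat.cast_add]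
    have h1 := hdv V D wt (fun s => wt (Z.g s)) (fun s => w_pow hd _ _)
    have h2 : wcs D (fun i : P.TokOf f => wt (Z.g i.1)) (D.ca f) W.t₁ (P.st₁ f)
        (A ++ (x :: C).map (TL.sh Z.e)) = wcs D (fun i : P.TokOf f => wt (Z.g i.1)) (D.ca f) W.t₁
        (P.st₁ f) (A ++ x :: C) + Z.e * Gam D (fun i : P.TokOf f => wt (Z.g i.1)) s r' v := by
      rw [wcs_append, wcs_append, hrA, wcs_wait D _ hG _ _ s x C hadj']
      ring
    have h3 : D.gg (Z.endT W.t₁ (A ++ (x :: C).map (TL.sh Z.e))) - D.gg (Z.endT W.t₁ (A ++ x :: C)) =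
        Z.e := by
      rw [endT_append, endT_append, ← htA, hend', hG]; ring
    have h4 : Gam D (fun i : P.TokOf f => wt (Z.g i.1)) (P.stb f g l₀) f l₀ =
        ∑ s, wt (Z.g s) * U.wt V (Z.g s) :=
      gam_stb (fun s => U.wt V (Z.g s)) (fun s => wt (Z.g s)) hadj hd₁ hd₂
    rw [y7 V wt, h1]
    have h5 : wcs D (fun i : P.TokOf f => wt (Z.g i.1)) (D.ca f) W.t₁ (P.st₁ f)
        (A ++ (x :: C).map (TL.sh Z.e)) - wcs D (fun i : P.TokOf f => wt (Z.g i.1)) (D.ca f) W.t₁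
        (P.st₁ f) (A ++ x :: C) - (D.gg (Z.endT W.t₁ (A ++ (x :: C).map (TL.sh Z.e))) -
          D.gg (Z.endT W.t₁ (A ++ x :: C))) * Gam D (fun i : P.TokOf f => wt (Z.g i.1))
            (P.stb f g l₀) f l₀ =
        Z.e * (P.gam (fun s => U.wt V (Z.g s)) (fun t : P.TokOf f => wt (Z.g t.1)) s r' v -
          ∑ s, wt (Z.g s) * U.wt V (Z.g s)) := by
      rw [h2, h3, h4]
      show _ = Z.e * (Gam D (fun i : P.TokOf f => wt (Z.g i.1)) s r' v - _)
      ring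
    show wcs D (fun i : P.TokOf f => wt (Z.g i.1)) (D.ca f) W.t₁ (P.st₁ f)
        (A ++ (x :: C).map (TL.sh Z.e)) - wcs D (fun i : P.TokOf f => wt (Z.g i.1)) (D.ca f) W.t₁
        (P.st₁ f) (A ++ x :: C) - (D.gg (Z.endT W.t₁ (A ++ (x :: C).map (TL.sh Z.e))) -
          D.gg (Z.endT W.t₁ (A ++ x :: C))) * Gam D (fun i : P.TokOf f => wt (Z.g i.1))
            (P.stb f g l₀) f l₀ ≠ 0
    rw [h5]
    exact mul_ne_zero he (sub_ne_zero.2 hgam)

end Pool.Agent.Lib.MP_688fd0_co.SQ3
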