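import Pool.Agent.Lib.MP_688fd0_co.SQ3.V.Loc
import Pool.Agent.Lib.MP_688fd0_co.SQ3.V.RealA
import Pool.Agent.Lib.MP_688fd0_co.SQ2.V.FC1
import Pool.Agent.Lib.MP_688fd0_co.SQ2.V.Ret

/-!
CMA: a commuting label, case I (`chi ≠ 1` on the steps up).
-/

set_option autoImplicit false

namespace Pool.Agent.Lib.MP_688fd0_co.SQ3

open Pool.Agent.Lib.MP_688fd0_co.OSF Pool.Agent.Lib.MP_688fd0_co.SQ2
open V (Puz)

namespace CMA

theorem finSy {Q : Type} [Group Q] {B : Lb.{0, 0} Q} {U : Up B} {P D : Subgroup Q} {z : Q} {F : Finset Q} {e : ℕ}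
    (hF : Frt U P D z F e) : Finite (Sy hF) := by
  have : NeZero e := ⟨hF.he.ne'⟩
  have : Fintype (Multiplicative (ZMod e)) := inferInstanceAs (Fintype (ZMod e))
  infer_instance

variable {Q : Type} [Group Q] [DecidableEq Q] {B : Lb.{0, 0} Q} {U : Up B} {P D : Subgroup Q} {z : Q} {F : Finset Q}
  {e : ℕ}

omit [DecidableEq Q] in
theorem Xc_one {hF : Frt U P D z F e} {R : Type} [CommRing R] (V : Vd B R) (hal : V.chi z ^ e = 1) (s : F) :
    Xc V (1 : Sy hF) = 1 := by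
  have h1 := Xc_eq V hal s (1 : Sy hF) 0 (by rw [Nat.cast_zero]; rfl)
  rw [← h1, uu_eq (1 : Sy hF) 0 (by rw [Nat.cast_zero]; rfl) s, one_smul, pow_zero]
  show V.chi ((s : Q) * (s : Q)⁻¹) = 1
  rw [mul_inv_cancel, map_one]

omit [DecidableEq Q] in
/-- The character of `gen s` is the character of the step up at `s`. -/
theorem Xc_cj (h : FrD U P D z F e) {R : Type} [CommRing R] (V : Vd B R) (hal : V.chi z ^ e = 1) (s : F) :
    Xc V (h.cj (s : Q)) = V.chi (B.q (U.up (s : Q))) := by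
  have h1 := Xc_eq V hal s (h.cj (s : Q)) 1 (by rw [Nat.cast_one, h.cj_lv])
  have h2 : V.chi (s : Q) * V.chi (s : Q)⁻¹ = 1 := by rw [← map_mul, mul_inv_cancel, map_one]
  have h3 : U.U (s : Q) = s * B.q (U.up s) := (U.hU s)
  rw [← h1, uu_eq (h.cj (s : Q)) 1 (by rw [Nat.cast_one, h.cj_lv]) s, h.cj_self, pow_one, h3, map_mul, map_mul]
  linear_combination (V.chi (B.q (U.up (s : Q)))) * h2

omit [DecidableEq Q] in
theorem chi_ne {R : Type} [Field R] (V : Vd B R) (x : Q) : V.chi x ≠ 0 := by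
  intro h
  have h2 : V.chi x * V.chi x⁻¹ = 1 := by rw [← map_mul, mul_inv_cancel, map_one]
  rw [h, zero_mul] at h2
  exact zero_ne_one h2

end CMA

open CMA SQ2.V SQ2.V.FC1

/-- CMA. -/
theorem cma (key : V.KeyAS) : CMAS := by
  intro Q _ _ B U P D z F e h ι G hm f g l₀ p V w hL i b p₀ p₁ hC hI s t hs hon hoth ht hwt E n₀ hE
  have : Finite ι := hL.finι
  have : Finite (Sy h.toFrt) := finSy h.toFrt
  have : Fact p.Prime := ⟨hL.prime⟩
  have hal : V.chi z ^ e = 1 := by rw [hL.al, one_pow]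
  have hn := hI.up
  have hvols := bigVols G V hal
  have hfin : Finite (Rg ι (Sy h.toFrt)) := inferInstance
  have hsym : ∀ s s' : Puz.St F (Rg ι (Sy h.toFrt)) ((bigP G).TokOf f),
      (bigP G).WReach s s' → (bigP G).WReach s' s := ret _ _ _ (bigP G) (bigHom G)
  -- the rungs of the label
  have hT : ∀ k : Sy h.toFrt, (bigP G).T ⟨i, k⟩ = 1 := by
    intro k
    apply Equiv.ext
    intro s
    show k • (G i).T (k⁻¹ • s) = s
    rw [hC.T, Equiv.Perm.one_apply, smul_inv_smul]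
  have hθ : ∀ (k : Sy h.toFrt) (s : F), ¬ (bigP G).On ⟨i, k⟩ s →
      Xc V k * V.vol ((k⁻¹ • s : F) : Q) ((G i).X.path ((k⁻¹ • s : F) : Q)) = 0 := by
    intro k s hs
    rw [hC.path (ZMod p) V hn (k⁻¹ • s), mul_zero]
    · intro h0
      apply hs
      left
      show s = k • (G i).x
      rw [← h0, smul_inv_smul]
    · intro h0
      apply hs
      right
      show s = k • (G i).y
      rw [← h0, smul_inv_smul]
  have hx1 : (bigP G).x ⟨i, 1⟩ = (G i).x := one_smul _ _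
  have hon1 : (bigP G).On ⟨i, 1⟩ (G i).x := Or.inl hx1.symm
  have hoth1 : (bigP G).oth ⟨i, 1⟩ (G i).x = (G i).y := by
    unfold Puz.oth
    rw [if_pos hx1.symm]
    show (1 : Sy h.toFrt) • (G i).y = (G i).y
    rw [one_smul]
  have hadj : (bigP G).Adj s.1 ⟨i, 1⟩ (G i).x := ⟨hon, hon1, by rw [hoth1]; exact hoth⟩
  have ht1 := tau_on (bigP G) (hT 1) hon1
  have hδ : (G i).δ • (G i).x = (G i).x := by rw [hC.del, h.cj_self]
  have hflip : (bigP G).Flip (fun r => Xc V r.h * V.vol (G r.i).x (G r.i).X.cup)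
      (fun r s => Xc V r.h * V.vol ((r.h⁻¹ • s : F) : Q) ((G r.i).X.path ((r.h⁻¹ • s : F) : Q)))
      (fun s => w (s : Q)) f g l₀ := by
    refine key F (Rg ι (Sy h.toFrt)) (ZMod p) (bigP G) _ _ _ f g l₀ s t (G i).x ⟨i, 1⟩ hsym hL.adj hs hadj
      (hT 1) (hT _) ?_ (by rw [hoth1]; exact ht) hwt ?_
    · intro L hL'
      have h2 : ¬ (bigP G).On ((bigP G).tau ⟨i, 1⟩) L := by
        intro h3
        apply hL'
        rw [on_iff (bigP G) hon1]
        rw [on_iff (bigP G) ht1.1, ht1.2] at h3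
        exact h3
      exact (hθ 1 L hL').trans (hθ ((1 : Sy h.toFrt) * (G i).δ) L h2).symm
    · have v0 : (bigP G).volr (fun r => Xc V r.h * V.vol (G r.i).x (G r.i).X.cup) ⟨i, 1⟩ (G i).x =
          V.vol (G i).x (G i).X.cup := by
        unfold Puz.volr
        rw [if_pos hx1.symm]
        show Xc V (1 : Sy h.toFrt) * V.vol (G i).x (G i).X.cup = _
        rw [Xc_one V hal (G i).x, one_mul]
      obtain ⟨α, hα⟩ : ∃ α, α = V.chi (B.q (U.up ((G i).x : Q))) := ⟨_, rfl⟩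
      have hα1 : α - 1 ≠ 0 := sub_ne_zero.2 (hα ▸ hI.al _)
      have hξ : Xc V (G i).δ = α := by
        rw [hC.del, hα]
        exact Xc_cj h V hal (G i).x
      have hx2 : (bigP G).x ⟨i, (1 : Sy h.toFrt) * (G i).δ⟩ = (G i).x := by
        show ((1 : Sy h.toFrt) * (G i).δ) • (G i).x = (G i).x
        rw [one_mul, hδ]
      have hx3 : (bigP G).x ⟨i, (1 : Sy h.toFrt) * (G i).δ * (G i).δ⟩ = (G i).x := by
        show ((1 : Sy h.toFrt) * (G i).δ * (G i).δ) • (G i).x = (G i).x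
        rw [one_mul, mul_smul, hδ, hδ]
      have t1 : (bigP G).tau ⟨i, 1⟩ = ⟨i, (1 : Sy h.toFrt) * (G i).δ⟩ := rfl
      have t2 : (bigP G).tau ((bigP G).tau ⟨i, 1⟩) = ⟨i, (1 : Sy h.toFrt) * (G i).δ * (G i).δ⟩ := rfl
      have v1 : (bigP G).volr (fun r => Xc V r.h * V.vol (G r.i).x (G r.i).X.cup) ((bigP G).tau ⟨i, 1⟩) (G i).x =
          α * V.vol (G i).x (G i).X.cup := by
        unfold Puz.volr
        rw [t1, if_pos hx2.symm]
        show Xc V ((1 : Sy h.toFrt) * (G i).δ) * V.vol (G i).x (G i).X.cup = _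
        rw [one_mul, hξ]
      have v2 : (bigP G).volr (fun r => Xc V r.h * V.vol (G r.i).x (G r.i).X.cup)
          ((bigP G).tau ((bigP G).tau ⟨i, 1⟩)) (G i).x = α * α * V.vol (G i).x (G i).X.cup := by
        unfold Puz.volr
        rw [t2, if_pos hx3.symm]
        show Xc V ((1 : Sy h.toFrt) * (G i).δ * (G i).δ) * V.vol (G i).x (G i).X.cup = _
        rw [one_mul, Xc_mul V hal (G i).x, hξ]
      rw [v0, v1, v2]
      have hvol : V.vol (G i).x (G i).X.cup ≠ 0 := by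
        rw [hC.cup (ZMod p) V hn]
        exact mul_ne_zero (chi_ne V _) hI.nb
      intro h0
      have h3 : (α - 1) * (α - 1) * V.vol (G i).x (G i).X.cup = 0 := by linear_combination h0
      exact (mul_ne_zero (mul_ne_zero hα1 hα1) hvol) h3
  have : Fintype (Rg ι (Sy h.toFrt)) := Fintype.ofFinite _
  obtain ⟨X, X', n, h1, h2, h3, h4, h5⟩ := realA F (Rg ι (Sy h.toFrt)) (bigP G) Q B U (bigZ G) (z ^ e) (ZMod p) V _ _ _
    w f g l₀ hm E n₀ h.toFrt.Per (fun r => hL.ht r.i) hL.adj hsym hvols hn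
    (fun r => big_ca G V hal (fun i => hL.cap i V hn hal) r) hL.wl hE hflip
  refine ⟨X, X', n, h1, h2, ?_, h5⟩
  refine h4.trans ?_
  have : (bigZ G).e = e := rfl
  rw [this]
  omega

end Pool.Agent.Lib.MP_688fd0_co.SQ3
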