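import Pool.Agent.Lib.MP_688fd0_co.SQ3.V.FlipCases
import Pool.Agent.Lib.MP_688fd0_co.SQ3.V.CMA

/-!
FLIP: a commuting label, case I, the first tour.
-/

set_option autoImplicit false

namespace Pool.Agent.Lib.MP_688fd0_co.SQ3

open Pool.Agent.Lib.MP_688fd0_co.OSF Pool.Agent.Lib.MP_688fd0_co.SQ2
open V (Puz)

namespace C1F

section

variable {Q : Type} [Group Q] [DecidableEq Q] {B : Lb.{0, 0} Q} {a : B.L} {eps : Q →* ℤˣ} {D : Subgroup Q} {z : Q}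
  {k c W : ℕ} {H : Hyp B a eps D z k} {d cl : Q → Bool} {ι : Type} {x : ι → Q} {b₁ b₂ : ι → B.L} {j : ι → ℕ}
  {F : ι → Finset Q} {C : Ctx B a H.up D k c W d cl x b₁ b₂ j F} {i : ι}

/-- The ends of the cup rung. -/
theorem not_on (P : PB H C i) (G₂ G₃ G₄ : BGad (H.frd (C.fr i)).toFrt) {u : F i} (h0 : u ≠ P.l₀) (h1 : u ≠ P.l₁) :
    ¬ (bigP (fam P G₂ G₃ G₄)).On P.f u := by
  rintro (h | h)
  · exact h0 (h.trans (P.xf G₂ G₃ G₄))
  · exact h1 h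

/-- The cap, the commuting rung at an end of the cap. -/
theorem stepA (cma : CMAS) (P : PB H C i) {p : ℕ} (hp : p.Prime) (hkp : 4 * k < p) (V : Vd B (ZMod p))
    (hz : V.chi z = 1) {b : B.L} (hI : CaseI H.up V b) {G : BGad (H.frd (C.fr i)).toFrt} {p₀ p₁ : ℕ}
    (hC : COK (H.frd (C.fr i)) G b p₀ p₁) (hO : OKG (H.frd (C.fr i)) (hgt (F i).card (2 * c + 2 * k)) G)
    (hv : G.x = P.l₀ ∨ G.x = P.l₂) (h0 : G.y ≠ P.l₀) (h2 : G.y ≠ P.l₂) (hc : cl (G.y : Q) = false) :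
    P.Suc V (wcl cl d false) := by
  have hp1 : Fact (1 < p) := ⟨hp.one_lt⟩
  refine ⟨G, P.G₀, P.G₀, hO, P.ok₀, P.ok₀, ?_⟩
  have hLC := P.lc hO P.ok₀ P.ok₀ hp hkp V hz false
  have hreach := SQ3.V.r1 (P.ret G P.G₀ P.G₀) (P.adj G P.G₀ P.G₀)
  have hothg := P.othg G P.G₀ P.G₀
  have hothf := P.othf G P.G₀ P.G₀
  have hxg := P.xg G P.G₀ P.G₀
  obtain ⟨t, ht, hwt⟩ : ∃ t : (bigP (fam P G P.G₀ P.G₀)).TokOf P.f,
      ((bigP (fam P G P.G₀ P.G₀)).stb P.f P.g P.l₀).2 t = G.y ∧ (wcl cl d false ((t : F i) : Q) : ZMod p) ≠ 0 := by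
    by_cases h1 : G.y = P.l₁
    · refine ⟨⟨P.l₂, not_on P G P.G₀ P.G₀ P.n₀₂ P.n₁₂⟩, ?_, wcl_ne P.cl₂⟩
      show (if P.l₂ = (bigP (fam P G P.G₀ P.G₀)).oth P.g P.l₀ then (bigP (fam P G P.G₀ P.G₀)).oth P.f P.l₀ else P.l₂)
        = G.y
      rw [hothg, if_pos rfl, hothf, h1]
    · refine ⟨⟨G.y, not_on P G P.G₀ P.G₀ h0 h1⟩, ?_, wcl_ne hc⟩
      show (if G.y = (bigP (fam P G P.G₀ P.G₀)).oth P.g P.l₀ then (bigP (fam P G P.G₀ P.G₀)).oth P.f P.l₀ else G.y)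
        = G.y
      rw [hothg, if_neg h2]
  refine cma Q B H.up eps.ker D z (F i) k (H.frd (C.fr i)) (Fin 5) (fam P G P.G₀ P.G₀) _ P.f P.g P.l₀ p V
    (wcl cl d false) hLC 2 b p₀ p₁ hC hI ((bigP (fam P G P.G₀ P.G₀)).stb P.f P.g P.l₀) t hreach ?_ ?_ ht hwt
  · show (bigP (fam P G P.G₀ P.G₀)).On P.g G.x
    rcases hv with h | h
    · rw [h]; exact P.ong G P.G₀ P.G₀
    · rw [h]; exact P.ong₂ G P.G₀ P.G₀
  · show (bigP (fam P G P.G₀ P.G₀)).oth P.g G.x ≠ G.y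
    rcases hv with h | h
    · rw [h, hothg]; exact fun h' => h2 h'.symm
    · rw [h]
      unfold Puz.oth
      rw [hxg, if_neg P.n₀₂]
      exact fun h' => h0 h'.symm

/-- All tokens home, the commuting rung from the centre to the second leaf. -/
theorem stepB (cma : CMAS) (P : PB H C i) {p : ℕ} (hp : p.Prime) (hkp : 4 * k < p) (V : Vd B (ZMod p))
    (hz : V.chi z = 1) {b : B.L} (hI : CaseI H.up V b) {G : BGad (H.frd (C.fr i)).toFrt} {p₀ p₁ : ℕ}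
    (hC : COK (H.frd (C.fr i)) G b p₀ p₁) (hO : OKG (H.frd (C.fr i)) (hgt (F i).card (2 * c + 2 * k)) G)
    (hx : G.x = P.l₀) (hy : G.y = P.l₂) : P.Suc V (wcl cl d false) := by
  have hp1 : Fact (1 < p) := ⟨hp.one_lt⟩
  refine ⟨G, P.G₀, P.G₀, hO, P.ok₀, P.ok₀, ?_⟩
  have hLC := P.lc hO P.ok₀ P.ok₀ hp hkp V hz false
  have hothf := P.othf G P.G₀ P.G₀
  have hT : (bigP (fam P G P.G₀ P.G₀)).T ⟨2, 1⟩ = 1 := by
    apply Equiv.ext
    intro s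
    show (1 : Sy (H.frd (C.fr i)).toFrt) • G.T ((1 : Sy (H.frd (C.fr i)).toFrt)⁻¹ • s) = s
    rw [hC.T, Equiv.Perm.one_apply, smul_inv_smul]
  have hx1 : (bigP (fam P G P.G₀ P.G₀)).x ⟨2, 1⟩ = G.x := one_smul _ _
  have hon1 : (bigP (fam P G P.G₀ P.G₀)).On ⟨2, 1⟩ P.l₀ := Or.inl (by rw [hx1, hx])
  have hoth1 : (bigP (fam P G P.G₀ P.G₀)).oth ⟨2, 1⟩ P.l₀ = P.l₂ := by
    unfold Puz.oth
    rw [hx1, if_pos hx.symm, ← hy]
    show (1 : Sy (H.frd (C.fr i)).toFrt) • G.y = G.y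
    rw [one_smul]
  have hadj : (bigP (fam P G P.G₀ P.G₀)).Adj P.f ⟨2, 1⟩ P.l₀ :=
    ⟨P.onf G P.G₀ P.G₀, hon1, by rw [hoth1, hothf]; exact P.n₁₂.symm⟩
  have ht1 := SQ2.V.FC1.tau_on (bigP (fam P G P.G₀ P.G₀)) hT hon1
  have hreach := SQ3.V.home (P.ret G P.G₀ P.G₀) hadj hT ht1.1 ht1.2
  refine cma Q B H.up eps.ker D z (F i) k (H.frd (C.fr i)) (Fin 5) (fam P G P.G₀ P.G₀) _ P.f P.g P.l₀ p V
    (wcl cl d false) hLC 2 b p₀ p₁ hC hI (P.f, fun t => (t : F i))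
    ⟨P.l₂, not_on P G P.G₀ P.G₀ P.n₀₂ P.n₁₂⟩ hreach ?_ ?_ hy.symm (wcl_ne P.cl₂)
  · show (bigP (fam P G P.G₀ P.G₀)).On P.f G.x
    rw [hx]; exact P.onf G P.G₀ P.G₀
  · show (bigP (fam P G P.G₀ P.G₀)).oth P.f G.x ≠ G.y
    rw [hx, hothf, hy]; exact P.n₁₂.symm

end

/-- The inverse label commutes, too. -/
theorem com_inv {Q : Type} [Group Q] {B : Lb.{0, 0} Q} {U : Up B} {b : B.L}
    (h : ∀ x, U.U (x * B.q b) = U.U x * B.q b) (x : Q) : U.U (x * B.q (B.inv b)) = U.U x * B.q (B.inv b) := by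
  have h1 := h (x * (B.q b)⁻¹)
  rw [inv_mul_cancel_right] at h1
  rw [B.q_inv, h1, mul_inv_cancel_right]

end C1F

open C1F

theorem case_c1f (gc : CGadS.{0}) (cma : CMAS) : CaseC1FS := by
  intro Q _ _ B a eps D z k c W H d cl ι x b₁ b₂ j F C P hlam p hp hkp V hz hcl b hcom hb₁ hb₂ hI hI'
  -- the commuting rung at the centre, class `false`
  have key : ∀ (i : ι) (b' : B.L), (∀ x, H.up.U (x * B.q b') = H.up.U x * B.q b') → B.q b' ≠ B.q a →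
      B.q b' ≠ (B.q a)⁻¹ → CaseI H.up V b' → cl (x i * B.q b') = false → (P i).Suc V (wcl cl d false) := by
    intro i b' hcom' hb₁' hb₂' hIb hc
    obtain ⟨u, o, G, p₀, p₁, hne, hud, ho, he, hGx, hGy, hC, hO⟩ := exists_CG gc C (P i).dep₀ hlam (by omega) hcom'
      hb₁' hb₂'
    have hcu : cl (u : Q) = false := by
      have h1 : cl (((P i).l₀ : Q) * B.q b') = false := hc
      rw [he, dl_zpow C.c_line] at h1
      exact h1
    by_cases h2 : u = (P i).l₂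
    · exact stepB cma (P i) hp hkp V hz hIb hC hO hGx (hGy.trans h2)
    · exact stepA cma (P i) hp hkp V hz hIb hC hO (Or.inl hGx) (by rw [hGy]; exact hne) (by rw [hGy]; exact h2)
        (by rw [hGy]; exact hcu)
  have hb₁i : B.q (B.inv b) ≠ B.q a := fun h => hb₂ (by rw [← h, B.q_inv, inv_inv])
  have hb₂i : B.q (B.inv b) ≠ (B.q a)⁻¹ := fun h => hb₁ (by
    rw [B.q_inv] at h
    exact inv_injective h)
  by_cases h1 : ∃ i, cl (x i * B.q b) = false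
  · obtain ⟨i, hi⟩ := h1
    exact ⟨i, key i b hcom hb₁ hb₂ hI hi⟩
  by_cases h2 : ∃ i, cl (x i * B.q (B.inv b)) = false
  · obtain ⟨i, hi⟩ := h2
    exact ⟨i, key i (B.inv b) (com_inv hcom) hb₁i hb₂i hI' hi⟩
  push Not at h1 h2
  obtain ⟨y, hy⟩ := hcl
  obtain ⟨i, -, -, -, -⟩ := exists_win (H := H) (C := C) P hy
  obtain ⟨u, o, G, p₀, p₁, hne, hud, ho, he, hGx, hGy, hC, hO⟩ := exists_CG gc C (P i).dep₂ hlam (by omega) hcom
    hb₁ hb₂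
  refine ⟨i, stepA cma (P i) hp hkp V hz hI hC hO (Or.inr hGx) ?_ (by rw [hGy]; exact hne) ?_⟩
  · rw [hGy]
    intro hu
    apply h2 i
    have e1 : x i * B.q (B.inv b) = (H.up.U ^ (-o)) ((P i).l₂ : Q) := by
      have e2 : (H.up.U ^ (-o)) (((P i).l₂ : Q) * B.q b) = x i := by
        rw [he, hu, H.up.zneg]
        rfl
      rw [com_zpow hcom] at e2
      rw [← e2, B.q_inv, mul_inv_cancel_right]
    rw [e1, dl_zpow C.c_line]
    exact (P i).cl₂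
  · rw [hGy]
    by_contra hcu
    rw [Bool.not_eq_false] at hcu
    have e1 : cl (((P i).l₂ : Q) * B.q b) = true := by
      rw [he, dl_zpow C.c_line]
      exact hcu
    have e2 : cl (((P i).l₀ : Q) * B.q b) = true := by
      have := h1 i
      rw [ne_eq, Bool.not_eq_false] at this
      exact this
    obtain ⟨t, ht⟩ := C.one _ _ e2 e1
    rw [com_zpow hcom] at ht
    exact (P i).ne₀₂ t (mul_right_cancel ht)

end Pool.Agent.Lib.MP_688fd0_co.SQ3
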