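import Pool.Agent.Lib.MP_688fd0_co.SQ3.V.FlipCases
import Pool.Agent.Lib.MP_688fd0_co.SQ2.V.FC1

/-!
FLIP: a commuting label, case I, the second tour.
-/

set_option autoImplicit false

namespace Pool.Agent.Lib.MP_688fd0_co.SQ3

open Pool.Agent.Lib.MP_688fd0_co.OSF Pool.Agent.Lib.MP_688fd0_co.SQ2
open V (Puz)

namespace C1T

section

variable {Q : Type} [Group Q] {B : Lb.{0, 0} Q} {a : B.L} {eps : Q →* ℤˣ} {D : Subgroup Q} {z : Q} {k : ℕ}

/-- The line of a vertex. -/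
theorem ln_iff (H : Hyp B a eps D z k) {y y' : Q} :
    (y : Q ⧸ Subgroup.zpowers (B.q a)) = (y' : Q ⧸ Subgroup.zpowers (B.q a)) ↔ ∃ t : ℤ, y' = (H.up.U ^ t) y := by
  rw [QuotientGroup.eq, Subgroup.mem_zpowers_iff]
  constructor
  · rintro ⟨n, hn⟩
    refine ⟨((eps y : ℤˣ) : ℤ) * n, ?_⟩
    rw [← H.mul_zpow, hn, mul_inv_cancel_left]
  · rintro ⟨t, rfl⟩
    refine ⟨((eps y : ℤˣ) : ℤ) * t, ?_⟩
    rw [H.zpow_eq, inv_mul_cancel_left]

end

section

variable {S R : Type} [DecidableEq S] (P : Puz S R)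

theorem oth_x {r : R} {s : S} (h : P.x r = s) : P.oth r s = P.y r := by
  unfold Puz.oth
  rw [if_pos h.symm]

theorem oth_y {r : R} {s : S} (_ : P.y r = s) (hne : s ≠ P.x r) : P.oth r s = P.x r := by
  unfold Puz.oth
  rw [if_neg hne]

end

end C1T

open C1T

theorem case_c1t (gc : CGadS.{0}) (g1 : GadN1S.{0}) (g2 : GadN2S.{0}) (cma : CMAS) (el : EL2S) (elc : EL2cS)
    (en : ENbS) : CaseC1TS := by
  intro Q _ _ B a eps D z k c W H d cl ι x b₁ b₂ j F C P hlam p hp hkp V hz hcl b hcom hb₁ hb₂ hI hI'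
  have hp0 : Fact p.Prime := ⟨hp⟩
  have hp1 : Fact (1 < p) := ⟨hp.one_lt⟩
  -- a strand of the second tour is not a window strand
  have hnw : ∀ (i : ι) (s w : F i), cl (s : Q) = true → cl (w : Q) = false → s ≠ w := by
    intro i s w hs hw h
    rw [h, hw] at hs
    exact Bool.false_ne_true hs
  by_cases hb : B.q b ∈ Subgroup.zpowers (B.q a)
  · -- `b` leads from a line to itself
    obtain ⟨i, v, y, m, b', o', hv, hcy, hm, ho', he', hyd⟩ := el Q B a eps D z k c W H d cl ι x b₁ b₂ j F C P hcl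
    obtain ⟨u, o, G, p₀, p₁, hne, hud, ho, he, hGx, hGy, hC, hO⟩ := exists_CG gc C hyd hlam (by omega) hcom hb₁ hb₂
    have hlin : (((y : F i) : Q) : Q ⧸ Subgroup.zpowers (B.q a)) = ((u : Q) : Q ⧸ Subgroup.zpowers (B.q a)) := by
      have h1 : (((y : F i) : Q) : Q ⧸ Subgroup.zpowers (B.q a)) =
          ((((y : F i) : Q) * B.q b : Q) : Q ⧸ Subgroup.zpowers (B.q a)) := by
        rw [QuotientGroup.eq, inv_mul_cancel_left]
        exact hb
      rw [h1, he]
      exact ((ln_iff H).2 ⟨_, rfl⟩).symm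
    have hcu : cl (u : Q) = true := by
      obtain ⟨t, ht⟩ := (ln_iff H).1 hlin
      rw [ht, dl_zpow C.c_line]
      exact hcy
    have hwu : (wcl cl d true (u : Q) : ZMod p) ≠ 0 := wcl_ne hcu
    have y0 := hnw i y _ hcy (P i).cl₀
    have y1 := hnw i y _ hcy (P i).cl₁
    have y2 := hnw i y _ hcy (P i).cl₂
    have u0 := hnw i u _ hcu (P i).cl₀
    have u1 := hnw i u _ hcu (P i).cl₁
    have u2 := hnw i u _ hcu (P i).cl₂
    have hvy : v ≠ y := (hnw i y v hcy hv.cls).symm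
    refine ⟨i, ?_⟩
    obtain ⟨G', g', hg1, hg2, hO'⟩ := exists_GR g1 g2 gc C hlam hv.dep (by omega) hvy ho' he'
    -- the token on `u`
    have huf : ∀ G₂ G₃ G₄ : BGad (H.frd (C.fr i)).toFrt, ¬ (bigP (fam (P i) G₂ G₃ G₄)).On (P i).f u := by
      intro G₂ G₃ G₄ h
      rcases h with h | h
      · exact u0 (h.trans ((P i).xf G₂ G₃ G₄))
      · exact u1 h
    by_cases hv2 : v = (P i).l₂
    · obtain ⟨w₂, m', b'', o'', hl1, hl2, hm', ho'', he'', hwd⟩ := en Q B a eps D z k c W H d cl ι x b₁ b₂ j F C i y 2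
        hyd (by omega) (ln B a ((P i).l₂ : Q))
      have hyw : y ≠ w₂ := fun h => hl1 (by rw [h])
      have hw2 : w₂ ≠ (P i).l₂ := fun h => hl2 (by rw [h])
      have huw : u ≠ w₂ := fun h => hl1 (by rw [← h]; exact hlin.symm)
      obtain ⟨G'', g'', hg3, hg4, hO''⟩ := exists_GR g1 g2 gc C hlam hyd (by omega) hyw ho'' he''
      have hLC := (P i).lc hO hO' hO'' hp hkp V hz true
      have hxr : (bigP (fam (P i) G G' G'')).x ⟨3, g'⟩ = v := hg1
      have hyr : (bigP (fam (P i) G G' G'')).y ⟨3, g'⟩ = y := hg2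
      have hxs : (bigP (fam (P i) G G' G'')).x ⟨4, g''⟩ = y := hg3
      have hys : (bigP (fam (P i) G G' G'')).y ⟨4, g''⟩ = w₂ := hg4
      have hr1 : (bigP (fam (P i) G G' G'')).oth ⟨3, g'⟩ v = y := (oth_x _ hxr).trans hyr
      have hr2 : (bigP (fam (P i) G G' G'')).oth ⟨3, g'⟩ y = v :=
        (oth_y _ hyr (by rw [hxr]; exact hvy.symm)).trans hxr
      have hs1 : (bigP (fam (P i) G G' G'')).oth ⟨4, g''⟩ y = w₂ := (oth_x _ hxs).trans hys
      have hret := (P i).ret G G' G''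
      have hadjg := (P i).adj G G' G''
      have hstb : (bigP (fam (P i) G G' G'')).WReach ((bigP (fam (P i) G G' G'')).st₁ (P i).f)
          ((bigP (fam (P i) G G' G'')).stb (P i).f (P i).g (P i).l₀) :=
        hret _ _ ⟨[((P i).f, (P i).l₀)], ⟨hadjg, trivial⟩, Puz.stb_step _ hadjg⟩
      have hog : (bigP (fam (P i) G G' G'')).oth (P i).g v = (P i).l₀ := by
        rw [hv2]
        exact (oth_y _ rfl (by rw [(P i).xg]; exact (P i).n₀₂)).trans ((P i).xg G G' G'')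
      have hadj1 : (bigP (fam (P i) G G' G'')).Adj
          ((bigP (fam (P i) G G' G'')).stb (P i).f (P i).g (P i).l₀).1 ⟨3, g'⟩ v :=
        ⟨by show (bigP (fam (P i) G G' G'')).On (P i).g v; rw [hv2]; exact (P i).ong₂ G G' G'',
          Or.inl hxr.symm, by
            show (bigP (fam (P i) G G' G'')).oth (P i).g v ≠ (bigP (fam (P i) G G' G'')).oth ⟨3, g'⟩ v
            rw [hr1, hog]; exact y0.symm⟩
      have hadj2 : (bigP (fam (P i) G G' G'')).Adj (⟨4, g''⟩ : Rg (Fin 5) (Sy (H.frd (C.fr i)).toFrt)) ⟨3, g'⟩ y :=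
        ⟨Or.inl hxs.symm, Or.inr hyr.symm, by rw [hr2, hs1, hv2]; exact hw2⟩
      have hre := Pool.Agent.Lib.MP_688fd0_co.SQ3.V.pre hret hstb hadj1 hadj2
      refine ⟨G, G', G'', hO, hO', hO'', cma Q B H.up eps.ker D z (F i) k (H.frd (C.fr i)) (Fin 5)
        (fam (P i) G G' G'') _ (P i).f (P i).g (P i).l₀ p V (wcl cl d true) hLC 2 b p₀ p₁ hC hI _
        ⟨u, huf G G' G''⟩ hre ?_ ?_ ?_ hwu⟩
      · show (bigP (fam (P i) G G' G'')).On ⟨4, g''⟩ G.x
        rw [hGx]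
        exact Or.inl hxs.symm
      · show (bigP (fam (P i) G G' G'')).oth ⟨4, g''⟩ G.x ≠ G.y
        rw [hGx, hGy, hs1]
        exact huw.symm
      · show (bigP (fam (P i) G G' G'')).J ⟨4, g''⟩ ⟨3, g'⟩ y ((bigP (fam (P i) G G' G'')).J
          (P i).g ⟨3, g'⟩ v (if u = (bigP (fam (P i) G G' G'')).oth (P i).g (P i).l₀ then
            (bigP (fam (P i) G G' G'')).oth (P i).f (P i).l₀ else u)) = G.y
        rw [hGy, (P i).othg, if_neg u2]
        have e1 : (bigP (fam (P i) G G' G'')).J (P i).g ⟨3, g'⟩ v u = u := by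
          show Equiv.swap ((bigP (fam (P i) G G' G'')).oth ⟨3, g'⟩ v) ((bigP (fam (P i) G G' G'')).oth (P i).g v) u = u
          rw [hr1, hog]
          exact Equiv.swap_apply_of_ne_of_ne hne u0
        rw [e1]
        show Equiv.swap ((bigP (fam (P i) G G' G'')).oth ⟨3, g'⟩ y) ((bigP (fam (P i) G G' G'')).oth ⟨4, g''⟩ y) u = u
        rw [hr2, hs1, hv2]
        exact Equiv.swap_apply_of_ne_of_ne u2 huw
    · have hv01 : v = (P i).l₀ ∨ v = (P i).l₁ := by
        rcases hv with h | h | h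
        · exact Or.inl h
        · exact Or.inr h
        · exact absurd h hv2
      have hLC := (P i).lc hO hO' (P i).ok₀ hp hkp V hz true
      have hxr : (bigP (fam (P i) G G' (P i).G₀)).x ⟨3, g'⟩ = v := hg1
      have hyr : (bigP (fam (P i) G G' (P i).G₀)).y ⟨3, g'⟩ = y := hg2
      have hr1 : (bigP (fam (P i) G G' (P i).G₀)).oth ⟨3, g'⟩ v = y := (oth_x _ hxr).trans hyr
      have hr2 : (bigP (fam (P i) G G' (P i).G₀)).oth ⟨3, g'⟩ y = v :=
        (oth_y _ hyr (by rw [hxr]; exact hvy.symm)).trans hxr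
      have hret := (P i).ret G G' (P i).G₀
      have hfv : (bigP (fam (P i) G G' (P i).G₀)).On (P i).f v := by
        rcases hv01 with h | h
        · rw [h]; exact (P i).onf _ _ _
        · rw [h]; exact (P i).onf₁ _ _ _
      have hofv : (bigP (fam (P i) G G' (P i).G₀)).oth (P i).f v ≠ y := by
        rcases hv01 with h | h
        · rw [h, (P i).othf]; exact y1.symm
        · rw [h]
          have h1 : (bigP (fam (P i) G G' (P i).G₀)).oth (P i).f (P i).l₁ = (P i).l₀ :=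
            (oth_y _ rfl (by rw [(P i).xf]; exact (P i).n₀₁)).trans ((P i).xf G G' (P i).G₀)
          rw [h1]; exact y0.symm
      have hadj : (bigP (fam (P i) G G' (P i).G₀)).Adj (⟨3, g'⟩ : Rg (Fin 5) (Sy (H.frd (C.fr i)).toFrt)) (P i).f v :=
        ⟨Or.inl hxr.symm, hfv, by rw [hr1]; exact hofv.symm⟩
      have hre := Pool.Agent.Lib.MP_688fd0_co.SQ3.V.r1 hret hadj
      refine ⟨G, G', (P i).G₀, hO, hO', (P i).ok₀, cma Q B H.up eps.ker D z (F i) k (H.frd (C.fr i)) (Fin 5)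
        (fam (P i) G G' (P i).G₀) _ (P i).f (P i).g (P i).l₀ p V (wcl cl d true) hLC 2 b p₀ p₁ hC hI _
        ⟨u, huf G G' (P i).G₀⟩ hre ?_ ?_ ?_ hwu⟩
      · show (bigP (fam (P i) G G' (P i).G₀)).On ⟨3, g'⟩ G.x
        rw [hGx]
        exact Or.inr hyr.symm
      · show (bigP (fam (P i) G G' (P i).G₀)).oth ⟨3, g'⟩ G.x ≠ G.y
        rw [hGx, hGy, hr2]
        exact (hnw i u v hcu hv.cls).symm
      · show (if u = (bigP (fam (P i) G G' (P i).G₀)).oth ⟨3, g'⟩ v then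
            (bigP (fam (P i) G G' (P i).G₀)).oth (P i).f v else u) = G.y
        rw [hr1, if_neg hne, hGy]
  · -- `b` leads to another line
    obtain ⟨i, v, hv, hclv⟩ := elc Q B a eps D z k c W H d cl ι x b₁ b₂ j F C P hcl b hcom hb
    obtain ⟨y, o, G, p₀, p₁, hne, hyd, ho, he, hGx, hGy, hC, hO⟩ := exists_CG gc C hv.dep hlam (by omega) hcom hb₁ hb₂
    have hcy : cl (y : Q) = true := by
      rw [he, dl_zpow C.c_line] at hclv
      exact hclv
    have hwy : (wcl cl d true (y : Q) : ZMod p) ≠ 0 := wcl_ne hcy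
    have y0 := hnw i y _ hcy (P i).cl₀
    have y1 := hnw i y _ hcy (P i).cl₁
    have y2 := hnw i y _ hcy (P i).cl₂
    refine ⟨i, ?_⟩
    have hLC := (P i).lc hO (P i).ok₀ (P i).ok₀ hp hkp V hz true
    have hret := (P i).ret G (P i).G₀ (P i).G₀
    have hadjg := (P i).adj G (P i).G₀ (P i).G₀
    have hyf : ¬ (bigP (fam (P i) G (P i).G₀ (P i).G₀)).On (P i).f y := by
      intro h
      rcases h with h | h
      · exact y0 (h.trans ((P i).xf G (P i).G₀ (P i).G₀))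
      · exact y1 h
    by_cases hv1 : v = (P i).l₁
    · have hxe : (bigP (fam (P i) G (P i).G₀ (P i).G₀)).x ⟨2, 1⟩ = v := (one_smul _ _).trans hGx
      have hye : (bigP (fam (P i) G (P i).G₀ (P i).G₀)).y ⟨2, 1⟩ = y := (one_smul _ _).trans hGy
      have hoe : (bigP (fam (P i) G (P i).G₀ (P i).G₀)).oth ⟨2, 1⟩ v = y := (oth_x _ hxe).trans hye
      have hT : (bigP (fam (P i) G (P i).G₀ (P i).G₀)).T ⟨2, 1⟩ = 1 := by
        apply Equiv.ext
        intro s
        show (1 : Sy (H.frd (C.fr i)).toFrt) • G.T ((1 : Sy (H.frd (C.fr i)).toFrt)⁻¹ • s) = s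
        rw [hC.T, Equiv.Perm.one_apply, smul_inv_smul]
      have hone : (bigP (fam (P i) G (P i).G₀ (P i).G₀)).On ⟨2, 1⟩ v := Or.inl hxe.symm
      have ht1 := Pool.Agent.Lib.MP_688fd0_co.SQ2.V.FC1.tau_on (bigP (fam (P i) G (P i).G₀ (P i).G₀)) hT hone
      have hof : (bigP (fam (P i) G (P i).G₀ (P i).G₀)).oth (P i).f v = (P i).l₀ := by
        rw [hv1]
        exact (oth_y _ rfl (by rw [(P i).xf]; exact (P i).n₀₁)).trans ((P i).xf G (P i).G₀ (P i).G₀)
      have hadj : (bigP (fam (P i) G (P i).G₀ (P i).G₀)).Adj (P i).f ⟨2, 1⟩ v :=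
        ⟨by rw [hv1]; exact (P i).onf₁ _ _ _, hone, by rw [hoe, hof]; exact y0.symm⟩
      have hre := Pool.Agent.Lib.MP_688fd0_co.SQ3.V.home hret hadj hT ht1.1 ht1.2
      refine ⟨G, (P i).G₀, (P i).G₀, hO, (P i).ok₀, (P i).ok₀, cma Q B H.up eps.ker D z (F i) k (H.frd (C.fr i))
        (Fin 5) (fam (P i) G (P i).G₀ (P i).G₀) _ (P i).f (P i).g (P i).l₀ p V (wcl cl d true) hLC 2 b p₀ p₁ hC hI _
        ⟨y, hyf⟩ hre ?_ ?_ ?_ hwy⟩
      · show (bigP (fam (P i) G (P i).G₀ (P i).G₀)).On (P i).f G.x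
        rw [hGx, hv1]
        exact (P i).onf₁ _ _ _
      · show (bigP (fam (P i) G (P i).G₀ (P i).G₀)).oth (P i).f G.x ≠ G.y
        rw [hGx, hGy, hof]
        exact y0.symm
      · exact hGy.symm
    · have hv02 : v = (P i).l₀ ∨ v = (P i).l₂ := by
        rcases hv with h | h | h
        · exact Or.inl h
        · exact absurd h hv1
        · exact Or.inr h
      have hstb : (bigP (fam (P i) G (P i).G₀ (P i).G₀)).WReach ((bigP (fam (P i) G (P i).G₀ (P i).G₀)).st₁ (P i).f)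
          ((bigP (fam (P i) G (P i).G₀ (P i).G₀)).stb (P i).f (P i).g (P i).l₀) :=
        hret _ _ ⟨[((P i).f, (P i).l₀)], ⟨hadjg, trivial⟩, Puz.stb_step _ hadjg⟩
      refine ⟨G, (P i).G₀, (P i).G₀, hO, (P i).ok₀, (P i).ok₀, cma Q B H.up eps.ker D z (F i) k (H.frd (C.fr i))
        (Fin 5) (fam (P i) G (P i).G₀ (P i).G₀) _ (P i).f (P i).g (P i).l₀ p V (wcl cl d true) hLC 2 b p₀ p₁ hC hI _
        ⟨y, hyf⟩ hstb ?_ ?_ ?_ hwy⟩
      · show (bigP (fam (P i) G (P i).G₀ (P i).G₀)).On (P i).g G.x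
        rw [hGx]
        rcases hv02 with h | h
        · rw [h]; exact (P i).ong _ _ _
        · rw [h]; exact (P i).ong₂ _ _ _
      · show (bigP (fam (P i) G (P i).G₀ (P i).G₀)).oth (P i).g G.x ≠ G.y
        rw [hGx, hGy]
        rcases hv02 with h | h
        · rw [h, (P i).othg]; exact y2.symm
        · rw [h]
          have h1 : (bigP (fam (P i) G (P i).G₀ (P i).G₀)).oth (P i).g (P i).l₂ = (P i).l₀ :=
            (oth_y _ rfl (by rw [(P i).xg]; exact (P i).n₀₂)).trans ((P i).xg G (P i).G₀ (P i).G₀)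
          rw [h1]; exact y0.symm
      · show (if y = (bigP (fam (P i) G (P i).G₀ (P i).G₀)).oth (P i).g (P i).l₀ then
            (bigP (fam (P i) G (P i).G₀ (P i).G₀)).oth (P i).f (P i).l₀ else y) = G.y
        rw [(P i).othg, if_neg y2, hGy]

end Pool.Agent.Lib.MP_688fd0_co.SQ3
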