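import Pool.Agent.Lib.MP_688fd0_co.OSF.Defs

/-!
Stage E, chapter V, row V-LINES (helper70): lines (left cosets of the subgroup generated by the label `a`) and their
neighbours. Pure group theory.
-/

set_option autoImplicit false

namespace Pool.Agent.Lib.MP_688fd0_co.SQ3

open Pool.Agent.Lib.MP_688fd0_co.OSF

namespace Lines

variable {Q : Type} [Group Q]

theorem eq_iff (H : Subgroup Q) (x y : Q) : (x : Q ⧸ H) = (y : Q ⧸ H) ↔ x⁻¹ * y ∈ H := QuotientGroup.eq

theorem mul_left_iff (H : Subgroup Q) (g x y : Q) :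
    ((g * x : Q) : Q ⧸ H) = ((g * y : Q) : Q ⧸ H) ↔ (x : Q ⧸ H) = (y : Q ⧸ H) := by
  rw [eq_iff, eq_iff]
  have h : (g * x)⁻¹ * (g * y) = x⁻¹ * y := by group
  rw [h]

/-- A property that holds at `1` and is preserved by right multiplication by labels holds everywhere. -/
theorem gen_induction {B : Lb.{0, 0} Q} (hgen : Subgroup.closure (Set.range B.q) = ⊤) (p : Q → Prop) (h1 : p 1)
    (hs : ∀ x b, p x → p (x * B.q b)) (x : Q) : p x := by
  have hx : x ∈ Subgroup.closure (Set.range B.q) := by rw [hgen]; trivial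
  induction hx using Subgroup.closure_induction_right with
  | one => exact h1
  | mul_right x hx y hy ih =>
    obtain ⟨b, rfl⟩ := hy
    exact hs x b ih
  | mul_inv_cancel x hx y hy ih =>
    obtain ⟨b, rfl⟩ := hy
    rw [← B.q_inv]
    exact hs x (B.inv b) ih

end Lines

section

variable {Q : Type} [Group Q] [Finite Q] {B : Lb.{0, 0} Q} {a : B.L}

theorem nbr2 (hgen : Subgroup.closure (Set.range B.q) = ⊤) (h3 : 3 ≤ (Subgroup.zpowers (B.q a)).index) (x : Q)
    (l : Q ⧸ Subgroup.zpowers (B.q a)) :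
    ∃ (n : ℤ) (b : B.L), ((x * B.q a ^ n * B.q b : Q) : Q ⧸ Subgroup.zpowers (B.q a)) ≠
      (x : Q ⧸ Subgroup.zpowers (B.q a)) ∧
      ((x * B.q a ^ n * B.q b : Q) : Q ⧸ Subgroup.zpowers (B.q a)) ≠ l := by
  classical
  by_contra hcon
  push Not at hcon
  obtain ⟨g, rfl⟩ := QuotientGroup.mk_surjective l
  set H := Subgroup.zpowers (B.q a) with hH
  -- some label leaves `H`
  have hex : ∃ (u : Q) (b : B.L), u ∈ H ∧ u * B.q b ∉ H := by
    by_contra hne
    push Not at hne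
    have hall : ∀ y : Q, y ∈ H := fun y =>
      Lines.gen_induction hgen (fun y => y ∈ H) H.one_mem (fun z b hz => hne z b hz) y
    have : H = ⊤ := by
      rw [eq_top_iff]
      exact fun y _ => hall y
    rw [this, Subgroup.index_top] at h3
    omega
  obtain ⟨u, b0, hu, hub⟩ := hex
  have hb0 : B.q b0 ∉ H := fun h => hub (H.mul_mem hu h)
  -- all other cosets coming from `H` are equal to `g H`
  have hl : ∀ (w : Q) (b : B.L), w ∈ H → w * B.q b ∉ H → ((x * (w * B.q b) : Q) : Q ⧸ H) = (g : Q ⧸ H) := by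
    intro w b hw hwb
    obtain ⟨n, rfl⟩ := Subgroup.mem_zpowers_iff.1 hw
    have h1 := hcon n b
    rw [← mul_assoc]
    apply h1
    intro h2
    apply hwb
    rw [Lines.eq_iff] at h2
    have h3 : (x * B.q a ^ n * B.q b)⁻¹ * x = (B.q a ^ n * B.q b)⁻¹ := by group
    rw [h3] at h2
    exact (H.inv_mem_iff).1 h2
  have hlh : ((x * (1 * B.q b0) : Q) : Q ⧸ H) = (g : Q ⧸ H) := hl 1 b0 H.one_mem (by rwa [one_mul])
  rw [one_mul] at hlh
  -- membership in `h H`
  have key : ∀ (w : Q) (b : B.L), w ∈ H → w * B.q b ∈ H ∨ (B.q b0)⁻¹ * (w * B.q b) ∈ H := by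
    intro w b hw
    by_cases hwb : w * B.q b ∈ H
    · exact Or.inl hwb
    · right
      have h1 := hl w b hw hwb
      rw [← hlh] at h1
      have h2 := (Lines.mul_left_iff H x (w * B.q b) (B.q b0)).1 h1
      exact (Lines.eq_iff H _ _).1 h2.symm
  -- the square of `h` lies in `H`
  have hsq : B.q b0 * B.q b0 ∈ H := by
    rcases key 1 (B.inv b0) H.one_mem with h | h
    · rw [one_mul, B.q_inv] at h
      exact absurd ((H.inv_mem_iff).1 h) hb0
    · rw [one_mul, B.q_inv] at h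
      have h2 : (B.q b0)⁻¹ * (B.q b0)⁻¹ = (B.q b0 * B.q b0)⁻¹ := by group
      rw [h2] at h
      exact (H.inv_mem_iff).1 h
  -- everything lies in `H` or in `h H`
  have hall : ∀ y : Q, y ∈ H ∨ (B.q b0)⁻¹ * y ∈ H := by
    refine Lines.gen_induction hgen (fun y => y ∈ H ∨ (B.q b0)⁻¹ * y ∈ H) (Or.inl H.one_mem) ?_
    rintro y b (hy | hy)
    · exact key y b hy
    · rcases key _ b hy with h | h
      · right
        rw [← mul_assoc]
        exact h
      · left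
        have h2 : y * B.q b = (B.q b0 * B.q b0) * ((B.q b0)⁻¹ * ((B.q b0)⁻¹ * y * B.q b)) := by group
        rw [h2]
        exact H.mul_mem hsq h
  have hcard : Nat.card (Q ⧸ H) ≤ 2 := by
    have hsub : (Set.univ : Set (Q ⧸ H)) ⊆ {((1 : Q) : Q ⧸ H), ((B.q b0 : Q) : Q ⧸ H)} := by
      intro c _
      obtain ⟨y, rfl⟩ := QuotientGroup.mk_surjective c
      rcases hall y with h | h
      · left
        exact ((Lines.eq_iff H 1 y).2 (by simpa using h)).symm
      · right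
        exact ((Lines.eq_iff H (B.q b0) y).2 h).symm
    rw [← Set.ncard_univ]
    exact (Set.ncard_le_ncard hsub (Set.toFinite _)).trans (Set.ncard_insert_le _ _ |>.trans (by simp))
  rw [Subgroup.index] at h3
  omega

omit [Finite Q] in
theorem nbr3 (x0 x1 x2 y v : Q)
    (h1 : ∃ (n : ℤ) (b : B.L), ((x0 * B.q a ^ n * B.q b : Q) : Q ⧸ Subgroup.zpowers (B.q a)) =
      (x1 : Q ⧸ Subgroup.zpowers (B.q a)))
    (h2 : ∃ (n : ℤ) (b : B.L), ((x0 * B.q a ^ n * B.q b : Q) : Q ⧸ Subgroup.zpowers (B.q a)) =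
      (x2 : Q ⧸ Subgroup.zpowers (B.q a)))
    (h10 : (x1 : Q ⧸ Subgroup.zpowers (B.q a)) ≠ (x0 : Q ⧸ Subgroup.zpowers (B.q a)))
    (h20 : (x2 : Q ⧸ Subgroup.zpowers (B.q a)) ≠ (x0 : Q ⧸ Subgroup.zpowers (B.q a)))
    (h12 : (x1 : Q ⧸ Subgroup.zpowers (B.q a)) ≠ (x2 : Q ⧸ Subgroup.zpowers (B.q a)))
    (hy0 : (y : Q ⧸ Subgroup.zpowers (B.q a)) ≠ (x0 : Q ⧸ Subgroup.zpowers (B.q a)))
    (hy1 : (y : Q ⧸ Subgroup.zpowers (B.q a)) ≠ (x1 : Q ⧸ Subgroup.zpowers (B.q a)))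
    (hy2 : (y : Q ⧸ Subgroup.zpowers (B.q a)) ≠ (x2 : Q ⧸ Subgroup.zpowers (B.q a))) :
    ∃ (n : ℤ) (b : B.L), ((y * B.q a ^ n * B.q b : Q) : Q ⧸ Subgroup.zpowers (B.q a)) ≠
      (y : Q ⧸ Subgroup.zpowers (B.q a)) ∧
      ((y * B.q a ^ n * B.q b : Q) : Q ⧸ Subgroup.zpowers (B.q a)) ≠ (v : Q ⧸ Subgroup.zpowers (B.q a)) ∧
      ((y * B.q a ^ n * B.q b : Q) : Q ⧸ Subgroup.zpowers (B.q a)) ≠ (x0 : Q ⧸ Subgroup.zpowers (B.q a)) := by
  classical
  by_contra hcon
  push Not at hcon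
  set H := Subgroup.zpowers (B.q a) with hH
  -- transport of a neighbour of `x0` to a neighbour of `y`
  have tr : ∀ z : Q, (∃ (n : ℤ) (b : B.L), ((x0 * B.q a ^ n * B.q b : Q) : Q ⧸ H) = (z : Q ⧸ H)) →
      (z : Q ⧸ H) ≠ (x0 : Q ⧸ H) →
      ((y * x0⁻¹ * z : Q) : Q ⧸ H) = (v : Q ⧸ H) ∨ ((y * x0⁻¹ * z : Q) : Q ⧸ H) = (x0 : Q ⧸ H) := by
    rintro z ⟨n, b, hz⟩ hz0
    have e1 : y * B.q a ^ n * B.q b = (y * x0⁻¹) * (x0 * B.q a ^ n * B.q b) := by group
    have e2 : ((y * B.q a ^ n * B.q b : Q) : Q ⧸ H) = ((y * x0⁻¹ * z : Q) : Q ⧸ H) := by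
      rw [e1, Lines.mul_left_iff]
      exact hz
    have e3 : ((y * B.q a ^ n * B.q b : Q) : Q ⧸ H) ≠ (y : Q ⧸ H) := by
      rw [e2]
      intro h
      apply hz0
      have e4 : y = (y * x0⁻¹) * x0 := by group
      rw [← Lines.mul_left_iff H (y * x0⁻¹), h]
      exact congrArg _ e4
    by_cases hv : ((y * B.q a ^ n * B.q b : Q) : Q ⧸ H) = (v : Q ⧸ H)
    · left
      rw [← e2]
      exact hv
    · right
      rw [← e2]
      exact hcon n b e3 hv
  have inj : ∀ z w : Q, (z : Q ⧸ H) ≠ (w : Q ⧸ H) →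
      ((y * x0⁻¹ * z : Q) : Q ⧸ H) ≠ ((y * x0⁻¹ * w : Q) : Q ⧸ H) := fun z w h h' =>
    h ((Lines.mul_left_iff H _ _ _).1 h')
  -- the line of `x0` is a neighbour of `y`
  have hx0 : ∃ (n : ℤ) (b : B.L), ((y * B.q a ^ n * B.q b : Q) : Q ⧸ H) = (x0 : Q ⧸ H) := by
    by_contra hno
    push Not at hno
    have aux : ∀ z : Q, (∃ (n : ℤ) (b : B.L), ((x0 * B.q a ^ n * B.q b : Q) : Q ⧸ H) = (z : Q ⧸ H)) →
        (z : Q ⧸ H) ≠ (x0 : Q ⧸ H) → ((y * x0⁻¹ * z : Q) : Q ⧸ H) = (v : Q ⧸ H) := by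
      rintro z ⟨n, b, hz⟩ hz0
      rcases tr z ⟨n, b, hz⟩ hz0 with h | h
      · exact h
      · exfalso
        apply hno n b
        rw [← h]
        have e1 : y * B.q a ^ n * B.q b = (y * x0⁻¹) * (x0 * B.q a ^ n * B.q b) := by group
        rw [e1, Lines.mul_left_iff]
        exact hz
    exact inj x1 x2 h12 ((aux x1 h1 h10).trans (aux x2 h2 h20).symm)
  obtain ⟨n, b, hnb⟩ := hx0
  -- so the line of `y` is a neighbour of `x0`
  have hyn : ∃ (n : ℤ) (b : B.L), ((x0 * B.q a ^ n * B.q b : Q) : Q ⧸ H) = (y : Q ⧸ H) := by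
    have h4 := (Lines.eq_iff H _ _).1 hnb
    obtain ⟨m, hm⟩ := Subgroup.mem_zpowers_iff.1 h4
    refine ⟨-m, B.inv b, ?_⟩
    have e5 : x0 = y * B.q a ^ n * B.q b * B.q a ^ m := by
      rw [hm]
      group
    rw [Lines.eq_iff]
    have e6 : (x0 * B.q a ^ (-m) * B.q (B.inv b))⁻¹ * y = B.q a ^ (-n) := by
      rw [B.q_inv, e5]
      group
    rw [e6]
    exact Subgroup.zpow_mem_zpowers _ _
  have t1 := tr x1 h1 h10
  have t2 := tr x2 h2 h20
  have t3 := tr y hyn hy0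
  have i12 := inj x1 x2 h12
  have i13 := inj y x1 hy1
  have i23 := inj y x2 hy2
  rcases t1 with t1 | t1 <;> rcases t2 with t2 | t2 <;> rcases t3 with t3 | t3 <;>
    first
    | exact i12 (t1.trans t2.symm)
    | exact i13 (t3.trans t1.symm)
    | exact i23 (t3.trans t2.symm)

omit [Finite Q] in
theorem oddpow (h : Odd (Subgroup.zpowers (B.q a)).index) (b : Q) (hb : Commute b (B.q a)) :
    ∃ (m : ℕ) (s : ℤ), (b * b) ^ m = b * B.q a ^ s := by
  set H := Subgroup.zpowers (B.q a) with hH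
  set K := Subgroup.centralizer ({B.q a} : Set Q) with hK
  have hHK : H ≤ K := by
    rw [hH, Subgroup.zpowers_le, hK, Subgroup.mem_centralizer_iff]
    intro g hg
    rw [Set.mem_singleton_iff.1 hg]
  have hbK : b ∈ K := by
    rw [hK, Subgroup.mem_centralizer_iff]
    intro g hg
    rw [Set.mem_singleton_iff.1 hg]
    exact hb.eq.symm
  have hnormal : (H.subgroupOf K).Normal := by
    refine ⟨fun n hn g => ?_⟩
    rw [Subgroup.mem_subgroupOf] at hn ⊢
    obtain ⟨k, hk⟩ := Subgroup.mem_zpowers_iff.1 hn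
    have hg : (g : Q) * B.q a = B.q a * g :=
      ((Subgroup.mem_centralizer_iff.1 g.2) (B.q a) rfl).symm
    have hc : Commute (g : Q) (B.q a ^ k) := (show Commute (g : Q) (B.q a) from hg).zpow_right k
    have : ((g * n * g⁻¹ : K) : Q) = (n : Q) := by
      push_cast
      rw [← hk, hc.eq, mul_assoc, mul_inv_cancel, mul_one]
    rw [this]
    exact hn
  have hidx : Odd (H.relIndex K) := by
    have h2 := Subgroup.relIndex_mul_index hHK
    rw [← h2] at h
    exact (Nat.odd_mul.1 h).1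
  have hpow := Subgroup.pow_index_mem (H.subgroupOf K) (⟨b, hbK⟩ : K)
  rw [Subgroup.mem_subgroupOf] at hpow
  have hpow' : b ^ (H.relIndex K) ∈ H := by
    simpa [Subgroup.relIndex] using hpow
  obtain ⟨s, hs⟩ := Subgroup.mem_zpowers_iff.1 hpow'
  obtain ⟨m, hm⟩ := hidx
  refine ⟨m + 1, s, ?_⟩
  rw [hs, ← pow_succ', hm, ← pow_two, ← pow_mul]
  congr 1

omit [Finite Q] in
theorem exists_edge (hgen : Subgroup.closure (Set.range B.q) = ⊤) (cl : Q → Bool) (h0 : ∃ x, cl x = false)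
    (h1 : ∃ y, cl y = true) : ∃ (y : Q) (b : B.L), cl y = true ∧ cl (y * B.q b) = false := by
  by_contra hcon
  push Not at hcon
  obtain ⟨x, hx⟩ := h0
  obtain ⟨y, hy⟩ := h1
  have hall := Lines.gen_induction hgen (fun u => cl (y * u) = true) (by simpa using hy)
    (fun u b hu => by
      have := hcon (y * u) b hu
      rw [← mul_assoc]
      simpa using this) (y⁻¹ * x)
  simp only [mul_inv_cancel_left] at hall
  rw [hx] at hall
  exact Bool.false_ne_true hall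

end

end Pool.Agent.Lib.MP_688fd0_co.SQ3
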