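import Pool.Agent.Lib.MP_688fd0_co.SQ3.V.FlipCases
import Pool.Agent.Lib.MP_688fd0_co.SQ3.V.Lines

/-!
FLIP: a commuting label, case II, one tour.
-/

set_option autoImplicit false

namespace Pool.Agent.Lib.MP_688fd0_co.SQ3

open Pool.Agent.Lib.MP_688fd0_co.OSF Pool.Agent.Lib.MP_688fd0_co.SQ2
open V (Puz)

namespace C2O

section

variable {Q : Type} [Group Q] {B : Lb.{0, 0} Q} {a : B.L} {eps : Q →* ℤˣ} {D : Subgroup Q} {z : Q} {k : ℕ}

/-- If all vertices are on the first tour then the number of lines is odd. -/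
theorem odd_index [Finite Q] {cl : Q → Bool} (hcl : ∀ y, cl y = false) {m : ℕ}
    (h : ∃ n : ℕ, Odd n ∧ Nat.card {y : Q // cl y = false} = n * m) (hm : m = Nat.card (Subgroup.zpowers (B.q a))) :
    Odd (Subgroup.zpowers (B.q a)).index := by
  obtain ⟨n, hn, h1⟩ := h
  have h2 : Nat.card {y : Q // cl y = false} = Nat.card Q := by
    refine Nat.card_congr ⟨fun y => y.1, fun y => ⟨y, hcl y⟩, fun _ => rfl, fun _ => rfl⟩
  rw [h2, ← (Subgroup.zpowers (B.q a)).index_mul_card, hm] at h1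
  have h3 : 0 < Nat.card (Subgroup.zpowers (B.q a)) := Nat.card_pos
  rw [Nat.eq_of_mul_eq_mul_right h3 h1]
  exact hn

/-- A sign which is trivial on `a` is trivial if the number of lines is odd. -/
theorem eps_one (ho : Odd (Subgroup.zpowers (B.q a)).index) (ha : eps (B.q a) = 1) (x : Q) : eps x = 1 := by
  have h1 : Subgroup.zpowers (B.q a) ≤ eps.ker := by
    rw [Subgroup.zpowers_le]
    exact ha
  have h2 : Odd eps.ker.index := by
    have h3 := Subgroup.relIndex_mul_index h1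
    rw [← h3] at ho
    exact (Nat.odd_mul.1 ho).2
  have h4 : x ^ eps.ker.index ∈ eps.ker := Subgroup.pow_index_mem _ _
  rw [MonoidHom.mem_ker, map_pow] at h4
  rcases Int.units_eq_one_or (eps x) with h | h
  · exact h
  · rw [h, h2.neg_one_pow] at h4
    exact absurd h4 (by decide)

end

end C2O

open C2O

theorem case_c2o (gc : CGadS.{0}) (cmb : CMBS) : CaseC2OS := by
  intro Q _ _ B a eps D z k c W H d cl ι x b₁ b₂ j F C P hlam p hp hkp V hz hcl b hcom hb hII
  have hfin := H.fin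
  have hodd : Odd (Subgroup.zpowers (B.q a)).index := odd_index hcl C.oddc (Nat.card_zpowers _).symm
  have heps : ∀ x, eps x = 1 := eps_one hodd H.ea
  have hU : ∀ (x : Q) (n : ℤ), (H.up.U ^ n) x = x * B.q a ^ n := by
    intro x n
    rw [H.zpow_eq, heps x]
    simp
  have hc : Commute (B.q b) (B.q a) := by
    have h1 := hcom 1
    have h2 : ∀ x, H.up.U x = x * B.q a := fun x => by
      have := hU x 1
      rwa [zpow_one, zpow_one] at this
    rw [h2, h2, one_mul, one_mul] at h1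
    exact h1
  have hb₁ : B.q b ≠ B.q a := fun h => hb (h ▸ Subgroup.mem_zpowers _)
  have hb₂ : B.q b ≠ (B.q a)⁻¹ := fun h => hb (h ▸ inv_mem (Subgroup.mem_zpowers _))
  obtain ⟨m, s', hm⟩ := oddpow hodd (B.q b) hc
  have z2 : B.q b * B.q b ∉ Subgroup.zpowers (B.q a) := by
    intro h
    refine hb ?_
    have h1 := pow_mem h m
    rw [hm] at h1
    have h2 := mul_mem h1 (inv_mem (Subgroup.zpow_mem_zpowers (B.q a) s'))
    rwa [mul_inv_cancel_right] at h2
  have hcz := com_zpow hcom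
  have hinv : ∀ (n : ℤ) (y : Q), (H.up.U ^ n) (y * (B.q b)⁻¹) = (H.up.U ^ n) y * (B.q b)⁻¹ := by
    intro n y
    rw [eq_mul_inv_iff_mul_eq, ← hcz, inv_mul_cancel_right]
  by_contra hno
  push Not at hno
  -- the weights
  have hw1 : ∀ y, (wcl cl d false y : ZMod p) = if d y then 1 else -1 := fun y => by
    unfold wcl
    rw [if_pos (hcl y)]
  have h20 : (1 : ZMod p) ≠ -1 := by
    intro h
    have h1 : ((2 : ℕ) : ZMod p) = 0 := by
      push_cast
      linear_combination h
    rw [ZMod.natCast_eq_zero_iff] at h1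
    have := Nat.le_of_dvd (by omega) h1
    have := H.kpos
    omega
  have hweq : ∀ y y' : Q, (wcl cl d false y : ZMod p) = wcl cl d false y' ↔ d y = d y' := by
    intro y y'
    rw [hw1, hw1]
    cases d y <;> cases d y' <;> simp [h20, h20.symm]
  have hwneg : ∀ y y' : Q, (wcl cl d false y : ZMod p) = - wcl cl d false y' ↔ d y = !d y' := by
    intro y y'
    rw [hw1, hw1]
    cases d y <;> cases d y' <;> simp [h20, h20.symm]
  -- one vertex
  have key : ∀ w : Q, d (w * B.q b) = d (w * (B.q b)⁻¹) ∧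
      (d w = d (w * B.q b) → d w = d (w * (B.q b)⁻¹) → d (w * B.q b * B.q b) = !d (w * B.q b)) := by
    intro w
    obtain ⟨i, s₀, t, hs₀, hw⟩ := exists_win (C := C) P (hcl w)
    have hcW := cW hlam i
    -- the strand before
    obtain ⟨sm, hsm, om, hom, hem⟩ := hs₀.dep.next C (by omega) (B.inv b) 0
    rw [H.up.zero, zero_add, B.q_inv] at hem
    obtain ⟨s₃, o₀, G₀, p₀, q₀, hne₀, hd₀, ho₀, he₀, hx₀, hy₀, hC₀, hO₀⟩ :=
      exists_CG gc C (s := ⟨sm, hsm.1⟩) hsm hlam (by omega) hcom hb₁ hb₂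
    have h3 : s₃ = s₀ := by
      have h1 : (H.up.U ^ (om + o₀)) (s₃ : Q) = (H.up.U ^ (0 : ℤ)) (s₀ : Q) := by
        rw [H.up.zero, H.up.zadd, ← he₀, hcz, ← hem, inv_mul_cancel_right]
      have := (C.fr i).eq s₃.2 s₀.2 h1 (by
        have := abs_le.1 hom
        have := abs_le.1 ho₀
        exact abs_le.2 ⟨by omega, by omega⟩)
      exact Subtype.ext this.2
    subst h3
    -- the strands after
    obtain ⟨s₁, o₁, G₁, p₁, q₁, hne₁, hd₁, ho₁, he₁, hx₁, hy₁, hC₁, hO₁⟩ :=
      exists_CG gc C (s := s₃) hs₀.dep hlam (by omega) hcom hb₁ hb₂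
    obtain ⟨s₂, o₂, G₂, p₂, q₂, hne₂, hd₂, ho₂, he₂, hx₂, hy₂, hC₂, hO₂⟩ :=
      exists_CG gc C (s := s₁) hd₁ hlam (by omega) hcom hb₁ hb₂
    -- distinct strands
    have n4 : sm ≠ s₁ := by
      intro h
      apply z2
      rw [h] at hem
      have h1 : (s₃ : Q) * B.q b = (H.up.U ^ (o₁ - om)) ((s₃ : Q) * (B.q b)⁻¹) := by
        rw [hem, ← H.up.zadd, he₁]
        congr 2
        ring
      rw [hU] at h1
      have h2 : B.q b * B.q b = B.q a ^ (o₁ - om) := by
        have h3 : B.q b = (B.q b)⁻¹ * B.q a ^ (o₁ - om) := by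
          rw [mul_assoc] at h1
          exact mul_left_cancel h1
        calc B.q b * B.q b = B.q b * ((B.q b)⁻¹ * B.q a ^ (o₁ - om)) := by rw [← h3]
          _ = _ := by rw [mul_inv_cancel_left]
      rw [h2]
      exact Subgroup.zpow_mem_zpowers _ _
    have n5 : (s₂ : Q) ≠ s₃ := by
      intro h
      apply z2
      have h1 : (s₃ : Q) * (B.q b * B.q b) = (s₃ : Q) * B.q a ^ (o₁ + o₂) := by
        rw [← mul_assoc, he₁, ← hcz, he₂, h, ← H.up.zadd, hU]
      rw [mul_left_cancel h1]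
      exact Subgroup.zpow_mem_zpowers _ _
    -- colours
    have c0 : d w = d (s₃ : Q) := by rw [hw, dl_zpow C.d_line]
    have c1 : d (w * B.q b) = d (s₁ : Q) := by
      rw [hw, ← hcz, he₁, ← H.up.zadd, dl_zpow C.d_line]
    have c2 : d (w * (B.q b)⁻¹) = d sm := by
      rw [hw, ← hinv, hem, ← H.up.zadd, dl_zpow C.d_line]
    have c3 : d (w * B.q b * B.q b) = d (s₂ : Q) := by
      rw [hw, ← hcz, he₁, ← H.up.zadd, ← hcz, he₂, ← H.up.zadd, dl_zpow C.d_line]
    have hLC := (P i).lc hO₀ hO₁ hO₂ hp hkp V hz false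
    have hres := cmb Q B H.up eps.ker D z (F i) k (H.frd (C.fr i)) (Fin 5) (fam (P i) G₀ G₁ G₂) _ (P i).f
      (P i).g (P i).l₀ p V (wcl cl d false) hLC 2 3 4 b p₀ p₁ p₂ q₀ q₁ q₂ hC₀ hC₁ hC₂ hII
      (fun y => by
        rw [hw1]
        split_ifs
        · exact Or.inl rfl
        · exact Or.inr rfl)
      (hx₁.trans hy₀.symm) (hx₂.trans hy₁.symm)
      (by
        rw [(P i).othf, (P i).othg]
        show G₁.x = _ ∨ G₁.x = _ ∨ G₁.x = _
        rw [hx₁]
        exact hs₀)
      (by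
        show G₀.x ≠ G₁.y
        rw [hx₀, hy₁]
        exact fun h => n4 (congrArg Subtype.val h))
      (by
        show G₂.y ≠ G₁.x
        rw [hy₂, hx₁]
        exact fun h => n5 (congrArg Subtype.val h))
    have hnoL : ¬ LRes (H.frd (C.fr i)) (fam (P i) G₀ G₁ G₂) (hgt (F i).card (2 * c + 2 * k)) (P i).f (P i).g
        (P i).l₀ p V (wcl cl d false) := fun hL => hno i ⟨G₀, G₁, G₂, hO₀, hO₁, hO₂, hL⟩
    have r1 : (wcl cl d false (G₁.y : Q) : ZMod p) = wcl cl d false (G₀.x : Q) := hres.1.resolve_left hnoL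
    have r2 : (wcl cl d false (G₁.x : Q) : ZMod p) = wcl cl d false (G₁.y : Q) →
        (wcl cl d false (G₁.x : Q) : ZMod p) = wcl cl d false (G₀.x : Q) →
        (wcl cl d false (G₂.y : Q) : ZMod p) = - wcl cl d false (G₁.y : Q) :=
      fun h h' => (hres.2 h h').resolve_left hnoL
    rw [hy₁, hx₀, hweq] at r1
    rw [hx₁, hy₁, hx₀, hy₂, hweq, hweq, hwneg] at r2
    refine ⟨by rw [c1, c2]; exact r1, fun h h' => ?_⟩
    rw [c3, c1]
    exact r2 (by rw [← c0, ← c1]; exact h) (by rw [← c0, ← c2]; exact h')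
  -- the colour is constant along `b`
  have h1 : ∀ w : Q, d (w * (B.q b * B.q b)) = d w := by
    intro w
    have := (key (w * B.q b)).1
    rw [mul_inv_cancel_right] at this
    rw [← mul_assoc]; exact this
  have h2 : ∀ (w : Q) (n : ℕ), d (w * (B.q b * B.q b) ^ n) = d w := by
    intro w n
    induction n with
    | zero => rw [pow_zero, mul_one]
    | succ n ih => rw [pow_succ, ← mul_assoc, h1, ih]
  have h3 : ∀ w : Q, d (w * B.q b) = d w := fun w => by
    have := h2 w m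
    rw [hm, ← mul_assoc, ← hU, dl_zpow C.d_line] at this
    exact this
  have h4 := (key 1).2 (h3 1).symm (by rw [← (key 1).1]; exact (h3 1).symm)
  rw [h3] at h4
  simp at h4

end Pool.Agent.Lib.MP_688fd0_co.SQ3
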