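import Pool.Agent.Lib.MP_688fd0_co.SQ3.V.FlipCases
import Pool.Agent.Lib.MP_688fd0_co.SQ3.V.Lines

/-!
FLIP: a commuting label, case II, two tours.
-/

set_option autoImplicit false

namespace Pool.Agent.Lib.MP_688fd0_co.SQ3

open Pool.Agent.Lib.MP_688fd0_co.OSF Pool.Agent.Lib.MP_688fd0_co.SQ2
open V (Puz)

namespace C2T

section

variable {Q : Type} [Group Q] {B : Lb.{0, 0} Q} {a : B.L} {eps : Q →* ℤˣ} {D : Subgroup Q} {z : Q} {k : ℕ}

/-- The line of a vertex. -/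
theorem ln_iff (H : Hyp B a eps D z k) {y y' : Q} :
    (y : Q ⧸ Subgroup.zpowers (B.q a)) = (y' : Q ⧸ Subgroup.zpowers (B.q a)) ↔ ∃ t : ℤ, y' = (H.up.U ^ t) y := by
  rw [QuotientGroup.eq, Subgroup.mem_zpowers_iff]
  constructor
  · rintro ⟨n, hn⟩
    refine ⟨((eps y : ℤˣ) : ℤ) * n, ?_⟩
    rw [← H.mul_zpow, hn, mul_inv_cancel_left]
  · rintro ⟨t, rfl⟩
    refine ⟨((eps y : ℤˣ) : ℤ) * t, ?_⟩
    rw [H.zpow_eq, inv_mul_cancel_left]

end

end C2T

open C2T

theorem case_c2t (gc : CGadS.{0}) (g1 : GadN1S.{0}) (g2 : GadN2S.{0}) (fca : FCAS) (fcb : FCBS) (el : EL2cS)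
    (en : ENbS) : CaseC2TS := by
  intro Q _ _ B a eps D z k c W H d cl ι x b₁ b₂ j F C P hlam p hp hkp V hz hcl γ b hcom hb hII
  have hp0 : Fact p.Prime := ⟨hp⟩
  have hp1 : Fact (1 < p) := ⟨hp.one_lt⟩
  have h20 : (2 : ZMod p) ≠ 0 := by
    intro h
    have h1 : ((2 : ℕ) : ZMod p) = 0 := by exact_mod_cast h
    rw [ZMod.natCast_eq_zero_iff] at h1
    have := Nat.le_of_dvd (by omega) h1
    have := H.kpos
    omega
  obtain ⟨i, v, hv, hclv⟩ := el Q B a eps D z k c W H d cl ι x b₁ b₂ j F C P hcl b hcom hb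
  have hb₁ : B.q b ≠ B.q a := fun h => hb (h ▸ Subgroup.mem_zpowers _)
  have hb₂ : B.q b ≠ (B.q a)⁻¹ := fun h => hb (h ▸ inv_mem (Subgroup.mem_zpowers _))
  obtain ⟨y, o, G, p₀, p₁, hne, hyd, ho, he, hGx, hGy, hC, hO⟩ := exists_CG gc C hv.dep hlam (by omega) hcom hb₁ hb₂
  have hcy : cl (y : Q) = true := by
    rw [he, dl_zpow C.c_line] at hclv
    exact hclv
  have hy0 : y ≠ (P i).l₀ := fun h => by rw [h, (P i).cl₀] at hcy; exact Bool.false_ne_true hcy
  have hy1 : y ≠ (P i).l₁ := fun h => by rw [h, (P i).cl₁] at hcy; exact Bool.false_ne_true hcy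
  have hy2 : y ≠ (P i).l₂ := fun h => by rw [h, (P i).cl₂] at hcy; exact Bool.false_ne_true hcy
  refine ⟨i, ?_⟩
  -- the weight of a strand of the first tour and of `y`
  have hexcl : ∀ s : Q, cl s = false → (wcl cl d γ s : ZMod p) = wcl cl d γ (y : Q) → False := by
    intro s hs h
    cases γ with
    | true =>
      rw [wcl_zero (γ := true) (y := s) (by rw [hs]; decide)] at h
      exact wcl_ne hcy h.symm
    | false =>
      rw [wcl_zero (γ := false) (y := (y : Q)) (by rw [hcy]; decide)] at h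
      exact wcl_ne hs h
  by_cases hv0 : v = (P i).l₀
  · have hLC := (P i).lc hO (P i).ok₀ (P i).ok₀ hp hkp V hz γ
    rcases fca Q B H.up eps.ker D z (F i) k (H.frd (C.fr i)) (Fin 5) (fam (P i) G (P i).G₀ (P i).G₀) _ (P i).f
      (P i).g (P i).l₀ p V (wcl cl d γ) hLC 2 b p₀ p₁ hC hII (hGx.trans hv0)
      (by rw [(P i).othf]; show G.y ≠ _; rw [hGy]; exact hy1)
      (by rw [(P i).othg]; show G.y ≠ _; rw [hGy]; exact hy2) with h | h
    · exact ⟨G, (P i).G₀, (P i).G₀, hO, (P i).ok₀, (P i).ok₀, h⟩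
    · exfalso
      rw [(P i).othg] at h
      have h' : (wcl cl d γ ((P i).l₂ : Q) : ZMod p) = wcl cl d γ (G.y : Q) := h
      rw [hGy] at h'
      exact hexcl _ (P i).cl₂ h'
  · have hv12 : v = (P i).l₁ ∨ v = (P i).l₂ := by
      rcases hv with h | h | h
      · exact absurd h hv0
      · exact Or.inl h
      · exact Or.inr h
    -- FCB with a neighbour strand of `y`
    have key : ∀ (s : F i) (m : ℕ) (b' : B.L) (o' : ℤ), s ≠ y → s ≠ v → |o'| ≤ 2 * c →
        (H.up.U ^ m) (y : Q) * B.q b' = (H.up.U ^ ((m : ℤ) + o')) (s : Q) → (P i).Suc V (wcl cl d γ) ∨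
        (if s = (P i).l₀ then (wcl cl d γ (y : Q) : ZMod p) else wcl cl d γ (s : Q)) = - wcl cl d γ (y : Q) := by
      intro s m b' o' hsy hsv ho' he'
      obtain ⟨G', g, hg1, hg2, hO'⟩ := exists_GR g1 g2 gc C hlam hyd (by omega) hsy.symm ho' he'
      have hLC := (P i).lc hO hO' (P i).ok₀ hp hkp V hz γ
      have hxr : (bigP (fam (P i) G G' (P i).G₀)).x ⟨3, g⟩ = y := hg1
      have hyr : (bigP (fam (P i) G G' (P i).G₀)).y ⟨3, g⟩ = s := hg2
      have hoth : (bigP (fam (P i) G G' (P i).G₀)).oth ⟨3, g⟩ y = s := by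
        unfold Puz.oth
        rw [hxr, if_pos rfl, hyr]
      rcases fcb Q B H.up eps.ker D z (F i) k (H.frd (C.fr i)) (Fin 5) (fam (P i) G G' (P i).G₀) _ (P i).f
        (P i).g (P i).l₀ p V (wcl cl d γ) hLC 2 b p₀ p₁ hC hII
        (by rw [(P i).othf, (P i).othg]; show G.x = _ ∨ G.x = _; rw [hGx]; exact hv12)
        (by show G.y ≠ _; rw [hGy]; exact hy0)
        (by rw [(P i).othf]; show G.y ≠ _; rw [hGy]; exact hy1)
        (by rw [(P i).othg]; show G.y ≠ _; rw [hGy]; exact hy2) ⟨3, g⟩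
        (by show (bigP (fam (P i) G G' (P i).G₀)).On _ G.y; rw [hGy]; exact Or.inl hxr.symm)
        (by show (bigP (fam (P i) G G' (P i).G₀)).oth _ G.y ≠ G.x; rw [hGy, hGx, hoth]; exact hsv) with h | h
      · exact Or.inl ⟨G, G', (P i).G₀, hO, hO', (P i).ok₀, h⟩
      · right
        have h' : (if (bigP (fam (P i) G G' (P i).G₀)).oth ⟨3, g⟩ G.y = (P i).l₀ then
          (wcl cl d γ (G.y : Q) : ZMod p) else wcl cl d γ
            (((bigP (fam (P i) G G' (P i).G₀)).oth ⟨3, g⟩ G.y : F i) : Q)) = - wcl cl d γ (G.y : Q) := h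
        rw [hGy, hoth] at h'
        exact h'
    have hcls : ∀ s : Q, (s : Q ⧸ Subgroup.zpowers (B.q a)) ≠ ((y : Q) : Q ⧸ Subgroup.zpowers (B.q a)) →
        cl s = false := by
      intro s hs
      by_contra hcs
      rw [Bool.not_eq_false] at hcs
      exact hs ((ln_iff H).2 (C.one s y hcs hcy))
    cases γ with
    | true =>
      obtain ⟨s, m, b', o', hs1, hs2, -, ho', he', -⟩ := en Q B a eps D z k c W H d cl ι x b₁ b₂ j F C i y 2 hyd
        (by omega) (ln B a (v : Q))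
      rcases key s m b' o' (fun h => hs1 (by rw [h])) (fun h => hs2 (by rw [h])) ho' he' with h | h
      · exact h
      · exfalso
        have hw : (wcl cl d true (y : Q) : ZMod p) ≠ 0 := wcl_ne hcy
        by_cases h0 : s = (P i).l₀
        · rw [if_pos h0] at h
          have h1 : (2 : ZMod p) * wcl cl d true (y : Q) = 0 := by linear_combination h
          rcases mul_eq_zero.1 h1 with h2 | h2
          · exact h20 h2
          · exact hw h2
        · rw [if_neg h0, wcl_zero (γ := true) (y := (s : Q)) (by rw [hcls _ hs1]; decide)] at h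
          exact hw (neg_eq_zero.1 h.symm)
    | false =>
      have hlne : ∀ s : F i, cl (s : Q) = false →
          ((y : Q) : Q ⧸ Subgroup.zpowers (B.q a)) ≠ ((s : Q) : Q ⧸ Subgroup.zpowers (B.q a)) := by
        intro s hs h
        obtain ⟨t, ht⟩ := (ln_iff H).1 h
        rw [ht, dl_zpow C.c_line, hcy] at hs
        exact Bool.false_ne_true hs.symm
      have hl0 : ((P i).l₀ : Q) = x i := rfl
      have hn1 : ((((P i).l₀ : Q) * B.q a ^ (0 : ℤ) * B.q (b₁ i) : Q) : Q ⧸ Subgroup.zpowers (B.q a)) =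
          (((P i).l₁ : Q) : Q ⧸ Subgroup.zpowers (B.q a)) := by
        rw [hl0, zpow_zero, mul_one, (P i).e₁]
        exact ((ln_iff H).2 ⟨_, rfl⟩).symm
      have hn2 : ((((P i).l₀ : Q) * B.q a ^ (((eps (x i) : ℤˣ) : ℤ) * (j i : ℤ)) * B.q (b₂ i) : Q) :
          Q ⧸ Subgroup.zpowers (B.q a)) = (((P i).l₂ : Q) : Q ⧸ Subgroup.zpowers (B.q a)) := by
        rw [hl0, ← H.zpow_eq, zpow_natCast, (P i).e₂]
        exact ((ln_iff H).2 ⟨_, rfl⟩).symm
      obtain ⟨n, b', hs1, hs2, hs3⟩ := nbr3 (B := B) (a := a) ((P i).l₀ : Q) ((P i).l₁ : Q) ((P i).l₂ : Q) (y : Q)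
        (v : Q) ⟨_, _, hn1⟩ ⟨_, _, hn2⟩
        (fun h => by obtain ⟨t, ht⟩ := (ln_iff H).1 h.symm; exact (P i).ne₀₁ t ht)
        (fun h => by obtain ⟨t, ht⟩ := (ln_iff H).1 h.symm; exact (P i).ne₀₂ t ht)
        (fun h => by obtain ⟨t, ht⟩ := (ln_iff H).1 h; exact (P i).ne₁₂ t ht)
        (hlne _ (P i).cl₀) (hlne _ (P i).cl₁) (hlne _ (P i).cl₂)
      obtain ⟨m, q, hm, hmq⟩ := H.level (((eps (y : Q) : ℤˣ) : ℤ) * n)
      obtain ⟨s, hsd, o', ho', he'⟩ := hyd.next C (by omega) b' m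
      have hline : (((y : Q) * B.q a ^ n * B.q b' : Q) : Q ⧸ Subgroup.zpowers (B.q a)) =
          (s : Q ⧸ Subgroup.zpowers (B.q a)) := by
        rw [H.mul_zpow, hmq, add_comm, H.up.zadd, H.per_edge, he']
        exact ((ln_iff H).2 ⟨_, rfl⟩).symm.trans ((ln_iff H).2 ⟨_, rfl⟩).symm
      rw [hline] at hs1 hs2 hs3
      rw [zpow_natCast] at he'
      rcases key ⟨s, hsd.1⟩ m b' o' (fun h => hs1 (by rw [← h])) (fun h => hs2 (by rw [← h])) ho' he' with h | h
      · exact h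
      · exfalso
        rw [if_neg (fun h => hs3 (by rw [← h])), wcl_zero (γ := false) (y := (y : Q)) (by rw [hcy]; decide),
          neg_zero] at h
        exact wcl_ne (hcls s hs1) h

end Pool.Agent.Lib.MP_688fd0_co.SQ3
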