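import Pool.Agent.Lib.MP_688fd0_co.SQ3.V.Loc

/-! Module V-PLACEW (helper49): the choice of the place, weights of one class of lines. -/

set_option autoImplicit false

namespace Pool.Agent.Lib.MP_688fd0_co.SQ3

open Pool.Agent.Lib.MP_688fd0_co.OSF Pool.Agent.Lib.MP_688fd0_co.SQ2

section PlaceW

set_option linter.unusedSectionVars false

variable {Q : Type} [Group Q]

theorem pw_cl_zpow {α : Type} (A : Q) (d : Q → α) (hd : ∀ x, d (x * A) = d x) (x : Q) (t : ℤ) :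
    d (x * A ^ t) = d x := by
  induction t using Int.induction_on generalizing x with
  | zero => simp
  | succ n ih => rw [zpow_add, zpow_one, ← mul_assoc, hd, ih]
  | pred n ih =>
    have h1 := hd (x * A ^ (-(n : ℤ) - 1))
    have e1 : x * A ^ (-(n : ℤ) - 1) * A = x * A ^ (-(n : ℤ)) := by
      rw [mul_assoc, ← zpow_add_one, sub_add_cancel]
    rw [← h1, e1, ih]

/-- A set which is invariant under `A` consists of lines. -/
theorem card_lines [Finite Q] (A : Q) (X : Set Q) (hX : ∀ x, x * A ∈ X ↔ x ∈ X) :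
    ∃ a : ℕ, Nat.card X = a * orderOf A := by
  let t : Set (Q ⧸ Subgroup.zpowers A) := (QuotientGroup.mk (s := Subgroup.zpowers A)) '' X
  have h1 : (QuotientGroup.mk (s := Subgroup.zpowers A)) ⁻¹' t = X := by
    ext y
    constructor
    · rintro ⟨x, hx, hxy⟩
      rw [QuotientGroup.eq] at hxy
      obtain ⟨n, hn⟩ := Subgroup.mem_zpowers_iff.1 hxy
      have h2 : y = x * A ^ n := by rw [hn]; group
      rw [h2]
      have h3 := pw_cl_zpow A (fun x => x ∈ X) (fun x => propext (hX x)) x n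
      exact (iff_of_eq h3).2 hx
    · intro hy
      exact ⟨y, hy, rfl⟩
  refine ⟨Nat.card t, ?_⟩
  have h2 := Nat.card_congr (QuotientGroup.preimageMkEquivSubgroupProdSet (Subgroup.zpowers A) t)
  rw [h1, Nat.card_prod, Nat.card_zpowers] at h2
  rw [h2, mul_comm]

theorem sum_wcl [Fintype Q] (A : Q) (d cl : Q → Bool) (hd : ∀ x, d (x * A) = d x)
    (hcl : ∀ x, cl (x * A) = cl x)
    (hone : ∀ y y', cl y = true → cl y' = true → ∃ t : ℤ, y' = y * A ^ t)
    (hodd : ∃ n : ℕ, Odd n ∧ Nat.card {y : Q // cl y = false} = n * orderOf A)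
    (γ : Bool) (hγ : ∃ y, cl y = γ) : ∑ x, wcl (R := ℤ) cl d γ x ≠ 0 := by
  classical
  have h1 : ∑ x, wcl (R := ℤ) cl d γ x = (Nat.card {x | cl x = γ ∧ d x = true} : ℤ) -
      Nat.card {x | cl x = γ ∧ d x = false} := by
    have h2 : ∀ x, wcl (R := ℤ) cl d γ x = (if cl x = γ ∧ d x = true then 1 else 0) -
        (if cl x = γ ∧ d x = false then 1 else 0) := by
      intro x
      unfold wcl
      cases hx : d x <;> by_cases hc : cl x = γ <;> simp [hc]
    simp only [h2, Finset.sum_sub_distrib, Finset.sum_boole]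
    congr 2
    · rw [Nat.card_eq_fintype_card, Fintype.card_subtype]; rfl
    · rw [Nat.card_eq_fintype_card, Fintype.card_subtype]; rfl
  have hA := orderOf_pos A
  cases γ with
  | false =>
    obtain ⟨a, ha⟩ := card_lines A {x | cl x = false ∧ d x = true} (fun x => by
      simp only [Set.mem_ofPred_eq, hd, hcl])
    obtain ⟨b, hb⟩ := card_lines A {x | cl x = false ∧ d x = false} (fun x => by
      simp only [Set.mem_ofPred_eq, hd, hcl])
    obtain ⟨n, hn, hn2⟩ := hodd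
    have h3 : Nat.card {x | cl x = false ∧ d x = true} +
        Nat.card {x | cl x = false ∧ d x = false} = Nat.card {y : Q // cl y = false} := by
      simp only [Nat.card_eq_fintype_card, Fintype.card_subtype, Set.coe_ofPred]
      rw [← Finset.card_filter_add_card_filter_not (s := Finset.univ.filter fun x => cl x = false)
        (fun x => d x = true), Finset.filter_filter, Finset.filter_filter]
      simp
    have h4 : (a + b) * orderOf A = n * orderOf A := by rw [add_mul, ← ha, ← hb, h3, hn2]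
    have h5 := Nat.eq_of_mul_eq_mul_right hA h4
    rw [h1, ha, hb]
    intro h6
    have h7 : (a : ℤ) * orderOf A = b * orderOf A := by
      have := sub_eq_zero.1 h6
      exact_mod_cast this
    have h8 : a = b := by
      have : a * orderOf A = b * orderOf A := by exact_mod_cast h7
      exact Nat.eq_of_mul_eq_mul_right hA this
    obtain ⟨k, hk⟩ := hn
    omega
  | true =>
    obtain ⟨y, hy⟩ := hγ
    have h3 : ∀ x, cl x = true → d x = d y := by
      intro x hx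
      obtain ⟨t, ht⟩ := hone y x hy hx
      rw [ht]
      exact pw_cl_zpow A d hd y t
    rw [h1]
    cases hdy : d y with
    | true =>
      have h4 : {x | cl x = true ∧ d x = false} = ∅ := by
        ext x
        simp only [Set.mem_ofPred_eq, Set.mem_empty_iff_false, iff_false, not_and]
        intro hx
        rw [h3 x hx, hdy]; simp
      have h5 : 0 < Nat.card {x | cl x = true ∧ d x = true} := by
        have : Nonempty {x | cl x = true ∧ d x = true} := ⟨⟨y, hy, hdy⟩⟩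
        exact Nat.card_pos
      have h6 : Nat.card (∅ : Set Q) = 0 := by simp
      rw [h4, h6]
      omega
    | false =>
      have h4 : {x | cl x = true ∧ d x = true} = ∅ := by
        ext x
        simp only [Set.mem_ofPred_eq, Set.mem_empty_iff_false, iff_false, not_and]
        intro hx
        rw [h3 x hx, hdy]; simp
      have h5 : 0 < Nat.card {x | cl x = true ∧ d x = false} := by
        have : Nonempty {x | cl x = true ∧ d x = false} := ⟨⟨y, hy, hdy⟩⟩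
        exact Nat.card_pos
      have h6 : Nat.card (∅ : Set Q) = 0 := by simp
      rw [h4, h6]
      omega

theorem wcl_abs (d cl : Q → Bool) (γ : Bool) (x : Q) : |wcl (R := ℤ) cl d γ x| ≤ 1 := by
  unfold wcl
  split_ifs <;> simp

/-- The edge with the right sum. -/
theorem pw_exists_edge [Finite Q] (M : Subgroup Q) (w : Q → ℤ) (b v : Q) (D : ℤ) (hD : D ≠ 0) (c : ℕ)
    (hc : Nat.card M ≠ c) (h : ∑ᶠ κ : M, (w (v * κ) + w (v * κ * b)) = c * D) :
    ∃ κ ∈ M, w (v * κ) + w (v * κ * b) ≠ D := by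
  classical
  have := Fintype.ofFinite Q
  by_contra hcon
  push Not at hcon
  apply hc
  have h1 : ∀ κ : M, w (v * κ) + w (v * κ * b) = D := fun κ => hcon κ κ.2
  simp only [h1] at h
  rw [finsum_eq_sum_of_fintype, Finset.sum_const, Finset.card_univ, nsmul_eq_mul] at h
  have h2 := mul_right_cancel₀ hD h
  rw [Nat.card_eq_fintype_card]
  exact_mod_cast h2

theorem pw_wcl_line (A : Q) (d cl : Q → Bool) (γ : Bool) (hd : ∀ x, d (x * A) = d x)
    (hcl : ∀ x, cl (x * A) = cl x) (x : Q) :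
    wcl (R := ℤ) cl d γ (x * A) = wcl (R := ℤ) cl d γ x := by
  unfold wcl
  rw [hd, hcl]

/-! #### levels -/

/-- The elements `x` of level `m`: `x A ^ (-m)` is in `N`. -/
def PwLev (A : Q) (N : Subgroup Q) (m : ℤ) (x : Q) : Prop := x * (A ^ m)⁻¹ ∈ N

theorem PwLev.mul {A : Q} {N : Subgroup Q} (hN : ∀ (i : ℤ) (κ : Q), κ ∈ N → A ^ i * κ * (A ^ i)⁻¹ ∈ N)
    {m m' : ℤ} {x y : Q} (hx : PwLev A N m x) (hy : PwLev A N m' y) : PwLev A N (m + m') (x * y) := by
  have h1 := N.mul_mem hx (hN m _ hy)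
  have e1 : x * (A ^ m)⁻¹ * (A ^ m * (y * (A ^ m')⁻¹) * (A ^ m)⁻¹) = x * y * (A ^ (m + m'))⁻¹ := by
    rw [zpow_add, mul_inv_rev, (Commute.zpow_zpow (Commute.refl A) m m').inv_inv.eq.symm]
    group
  rwa [e1] at h1

theorem PwLev.inv {A : Q} {N : Subgroup Q} (hN : ∀ (i : ℤ) (κ : Q), κ ∈ N → A ^ i * κ * (A ^ i)⁻¹ ∈ N)
    {m : ℤ} {x : Q} (hx : PwLev A N m x) : PwLev A N (-m) x⁻¹ := by
  have h1 := hN (-m) _ (N.inv_mem hx)
  have e1 : A ^ (-m) * (x * (A ^ m)⁻¹)⁻¹ * (A ^ (-m))⁻¹ = x⁻¹ * (A ^ (-m))⁻¹ := by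
    rw [zpow_neg]; group
  rwa [e1] at h1

theorem PwLev.zpow {A : Q} {N : Subgroup Q} (hN : ∀ (i : ℤ) (κ : Q), κ ∈ N → A ^ i * κ * (A ^ i)⁻¹ ∈ N)
    {m : ℤ} {x : Q} (hx : PwLev A N m x) (n : ℤ) : PwLev A N (n * m) (x ^ n) := by
  induction n using Int.induction_on with
  | zero =>
    show x ^ (0 : ℤ) * (A ^ ((0 : ℤ) * m))⁻¹ ∈ N
    simp [N.one_mem]
  | succ n ih =>
    have h1 := ih.mul hN hx
    rw [← zpow_add_one] at h1
    have e1 : (n : ℤ) * m + m = ((n : ℤ) + 1) * m := by ring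
    rwa [e1] at h1
  | pred n ih =>
    have h1 := ih.mul hN (hx.inv hN)
    rw [← zpow_sub_one] at h1
    have e1 : -(n : ℤ) * m + -m = (-(n : ℤ) - 1) * m := by ring
    rwa [e1] at h1

theorem PwLev.self (A : Q) (N : Subgroup Q) : PwLev A N 1 A := by
  show A * (A ^ (1 : ℤ))⁻¹ ∈ N
  simp [N.one_mem]

theorem closure_conj (A g : Q) (i : ℤ) {κ : Q}
    (h : κ ∈ Subgroup.closure {x | ∃ i : ℤ, x = A ^ i * g * (A ^ i)⁻¹}) :
    A ^ i * κ * (A ^ i)⁻¹ ∈ Subgroup.closure {x | ∃ i : ℤ, x = A ^ i * g * (A ^ i)⁻¹} := by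
  have h1 : Subgroup.closure {x | ∃ i : ℤ, x = A ^ i * g * (A ^ i)⁻¹} ≤
      (Subgroup.closure {x | ∃ i : ℤ, x = A ^ i * g * (A ^ i)⁻¹}).comap
        (MulAut.conj (A ^ i)).toMonoidHom := by
    rw [Subgroup.closure_le]
    rintro x ⟨j, rfl⟩
    refine Subgroup.subset_closure ⟨i + j, ?_⟩
    show A ^ i * (A ^ j * g * (A ^ j)⁻¹) * (A ^ i)⁻¹ = _
    rw [zpow_add]
    group
  exact h1 h

theorem closure_le_normal (A g : Q) (D : Subgroup Q) (hD : D.Normal) (hg : g ∈ D) :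
    Subgroup.closure {x | ∃ i : ℤ, x = A ^ i * g * (A ^ i)⁻¹} ≤ D := by
  rw [Subgroup.closure_le]
  rintro x ⟨i, rfl⟩
  exact hD.conj_mem g hg _

/-! #### two sheets -/

theorem K02_conj (A b : Q) (σ i : ℤ) (κ : Q) (h : κ ∈ K02 A b σ) :
    A ^ i * κ * (A ^ i)⁻¹ ∈ K02 A b σ := closure_conj A _ i h

theorem K02_gen (A b : Q) (σ : ℤ) : b * A ^ σ * b⁻¹ * A⁻¹ ∈ K02 A b σ :=
  Subgroup.subset_closure ⟨0, by simp⟩

theorem DS2_mul (A b : Q) (σ : ℤ) (w : Q → ℤ) (v κ₀ : Q) (h : κ₀ ∈ K02 A b σ) :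
    DS2 A b σ w (v * κ₀) = DS2 A b σ w v := by
  unfold DS2
  refine (finsum_congr fun κ => ?_).trans
    (finsum_comp_equiv (Equiv.mulLeft (⟨κ₀, h⟩ : K02 A b σ)))
  simp [mul_assoc]

theorem conj_mem_K02 (A b : Q) (σ : ℤ) (hσ : σ = 1 ∨ σ = -1) {κ : Q} (h : κ ∈ K02 A b σ) :
    b⁻¹ * κ * b ∈ K02 A b⁻¹ σ := by
  have hσ2 : σ * σ = 1 := by rcases hσ with rfl | rfl <;> norm_num
  set N := K02 A b⁻¹ σ with hNdef
  have hN : ∀ (i : ℤ) (κ : Q), κ ∈ N → A ^ i * κ * (A ^ i)⁻¹ ∈ N := fun i κ => K02_conj A b⁻¹ σ i κ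
  have hc : PwLev A N 1 (b⁻¹ * A ^ σ * b) := by
    have h1 := K02_gen A b⁻¹ σ
    rw [inv_inv] at h1
    show b⁻¹ * A ^ σ * b * (A ^ (1 : ℤ))⁻¹ ∈ N
    rwa [zpow_one]
  have ha : ∀ i : ℤ, PwLev A N (σ * i) (b⁻¹ * A ^ i * b) := by
    intro i
    have h1 := hc.zpow hN (σ * i)
    have e1 : (b⁻¹ * A ^ σ * b) ^ (σ * i) = b⁻¹ * A ^ i * b := by
      have e2 : b⁻¹ * A ^ σ * b = b⁻¹ * A ^ σ * b⁻¹⁻¹ := by rw [inv_inv]
      rw [e2, conj_zpow, ← zpow_mul, ← mul_assoc, hσ2, one_mul, inv_inv]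
    rwa [e1, mul_one] at h1
  have h1 : K02 A b σ ≤ N.comap (MulAut.conj b⁻¹).toMonoidHom := by
    unfold K02
    rw [Subgroup.closure_le]
    rintro x ⟨i, rfl⟩
    show b⁻¹ * (A ^ i * (b * A ^ σ * b⁻¹ * A⁻¹) * (A ^ i)⁻¹) * b⁻¹⁻¹ ∈ N
    have h2 := ((ha i).mul hN ((PwLev.self A N).zpow hN σ)).mul hN (ha (-1 - i))
    have e3 : σ * i + σ * 1 + σ * (-1 - i) = 0 := by ring
    rw [e3] at h2
    have h3 : b⁻¹ * A ^ i * b * A ^ σ * (b⁻¹ * A ^ (-1 - i) * b) * (A ^ (0 : ℤ))⁻¹ ∈ N := h2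
    have e4 : b⁻¹ * (A ^ i * (b * A ^ σ * b⁻¹ * A⁻¹) * (A ^ i)⁻¹) * b⁻¹⁻¹ =
        b⁻¹ * A ^ i * b * A ^ σ * (b⁻¹ * A ^ (-1 - i) * b) * (A ^ (0 : ℤ))⁻¹ := by
      have e5 : A ^ (-1 - i) = A⁻¹ * (A ^ i)⁻¹ := by
        rw [sub_eq_add_neg, zpow_add, zpow_neg_one, zpow_neg]
      rw [e5]
      group
    rw [e4]
    exact h3
  have h2 : b⁻¹ * κ * b⁻¹⁻¹ ∈ N := h1 h
  rwa [inv_inv] at h2

theorem DS2_inv (A b : Q) (σ : ℤ) (hσ : σ = 1 ∨ σ = -1) (w : Q → ℤ) (v : Q) :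
    DS2 A b⁻¹ σ w (v * b) = DS2 A b σ w v := by
  let e : K02 A b σ ≃ K02 A b⁻¹ σ :=
    { toFun := fun κ => ⟨b⁻¹ * κ * b, conj_mem_K02 A b σ hσ κ.2⟩
      invFun := fun κ => ⟨b * κ * b⁻¹, by
        have := conj_mem_K02 A b⁻¹ σ hσ κ.2
        simpa using this⟩
      left_inv := fun κ => Subtype.ext (by simp [mul_assoc])
      right_inv := fun κ => Subtype.ext (by simp [mul_assoc]) }
  unfold DS2
  refine Eq.trans (finsum_comp_equiv e).symm (finsum_congr fun κ => ?_)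
  have e1 : v * b * (e κ : Q) = v * κ * b := by
    show v * b * (b⁻¹ * (κ : Q) * b) = _
    group
  rw [e1, mul_inv_cancel_right, add_comm]

theorem K02_le (A b : Q) (σ : ℤ) (hσ : σ = 1 ∨ σ = -1) (D : Subgroup Q) (hD : D.Normal)
    (h : (A ^ σ)⁻¹ * (b * A * b⁻¹) ∈ D) : K02 A b σ ≤ D := by
  refine closure_le_normal A _ D hD ?_
  rcases hσ with rfl | rfl
  · have h1 := hD.conj_mem _ h A
    have e1 : A * ((A ^ (1 : ℤ))⁻¹ * (b * A * b⁻¹)) * A⁻¹ = b * A ^ (1 : ℤ) * b⁻¹ * A⁻¹ := by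
      rw [zpow_one]; group
    rwa [e1] at h1
  · have h1 := D.inv_mem h
    have e1 : ((A ^ (-1 : ℤ))⁻¹ * (b * A * b⁻¹))⁻¹ = b * A ^ (-1 : ℤ) * b⁻¹ * A⁻¹ := by
      rw [zpow_neg_one]; group
    rwa [e1] at h1

theorem abs_sum_le [Finite Q] (N D : Subgroup Q) (hle : N ≤ D) (c : ℤ) (hc : 0 ≤ c) (f : N → ℤ)
    (hf : ∀ κ, |f κ| ≤ c) : |∑ᶠ κ : N, f κ| ≤ c * Nat.card D := by
  classical
  have := Fintype.ofFinite Q
  rw [finsum_eq_sum_of_fintype]
  have h1 : |∑ κ : N, f κ| ≤ ∑ κ : N, c :=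
    (Finset.abs_sum_le_sum_abs _ _).trans (Finset.sum_le_sum fun κ _ => hf κ)
  have h2 : Nat.card N ≤ Nat.card D :=
    Nat.card_le_card_of_injective _ (Subgroup.inclusion_injective hle)
  refine h1.trans ?_
  rw [Finset.sum_const, Finset.card_univ, nsmul_eq_mul, ← Nat.card_eq_fintype_card, mul_comm]
  have h3 : (Nat.card N : ℤ) ≤ Nat.card D := by exact_mod_cast h2
  exact mul_le_mul_of_nonneg_left h3 hc

theorem DS2_abs [Finite Q] (A b : Q) (σ : ℤ) (D : Subgroup Q) (hle : K02 A b σ ≤ D) (w : Q → ℤ)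
    (hw : ∀ x, |w x| ≤ 1) (v : Q) : |DS2 A b σ w v| ≤ 2 * Nat.card D :=
  abs_sum_le _ D hle 2 (by norm_num) _ fun κ => (abs_add_le _ _).trans (by
    have := hw (v * κ)
    have := hw (v * κ * b)
    linarith)

theorem exists_DS2 [Fintype Q] (A b : Q) (σ : ℤ) (w : Q → ℤ)
    (hw : ∑ x, w x ≠ 0) : ∃ v, DS2 A b σ w v ≠ 0 := by
  classical
  by_contra hcon
  push Not at hcon
  have h1 : ∑ v, DS2 A b σ w v = 2 * (Fintype.card (K02 A b σ)) * ∑ x, w x := by
    simp only [DS2, finsum_eq_sum_of_fintype]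
    rw [Finset.sum_comm]
    have h2 : ∀ κ : K02 A b σ, ∑ v, (w (v * κ) + w (v * κ * b)) = 2 * ∑ x, w x := by
      intro κ
      rw [Finset.sum_add_distrib]
      have e1 : ∑ v, w (v * κ) = ∑ x, w x :=
        Fintype.sum_equiv (Equiv.mulRight (κ : Q)) _ _ fun v => rfl
      have e2 : ∑ v, w (v * κ * b) = ∑ x, w x :=
        Fintype.sum_equiv ((Equiv.mulRight (κ : Q)).trans (Equiv.mulRight b)) _ _ fun v => rfl
      rw [e1, e2]; ring
    rw [Finset.sum_congr rfl fun κ _ => h2 κ, Finset.sum_const, Finset.card_univ, nsmul_eq_mul]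
    ring
  simp only [hcon, Finset.sum_const_zero] at h1
  have h3 : (2 * (Fintype.card (K02 A b σ)) : ℤ) ≠ 0 := by
    have : Fintype.card (K02 A b σ) ≠ 0 := Fintype.card_ne_zero
    exact_mod_cast mul_ne_zero two_ne_zero this
  exact hw ((mul_eq_zero.1 h1.symm).resolve_left h3)

theorem placeW2 : PlaceW2S := by
  classical
  intro Q _ _ D hD A b d cl hd hcl hone hodd hb σ hσ h1 h2 h1' h2' γ hγ
  have := Fintype.ofFinite Q
  set w : Q → ℤ := wcl cl d γ with hw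
  obtain ⟨v, hv⟩ := exists_DS2 A b σ w (sum_wcl A d cl hd hcl hone hodd γ hγ)
  have hle : K02 A b σ ≤ D := K02_le A b σ hσ D hD h1
  have hle' : K02 A b⁻¹ σ ≤ D := K02_le A b⁻¹ σ hσ D hD (by rwa [inv_inv])
  have hM := K02_gen A b σ
  have hM1 : b * A ^ σ * b⁻¹ * A⁻¹ ≠ 1 := by
    intro h
    apply h2
    have h3 : b * A ^ σ * b⁻¹ = A := mul_inv_eq_one.1 h
    rcases hσ with rfl | rfl
    · rw [zpow_one] at h3 ⊢
      exact h3
    · have h4 := congrArg (·⁻¹) h3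
      simp only [zpow_neg_one, mul_inv_rev, inv_inv] at h4
      rw [zpow_neg_one, ← h4, mul_assoc]
  have hcard : Nat.card (K02 A b σ) ≠ 1 := by
    intro h
    have h3 : Subsingleton (K02 A b σ) := (Nat.card_eq_one_iff_unique.1 h).1
    have h4 : (⟨_, hM⟩ : K02 A b σ) = 1 := Subsingleton.elim _ _
    exact hM1 (congrArg Subtype.val h4)
  obtain ⟨κ, hκ, hne⟩ := pw_exists_edge (K02 A b σ) w b v _ hv 1 hcard (by
    rw [Nat.cast_one, one_mul]; rfl)
  have hDκ : DS2 A b σ w (v * κ) = DS2 A b σ w v := DS2_mul A b σ w v κ hκ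
  cases hc : cl (v * κ) with
  | false =>
    refine ⟨v * κ, b, Or.inl rfl, hc, by rw [hDκ]; exact hv, ?_,
      DS2_abs A b σ D hle w (wcl_abs d cl γ) _⟩
    rw [hDκ]
    intro h
    apply hne
    linarith
  | true =>
    have hc' : cl (v * κ * b) = false := by
      by_contra h
      have h' : cl (v * κ * b) = true := by simpa using h
      obtain ⟨t, ht⟩ := hone _ _ hc h'
      exact hb (Subgroup.mem_zpowers_iff.2 ⟨t, (mul_left_cancel ht).symm⟩)
    have h6 : DS2 A b⁻¹ σ w (v * κ * b) = DS2 A b σ w v := by rw [DS2_inv A b σ hσ, hDκ]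
    refine ⟨v * κ * b, b⁻¹, Or.inr rfl, hc', by rw [h6]; exact hv, ?_,
      DS2_abs A b⁻¹ σ D hle' w (wcl_abs d cl γ) _⟩
    rw [h6, mul_inv_cancel_right]
    intro h
    apply hne
    linarith

/-! #### one sheet -/

theorem K01_conj (A b : Q) (j i : ℤ) (κ : Q) (h : κ ∈ K01 A b j) :
    A ^ i * κ * (A ^ i)⁻¹ ∈ K01 A b j := closure_conj A _ i h

theorem K01_gen (A b : Q) (j : ℤ) : b * (A ^ j)⁻¹ ∈ K01 A b j :=
  Subgroup.subset_closure ⟨0, by simp⟩

theorem DS1_mul (A b : Q) (j : ℤ) (w : Q → ℤ) (v κ₀ : Q) (h : κ₀ ∈ K01 A b j) :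
    DS1 A b j w (v * κ₀) = DS1 A b j w v := by
  unfold DS1
  refine (finsum_congr fun κ => ?_).trans
    (finsum_comp_equiv (Equiv.mulLeft (⟨κ₀, h⟩ : K01 A b j)))
  simp [mul_assoc]

theorem K01_inv_le (A b : Q) (j : ℤ) : K01 A b⁻¹ (-j) ≤ K01 A b j := by
  rw [K01, Subgroup.closure_le]
  rintro x ⟨i, rfl⟩
  refine K01_conj A b j i _ ?_
  have h1 := (K01 A b j).inv_mem (K01_conj A b j (-j) _ (K01_gen A b j))
  have e1 : (A ^ (-j) * (b * (A ^ j)⁻¹) * (A ^ (-j))⁻¹)⁻¹ = b⁻¹ * (A ^ (-j))⁻¹ := by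
    rw [zpow_neg]; group
  rwa [e1] at h1

theorem K01_inv (A b : Q) (j : ℤ) : K01 A b⁻¹ (-j) = K01 A b j := by
  apply le_antisymm (K01_inv_le A b j)
  have := K01_inv_le A b⁻¹ (-j)
  rwa [inv_inv, neg_neg] at this

theorem DS1_inv (A b : Q) (j : ℤ) (w : Q → ℤ) (v : Q) :
    DS1 A b⁻¹ (-j) w v = DS1 A b j w v := by
  unfold DS1
  rw [K01_inv]

theorem DS1_zpow (A b : Q) (j : ℤ) (w : Q → ℤ)
    (hw : ∀ x, w (x * A) = w x) (v : Q) (i : ℤ) : DS1 A b j w (v * A ^ i) = DS1 A b j w v := by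
  let e : K01 A b j ≃ K01 A b j :=
    { toFun := fun κ => ⟨A ^ i * κ * (A ^ i)⁻¹, K01_conj A b j i κ κ.2⟩
      invFun := fun κ => ⟨A ^ (-i) * κ * (A ^ (-i))⁻¹, K01_conj A b j (-i) κ κ.2⟩
      left_inv := fun κ => Subtype.ext (by simp [mul_assoc])
      right_inv := fun κ => Subtype.ext (by simp [mul_assoc]) }
  unfold DS1
  refine (finsum_congr fun κ => ?_).trans (finsum_comp_equiv e)
  show w (v * A ^ i * κ) = w (v * (A ^ i * (κ : Q) * (A ^ i)⁻¹))
  rw [← pw_cl_zpow A w hw (v * (A ^ i * (κ : Q) * (A ^ i)⁻¹)) i]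
  congr 1
  group

theorem K01_le (A b : Q) (j : ℤ) (D : Subgroup Q) (hD : D.Normal)
    (h : (A ^ j)⁻¹ * b ∈ D) : K01 A b j ≤ D := by
  refine closure_le_normal A _ D hD ?_
  have h1 := hD.conj_mem _ h (A ^ j)
  rwa [mul_inv_cancel_left] at h1

theorem DS1_abs [Finite Q] (A b : Q) (j : ℤ) (D : Subgroup Q) (hle : K01 A b j ≤ D) (w : Q → ℤ)
    (hw : ∀ x, |w x| ≤ 1) (v : Q) : |DS1 A b j w v| ≤ Nat.card D := by
  have := abs_sum_le (K01 A b j) D hle 1 (by norm_num) (fun κ => w (v * κ)) fun κ => hw _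
  rwa [one_mul] at this

theorem exists_DS1 [Fintype Q] (A b : Q) (j : ℤ) (w : Q → ℤ)
    (hw : ∑ x, w x ≠ 0) : ∃ v, DS1 A b j w v ≠ 0 := by
  classical
  by_contra hcon
  push Not at hcon
  have h1 : ∑ v, DS1 A b j w v = (Fintype.card (K01 A b j)) * ∑ x, w x := by
    simp only [DS1, finsum_eq_sum_of_fintype]
    rw [Finset.sum_comm]
    have h2 : ∀ κ : K01 A b j, ∑ v, w (v * κ) = ∑ x, w x := fun κ =>
      Fintype.sum_equiv (Equiv.mulRight (κ : Q)) _ _ fun v => rfl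
    rw [Finset.sum_congr rfl fun κ _ => h2 κ, Finset.sum_const, Finset.card_univ, nsmul_eq_mul]
  simp only [hcon, Finset.sum_const_zero] at h1
  have h3 : ((Fintype.card (K01 A b j)) : ℤ) ≠ 0 := by
    have : Fintype.card (K01 A b j) ≠ 0 := Fintype.card_ne_zero
    exact_mod_cast this
  exact hw ((mul_eq_zero.1 h1.symm).resolve_left h3)

theorem placeW1 : PlaceW1S := by
  classical
  intro Q _ _ D hD A b d cl hd hcl hone hodd j hj hb γ hγ
  have := Fintype.ofFinite Q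
  set w : Q → ℤ := wcl cl d γ with hw
  have hwA : ∀ x, w (x * A) = w x := pw_wcl_line A d cl γ hd hcl
  obtain ⟨v, hv⟩ := exists_DS1 A b j w (sum_wcl A d cl hd hcl hone hodd γ hγ)
  have hle : K01 A b j ≤ D := K01_le A b j D hD hj
  have hM := K01_gen A b j
  set κb := b * (A ^ j)⁻¹ with hκb
  have hbk : b = κb * A ^ j := by rw [hκb, inv_mul_cancel_right]
  have hcomm : ¬ A * κb * A⁻¹ = κb := by
    intro h
    apply hb
    have h1 : Commute A κb := by
      show A * κb = κb * A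
      rw [← mul_inv_eq_iff_eq_mul]; exact h
    have h2 : Commute A b := by
      rw [hbk]
      exact h1.mul_right ((Commute.refl A).zpow_right j)
    exact h2.symm.eq
  have hk1 : κb ≠ 1 := by
    intro h
    apply hcomm
    rw [h]; simp
  have hcard : Nat.card (K01 A b j) ≠ 2 := by
    intro h
    obtain ⟨x, y, hxy, huniv⟩ := Nat.card_eq_two_iff.1 h
    have hall : ∀ z : K01 A b j, z = x ∨ z = y := fun z => by
      have : z ∈ ({x, y} : Set (K01 A b j)) := by rw [huniv]; trivial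
      exact this
    have h3 : ∀ z : K01 A b j, z ≠ 1 → z = ⟨κb, hM⟩ := by
      intro z hz
      have hk1' : (⟨κb, hM⟩ : K01 A b j) ≠ 1 := fun h => hk1 (congrArg Subtype.val h)
      rcases hall 1 with h2 | h2
      · rw [(hall z).resolve_left fun h => hz (h.trans h2.symm),
          (hall ⟨κb, hM⟩).resolve_left fun h => hk1' (h.trans h2.symm)]
      · rw [(hall z).resolve_right fun h => hz (h.trans h2.symm),
          (hall ⟨κb, hM⟩).resolve_right fun h => hk1' (h.trans h2.symm)]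
    have h5 : A * κb * A⁻¹ ∈ K01 A b j := by
      have := K01_conj A b j 1 κb hM
      simpa using this
    have h6 := h3 ⟨_, h5⟩ (by
      intro h
      have h7 : A * κb * A⁻¹ = 1 := congrArg Subtype.val h
      exact hk1 (by simpa using h7))
    exact hcomm (congrArg Subtype.val h6)
  have hb1 : ∀ x : Q, w (x * b) = w (x * κb) := by
    intro x
    have e1 : x * b = x * κb * A ^ j := by rw [mul_assoc, ← hbk]
    rw [e1, pw_cl_zpow A w hwA]
  have hsum : ∑ᶠ κ : K01 A b j, (w (v * κ) + w (v * κ * b)) = (2 : ℕ) * DS1 A b j w v := by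
    rw [finsum_add_distrib (Set.toFinite _) (Set.toFinite _)]
    have h1 : ∑ᶠ κ : K01 A b j, w (v * κ * b) = DS1 A b j w v := by
      unfold DS1
      refine (finsum_congr fun κ => ?_).trans
        (finsum_comp_equiv (Equiv.mulRight (⟨_, hM⟩ : K01 A b j)))
      show w (v * κ * b) = w (v * ((κ : Q) * κb))
      rw [hb1, mul_assoc]
    rw [h1]
    show DS1 A b j w v + DS1 A b j w v = _
    push_cast
    ring
  obtain ⟨κ, hκ, hne⟩ := pw_exists_edge (K01 A b j) w b v _ hv 2 hcard hsum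
  have hDκ : DS1 A b j w (v * κ) = DS1 A b j w v := DS1_mul A b j w v κ hκ
  cases hc : cl (v * κ) with
  | false =>
    refine ⟨v * κ, b, j, Or.inl ⟨rfl, rfl⟩, hc, by rw [hDκ]; exact hv, ?_,
      DS1_abs A b j D hle w (wcl_abs d cl γ) _⟩
    rw [hDκ]
    intro h
    apply hne
    linarith
  | true =>
    have hc' : cl (v * κ * b) = false := by
      by_contra h
      have h' : cl (v * κ * b) = true := by simpa using h
      obtain ⟨t, ht⟩ := hone _ _ hc h'
      apply hb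
      rw [mul_left_cancel ht]
      exact ((Commute.refl A).zpow_left t).eq
    have h6 : DS1 A b⁻¹ (-j) w (v * κ * b) = DS1 A b j w v := by
      rw [DS1_inv]
      have h7 : v * κ * b = v * κ * κb * A ^ j := by rw [mul_assoc (v * κ), ← hbk]
      rw [h7, DS1_zpow A b j w hwA, DS1_mul A b j w _ κb hM, hDκ]
    refine ⟨v * κ * b, b⁻¹, -j, Or.inr ⟨rfl, rfl⟩, hc', by rw [h6]; exact hv, ?_,
      DS1_abs A b⁻¹ (-j) D (by rw [K01_inv]; exact hle) w (wcl_abs d cl γ) _⟩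
    rw [h6, mul_inv_cancel_right]
    intro h
    apply hne
    linarith

end PlaceW

end Pool.Agent.Lib.MP_688fd0_co.SQ3
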