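import Pool.Agent.Lib.MP_688fd0_co.SQ3.V.FlipCases
import Pool.Agent.Lib.MP_688fd0_co.SQ3.V.PlaceW

/-!
V-C-NC: a label that does not commute with `U`.
-/

set_option autoImplicit false

namespace Pool.Agent.Lib.MP_688fd0_co.SQ3

open Pool.Agent.Lib.MP_688fd0_co.OSF Pool.Agent.Lib.MP_688fd0_co.SQ2
open V (Puz)

section

variable {Q : Type} [Group Q] {B : Lb.{0, 0} Q} {a : B.L} {eps : Q →* ℤˣ} {D : Subgroup Q} {z : Q} {k : ℕ}

/-- If `b` commutes with one step, then with all. -/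
theorem Hyp.ncom (H : Hyp B a eps D z k) {b : B.L} (h : ¬ ∀ x, H.up.U (x * B.q b) = H.up.U x * B.q b) (x : Q) :
    H.up.U (x * B.q b) ≠ H.up.U x * B.q b := by
  intro h1
  refine h ((H.com_iff b).2 ?_)
  have h2 : x * B.q b * B.q a ^ ((eps (x * B.q b) : ℤˣ) : ℤ) = x * B.q a ^ ((eps x : ℤˣ) : ℤ) * B.q b := h1
  rw [map_mul, mul_assoc, mul_assoc] at h2
  have h3 := mul_left_cancel h2
  rcases Int.units_eq_one_or (eps x) with hx | hx
  · rw [hx, one_mul, Units.val_one, zpow_one] at h3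
    exact h3
  · rw [hx, neg_one_mul, Units.val_neg, Units.val_neg, Units.val_one, zpow_neg_one, zpow_neg] at h3
    rw [mul_inv_eq_iff_eq_mul] at h3
    have h4 : B.q a * B.q b = B.q a * ((B.q a)⁻¹ * B.q b * B.q a ^ ((eps (B.q b) : ℤˣ) : ℤ)) := by rw [← h3]
    rw [h4]
    group

theorem Hyp.ncom_inv (H : Hyp B a eps D z k) {b : B.L} (h : ¬ ∀ x, H.up.U (x * B.q b) = H.up.U x * B.q b) (x : Q) :
    H.up.U (x * B.q (B.inv b)) ≠ H.up.U x * B.q (B.inv b) := by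
  intro h1
  refine H.ncom h (x * B.q (B.inv b)) ?_
  rw [h1, B.q_inv, inv_mul_cancel_right, inv_mul_cancel_right]

/-- A step is `A` or its inverse. -/
theorem Hyp.step (H : Hyp B a eps D z k) (x : Q) : H.up.U x = x * B.q a ∨ H.up.U x = x * (B.q a)⁻¹ := by
  have h1 : H.up.U x = x * B.q a ^ ((eps x : ℤˣ) : ℤ) := rfl
  rcases Int.units_eq_one_or (eps x) with hx | hx
  · left; rw [h1, hx, Units.val_one, zpow_one]
  · right; rw [h1, hx, Units.val_neg, Units.val_one, zpow_neg_one]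

theorem Hyp.step2 (H : Hyp B a eps D z k) (b : Q) (x : Q) :
    (H.up.U x = x * B.q a ∧ H.up.U (x * b) = x * b * B.q a ^ ((eps b : ℤˣ) : ℤ)) ∨
    (H.up.U x = x * (B.q a)⁻¹ ∧ H.up.U (x * b) = x * b * B.q a ^ (-((eps b : ℤˣ) : ℤ))) := by
  have h1 : H.up.U x = x * B.q a ^ ((eps x : ℤˣ) : ℤ) := rfl
  have h2 : H.up.U (x * b) = x * b * B.q a ^ ((eps (x * b) : ℤˣ) : ℤ) := rfl
  rw [map_mul eps] at h2
  rcases Int.units_eq_one_or (eps x) with hx | hx
  · left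
    rw [h1, h2, hx, Units.val_one, zpow_one, one_mul]
    exact ⟨rfl, rfl⟩
  · right
    rw [h1, h2, hx, Units.val_neg, Units.val_one, zpow_neg_one, neg_one_mul, Units.val_neg]
    exact ⟨rfl, rfl⟩

/-- A function constant on the lines is constant on the cosets of `A`. -/
theorem Hyp.const (H : Hyp B a eps D z k) {α : Type} {f : Q → α} (hf : ∀ x, f (H.up.U x) = f x) (x : Q) :
    f (x * B.q a) = f x := by
  have h := H.mul_zpow x 1
  rw [zpow_one] at h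
  rw [h]
  exact dl_zpow hf _ _

omit [Group Q] in
/-- The integer sums and those modulo `p`. -/
theorem cast_wcl {d cl : Q → Bool} {γ : Bool} {R : Type} [CommRing R] (y : Q) :
    ((wcl cl d γ y : ℤ) : R) = wcl cl d γ y := by
  unfold wcl
  split_ifs <;> simp

theorem cast_DS1 [Finite Q] {d cl : Q → Bool} {γ : Bool} {R : Type} [CommRing R] (A b : Q) (j : ℤ) (v : Q) :
    ((DS1 A b j (wcl cl d γ : Q → ℤ) v : ℤ) : R) = DS1 A b j (wcl cl d γ) v := by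
  unfold DS1
  show (Int.castAddHom R) _ = _
  rw [AddMonoidHom.map_finsum _ (Set.toFinite _)]
  exact finsum_congr fun κ => cast_wcl _

theorem cast_DS2 [Finite Q] {d cl : Q → Bool} {γ : Bool} {R : Type} [CommRing R] (A b : Q) (σ : ℤ) (v : Q) :
    ((DS2 A b σ (wcl cl d γ : Q → ℤ) v : ℤ) : R) = DS2 A b σ (wcl cl d γ) v := by
  unfold DS2
  show (Int.castAddHom R) _ = _
  rw [AddMonoidHom.map_finsum _ (Set.toFinite _)]
  refine finsum_congr fun κ => ?_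
  rw [map_add]
  exact congrArg₂ _ (cast_wcl _) (cast_wcl _)

omit [Group Q] in
theorem wcl_abs1 {d cl : Q → Bool} {γ : Bool} (y : Q) : |(wcl cl d γ y : ℤ)| ≤ 1 := by
  unfold wcl
  split_ifs <;> simp

/-- Small integers are not zero modulo `p`. -/
theorem cast_ne {p : ℕ} {n : ℤ} (h0 : n ≠ 0) (h : |n| < p) : (n : ZMod p) ≠ 0 := by
  rw [Ne, ZMod.intCast_zmod_eq_zero_iff_dvd]
  intro h1
  exact h0 (Int.eq_zero_of_abs_lt_dvd h1 h)

end

section ctx

variable {Q : Type} [Group Q] [DecidableEq Q] {B : Lb.{0, 0} Q} {a : B.L} {eps : Q →* ℤˣ} {D : Subgroup Q} {z : Q}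
  {k c W : ℕ} {H : Hyp B a eps D z k} {d cl : Q → Bool} {ι : Type} {x : ι → Q} {b₁ b₂ : ι → B.L} {j : ι → ℕ}
  {F : ι → Finset Q}

/-- The weight of the far end of a rung. -/
theorem far_wt (C : Ctx B a H.up D k c W d cl x b₁ b₂ j F) {i : ι} {s₀ y : F i} {b : Q} {p₀ p₁ : ℕ}
    (he : (H.up.U ^ p₀) (s₀ : Q) * b = (H.up.U ^ p₁) (y : Q)) (t : ℤ) (γ : Bool) {R : Type} [CommRing R] :
    ∃ n : ℕ, (wcl cl d γ (((H.frd (C.fr i)).cj (s₀ : Q) ^ n • y : F i) : Q) : R) =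
      wcl cl d γ ((H.up.U ^ t) (s₀ : Q) * b) := by
  obtain ⟨m, q, hm, ht⟩ := H.level t
  refine ⟨(k - 1) * p₀ + m, ?_⟩
  have h3 : (k - 1) * p₀ + m + p₀ = k * p₀ + m := by have := k_eq H.kpos p₀; omega
  have h2 := (H.frd (C.fr i)).rungY (n := (k - 1) * p₀ + m) (m := m) (q := p₀) he h3
  have h4 : (H.up.U ^ t) (s₀ : Q) * b = (H.up.U ^ ((k : ℤ) * q)) ((H.up.U ^ m) (s₀ : Q) * b) := by
    rw [ht, add_comm, H.up.zadd, zpow_natCast, H.per_edge]
  rw [h4, wcl_zpow C, h2, wcl_zpow C]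

end ctx

theorem case_nc (g1 : GadN1S.{0}) (g2 : GadN2S.{0}) (nc1 : NC1S) (nc2 : NC2S) (l1 : LocSum1S) (l2 : LocSum2S) :
    CaseNCS := by
  intro Q _ _ B a eps D z k c W H d cl ι x b₁ b₂ j F C P hlam p hp hkp V hz γ hγ b hnc hcase
  have hfin := H.fin
  have hnrm := H.nrm
  have hD : Nat.card D ≤ k := Nat.le_of_dvd H.kpos H.card
  have hk := H.kpos
  have hdA := H.const C.d_line
  have hcA := H.const C.c_line
  have hone : ∀ y y', cl y = true → cl y' = true → ∃ t : ℤ, y' = y * B.q a ^ t := by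
    intro y y' h1 h2
    obtain ⟨t, ht⟩ := C.one y y' h1 h2
    exact ⟨_, by rw [ht, H.zpow_eq]⟩
  -- the cases for a label and its inverse
  have hcase' : ∀ bb : B.L, (bb = b ∨ bb = B.inv b) → (CaseI H.up V bb ∨ CaseII H.up V bb) := by
    rintro bb (rfl | rfl)
    · rcases hcase with h | h
      · exact Or.inl h.1
      · exact Or.inr h.1
    · rcases hcase with h | h
      · exact Or.inl h.2
      · exact Or.inr h.2
  have hnc' : ∀ bb : B.L, (bb = b ∨ bb = B.inv b) → ∀ x, H.up.U (x * B.q bb) ≠ H.up.U x * B.q bb := by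
    rintro bb (rfl | rfl)
    · exact H.ncom hnc
    · exact H.ncom_inv hnc
  have hlab : ∀ b' : Q, (b' = B.q b ∨ b' = (B.q b)⁻¹) → ∃ bb : B.L, (bb = b ∨ bb = B.inv b) ∧ B.q bb = b' := by
    rintro b' (rfl | rfl)
    · exact ⟨b, Or.inl rfl, rfl⟩
    · exact ⟨B.inv b, Or.inr rfl, B.q_inv b⟩
  by_cases hs : ∃ j₀ : ℤ, |j₀| ≤ 1 ∧ (B.q a ^ j₀)⁻¹ * B.q b ∈ D
  · -- one sheet
    obtain ⟨j₀, hj₀, hmem⟩ := hs
    have heb : eps (B.q b) = 1 := by
      have h1 : eps ((B.q a ^ j₀)⁻¹ * B.q b) = 1 := H.le hmem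
      rwa [map_mul, map_inv, map_zpow, H.ea, one_zpow, inv_one, one_mul] at h1
    have hbA : B.q b * B.q a ≠ B.q a * B.q b := by
      intro h
      refine hnc ((H.com_iff b).2 ?_)
      rw [heb, Units.val_one, zpow_one, h]
    obtain ⟨v, b', j', hb', hv, hs1, hs2, hs3⟩ := placeW1 Q D hnrm (B.q a) (B.q b) d cl hdA hcA hone C.oddc j₀ hmem
      hbA γ hγ
    obtain ⟨i, s₀, t, hwin, hvt⟩ := exists_win P hv
    obtain ⟨bb, hbb, hqb⟩ := hlab b' (hb'.imp (fun h => h.1) (fun h => h.1))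
    have hj' : |j'| ≤ 1 := by
      rcases hb' with ⟨-, rfl⟩ | ⟨-, rfl⟩
      · exact hj₀
      · rwa [abs_neg]
    have hmem' : (B.q a ^ j')⁻¹ * b' ∈ D := by
      rcases hb' with ⟨rfl, rfl⟩ | ⟨rfl, rfl⟩
      · exact hmem
      · have h1 := hnrm.conj_mem _ (D.inv_mem hmem) (B.q a ^ j₀)
        have e1 : B.q a ^ j₀ * ((B.q a ^ j₀)⁻¹ * B.q b)⁻¹ * (B.q a ^ j₀)⁻¹ = (B.q a ^ (-j₀))⁻¹ * (B.q b)⁻¹ := by
          group
        rwa [e1] at h1
    have hbA' : b' * B.q a ≠ B.q a * b' := by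
      rcases hb' with ⟨rfl, -⟩ | ⟨rfl, -⟩
      · exact hbA
      · intro h
        apply hbA
        have h1 : B.q b * ((B.q b)⁻¹ * B.q a) * B.q b = B.q b * (B.q a * (B.q b)⁻¹) * B.q b := by rw [h]
        rw [mul_inv_cancel_left, ← mul_assoc, inv_mul_cancel_right] at h1
        exact h1.symm
    set jj : ℤ := ((eps (s₀ : Q) : ℤˣ) : ℤ) * j' with hjj
    have hjj1 : |jj| ≤ 1 := by
      rcases Int.units_eq_one_or (eps (s₀ : Q)) with hx | hx
      · rw [hjj, hx]; simpa using hj'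
      · rw [hjj, hx]; simpa using hj'
    have hm1 : (s₀ : Q)⁻¹ * (H.up.U ^ (-jj)) ((s₀ : Q) * B.q bb) ∈ D := by
      rw [H.mem_lev, hjj, eps_eps, hqb]
      exact hmem'
    have hm2 : (H.up.U ^ (-jj)) ((s₀ : Q) * B.q bb) ≠ s₀ := by
      intro h
      have h1 : (s₀ : Q) * B.q bb = (H.up.U ^ jj) (s₀ : Q) := by
        conv_rhs => rw [← h]
        rw [H.up.zneg']
      rw [H.zpow_eq, hjj, eps_eps, hqb] at h1
      have h2 := mul_left_cancel h1
      apply hbA'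
      rw [h2, ← zpow_add_one, ← zpow_one_add, add_comm]
    obtain ⟨G, p₀, p₁, η, e1, e2, e3, e4, e5, e6⟩ := g1 Q B H.up eps.ker D z (F i) k (H.frd (C.fr i)) (2 * c + 2 * k)
      bb jj hjj1 s₀ hm1 hm2
    have hok := e6.okg e2
    have hedge := e6.edge
    have hlc := (P i).lc hok (P i).ok₀ (P i).ok₀ hp hkp V hz γ
    refine ⟨i, G, (P i).G₀, (P i).G₀, hok, (P i).ok₀, (P i).ok₀, ?_⟩
    have hsum : wsum (H.frd (C.fr i)) (Subgroup.closure {(H.frd (C.fr i)).cj (G.x : Q), η}) G.x G.y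
        (wcl cl d γ : Q → ZMod p) = ((DS1 (B.q a) b' j' (wcl cl d γ : Q → ℤ) v : ℤ) : ZMod p) := by
      rw [cast_DS1, l1 Q B H.up eps.ker D z (F i) k (H.frd (C.fr i)) (B.q a) H.step G.x G.y b' p₀ p₁ j' η
        (by rw [e3, H.zpow_eq, e1, hjj, eps_eps]) (by rw [← hqb]; exact hedge) e4 e5 (ZMod p) (wcl cl d γ)
        (wcl_line C γ) t, e1, ← hvt]
    obtain ⟨n, hn⟩ := far_wt C (s₀ := G.x) (y := G.y) hedge t γ (R := ZMod p)
    refine nc1 Q B H.up eps.ker D z (F i) k (H.frd (C.fr i)) (Fin 5) (fam (P i) G (P i).G₀ (P i).G₀) _ (P i).f (P i).g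
      (P i).l₀ p V (wcl cl d γ) hlc 2 bb p₀ p₁ η e6 e4 e5 (hnc' bb hbb) ?_ ?_ ⟨n, ?_⟩ (hcase' bb hbb)
    · show G.x = (P i).l₀ ∨ G.x = _ ∨ G.x = _
      rw [e1, (P i).othf, (P i).othg]
      exact hwin
    · show wsum (H.frd (C.fr i)) (Subgroup.closure {(H.frd (C.fr i)).cj (G.x : Q), η}) G.x G.y _ ≠ 0
      rw [hsum]
      exact cast_ne hs1 (by omega)
    · show wsum (H.frd (C.fr i)) (Subgroup.closure {(H.frd (C.fr i)).cj (G.x : Q), η}) G.x G.y _ -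
        wcl cl d γ (G.x : Q) - wcl cl d γ (((H.frd (C.fr i)).cj (G.x : Q) ^ n • G.y : F i) : Q) ≠ 0
      rw [hsum, hn, e1, ← hvt, hqb]
      have h1 : (wcl cl d γ (s₀ : Q) : ZMod p) = ((wcl cl d γ v : ℤ) : ZMod p) := by
        rw [cast_wcl, hvt, wcl_zpow C]
      rw [h1, ← cast_wcl (R := ZMod p) (v * b'), ← Int.cast_sub, ← Int.cast_sub]
      refine cast_ne hs2 ?_
      have a1 := abs_le.1 hs3
      have a2 := abs_le.1 (wcl_abs1 (d := d) (cl := cl) (γ := γ) v)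
      have a3 := abs_le.1 (wcl_abs1 (d := d) (cl := cl) (γ := γ) (v * b'))
      rw [abs_lt]
      constructor <;> omega
  · -- two sheets
    have hs' : ∀ b' : Q, (b' = B.q b ∨ b' = (B.q b)⁻¹) → ∀ j₀ : ℤ, |j₀| ≤ 1 → (B.q a ^ j₀)⁻¹ * b' ∉ D := by
      rintro b' (rfl | rfl) j₀ hj₀ h
      · exact hs ⟨j₀, hj₀, h⟩
      · refine hs ⟨-j₀, by rwa [abs_neg], ?_⟩
        have h1 := hnrm.conj_mem _ (D.inv_mem h) (B.q a ^ j₀)
        have e1 : B.q a ^ j₀ * ((B.q a ^ j₀)⁻¹ * (B.q b)⁻¹)⁻¹ * (B.q a ^ j₀)⁻¹ = (B.q a ^ (-j₀))⁻¹ * B.q b := by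
          group
        rwa [e1] at h1
    have hA : QuotientGroup.mk' D (B.q a) = QuotientGroup.mk' D z := H.mk_a
    have hconj : ∀ y : Q, (B.q a ^ ((eps y : ℤˣ) : ℤ))⁻¹ * (y * B.q a * y⁻¹) ∈ D := by
      intro y
      rw [Up.Dat.mk_iff, map_mul, map_mul, hA, map_zpow, hA, ← map_mul, ← map_zpow, ← H.tw y, map_mul, map_mul]
    have hzp : B.q b ∉ Subgroup.zpowers (B.q a) := by
      rintro ⟨n, hn⟩
      refine hnc ((H.com_iff b).2 ?_)
      have hn' : B.q a ^ n = B.q b := hn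
      have h1 : eps (B.q b) = 1 := by rw [← hn', map_zpow, H.ea, one_zpow]
      rw [h1, Units.val_one, zpow_one, ← hn', ← zpow_add_one, ← zpow_one_add, add_comm]
    have hσ : ((eps (B.q b) : ℤˣ) : ℤ) = 1 ∨ ((eps (B.q b) : ℤˣ) : ℤ) = -1 := by
      rcases Int.units_eq_one_or (eps (B.q b)) with h | h <;> rw [h] <;> simp
    have hei : eps (B.q b)⁻¹ = eps (B.q b) := by rw [map_inv, Int.units_inv_eq_self]
    obtain ⟨v, b', hb', hv, hs1, hs2, hs3⟩ := placeW2 Q D hnrm (B.q a) (B.q b) d cl hdA hcA hone C.oddc hzp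
      ((eps (B.q b) : ℤˣ) : ℤ) hσ (hconj _)
      (by
        intro h
        refine hnc ((H.com_iff b).2 ?_)
        have h1 : B.q b * B.q a = B.q a ^ ((eps (B.q b) : ℤˣ) : ℤ) * B.q b := mul_inv_eq_iff_eq_mul.1 h
        rcases hσ with h2 | h2
        · rw [h2, zpow_one] at h1 ⊢
          exact h1
        · rw [h2, zpow_neg_one] at h1 ⊢
          rw [mul_inv_eq_iff_eq_mul, mul_assoc, h1, mul_inv_cancel_left])
      (by
        have h1 := hconj (B.q b)⁻¹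
        rwa [hei, inv_inv] at h1)
      (by
        intro h
        refine hnc ((H.com_iff b).2 ?_)
        rw [← h]
        group)
      γ hγ
    obtain ⟨i, s₀, t, hwin, hvt⟩ := exists_win P hv
    obtain ⟨bb, hbb, hqb⟩ := hlab b' hb'
    have heb' : eps b' = eps (B.q b) := by
      rcases hb' with rfl | rfl
      · rfl
      · exact hei
    have hcW := cW hlam i
    obtain ⟨s', hs'1, o, ho, ho'⟩ := hwin.dep.next C (by omega) bb 0
    rw [H.up.zero, zero_add] at ho'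
    have hso : (H.up.U ^ (-o)) ((s₀ : Q) * B.q bb) = s' := by rw [ho', H.up.zneg]
    have hm1 : (s₀ : Q)⁻¹ * (H.up.U ^ (-o)) ((s₀ : Q) * B.q bb) ∉ D := by
      intro h
      have h1 := H.small_lev C.sink (c := 2 * c) (by omega) bb s₀ o (by push_cast; omega) h
      rw [H.mem_lev, hqb] at h
      refine hs' b' hb' _ ?_ h
      rcases Int.units_eq_one_or (eps (s₀ : Q)) with hx | hx
      · rw [hx]; simpa using h1
      · rw [hx]; simpa using h1
    obtain ⟨G, p₀, p₁, e1, e2, e3, e4, e6⟩ := g2 Q B H.up eps.ker D z (F i) k (H.frd (C.fr i)) (2 * c + 2 * k) W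
      (C.fr i).disj (by omega) bb s₀ o (by push_cast; omega) (by rw [hso]; exact hs'1.1) hm1
    have hok := e6.okg e2
    have hedge := e6.edge
    have hlc := (P i).lc hok (P i).ok₀ (P i).ok₀ hp hkp V hz γ
    refine ⟨i, G, (P i).G₀, (P i).G₀, hok, (P i).ok₀, (P i).ok₀, ?_⟩
    have hsum : wsum (H.frd (C.fr i)) (Subgroup.closure {(H.frd (C.fr i)).cj (G.x : Q),
        (H.frd (C.fr i)).cj (G.y : Q)}) G.x G.y (wcl cl d γ : Q → ZMod p) =
        ((DS2 (B.q a) b' ((eps (B.q b) : ℤˣ) : ℤ) (wcl cl d γ : Q → ℤ) v : ℤ) : ZMod p) := by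
      rw [cast_DS2, l2 Q B H.up eps.ker D z (F i) k (H.frd (C.fr i)) (B.q a) b' ((eps (B.q b) : ℤˣ) : ℤ)
        (by rw [← heb']; exact H.step2 b') G.x G.y p₀ p₁ (by rw [← hqb]; exact hedge) e4 (ZMod p) (wcl cl d γ)
        (wcl_line C γ) t, e1, ← hvt]
    obtain ⟨n, hn⟩ := far_wt C (s₀ := G.x) (y := G.y) hedge t γ (R := ZMod p)
    refine nc2 Q B H.up eps.ker D z (F i) k (H.frd (C.fr i)) (Fin 5) (fam (P i) G (P i).G₀ (P i).G₀) _ (P i).f (P i).g
      (P i).l₀ p V (wcl cl d γ) hlc 2 bb p₀ p₁ e6 e4 (hnc' bb hbb) ?_ ?_ ⟨n, ?_⟩ (hcase' bb hbb)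
    · show G.x = (P i).l₀ ∨ G.x = _ ∨ G.x = _
      rw [e1, (P i).othf, (P i).othg]
      exact hwin
    · show wsum (H.frd (C.fr i)) (Subgroup.closure {(H.frd (C.fr i)).cj (G.x : Q),
        (H.frd (C.fr i)).cj (G.y : Q)}) G.x G.y _ ≠ 0
      rw [hsum]
      exact cast_ne hs1 (by omega)
    · show wsum (H.frd (C.fr i)) (Subgroup.closure {(H.frd (C.fr i)).cj (G.x : Q),
        (H.frd (C.fr i)).cj (G.y : Q)}) G.x G.y _ -
        wcl cl d γ (G.x : Q) - wcl cl d γ (((H.frd (C.fr i)).cj (G.x : Q) ^ n • G.y : F i) : Q) ≠ 0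
      rw [hsum, hn, e1, ← hvt, hqb]
      have h1 : (wcl cl d γ (s₀ : Q) : ZMod p) = ((wcl cl d γ v : ℤ) : ZMod p) := by
        rw [cast_wcl, hvt, wcl_zpow C]
      rw [h1, ← cast_wcl (R := ZMod p) (v * b'), ← Int.cast_sub, ← Int.cast_sub]
      refine cast_ne hs2 ?_
      have a1 := abs_le.1 hs3
      have a2 := abs_le.1 (wcl_abs1 (d := d) (cl := cl) (γ := γ) v)
      have a3 := abs_le.1 (wcl_abs1 (d := d) (cl := cl) (γ := γ) (v * b'))
      rw [abs_lt]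
      constructor <;> omega

end Pool.Agent.Lib.MP_688fd0_co.SQ3
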