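import Pool.Agent.Lib.MP_688fd0_co.SQ3.V.Loc
import Pool.Agent.Lib.MP_688fd0_co.SQ3.V.RealA
import Pool.Agent.Lib.MP_688fd0_co.SQ2.V.Ret
import Pool.Agent.Lib.MP_688fd0_co.SQ2.V.FC2

/-!
FCA, FCB, CMB: commuting labels, case II.
-/

set_option autoImplicit false

namespace Pool.Agent.Lib.MP_688fd0_co.SQ3

open Pool.Agent.Lib.MP_688fd0_co.OSF Pool.Agent.Lib.MP_688fd0_co.SQ2
open V (Puz)

namespace FC

open SQ2.V SQ2.V.FC1 SQ2.V.FC2

section puz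

variable {S R : Type} [Fintype S] [DecidableEq S] {F : Type} [Field F]

/-- Two rungs next to an end of the cap of the key state. -/
theorem two_key (P : Puz S R) (χ d : S → F) {f g : R} {l₀ x₀ x₁ y : S} {r₀ : R}
    (hsym : ∀ s s' : Puz.St S R (P.TokOf f), P.WReach s s' → P.WReach s' s) (hgf : P.Adj g f l₀)
    (hdf : d (P.oth f l₀) = - d l₀) (hdg : d (P.oth g l₀) = - d l₀)
    (hx : (x₀ = l₀ ∧ y = P.oth g l₀) ∨ (x₀ = P.oth g l₀ ∧ y = l₀) ∨ (x₀ = P.oth f l₀ ∧ y = l₀))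
    (h0 : P.On r₀ x₀) (h1 : P.oth r₀ x₀ = x₁) (hT : P.T r₀ = 1) (hy : x₁ ≠ y) (hno : ¬ P.FlipG χ d f)
    (hχ : χ x₁ ≠ χ x₀) :
    ∃ s : Puz.St S R (P.TokOf f), Key P d (fun t : P.TokOf f => d t) x₀ x₁ y s ∧ P.On s.1 x₁ ∧
      P.oth s.1 x₁ = x₀ ∧
      (∀ r', P.Adj s.1 r' x₀ → Wt (fun t : P.TokOf f => d t) s (P.oth r' x₀) = d x₁) ∧
      (∀ r', P.Adj s.1 r' x₁ → Wt (fun t : P.TokOf f => d t) s (P.oth r' x₁) = - d x₁) := by
  obtain ⟨hx01, hxy, hdy, h4, s, hk, hs⟩ := close P χ d f g l₀ x₀ x₁ y r₀ hsym hgf hdf hdg hx h0 h1 hT hy hno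
  have hoo := oth_oth P hk.1
  rw [hk.2.1] at hoo
  refine ⟨s, hk, hoo.1, hoo.2, fun r' hr => ?_, fun r' hr => ?_⟩
  · have h5 := hs r' x₀ hr
    rw [key_gam P χ d _ hk hx01 hxy hy, hk.2.1, hdy] at h5
    have h6 : (Wt (fun t : P.TokOf f => d t) s (P.oth r' x₀) - d x₁) * (χ x₁ - χ x₀) = 0 := by
      linear_combination h5 - h4
    rcases mul_eq_zero.1 h6 with h7 | h7
    · exact sub_eq_zero.1 h7
    · exact absurd (sub_eq_zero.1 h7) hχ
  · have h5 := hs r' x₁ hr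
    rw [key_gam P χ d _ hk hx01 hxy hy, hoo.2, hdy] at h5
    have h6 : (Wt (fun t : P.TokOf f => d t) s (P.oth r' x₁) + d x₁) * (χ x₁ - χ x₀) = 0 := by
      linear_combination h4 - h5
    rcases mul_eq_zero.1 h6 with h7 | h7
    · linear_combination h7
    · exact absurd (sub_eq_zero.1 h7) hχ

end puz

section ctx

variable {Q : Type} [Group Q] [DecidableEq Q] {B : Lb.{0, 0} Q} {U : Up B} {P D : Subgroup Q} {z : Q} {F : Finset Q}
  {e : ℕ} {h : FrD U P D z F e} {ι : Type} {G : ι → BGad h.toFrt} {hm : ℕ}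
  {f g : Rg ι (Sy h.toFrt)} {l₀ : F} {p : ℕ} {V : Vd B (ZMod p)} {w : Q → ZMod p}

omit [DecidableEq Q] in
theorem finSy {hF : Frt U P D z F e} : Finite (Sy hF) := by
  have : NeZero e := ⟨hF.he.ne'⟩
  have : Fintype (Multiplicative (ZMod e)) := inferInstanceAs (Fintype (ZMod e))
  infer_instance

theorem sym_w (hL : LC h G hm f g l₀ p V w) : ∀ s s' : Puz.St F (Rg ι (Sy h.toFrt)) ((bigP G).TokOf f),
    (bigP G).WReach s s' → (bigP G).WReach s' s := by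
  have : Finite ι := hL.finι
  have : Finite (Sy h.toFrt) := finSy
  have : Fintype (Rg ι (Sy h.toFrt)) := Fintype.ofFinite _
  exact ret _ _ _ (bigP G) (bigHom G)

/-- From FLIP B to versions of flat windows. -/
theorem lres (hL : LC h G hm f g l₀ p V w) (hom : ∀ x, U.wt V (U.U x) = U.wt V x)
    (hf : (bigP G).FlipG (fun s : F => U.wt V (s : Q)) (fun s : F => w (s : Q)) f) : LRes h G hm f g l₀ p V w := by
  have : Finite ι := hL.finι
  have : Finite (Sy h.toFrt) := finSy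
  have : Fintype (Rg ι (Sy h.toFrt)) := Fintype.ofFinite _
  have hprime : Fact p.Prime := ⟨hL.prime⟩
  have hepos : 0 < e := h.he
  have hp := hL.big
  have hal : V.chi z ^ e = 1 := by rw [hL.al, one_pow]
  have he0 : (e : ZMod p) ≠ 0 := by
    intro h2
    rw [ZMod.natCast_eq_zero_iff] at h2
    have := Nat.le_of_dvd hepos h2
    omega
  intro E n₀ hE
  obtain ⟨X, X', n, h1, h2, h3, h4, h5⟩ := realB F (Rg ι (Sy h.toFrt)) (bigP G) Q B U (bigZ G) (z ^ e) (ZMod p) V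
    _ _ _ w f g l₀ hm E n₀ h.toFrt.Per (fun r => hL.ht r.i) hL.adj (sym_w hL) (bigVols G V hal) hom he0 hL.wl hL.wf
    hL.wg hE hf
  refine ⟨X, X', n, h1, h2, ?_, h5⟩
  refine h4.trans ?_
  have : (bigZ G).e = e := rfl
  rw [this]
  omega

theorem T_one {i : ι} (hi : (G i).T = 1) : (bigP G).T ⟨i, 1⟩ = 1 := by
  apply Equiv.ext
  intro s
  show (1 : Sy h.toFrt) • (G i).T ((1 : Sy h.toFrt)⁻¹ • s) = s
  rw [hi, Equiv.Perm.one_apply, smul_inv_smul]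

theorem on_x (i : ι) : (bigP G).On ⟨i, 1⟩ (G i).x ∧ (bigP G).oth ⟨i, 1⟩ (G i).x = (G i).y := by
  have hX : (bigP G).x ⟨i, 1⟩ = (G i).x := by
    show (1 : Sy h.toFrt) • (G i).x = (G i).x
    rw [one_smul]
  have hY : (bigP G).y ⟨i, 1⟩ = (G i).y := by
    show (1 : Sy h.toFrt) • (G i).y = (G i).y
    rw [one_smul]
  refine ⟨Or.inl hX.symm, ?_⟩
  unfold Puz.oth
  rw [if_pos hX.symm, hY]

theorem on_y (i : ι) : (bigP G).On ⟨i, 1⟩ (G i).y ∧ (bigP G).oth ⟨i, 1⟩ (G i).y = (G i).x := by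
  have := oth_oth (bigP G) (on_x (h := h) (G := G) i).1
  rw [(on_x (h := h) (G := G) i).2] at this
  exact this

omit [DecidableEq Q] in
theorem wt_pow (hom : ∀ x, U.wt V (U.U x) = U.wt V x) (n : ℕ) (x : Q) : U.wt V ((U.U ^ n) x) = U.wt V x := by
  induction n with
  | zero => rfl
  | succ n ih => rw [pow_succ']; show U.wt V (U.U ((U.U ^ n) x)) = _; rw [hom, ih]

theorem chi_ne {b : B.L} (hII : CaseII U V b) {i : ι} {p' q' : ℕ} (hC : COK h (G i) b p' q') :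
    U.wt V ((G i).y : Q) ≠ U.wt V ((G i).x : Q) := by
  have h1 := hII.ne ((U.U ^ p') ((G i).x : Q))
  rw [hC.edge, wt_pow hII.om, wt_pow hII.om] at h1
  exact h1

theorem cases_x {x : F}
    (hx : x = l₀ ∨ x = (bigP G).oth f l₀ ∨ x = (bigP G).oth g l₀) :
    ∃ y, (x = l₀ ∧ y = (bigP G).oth g l₀) ∨ (x = (bigP G).oth g l₀ ∧ y = l₀) ∨
      (x = (bigP G).oth f l₀ ∧ y = l₀) := by
  rcases hx with hx | hx | hx
  · exact ⟨_, Or.inl ⟨hx, rfl⟩⟩
  · exact ⟨_, Or.inr (Or.inr ⟨hx, rfl⟩)⟩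
  · exact ⟨_, Or.inr (Or.inl ⟨hx, rfl⟩)⟩

end ctx

end FC

open SQ2.V SQ2.V.FC1 SQ2.V.FC2 FC

/-- FCA. -/
theorem fca : FCAS := by
  intro Q _ _ B U P D z F e h ι G hm f g l₀ p V w hL i b p₀ p₁ hC hII hx hyf hyg
  have hprime : Fact p.Prime := ⟨hL.prime⟩
  by_cases hfl : (bigP G).FlipG (fun s : F => U.wt V (s : Q)) (fun s : F => w (s : Q)) f
  · exact Or.inl (lres hL hII.om hfl)
  right
  have hox := on_x (h := h) (G := G) i
  obtain ⟨s, hk, -, -, h1, -⟩ := two_key (bigP G) (fun s : F => U.wt V (s : Q)) (fun s : F => w (s : Q))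
    (x₀ := l₀) (x₁ := (G i).y) (y := (bigP G).oth g l₀) (r₀ := ⟨i, 1⟩) (sym_w hL) hL.adj hL.wf hL.wg
    (Or.inl ⟨rfl, rfl⟩) (by rw [← hx]; exact hox.1) (by rw [← hx]; exact hox.2) (T_one (h := h) hC.T) hyg hfl (by
      have := chi_ne hII hC
      rw [hx] at this
      exact this)
  have h2 := h1 f ⟨hk.1, hL.adj.2.1, by rw [hk.2.1]; exact hyf⟩
  have h3 : (bigP G).oth f l₀ ≠ l₀ := oth_ne _ hL.adj.2.1
  have h4 : (bigP G).oth f l₀ ≠ (bigP G).oth g l₀ := fun h => hL.adj.2.2 h.symm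
  rw [hk.2.2, if_neg (fun c => c.elim h3 hyf.symm), if_neg h4] at h2
  show w ((bigP G).oth g l₀ : Q) = w ((G i).y : Q)
  rw [hL.wg, ← hL.wf]
  exact h2

/-- FCB. -/
theorem fcb : FCBS := by
  intro Q _ _ B U P D z F e h ι G hm f g l₀ p V w hL i b p₀ p₁ hC hII hx hy0 hyf hyg r hr hrx
  have hprime : Fact p.Prime := ⟨hL.prime⟩
  by_cases hfl : (bigP G).FlipG (fun s : F => U.wt V (s : Q)) (fun s : F => w (s : Q)) f
  · exact Or.inl (lres hL hII.om hfl)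
  right
  have hox := on_x (h := h) (G := G) i
  obtain ⟨s, hk, hk1, hk2, -, h1⟩ := two_key (bigP G) (fun s : F => U.wt V (s : Q)) (fun s : F => w (s : Q))
    (x₀ := (G i).x) (x₁ := (G i).y) (y := l₀) (r₀ := ⟨i, 1⟩) (sym_w hL) hL.adj hL.wf hL.wg
    (by rcases hx with hx | hx
        · exact Or.inr (Or.inr ⟨hx, rfl⟩)
        · exact Or.inr (Or.inl ⟨hx, rfl⟩)) hox.1 hox.2 (T_one (h := h) hC.T) hy0 hfl (chi_ne hII hC)
  have h2 := h1 r ⟨hk1, hr, by rw [hk2]; exact hrx.symm⟩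
  have h3 : (bigP G).oth r (G i).y ≠ (G i).y := oth_ne _ hr
  rw [hk.2.2, if_neg (fun c => c.elim hrx h3)] at h2
  exact h2

/-- CMB. -/
theorem cmb : CMBS := by
  intro Q _ _ B U P D z F e h ι G hm f g l₀ p V w hL i₀ i₁ i₂ b p₀ p₁ p₂ q₀ q₁ q₂ hC₀ hC₁ hC₂ hII hw h10 h21 hx
    hne0 hne2
  have hprime : Fact p.Prime := ⟨hL.prime⟩
  have hepos : 0 < e := h.he
  have hp := hL.big
  have two : (2 : ZMod p) ≠ 0 := by
    intro h2
    have h3 : ((2 : ℕ) : ZMod p) = 0 := by exact_mod_cast h2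
    rw [ZMod.natCast_eq_zero_iff] at h3
    have := Nat.le_of_dvd (by norm_num) h3
    omega
  have hw0 : ∀ x, w x ≠ 0 := by
    intro x
    rcases hw x with h1 | h1
    · rw [h1]; exact one_ne_zero
    · rw [h1]; exact neg_ne_zero.2 one_ne_zero
  obtain ⟨y, hy⟩ := cases_x (h := h) hx
  have hox := fun i => on_x (h := h) (G := G) i
  have hoy := fun i => on_y (h := h) (G := G) i
  constructor
  · rcases flipC2 (bigP G) (fun s : F => U.wt V (s : Q)) (fun s : F => w (s : Q)) f g l₀ (G i₁).x (G i₁).y y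
      (G i₀).x ⟨i₁, 1⟩ ⟨i₀, 1⟩ (sym_w hL) hL.adj hL.wf hL.wg hy (hox i₁).1 (hox i₁).2 (T_one (h := h) hC₁.T)
      (by rw [h10]; exact (hoy i₀).1) (by rw [h10]; exact (hoy i₀).2) (T_one (h := h) hC₀.T) hne0 (chi_ne hII hC₁)
      (by rw [h10]; exact (chi_ne hII hC₀).symm) with h1 | h1
    · exact Or.inl (lres hL hII.om h1)
    · exact Or.inr h1
  · intro hd1 hd0
    have hyx : (G i₁).y ≠ y := by
      intro h0
      have h1 : w (y : Q) = - w ((G i₁).x : Q) := by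
        rcases hy with ⟨a1, a2⟩ | ⟨a1, a2⟩ | ⟨a1, a2⟩
        · rw [a1, a2, hL.wg]
        · rw [a1, a2, hL.wg, neg_neg]
        · rw [a1, a2, hL.wf, neg_neg]
      rw [← h0, ← hd1] at h1
      have h2 : 2 * w ((G i₁).x : Q) = 0 := by linear_combination h1
      exact mul_ne_zero two (hw0 _) h2
    rcases flipC2' (bigP G) (fun s : F => U.wt V (s : Q)) (fun s : F => w (s : Q)) f g l₀ (G i₁).x (G i₁).y
      (G i₂).y y ⟨i₁, 1⟩ ⟨i₂, 1⟩ (sym_w hL) hL.adj hL.wf hL.wg hy (hox i₁).1 (hox i₁).2 (T_one (h := h) hC₁.T) hyx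
      (by rw [← h21]; exact (hox i₂).1) (by rw [← h21]; exact (hox i₂).2) hne2 (chi_ne hII hC₁) two (hw0 _)
      with h1 | h1
    · exact Or.inl (lres hL hII.om h1)
    · exact Or.inr h1

end Pool.Agent.Lib.MP_688fd0_co.SQ3
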