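import Mathlib

/-!
The elements of level 0 of the group generated by `A` (level 1) and `c` (level `j`), and the weights of the components.
-/

set_option autoImplicit false

namespace Pool.Agent.Lib.MP_688fd0_co.SQ3

/-- The elements of level 0 of the group generated by `A` (level 1) and `c` (level `j`). -/
def Nz {Q : Type} [Group Q] (A c : Q) (j : ℤ) : Subgroup Q :=
  Subgroup.closure (Set.range fun i : ℤ => A ^ i * ((A ^ j)⁻¹ * c) * (A ^ i)⁻¹)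

/-- The weight of the two-sheet component of `v`. -/
noncomputable def DZ2 {Q : Type} [Group Q] (A b : Q) (σ : ℤ) (w : Q → ℤ) (v : Q) : ℤ :=
  ∑ᶠ κ : Nz A (b * A * b⁻¹) σ, (w (v * κ) + w (v * κ * b))

/-- The weight of the one-sheet component of `v`. -/
noncomputable def DZ1 {Q : Type} [Group Q] (A b : Q) (j : ℤ) (w : Q → ℤ) (v : Q) : ℤ :=
  ∑ᶠ κ : Nz A b j, w (v * κ)

section

variable {Q : Type} [Group Q] {A c : Q} {j : ℤ}

theorem Nz.gen_mem (i : ℤ) : A ^ i * ((A ^ j)⁻¹ * c) * (A ^ i)⁻¹ ∈ Nz A c j :=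
  Subgroup.subset_closure ⟨i, rfl⟩

theorem Nz.mem₀ : (A ^ j)⁻¹ * c ∈ Nz A c j := by
  have := Nz.gen_mem (A := A) (c := c) (j := j) 0
  rwa [zpow_zero, inv_one, mul_one, one_mul] at this

/-- `A` normalises. -/
theorem Nz.conj {x : Q} (hx : x ∈ Nz A c j) (m : ℤ) : A ^ m * x * (A ^ m)⁻¹ ∈ Nz A c j := by
  unfold Nz at hx
  induction hx using Subgroup.closure_induction with
  | mem x hx =>
    obtain ⟨i, rfl⟩ := hx
    have h1 := Nz.gen_mem (A := A) (c := c) (j := j) (m + i)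
    rw [zpow_add] at h1
    have e : A ^ m * (A ^ i * ((A ^ j)⁻¹ * c) * (A ^ i)⁻¹) * (A ^ m)⁻¹ =
      A ^ m * A ^ i * ((A ^ j)⁻¹ * c) * (A ^ m * A ^ i)⁻¹ := by group
    dsimp only
    rw [e]; exact h1
  | one => rw [mul_one, mul_inv_cancel]; exact Subgroup.one_mem _
  | mul x y _ _ hx hy =>
    have e : A ^ m * (x * y) * (A ^ m)⁻¹ = A ^ m * x * (A ^ m)⁻¹ * (A ^ m * y * (A ^ m)⁻¹) := by group
    rw [e]; exact Subgroup.mul_mem _ hx hy
  | inv x _ hx =>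
    have e : A ^ m * x⁻¹ * (A ^ m)⁻¹ = (A ^ m * x * (A ^ m)⁻¹)⁻¹ := by group
    rw [e]; exact Subgroup.inv_mem _ hx

theorem Nz.conj' {x : Q} (hx : x ∈ Nz A c j) (m : ℤ) : (A ^ m)⁻¹ * x * A ^ m ∈ Nz A c j := by
  have h1 := Nz.conj hx (-m)
  rwa [zpow_neg, inv_inv] at h1

theorem Nz.le {D : Subgroup Q} (hD : D.Normal) (h : (A ^ j)⁻¹ * c ∈ D) : Nz A c j ≤ D := by
  unfold Nz
  rw [Subgroup.closure_le]
  rintro _ ⟨i, rfl⟩
  exact hD.conj_mem _ h _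

/-- `c` normalises. -/
theorem Nz.conj_c {x : Q} (hx : x ∈ Nz A c j) : c * x * c⁻¹ ∈ Nz A c j := by
  have h1 := Subgroup.mul_mem _ (Subgroup.mul_mem _ (Nz.mem₀ (A := A) (c := c) (j := j)) hx)
    (Subgroup.inv_mem _ (Nz.mem₀ (A := A) (c := c) (j := j)))
  have h2 := Nz.conj h1 j
  have e : A ^ j * ((A ^ j)⁻¹ * c * x * ((A ^ j)⁻¹ * c)⁻¹) * (A ^ j)⁻¹ = c * x * c⁻¹ := by group
  rwa [e] at h2

end

end Pool.Agent.Lib.MP_688fd0_co.SQ3
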