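import Pool.Agent.Lib.MP_688fd0_co.SQ3.V.Loc
import Pool.Agent.Lib.MP_688fd0_co.SQ3.V.Nz

/-!
Stage E, chapter V, LOCSUM: the sum of the weights of a component.
-/

set_option autoImplicit false

namespace Pool.Agent.Lib.MP_688fd0_co.SQ3

open Pool.Agent.Lib.MP_688fd0_co.OSF Pool.Agent.Lib.MP_688fd0_co.SQ2

universe v

/-! ### The groups -/

section groups

variable {Q : Type} [Group Q]

theorem Nz.conj_zc {A c : Q} {j : ℤ} {x : Q} (hx : x ∈ Nz A c j) (m : ℤ) : c ^ m * x * (c ^ m)⁻¹ ∈ Nz A c j := by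
  have hc' : ∀ y ∈ Nz A c j, c⁻¹ * y * c ∈ Nz A c j := by
    intro y hy
    have h2 := Nz.conj' hy j
    have h1 := Subgroup.mul_mem _ (Subgroup.mul_mem _ (Subgroup.inv_mem _ (Nz.mem₀ (A := A) (c := c) (j := j))) h2)
      (Nz.mem₀ (A := A) (c := c) (j := j))
    have e : ((A ^ j)⁻¹ * c)⁻¹ * ((A ^ j)⁻¹ * y * A ^ j) * ((A ^ j)⁻¹ * c) = c⁻¹ * y * c := by group
    rwa [e] at h1
  induction m using Int.induction_on with
  | zero => simpa using hx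
  | succ m ih =>
    have e : c ^ ((m : ℤ) + 1) * x * (c ^ ((m : ℤ) + 1))⁻¹ = c * (c ^ (m : ℤ) * x * (c ^ (m : ℤ))⁻¹) * c⁻¹ := by
      rw [add_comm, zpow_add, zpow_one]; group
    rw [e]; exact Nz.conj_c ih
  | pred m ih =>
    have e : c ^ (-(m : ℤ) - 1) * x * (c ^ (-(m : ℤ) - 1))⁻¹ = c⁻¹ * (c ^ (-(m : ℤ)) * x * (c ^ (-(m : ℤ)))⁻¹) * c := by
      rw [sub_eq_add_neg, add_comm, zpow_add, zpow_neg_one]; group
    rw [e]; exact hc' _ ih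

theorem Nz.symm_le (A c : Q) : Nz c A 1 ≤ Nz A c 1 := by
  unfold Nz
  rw [Subgroup.closure_le]
  rintro _ ⟨i, rfl⟩
  have h1 := Subgroup.inv_mem _ (Nz.mem₀ (A := A) (c := c) (j := 1))
  have e : ((A ^ (1 : ℤ))⁻¹ * c)⁻¹ = (c ^ (1 : ℤ))⁻¹ * A := by group
  rw [e] at h1
  exact Nz.conj_zc h1 i

theorem Nz.symm (A c : Q) : Nz c A 1 = Nz A c 1 := le_antisymm (Nz.symm_le _ _) (Nz.symm_le _ _)

theorem Nz.conj_b {A c x : Q} {j : ℤ} (b : Q) (hx : x ∈ Nz A c j) :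
    b * x * b⁻¹ ∈ Nz (b * A * b⁻¹) (b * c * b⁻¹) j := by
  unfold Nz at hx
  induction hx using Subgroup.closure_induction with
  | mem x hx =>
    obtain ⟨i, rfl⟩ := hx
    have h1 := Nz.gen_mem (A := b * A * b⁻¹) (c := b * c * b⁻¹) (j := j) i
    rw [conj_zpow, conj_zpow] at h1
    have e : b * A ^ i * b⁻¹ * ((b * A ^ j * b⁻¹)⁻¹ * (b * c * b⁻¹)) * (b * A ^ i * b⁻¹)⁻¹ =
      b * (A ^ i * ((A ^ j)⁻¹ * c) * (A ^ i)⁻¹) * b⁻¹ := by group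
    rwa [e] at h1
  | one => rw [mul_one, mul_inv_cancel]; exact Subgroup.one_mem _
  | mul x y _ _ hx hy =>
    have e : b * (x * y) * b⁻¹ = b * x * b⁻¹ * (b * y * b⁻¹) := by group
    rw [e]; exact Subgroup.mul_mem _ hx hy
  | inv x _ hx =>
    have e : b * x⁻¹ * b⁻¹ = (b * x * b⁻¹)⁻¹ := by group
    rw [e]; exact Subgroup.inv_mem _ hx

/-- `A^r c^-r` has level 0. -/
theorem Nz.quot (A c : Q) (r : ℤ) : A ^ r * (c ^ r)⁻¹ ∈ Nz A c 1 := by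
  have h0 : c * A⁻¹ ∈ Nz A c 1 := by
    have := Nz.gen_mem (A := A) (c := c) (j := 1) 1
    have e : A ^ (1 : ℤ) * ((A ^ (1 : ℤ))⁻¹ * c) * (A ^ (1 : ℤ))⁻¹ = c * A⁻¹ := by group
    rwa [e] at this
  have h0' : A * c⁻¹ ∈ Nz A c 1 := by
    have := Subgroup.inv_mem _ h0
    have e : (c * A⁻¹)⁻¹ = A * c⁻¹ := by group
    rwa [e] at this
  have h1 : A⁻¹ * c ∈ Nz A c 1 := by
    have := Nz.mem₀ (A := A) (c := c) (j := 1)
    rwa [zpow_one] at this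
  induction r using Int.induction_on with
  | zero => simp
  | succ m ih =>
    have e : A ^ ((m : ℤ) + 1) * (c ^ ((m : ℤ) + 1))⁻¹ =
        A ^ (m : ℤ) * (A * c⁻¹) * (A ^ (m : ℤ))⁻¹ * (A ^ (m : ℤ) * (c ^ (m : ℤ))⁻¹) := by
      rw [zpow_add, add_comm, zpow_add, zpow_one, zpow_one]; group
    rw [e]; exact Subgroup.mul_mem _ (Nz.conj h0' _) ih
  | pred m ih =>
    have e : A ^ (-(m : ℤ) - 1) * (c ^ (-(m : ℤ) - 1))⁻¹ =
        A ^ (-(m : ℤ)) * (A⁻¹ * c) * (A ^ (-(m : ℤ)))⁻¹ * (A ^ (-(m : ℤ)) * (c ^ (-(m : ℤ)))⁻¹) := by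
      rw [sub_eq_add_neg, zpow_add, add_comm, zpow_add, zpow_neg_one, zpow_neg_one]; group
    rw [e]; exact Subgroup.mul_mem _ (Nz.conj h1 _) ih

theorem K02_eq (A b : Q) (σ : ℤ) : K02 A b σ = Nz A (b * A ^ σ * b⁻¹) 1 := by
  unfold K02 Nz
  congr 1
  ext g
  constructor
  · rintro ⟨i, rfl⟩
    refine ⟨i + 1, ?_⟩
    dsimp only
    rw [zpow_add]; group
  · rintro ⟨i, rfl⟩
    refine ⟨i - 1, ?_⟩
    dsimp only
    rw [zpow_sub]; group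

theorem K02_eq' (A b : Q) (σ : ℤ) : K02 A b σ = Nz A⁻¹ (b * A ^ (-σ) * b⁻¹) 1 := by
  apply le_antisymm
  · unfold K02
    rw [Subgroup.closure_le]
    rintro _ ⟨i, rfl⟩
    have h1 := Subgroup.inv_mem _ (Nz.gen_mem (A := A⁻¹) (c := b * A ^ (-σ) * b⁻¹) (j := 1) (-i))
    have e : (A⁻¹ ^ (-i) * ((A⁻¹ ^ (1 : ℤ))⁻¹ * (b * A ^ (-σ) * b⁻¹)) * (A⁻¹ ^ (-i))⁻¹)⁻¹ =
        A ^ i * (b * A ^ σ * b⁻¹ * A⁻¹) * (A ^ i)⁻¹ := by
      rw [inv_zpow', neg_neg, inv_zpow', zpow_neg, zpow_neg, zpow_one]; group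
    rw [e] at h1
    exact h1
  · unfold Nz
    rw [Subgroup.closure_le]
    rintro _ ⟨i, rfl⟩
    have h1 : A ^ (-i) * (b * A ^ σ * b⁻¹ * A⁻¹) * (A ^ (-i))⁻¹ ∈ K02 A b σ := Subgroup.subset_closure ⟨-i, rfl⟩
    have h2 := Subgroup.inv_mem _ h1
    have e : (A ^ (-i) * (b * A ^ σ * b⁻¹ * A⁻¹) * (A ^ (-i))⁻¹)⁻¹ =
        A⁻¹ ^ i * ((A⁻¹ ^ (1 : ℤ))⁻¹ * (b * A ^ (-σ) * b⁻¹)) * (A⁻¹ ^ i)⁻¹ := by
      rw [inv_zpow', inv_zpow', zpow_neg A σ, zpow_neg A (1 : ℤ), zpow_one]; group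
    rw [e] at h2
    exact h2

theorem K01_eq (A b : Q) (j : ℤ) : K01 A b j = Nz A b j := by
  unfold K01 Nz
  congr 1
  ext g
  constructor
  · rintro ⟨i, rfl⟩
    refine ⟨i + j, ?_⟩
    dsimp only
    rw [zpow_add]; group
  · rintro ⟨i, rfl⟩
    refine ⟨i - j, ?_⟩
    dsimp only
    rw [zpow_sub]; group

theorem Nz_inv {A b : Q} {j j' : ℤ} (h : A⁻¹ ^ j' = A ^ j) : Nz A b j = Nz A⁻¹ b j' := by
  unfold Nz
  congr 1
  ext g
  constructor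
  · rintro ⟨i, rfl⟩
    refine ⟨-i, ?_⟩
    dsimp only
    rw [h, inv_zpow', neg_neg]
  · rintro ⟨i, rfl⟩
    refine ⟨-i, ?_⟩
    dsimp only
    rw [h, inv_zpow']

theorem Nz_congr {A b : Q} {j j' : ℤ} (h : A ^ j' = A ^ j) : Nz A b j = Nz A b j' := by
  unfold Nz
  rw [h]

end groups

/-! ### Orbits -/

section orb

variable {Q : Type} [Group Q] {B : Lb.{0, v} Q} {U : Up B} {P D : Subgroup Q} {z : Q} {F : Finset Q} {e : ℕ}

/-- `u` acts on the strands as `g`, and then `t` levels up. -/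
def RelS {hF : Frt U P D z F e} (g : Sy hF) (t : ℤ) (u : Q) : Prop :=
  u ∈ P ∧ ∀ s : F, u * (s : Q) = (U.U ^ t) ((g • s : F) : Q)

section

variable {hF : Frt U P D z F e}

theorem RelS.one : RelS (1 : Sy hF) 0 1 := ⟨P.one_mem, fun s => by simp⟩

theorem RelS.mul {g g' : Sy hF} {t t' : ℤ} {u u' : Q} (h : RelS g t u) (h' : RelS g' t' u') :
    RelS (g * g') (t + t') (u * u') := by
  refine ⟨P.mul_mem h.1 h'.1, fun s => ?_⟩
  rw [mul_assoc, h'.2, ← hF.dat.com_zpow h.1, h.2, mul_smul, add_comm, zpow_add]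
  rfl

theorem RelS.inv {g : Sy hF} {t : ℤ} {u : Q} (h : RelS g t u) : RelS g⁻¹ (-t) u⁻¹ := by
  refine ⟨P.inv_mem h.1, fun s => ?_⟩
  have h1 := h.2 (g⁻¹ • s)
  rw [smul_inv_smul] at h1
  have h2 : ((g⁻¹ • s : F) : Q) = (U.U ^ t) (u⁻¹ * (s : Q)) := by
    rw [hF.dat.com_zpow (P.inv_mem h.1), ← h1, inv_mul_cancel_left]
  rw [h2, zpow_neg]
  exact ((U.U ^ t).symm_apply_apply _).symm

theorem RelS.zpow {g : Sy hF} {u : Q} (h : RelS g 1 u) (i : ℤ) : RelS (g ^ i) i (u ^ i) := by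
  induction i using Int.induction_on with
  | zero => rw [zpow_zero, zpow_zero]; exact RelS.one
  | succ m ih => rw [zpow_add, zpow_add, zpow_one, zpow_one]; exact ih.mul h
  | pred m ih =>
    rw [sub_eq_add_neg, zpow_add, zpow_add, zpow_neg_one, zpow_neg_one]; exact ih.mul h.inv

end

/-- The powers of `U` on one line. -/
theorem up_zpow (hF : U.Dat P D z) {v a : Q} (hv : U.U v = v * a) (t : ℤ) : (U.U ^ t) v = v * a ^ t := by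
  rw [hF.zpow_gen]
  have e1 : U.gen v = v * a * v⁻¹ := by unfold Up.gen; rw [hv]
  rw [e1, conj_zpow, inv_mul_cancel_right]

theorem up_sheet (hF : U.Dat P D z) {v a d : Q} (hv : U.U v = v * a) (hd : d ∈ D) : U.U (v * d) = v * d * a := by
  have e1 : v * d = v * d * v⁻¹ * v := by group
  rw [e1, hF.com (hF.le (hF.conj v hd)), hv]
  group

theorem up_line (hF : U.Dat P D z) {v a : Q} (hv : U.U v = v * a) (t : ℤ) : U.U (v * a ^ t) = v * a ^ t * a := by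
  rw [← up_zpow hF hv]
  have h1 : U.U ((U.U ^ t) v) = (U.U ^ (t + 1)) v := by
    rw [add_comm, zpow_add, zpow_one]; rfl
  rw [h1, up_zpow hF hv, up_zpow hF hv, zpow_add, zpow_one, mul_assoc]

theorem up_line' (hF : U.Dat P D z) {v a : Q} {t : ℤ} (hv : U.U ((U.U ^ t) v) = (U.U ^ t) v * a) :
    U.U v = v * a := by
  have h1 := up_line hF hv (-t)
  rw [← up_zpow hF hv] at h1
  have h2 : (U.U ^ (-t)) ((U.U ^ t) v) = v := by
    rw [zpow_neg]; exact (U.U ^ t).symm_apply_apply v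
  rwa [h2] at h1

theorem relS_cj (h : FrD U P D z F e) {x : F} {a : Q} (hx : U.U (x : Q) = x * a) :
    RelS (h.cj (x : Q)) 1 ((x : Q) * a * (x : Q)⁻¹) := by
  have e1 : U.gen (x : Q) = x * a * (x : Q)⁻¹ := by unfold Up.gen; rw [hx]
  refine ⟨?_, fun s => ?_⟩
  · rw [← e1]; exact h.dat.gen_mem _
  · rw [← e1, zpow_one, h.cj_up]

/-- The weights are constant on the lines. -/
theorem w_zpow {R : Type} {w : Q → R} (hw : ∀ x, w (U.U x) = w x) (t : ℤ) (x : Q) : w ((U.U ^ t) x) = w x := by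
  have h1 : ∀ x, w (U.U⁻¹ x) = w x := fun x => by
    rw [← hw (U.U⁻¹ x)]; congr 1; exact U.U.apply_symm_apply x
  induction t using Int.induction_on generalizing x with
  | zero => rfl
  | succ m ih =>
    rw [zpow_add, zpow_one]
    show w ((U.U ^ (m : ℤ)) (U.U x)) = _
    rw [ih, hw]
  | pred m ih =>
    rw [sub_eq_add_neg, zpow_add, zpow_neg_one]
    show w ((U.U ^ (-(m : ℤ))) (U.U⁻¹ x)) = _
    rw [ih, h1]

/-- The orbit is contained in `x N`. -/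
theorem orb_sub (h : FrD U P D z F e) {x : F} {a : Q} (hx : U.U (x : Q) = x * a) {N : Subgroup Q} (hN : N ≤ D)
    (hA : ∀ n ∈ N, ∀ t : ℤ, a ^ t * n * (a ^ t)⁻¹ ∈ N) {S : Set (Sy h.toFrt)}
    (hS : ∀ g ∈ S, ∃ t : ℤ, ∃ n ∈ N, RelS g t ((x : Q) * n * a ^ t * (x : Q)⁻¹)) :
    ∀ g ∈ Subgroup.closure S, ∃ n ∈ N, ((g • x : F) : Q) = x * n := by
  have key : ∀ g ∈ Subgroup.closure S, ∃ t : ℤ, ∃ n ∈ N, RelS g t ((x : Q) * n * a ^ t * (x : Q)⁻¹) := by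
    intro g hg
    induction hg using Subgroup.closure_induction with
    | mem g hg => exact hS g hg
    | one =>
      refine ⟨0, 1, N.one_mem, ?_⟩
      rw [zpow_zero, mul_one, mul_one, mul_inv_cancel]
      exact RelS.one
    | mul g g' _ _ hg hg' =>
      obtain ⟨t, n, hn, h1⟩ := hg
      obtain ⟨t', n', hn', h1'⟩ := hg'
      refine ⟨t + t', n * (a ^ t * n' * (a ^ t)⁻¹), N.mul_mem hn (hA _ hn' _), ?_⟩
      have h2 := h1.mul h1'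
      have e1 : (x : Q) * n * a ^ t * (x : Q)⁻¹ * ((x : Q) * n' * a ^ t' * (x : Q)⁻¹) =
          x * (n * (a ^ t * n' * (a ^ t)⁻¹)) * a ^ (t + t') * (x : Q)⁻¹ := by
        rw [zpow_add]; group
      rwa [e1] at h2
    | inv g _ hg =>
      obtain ⟨t, n, hn, h1⟩ := hg
      refine ⟨-t, a ^ (-t) * n⁻¹ * (a ^ (-t))⁻¹, hA _ (N.inv_mem hn) _, ?_⟩
      have h2 := h1.inv
      have e1 : ((x : Q) * n * a ^ t * (x : Q)⁻¹)⁻¹ =
          x * (a ^ (-t) * n⁻¹ * (a ^ (-t))⁻¹) * a ^ (-t) * (x : Q)⁻¹ := by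
        rw [zpow_neg]; group
      rwa [e1] at h2
  intro g hg
  obtain ⟨t, n, hn, h1⟩ := key g hg
  refine ⟨n, hn, ?_⟩
  have h2 := h1.2 x
  have h3 : (U.U ^ t) ((x : Q) * n) = x * n * a ^ t := up_zpow h.dat (up_sheet h.dat hx (hN hn)) t
  rw [inv_mul_cancel_right, ← h3] at h2
  exact ((U.U ^ t).injective h2).symm

/-- The orbit contains `x N`. -/
theorem orb_sup (h : FrD U P D z F e) {x : F} {Γ : Subgroup (Sy h.toFrt)} {T : Set Q}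
    (hT : ∀ n ∈ T, ∃ g ∈ Γ, RelS g 0 ((x : Q) * n * (x : Q)⁻¹)) :
    ∀ n ∈ Subgroup.closure T, ∃ g ∈ Γ, ((g • x : F) : Q) = x * n := by
  have key : ∀ n ∈ Subgroup.closure T, ∃ g ∈ Γ, RelS g 0 ((x : Q) * n * (x : Q)⁻¹) := by
    intro n hn
    induction hn using Subgroup.closure_induction with
    | mem n hn => exact hT n hn
    | one =>
      refine ⟨1, Γ.one_mem, ?_⟩
      rw [mul_one, mul_inv_cancel]
      exact RelS.one
    | mul n n' _ _ hn hn' =>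
      obtain ⟨g, hg, h1⟩ := hn
      obtain ⟨g', hg', h1'⟩ := hn'
      refine ⟨g * g', Γ.mul_mem hg hg', ?_⟩
      have h2 := h1.mul h1'
      have e1 : (x : Q) * n * (x : Q)⁻¹ * ((x : Q) * n' * (x : Q)⁻¹) = x * (n * n') * (x : Q)⁻¹ := by group
      rwa [e1, add_zero] at h2
    | inv n _ hn =>
      obtain ⟨g, hg, h1⟩ := hn
      refine ⟨g⁻¹, Γ.inv_mem hg, ?_⟩
      have h2 := h1.inv
      have e1 : ((x : Q) * n * (x : Q)⁻¹)⁻¹ = x * n⁻¹ * (x : Q)⁻¹ := by group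
      rwa [e1, neg_zero] at h2
  intro n hn
  obtain ⟨g, hg, h1⟩ := key n hn
  refine ⟨g, hg, ?_⟩
  have h2 := h1.2 x
  rw [inv_mul_cancel_right] at h2
  rw [h2, zpow_zero]
  rfl

open Classical in
/-- The sum over an orbit. -/
theorem sum_orb [Finite Q] {x : F} {N : Subgroup Q} {hF : Frt U P D z F e} {Γ : Subgroup (Sy hF)}
    (h1 : ∀ g ∈ Γ, ∃ n ∈ N, ((g • x : F) : Q) = x * n) (h2 : ∀ n ∈ N, ∃ g ∈ Γ, ((g • x : F) : Q) = x * n)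
    {R : Type} [CommRing R] (w : Q → R) :
    (∑ s : F, if ∃ g ∈ Γ, g • x = s then w (s : Q) else 0) = ∑ᶠ κ : N, w ((x : Q) * κ) := by
  have : Fintype N := Fintype.ofFinite _
  rw [finsum_eq_sum_of_fintype, ← Finset.sum_filter]
  symm
  have hF : ∀ κ : N, (x : Q) * κ ∈ F := fun κ => by
    obtain ⟨g, _, hg⟩ := h2 κ κ.2
    rw [← hg]; exact (g • x : F).2
  refine Finset.sum_bij (fun κ _ => (⟨_, hF κ⟩ : F)) ?_ ?_ ?_ ?_
  · intro κ _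
    rw [Finset.mem_filter]
    obtain ⟨g, hg, h3⟩ := h2 κ κ.2
    exact ⟨Finset.mem_univ _, g, hg, Subtype.ext h3⟩
  · intro κ _ κ' _ h3
    exact Subtype.ext (mul_left_cancel (congrArg Subtype.val h3))
  · intro s hs
    obtain ⟨_, g, hg, rfl⟩ := Finset.mem_filter.1 hs
    obtain ⟨n, hn, h3⟩ := h1 g hg
    exact ⟨⟨n, hn⟩, Finset.mem_univ _, Subtype.ext h3.symm⟩
  · intro κ _
    rfl

/-! ### Two sheets -/

theorem two_D (h : FrD U P D z F e) {x y : F} {a₁ a₂ b : Q} {p p' : ℤ} (hx : U.U (x : Q) = x * a₁)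
    (hy : U.U (y : Q) = y * a₂) (hb : (U.U ^ p) (x : Q) * b = (U.U ^ p') (y : Q)) :
    Nz a₁ (b * a₂ * b⁻¹) 1 ≤ D := by
  refine Nz.le h.dat.nrm ?_
  have h1 := h.dat.mem ((U.U ^ p) (x : Q))
  have h2 := h.dat.mem ((U.U ^ p') (y : Q))
  rw [up_zpow h.dat hx, up_line h.dat hx] at h1
  rw [up_zpow h.dat hy, up_line h.dat hy, ← up_zpow h.dat hy, ← hb, up_zpow h.dat hx] at h2
  have h3 := h.dat.conj b h2
  have h4 := D.mul_mem (D.inv_mem h1) h3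
  have e1 : ((x * a₁ ^ p)⁻¹ * (z⁻¹ * (x * a₁ ^ p * a₁)))⁻¹ *
      (b * ((x * a₁ ^ p * b)⁻¹ * (z⁻¹ * (x * a₁ ^ p * b * a₂))) * b⁻¹) = (a₁ ^ (1 : ℤ))⁻¹ * (b * a₂ * b⁻¹) := by
    group
  rwa [e1] at h4

theorem two_y (h : FrD U P D z F e) {x y : F} {a₁ a₂ b : Q} {p p' : ℤ} (hx : U.U (x : Q) = x * a₁)
    (hy : U.U (y : Q) = y * a₂) (hb : (U.U ^ p) (x : Q) * b = (U.U ^ p') (y : Q)) :
    (y : Q) = x * a₁ ^ p * b * (a₂ ^ p')⁻¹ := by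
  rw [up_zpow h.dat hx, up_zpow h.dat hy] at hb
  rw [hb, mul_inv_cancel_right]

theorem two_sub (h : FrD U P D z F e) {x y : F} {a₁ a₂ b : Q} {p p' : ℤ} (hx : U.U (x : Q) = x * a₁)
    (hy : U.U (y : Q) = y * a₂) (hb : (U.U ^ p) (x : Q) * b = (U.U ^ p') (y : Q)) :
    ∀ g ∈ Subgroup.closure {h.cj (x : Q), h.cj (y : Q)}, ∃ n ∈ Nz a₁ (b * a₂ * b⁻¹) 1, ((g • x : F) : Q) = x * n := by
  refine orb_sub h hx (two_D h hx hy hb) (fun n hn t => Nz.conj hn t) ?_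
  rintro g (rfl | rfl)
  · refine ⟨1, 1, Subgroup.one_mem _, ?_⟩
    rw [mul_one, zpow_one]
    exact relS_cj h hx
  · refine ⟨1, _, Nz.gen_mem (p + 1), ?_⟩
    have h1 := relS_cj h hy
    have e1 : (y : Q) * a₂ * (y : Q)⁻¹ = x * (a₁ ^ (p + 1) * ((a₁ ^ (1 : ℤ))⁻¹ * (b * a₂ * b⁻¹)) *
        (a₁ ^ (p + 1))⁻¹) * a₁ ^ (1 : ℤ) * (x : Q)⁻¹ := by
      rw [two_y h hx hy hb]; group
    rwa [e1] at h1

theorem two_sup (h : FrD U P D z F e) {x y : F} {a₁ a₂ b : Q} {p p' : ℤ} (hx : U.U (x : Q) = x * a₁)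
    (hy : U.U (y : Q) = y * a₂) (hb : (U.U ^ p) (x : Q) * b = (U.U ^ p') (y : Q)) :
    ∀ n ∈ Nz a₁ (b * a₂ * b⁻¹) 1, ∃ g ∈ Subgroup.closure {h.cj (x : Q), h.cj (y : Q)}, ((g • x : F) : Q) = x * n := by
  refine orb_sup h ?_
  rintro _ ⟨i, rfl⟩
  have mx : h.cj (x : Q) ∈ Subgroup.closure {h.cj (x : Q), h.cj (y : Q)} := Subgroup.subset_closure (Or.inl rfl)
  have my : h.cj (y : Q) ∈ Subgroup.closure {h.cj (x : Q), h.cj (y : Q)} := Subgroup.subset_closure (Or.inr rfl)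
  refine ⟨h.cj (x : Q) ^ (i - p - 1) * h.cj (y : Q) * h.cj (x : Q) ^ (p - i),
    Subgroup.mul_mem _ (Subgroup.mul_mem _ (Subgroup.zpow_mem _ mx _) my) (Subgroup.zpow_mem _ mx _), ?_⟩
  have h1 := (((relS_cj h hx).zpow (i - p - 1)).mul (relS_cj h hy)).mul ((relS_cj h hx).zpow (p - i))
  have e1 : (i - p - 1) + 1 + (p - i) = 0 := by ring
  have e2 : ((x : Q) * a₁ * (x : Q)⁻¹) ^ (i - p - 1) * ((y : Q) * a₂ * (y : Q)⁻¹) *
      ((x : Q) * a₁ * (x : Q)⁻¹) ^ (p - i) =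
      x * (a₁ ^ i * ((a₁ ^ (1 : ℤ))⁻¹ * (b * a₂ * b⁻¹)) * (a₁ ^ i)⁻¹) * (x : Q)⁻¹ := by
    rw [two_y h hx hy hb, conj_zpow, conj_zpow]; group
  rwa [e1, e2] at h1

open Classical in
theorem two_sum [Finite Q] (h : FrD U P D z F e) {x y : F} {a₁ a₂ b : Q} {p p' : ℤ} (hx : U.U (x : Q) = x * a₁)
    (hy : U.U (y : Q) = y * a₂) (hb : (U.U ^ p) (x : Q) * b = (U.U ^ p') (y : Q)) {R : Type} [CommRing R]
    (w : Q → R) :
    (∑ s : F, if ∃ g ∈ Subgroup.closure {h.cj (x : Q), h.cj (y : Q)}, g • x = s then w (s : Q) else 0) =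
      ∑ᶠ κ : Nz a₁ (b * a₂ * b⁻¹) 1, w ((x : Q) * κ) :=
  sum_orb (two_sub h hx hy hb) (two_sup h hx hy hb) w

/-- The first sheet. -/
theorem shift1 [Finite Q] (hF : U.Dat P D z) {x : Q} {a : Q} {N : Subgroup Q} (hN : N ≤ D)
    (hA : ∀ n ∈ N, ∀ t : ℤ, a ^ t * n * (a ^ t)⁻¹ ∈ N) (hx : U.U x = x * a) {R : Type} [CommRing R]
    {w : Q → R} (hw : ∀ x, w (U.U x) = w x) (m : ℤ) :
    ∑ᶠ κ : N, w (x * κ) = ∑ᶠ κ : N, w ((U.U ^ m) x * κ) := by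
  have : Fintype N := Fintype.ofFinite _
  rw [finsum_eq_sum_of_fintype, finsum_eq_sum_of_fintype]
  let E : N ≃ N :=
    { toFun := fun n => ⟨a ^ (-m) * n * (a ^ (-m))⁻¹, hA n n.2 (-m)⟩
      invFun := fun n => ⟨a ^ m * n * (a ^ m)⁻¹, hA n n.2 m⟩
      left_inv := fun n => Subtype.ext (by
        show a ^ m * (a ^ (-m) * n * (a ^ (-m))⁻¹) * (a ^ m)⁻¹ = n
        group)
      right_inv := fun n => Subtype.ext (by
        show a ^ (-m) * (a ^ m * n * (a ^ m)⁻¹) * (a ^ (-m))⁻¹ = n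
        group) }
  refine Fintype.sum_equiv E _ _ fun n => ?_
  have e1 : (U.U ^ m) x * (E n : Q) = (U.U ^ m) (x * n) := by
    rw [up_zpow hF (up_sheet hF hx (hN n.2)), up_zpow hF hx]
    show x * a ^ m * (a ^ (-m) * n * (a ^ (-m))⁻¹) = _
    group
  rw [e1, w_zpow hw]

/-- The second sheet. -/
theorem shift2 [Finite Q] (hF : U.Dat P D z) {x y : Q} {a₁ a₂ b : Q} {p p' : ℤ} (hx : U.U x = x * a₁)
    (hy : U.U y = y * a₂) (hb : (U.U ^ p) x * b = (U.U ^ p') y)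
    (hN : Nz a₁ (b * a₂ * b⁻¹) 1 ≤ D) (hs : ∀ v, U.U v = v * a₁ → U.U (v * b) = v * b * a₂)
    {R : Type} [CommRing R] {w : Q → R} (hw : ∀ x, w (U.U x) = w x) (m : ℤ) :
    ∑ᶠ κ : Nz a₂ (b⁻¹ * a₁ * b⁻¹⁻¹) 1, w (y * κ) = ∑ᶠ κ : Nz a₁ (b * a₂ * b⁻¹) 1, w ((U.U ^ m) x * κ * b) := by
  have : Fintype (Nz a₂ (b⁻¹ * a₁ * b⁻¹⁻¹) 1) := Fintype.ofFinite _
  have : Fintype (Nz a₁ (b * a₂ * b⁻¹) 1) := Fintype.ofFinite _
  rw [finsum_eq_sum_of_fintype, finsum_eq_sum_of_fintype]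
  have k1 : ∀ n ∈ Nz a₂ (b⁻¹ * a₁ * b⁻¹⁻¹) 1, b * n * b⁻¹ ∈ Nz a₁ (b * a₂ * b⁻¹) 1 := by
    intro n hn
    have h1 := Nz.conj_b b hn
    have e1 : b * (b⁻¹ * a₁ * b⁻¹⁻¹) * b⁻¹ = a₁ := by group
    rwa [e1, Nz.symm] at h1
  have k2 : ∀ n ∈ Nz a₁ (b * a₂ * b⁻¹) 1, b⁻¹ * n * b ∈ Nz a₂ (b⁻¹ * a₁ * b⁻¹⁻¹) 1 := by
    intro n hn
    have h1 := Nz.conj_b b⁻¹ hn
    have e1 : b⁻¹ * (b * a₂ * b⁻¹) * b⁻¹⁻¹ = a₂ := by group
    rw [e1, Nz.symm] at h1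
    rwa [inv_inv] at h1 ⊢
  have eb : ∀ r : ℤ, b * a₂ ^ r = (b * a₂ * b⁻¹) ^ r * b := fun r => by rw [conj_zpow]; group
  have q1 := Nz.quot a₁ (b * a₂ * b⁻¹)
  let E : Nz a₂ (b⁻¹ * a₁ * b⁻¹⁻¹) 1 ≃ Nz a₁ (b * a₂ * b⁻¹) 1 :=
    { toFun := fun n => ⟨a₁ ^ (p - m) * (b * (a₂ ^ (-p') * n * (a₂ ^ (-p'))⁻¹) * b⁻¹) * (a₁ ^ (p - m))⁻¹ *
          (a₁ ^ (p - m) * ((b * a₂ * b⁻¹) ^ (p - m))⁻¹),
        Subgroup.mul_mem _ (Nz.conj (k1 _ (Nz.conj n.2 _)) _) (q1 _)⟩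
      invFun := fun n => ⟨a₂ ^ p' * (b⁻¹ * ((a₁ ^ (p - m))⁻¹ * (n * (a₁ ^ (p - m) *
          ((b * a₂ * b⁻¹) ^ (p - m))⁻¹)⁻¹) * a₁ ^ (p - m)) * b) * (a₂ ^ p')⁻¹,
        Nz.conj (k2 _ (Nz.conj' (Subgroup.mul_mem _ n.2 (Subgroup.inv_mem _ (q1 _))) _)) _⟩
      left_inv := fun n => Subtype.ext (by
        show a₂ ^ p' * (b⁻¹ * ((a₁ ^ (p - m))⁻¹ * ((a₁ ^ (p - m) * (b * (a₂ ^ (-p') * n * (a₂ ^ (-p'))⁻¹) * b⁻¹) *
          (a₁ ^ (p - m))⁻¹ * (a₁ ^ (p - m) * ((b * a₂ * b⁻¹) ^ (p - m))⁻¹)) * (a₁ ^ (p - m) *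
          ((b * a₂ * b⁻¹) ^ (p - m))⁻¹)⁻¹) * a₁ ^ (p - m)) * b) * (a₂ ^ p')⁻¹ = n
        rw [mul_inv_cancel_right]
        group)
      right_inv := fun n => Subtype.ext (by
        show a₁ ^ (p - m) * (b * (a₂ ^ (-p') * (a₂ ^ p' * (b⁻¹ * ((a₁ ^ (p - m))⁻¹ * (n * (a₁ ^ (p - m) *
          ((b * a₂ * b⁻¹) ^ (p - m))⁻¹)⁻¹) * a₁ ^ (p - m)) * b) * (a₂ ^ p')⁻¹) * (a₂ ^ (-p'))⁻¹) * b⁻¹) *
          (a₁ ^ (p - m))⁻¹ * (a₁ ^ (p - m) * ((b * a₂ * b⁻¹) ^ (p - m))⁻¹) = n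
        have e1 : b * (a₂ ^ (-p') * (a₂ ^ p' * (b⁻¹ * ((a₁ ^ (p - m))⁻¹ * (n * (a₁ ^ (p - m) *
          ((b * a₂ * b⁻¹) ^ (p - m))⁻¹)⁻¹) * a₁ ^ (p - m)) * b) * (a₂ ^ p')⁻¹) * (a₂ ^ (-p'))⁻¹) * b⁻¹ =
          (a₁ ^ (p - m))⁻¹ * (n * (a₁ ^ (p - m) * ((b * a₂ * b⁻¹) ^ (p - m))⁻¹)⁻¹) * a₁ ^ (p - m) := by
          generalize (n : Q) * (a₁ ^ (p - m) * ((b * a₂ * b⁻¹) ^ (p - m))⁻¹)⁻¹ = q
          group
        rw [e1]
        generalize a₁ ^ (p - m) * ((b * a₂ * b⁻¹) ^ (p - m))⁻¹ = q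
        group) }
  refine Fintype.sum_equiv E _ _ fun n => ?_
  have hv : U.U ((U.U ^ m) x * (E n : Q)) = (U.U ^ m) x * (E n : Q) * a₁ := by
    refine up_sheet hF ?_ (hN (E n).2)
    rw [up_zpow hF hx, up_line hF hx]
  have h1 := up_zpow hF (hs _ hv) (p - m - p')
  have e1 : y * n = (U.U ^ (p - m - p')) ((U.U ^ m) x * (E n : Q) * b) := by
    rw [h1, up_zpow hF hx]
    have ey : y = x * a₁ ^ p * b * (a₂ ^ p')⁻¹ := by
      rw [up_zpow hF hx, up_zpow hF hy] at hb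
      rw [hb, mul_inv_cancel_right]
    show _ = x * a₁ ^ m * (a₁ ^ (p - m) * (b * (a₂ ^ (-p') * n * (a₂ ^ (-p'))⁻¹) * b⁻¹) * (a₁ ^ (p - m))⁻¹ *
          (a₁ ^ (p - m) * ((b * a₂ * b⁻¹) ^ (p - m))⁻¹)) * b * a₂ ^ (p - m - p')
    have e2 : ((b * a₂ * b⁻¹) ^ (p - m))⁻¹ = b * a₂ ^ (-(p - m)) * b⁻¹ := by
      rw [conj_zpow, zpow_neg]; group
    rw [e2, ey]
    group
  rw [e1, w_zpow hw]

end orb

/-- LOCSUM, two sheets. -/
theorem locSum2 : LocSum2S := by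
  intro Q _ _ B U P D z F e h A b σ hs x y p p' hb hk R _ w hw n
  classical
  have hb' : (U.U ^ (p : ℤ)) (x : Q) * b = (U.U ^ (p' : ℤ)) (y : Q) := by
    rw [zpow_natCast, zpow_natCast]; exact hb
  obtain ⟨a₁, a₂, hx, hs', hK⟩ : ∃ a₁ a₂ : Q, U.U (x : Q) = x * a₁ ∧
      (∀ v, U.U v = v * a₁ → U.U (v * b) = v * b * a₂) ∧ K02 A b σ = Nz a₁ (b * a₂ * b⁻¹) 1 := by
    rcases hs x with hx | hx
    · refine ⟨A, A ^ σ, hx.1, fun v hv => ?_, K02_eq A b σ⟩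
      rcases hs v with h1 | h1
      · exact h1.2
      · have h2 : A = A⁻¹ := mul_left_cancel (hv.symm.trans h1.1)
        rw [h1.2, zpow_neg, ← inv_zpow, ← h2]
    · refine ⟨A⁻¹, A ^ (-σ), hx.1, fun v hv => ?_, K02_eq' A b σ⟩
      rcases hs v with h1 | h1
      · have h2 : A = A⁻¹ := mul_left_cancel (h1.1.symm.trans hv)
        rw [h1.2, zpow_neg, ← inv_zpow, ← h2]
      · exact h1.2
  have hy : U.U (y : Q) = y * a₂ := by
    refine up_line' h.dat (t := (p' : ℤ)) ?_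
    rw [← hb']
    refine hs' _ ?_
    rw [up_zpow h.dat hx, up_line h.dat hx]
  have hb'' : (U.U ^ (p' : ℤ)) (y : Q) * b⁻¹ = (U.U ^ (p : ℤ)) (x : Q) := by
    rw [← hb', mul_inv_cancel_right]
  have h1 := two_sum h hx hy hb' w
  have h2 := two_sum h hy hx hb'' w
  rw [shift1 h.dat (two_D h hx hy hb') (fun n hn t => Nz.conj hn t) hx hw n] at h1
  rw [shift2 h.dat hx hy hb' (two_D h hx hy hb') hs' hw n, Set.pair_comm] at h2
  have : Fintype (Nz a₁ (b * a₂ * b⁻¹) 1) := Fintype.ofFinite _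
  unfold DS2
  rw [hK, finsum_eq_sum_of_fintype, Finset.sum_add_distrib, ← finsum_eq_sum_of_fintype, ← finsum_eq_sum_of_fintype,
    ← h1, ← h2, ← Finset.sum_add_distrib]
  unfold wsum
  refine Finset.sum_congr rfl fun s _ => ?_
  by_cases c1 : ∃ g ∈ Subgroup.closure {h.cj (x : Q), h.cj (y : Q)}, g • x = s
  · have c2 : ¬ ∃ g ∈ Subgroup.closure {h.cj (x : Q), h.cj (y : Q)}, g • y = s := by
      rintro ⟨g', hg', h4⟩
      obtain ⟨g, hg, h3⟩ := c1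
      refine hk (g'⁻¹ * g) ?_
      rw [mul_smul, h3, ← h4, inv_smul_smul]
    have c3 : ∃ g ∈ Subgroup.closure {h.cj (x : Q), h.cj (y : Q)}, g • x = s ∨ g • y = s := by
      obtain ⟨g, hg, h3⟩ := c1
      exact ⟨g, hg, Or.inl h3⟩
    rw [if_pos c1, if_neg c2, if_pos c3, add_zero]
  · by_cases c2 : ∃ g ∈ Subgroup.closure {h.cj (x : Q), h.cj (y : Q)}, g • y = s
    · have c3 : ∃ g ∈ Subgroup.closure {h.cj (x : Q), h.cj (y : Q)}, g • x = s ∨ g • y = s := by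
        obtain ⟨g, hg, h3⟩ := c2
        exact ⟨g, hg, Or.inr h3⟩
      rw [if_neg c1, if_pos c2, if_pos c3, zero_add]
    · have c3 : ¬ ∃ g ∈ Subgroup.closure {h.cj (x : Q), h.cj (y : Q)}, g • x = s ∨ g • y = s := by
        rintro ⟨g, hg, h3 | h3⟩
        · exact c1 ⟨g, hg, h3⟩
        · exact c2 ⟨g, hg, h3⟩
      rw [if_neg c1, if_neg c2, if_neg c3, add_zero]

/-! ### One sheet -/

section one

variable {Q : Type} [Group Q] {B : Lb.{0, v} Q} {U : Up B} {P D : Subgroup Q} {z : Q} {F : Finset Q} {e : ℕ}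

theorem RelS.zpow' {hF : Frt U P D z F e} {g : Sy hF} {t : ℤ} {u : Q} (h : RelS g t u) (i : ℤ) :
    RelS (g ^ i) (i * t) (u ^ i) := by
  induction i using Int.induction_on with
  | zero => rw [zpow_zero, zpow_zero, zero_mul]; exact RelS.one
  | succ m ih => rw [zpow_add, zpow_add, zpow_one, zpow_one, add_mul, one_mul]; exact ih.mul h
  | pred m ih =>
    rw [sub_eq_add_neg, zpow_add, zpow_add, zpow_neg_one, zpow_neg_one, add_mul, neg_one_mul]; exact ih.mul h.inv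

/-- An element of level `j`. -/
theorem relS_lv (hF : Frt U P D z F e) (η : Sy hF) (j : ℤ) (hj : (j : ZMod e) = lv η) :
    ∃ d ∈ D, RelS η j (d * z ^ j) := by
  obtain ⟨t, d, h1, h2⟩ := η.2
  have h1' : (t : ZMod e) = lv η := h1
  have h3 : ((j - t : ℤ) : ZMod e) = 0 := by
    rw [Int.cast_sub, hj, Int.cast_natCast, h1', sub_self]
  obtain ⟨k, hk⟩ := (ZMod.intCast_zmod_eq_zero_iff_dvd _ _).1 h3
  have r1 : RelS η (t : ℤ) (d * z ^ t) := ⟨hF.mem_P h2.1 t, fun s => by rw [zpow_natCast]; exact h2.2 s⟩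
  have r2 : RelS (1 : Sy hF) (e : ℤ) (z ^ e) := ⟨P.pow_mem hF.dat.hz e, fun s => by
    rw [one_smul, zpow_natCast, hF.per]⟩
  have r3 := (r2.zpow' k).mul r1
  rw [one_zpow, one_mul] at r3
  refine ⟨z ^ (k * e) * d * (z ^ (k * e))⁻¹, ?_, ?_⟩
  · exact hF.dat.conj _ h2.1
  · have e1 : k * (e : ℤ) + t = j := by linarith
    have e2 : (z ^ e) ^ k * (d * z ^ t) = z ^ (k * (e : ℤ)) * d * (z ^ (k * (e : ℤ)))⁻¹ * z ^ j := by
      rw [← e1, zpow_add, ← zpow_natCast z t, ← zpow_natCast z e, ← zpow_mul, mul_comm (e : ℤ) k]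
      group
    rwa [e1, e2] at r3

end one

/-- LOCSUM, one sheet. -/
theorem locSum1 : LocSum1S := by
  intro Q _ _ B U P D z F e h A hs x y b p p' j η hj hb hη hl R _ w hw n
  classical
  have hb' : (U.U ^ (p : ℤ)) (x : Q) * b = (U.U ^ (p' : ℤ)) (y : Q) := by
    rw [zpow_natCast, zpow_natCast]; exact hb
  obtain ⟨a, hx, hK⟩ : ∃ a : Q, U.U (x : Q) = x * a ∧ K01 A b j = Nz a b ((p' : ℤ) - p) := by
    rcases hs x with hx | hx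
    · refine ⟨A, hx, ?_⟩
      rw [K01_eq]
      refine Nz_congr ?_
      rw [up_zpow h.dat hx] at hj
      exact mul_left_cancel hj
    · refine ⟨A⁻¹, hx, ?_⟩
      rw [K01_eq]
      refine Nz_inv ?_
      rw [up_zpow h.dat hx] at hj
      exact mul_left_cancel hj
  obtain ⟨d, hd, r1⟩ := relS_lv h.toFrt η ((p' : ℤ) - p) (by
    rw [hl]; push_cast; ring)
  set j' : ℤ := (p' : ℤ) - p with hj'
  have hy : U.U (y : Q) = y * a := by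
    refine up_line' h.dat (t := j') ?_
    have h1 := r1.2 x
    rw [hη] at h1
    rw [← h1, h.dat.com r1.1, hx]
    group
  have ey : (y : Q) = x * a ^ (p : ℤ) * b * (a ^ (p' : ℤ))⁻¹ := two_y h hx hy hb'
  have eu : d * z ^ j' = x * a ^ (p : ℤ) * b * (a ^ (p : ℤ))⁻¹ * (x : Q)⁻¹ := by
    have h1 := r1.2 x
    rw [hη, up_zpow h.dat hy, ey] at h1
    rw [eq_mul_inv_iff_mul_eq, h1, hj', zpow_sub]
    group
  rw [eu] at r1
  have hN : Nz a b j' ≤ D := by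
    refine Nz.le h.dat.nrm ?_
    have h1 := h.dat.mem_zpow j' (x : Q)
    rw [up_zpow h.dat hx] at h1
    have h2 := h.dat.conj' (x : Q) hd
    have h3 := h.dat.conj' (a ^ j') h2
    have h4 := D.mul_mem h3 (D.inv_mem h1)
    have h5 := h.dat.conj' (a ^ (p : ℤ)) h4
    have e1 : (a ^ (p : ℤ))⁻¹ * ((a ^ j')⁻¹ * ((x : Q)⁻¹ * d * x) * a ^ j' * ((x : Q)⁻¹ * ((z ^ j')⁻¹ *
        (x * a ^ j')))⁻¹) * a ^ (p : ℤ) = (a ^ (p : ℤ))⁻¹ * ((a ^ j')⁻¹ * (x : Q)⁻¹ * (d * z ^ j') * x) *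
        a ^ (p : ℤ) := by group
    rw [e1, eu] at h5
    have e2 : (a ^ (p : ℤ))⁻¹ * ((a ^ j')⁻¹ * (x : Q)⁻¹ * (x * a ^ (p : ℤ) * b * (a ^ (p : ℤ))⁻¹ * (x : Q)⁻¹) * x) *
        a ^ (p : ℤ) = (a ^ j')⁻¹ * b := by group
    rwa [e2] at h5
  have mx : h.cj (x : Q) ∈ Subgroup.closure {h.cj (x : Q), η} := Subgroup.subset_closure (Or.inl rfl)
  have me : η ∈ Subgroup.closure {h.cj (x : Q), η} := Subgroup.subset_closure (Or.inr rfl)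
  have hsub : ∀ g ∈ Subgroup.closure {h.cj (x : Q), η}, ∃ n ∈ Nz a b j', ((g • x : F) : Q) = x * n := by
    refine orb_sub h hx hN (fun n hn t => Nz.conj hn t) ?_
    rintro g (rfl | rfl)
    · refine ⟨1, 1, Subgroup.one_mem _, ?_⟩
      rw [mul_one, zpow_one]
      exact relS_cj h hx
    · refine ⟨j', _, Nz.gen_mem (p + j'), ?_⟩
      have e1 : (x : Q) * a ^ (p : ℤ) * b * (a ^ (p : ℤ))⁻¹ * (x : Q)⁻¹ =
          x * (a ^ ((p : ℤ) + j') * ((a ^ j')⁻¹ * b) * (a ^ ((p : ℤ) + j'))⁻¹) * a ^ j' * (x : Q)⁻¹ := by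
        generalize j' = i
        group
      rwa [e1] at r1
  have hsup : ∀ n ∈ Nz a b j', ∃ g ∈ Subgroup.closure {h.cj (x : Q), η}, ((g • x : F) : Q) = x * n := by
    refine orb_sup h ?_
    rintro _ ⟨i, rfl⟩
    refine ⟨h.cj (x : Q) ^ (i - p - j') * η * h.cj (x : Q) ^ (p - i),
      Subgroup.mul_mem _ (Subgroup.mul_mem _ (Subgroup.zpow_mem _ mx _) me) (Subgroup.zpow_mem _ mx _), ?_⟩
    have h1 := (((relS_cj h hx).zpow (i - p - j')).mul r1).mul ((relS_cj h hx).zpow (p - i))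
    have e1 : (i - p - j') + j' + (p - i) = 0 := by ring
    have e2 : ((x : Q) * a * (x : Q)⁻¹) ^ (i - p - j') * (x * a ^ (p : ℤ) * b * (a ^ (p : ℤ))⁻¹ * (x : Q)⁻¹) *
        ((x : Q) * a * (x : Q)⁻¹) ^ (p - i) =
        x * (a ^ i * ((a ^ j')⁻¹ * b) * (a ^ i)⁻¹) * (x : Q)⁻¹ := by
      rw [conj_zpow, conj_zpow]
      generalize j' = k
      group
    rwa [e1, e2] at h1
  have h1 := sum_orb hsub hsup w
  rw [shift1 h.dat hN (fun n hn t => Nz.conj hn t) hx hw n] at h1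
  unfold DS1
  rw [hK, ← h1]
  unfold wsum
  refine Finset.sum_congr rfl fun s _ => ?_
  by_cases c1 : ∃ g ∈ Subgroup.closure {h.cj (x : Q), η}, g • x = s
  · have c3 : ∃ g ∈ Subgroup.closure {h.cj (x : Q), η}, g • x = s ∨ g • y = s := by
      obtain ⟨g, hg, h3⟩ := c1
      exact ⟨g, hg, Or.inl h3⟩
    rw [if_pos c1, if_pos c3]
  · have c3 : ¬ ∃ g ∈ Subgroup.closure {h.cj (x : Q), η}, g • x = s ∨ g • y = s := by
      rintro ⟨g, hg, h3 | h3⟩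
      · exact c1 ⟨g, hg, h3⟩
      · refine c1 ⟨g * η, Subgroup.mul_mem _ hg me, ?_⟩
        rw [mul_smul, hη, h3]
    rw [if_neg c1, if_neg c3]

end Pool.Agent.Lib.MP_688fd0_co.SQ3
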