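import Pool.Agent.Lib.MP_688fd0_co.SQ3.V.SyL
import Pool.Agent.Lib.MP_688fd0_co.SQ2.V.Coset1
import Pool.Agent.Lib.MP_688fd0_co.SQ2.V.FlipDefs

/-!
The one-sheet component of a rung of the big puzzle, in the language of `Up`.
-/

set_option autoImplicit false

namespace Pool.Agent.Lib.MP_688fd0_co.SQ3

open Pool.Agent.Lib.MP_688fd0_co.OSF Pool.Agent.Lib.MP_688fd0_co.SQ2
open SQ2.V (Puz Sub S1 puz1)

universe v

variable {Q : Type} [Group Q] [DecidableEq Q] {B : Lb.{0, v} Q} {U : Up B} {P D : Subgroup Q} {z : Q} {F : Finset Q}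
  {e : ℕ}

section sub1

variable {h : FrD U P D z F e} {ι : Type} {G : ι → BGad h.toFrt} {i : ι} {Γ : Subgroup (Sy h.toFrt)}
  {a' b' : Γ} (ha' : (a' : Sy h.toFrt) = h.cj ((G i).x : Q)) (hb' : (b' : Sy h.toFrt) • (G i).x = (G i).y)

omit [DecidableEq Q] in
theorem mem_zp {Γ : Subgroup (Sy h.toFrt)} (a' k : Γ) :
    k ∈ Subgroup.zpowers a' ↔ (k : Sy h.toFrt) ∈ Subgroup.zpowers (a' : Sy h.toFrt) := by
  rw [Subgroup.mem_zpowers_iff, Subgroup.mem_zpowers_iff]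
  constructor
  · rintro ⟨n, rfl⟩
    exact ⟨n, by simp⟩
  · rintro ⟨n, hn⟩
    exact ⟨n, Subtype.ext (by rw [← hn]; simp)⟩

include ha' in
theorem stab1 (k : Γ) : (k : Sy h.toFrt) • (G i).x = (G i).x ↔ k ∈ Subgroup.zpowers a' := by
  rw [mem_zp (h := h), ha', h.stab]

/-- The strands of the component. -/
noncomputable def iS1 (q : S1 a') : F :=
  Quotient.liftOn' q (fun γ : Γ => (γ : Sy h.toFrt) • (G i).x) (fun r s hrs => by
    have h1 : r⁻¹ * s ∈ Subgroup.zpowers a' := QuotientGroup.leftRel_apply.1 hrs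
    have h2 := (stab1 (G := G) (i := i) ha' (r⁻¹ * s)).2 h1
    have h3 : ((r⁻¹ * s : Γ) : Sy h.toFrt) = (r : Sy h.toFrt)⁻¹ * (s : Sy h.toFrt) := rfl
    rw [h3, mul_smul, inv_smul_eq_iff] at h2
    exact h2.symm)

theorem iS1_mk (γ : Γ) : iS1 (G := G) (i := i) ha' (γ : Γ ⧸ Subgroup.zpowers a') = (γ : Sy h.toFrt) • (G i).x := rfl

theorem iS1_inj : Function.Injective (iS1 (G := G) (i := i) ha') := by
  intro q q' hq
  obtain ⟨r, rfl⟩ := QuotientGroup.mk_surjective q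
  obtain ⟨s, rfl⟩ := QuotientGroup.mk_surjective q'
  rw [iS1_mk, iS1_mk] at hq
  refine QuotientGroup.eq.2 ((stab1 (G := G) (i := i) ha' _).1 ?_)
  have h3 : ((r⁻¹ * s : Γ) : Sy h.toFrt) = (r : Sy h.toFrt)⁻¹ * (s : Sy h.toFrt) := rfl
  rw [h3, mul_smul, ← hq, inv_smul_smul]

theorem mem_range1 (s : F) : s ∈ Set.range (iS1 (G := G) (i := i) ha') ↔ ∃ γ ∈ Γ, γ • (G i).x = s := by
  constructor
  · rintro ⟨q, rfl⟩
    obtain ⟨r, rfl⟩ := QuotientGroup.mk_surjective q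
    exact ⟨r, r.2, rfl⟩
  · rintro ⟨γ, hγ, rfl⟩
    exact ⟨((⟨γ, hγ⟩ : Γ) : Γ ⧸ Subgroup.zpowers a'), rfl⟩

include hb' in
theorem not_range1 (s : F) (hs : s ∉ Set.range (iS1 (G := G) (i := i) ha')) :
    ∀ g ∈ Γ, g • (G i).x ≠ s ∧ g • (G i).y ≠ s := by
  intro g hg
  constructor
  · intro h1
    exact hs ((mem_range1 ha' s).2 ⟨g, hg, h1⟩)
  · intro h1
    refine hs ((mem_range1 ha' s).2 ⟨g * b', Γ.mul_mem hg b'.2, ?_⟩)
    rw [mul_smul, hb', h1]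

variable (hout : ∀ s : F, (∀ g ∈ Γ, g • (G i).x ≠ s ∧ g • (G i).y ≠ s) → (G i).T s = s)

include hb' hout in
theorem T_out1 (γ : Γ) (s : F) (hs : s ∉ Set.range (iS1 (G := G) (i := i) ha')) :
    (bigP G).T ⟨i, (γ : Sy h.toFrt)⟩ s = s := by
  show (γ : Sy h.toFrt) • (G i).T ((γ : Sy h.toFrt)⁻¹ • s) = s
  rw [hout _ (not_range1 ha' hb' _ fun h1 => hs ?_), smul_inv_smul]
  rw [mem_range1] at h1 ⊢
  obtain ⟨g, hg, h2⟩ := h1
  exact ⟨γ * g, Γ.mul_mem γ.2 hg, by rw [mul_smul, h2, smul_inv_smul]⟩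

include hb' hout in
theorem T_in1 (γ : Γ) (s : F) : s ∈ Set.range (iS1 (G := G) (i := i) ha') ↔
    (bigP G).T ⟨i, (γ : Sy h.toFrt)⟩ s ∈ Set.range (iS1 (G := G) (i := i) ha') := by
  constructor
  · intro hs
    by_contra hc
    have h1 := T_out1 ha' hb' hout γ _ hc
    have h2 := ((bigP G).T ⟨i, (γ : Sy h.toFrt)⟩).injective h1
    rw [← h2] at hs
    exact hc hs
  · intro hs
    by_contra hc
    rw [T_out1 ha' hb' hout γ s hc] at hs
    exact hc hs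

/-- The gadgets of the component. -/
noncomputable def T1 (γ : Γ) : Equiv.Perm (S1 a') :=
  ((Equiv.ofInjective _ (iS1_inj (G := G) (i := i) ha')).trans
    (((bigP G).T ⟨i, (γ : Sy h.toFrt)⟩).subtypePerm (fun s => (T_in1 ha' hb' hout γ s).symm))).trans
    (Equiv.ofInjective _ (iS1_inj (G := G) (i := i) ha')).symm

theorem iS1_T1 (γ : Γ) (q : S1 a') : iS1 (G := G) (i := i) ha' (T1 ha' hb' hout γ q) =
    (bigP G).T ⟨i, (γ : Sy h.toFrt)⟩ (iS1 (G := G) (i := i) ha' q) := by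
  have h1 := Equiv.apply_ofInjective_symm (iS1_inj (G := G) (i := i) ha')
    (((bigP G).T ⟨i, (γ : Sy h.toFrt)⟩).subtypePerm (fun s => (T_in1 ha' hb' hout γ s).symm)
      (Equiv.ofInjective _ (iS1_inj (G := G) (i := i) ha') q))
  exact h1

include ha' hb' hout in
/-- The one-sheet component is a puzzle `puz1`. -/
theorem exists_sub1 (hdel : (G i).δ ∈ Γ) :
    ∃ (hb : b' ∉ Subgroup.zpowers a') (tau : Equiv.Perm Γ) (T : Γ → Equiv.Perm (S1 a'))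
      (hT : ∀ r, (T r (r : Γ ⧸ Subgroup.zpowers a') = (tau r : Γ ⧸ Subgroup.zpowers a') ∧
          T r ((r * b' : Γ) : Γ ⧸ Subgroup.zpowers a') = ((tau r * b' : Γ) : Γ ⧸ Subgroup.zpowers a')) ∨
        (T r (r : Γ ⧸ Subgroup.zpowers a') = ((tau r * b' : Γ) : Γ ⧸ Subgroup.zpowers a') ∧
          T r ((r * b' : Γ) : Γ ⧸ Subgroup.zpowers a') = (tau r : Γ ⧸ Subgroup.zpowers a')))
      (E : Sub (bigP G) (puz1 a' b' hb tau T hT)),
      (∀ γ : Γ, E.iR γ = ⟨i, (γ : Sy h.toFrt)⟩) ∧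
      (∀ γ : Γ, E.iS (γ : Γ ⧸ Subgroup.zpowers a') = (γ : Sy h.toFrt) • (G i).x) := by
  have hb : b' ∉ Subgroup.zpowers a' := by
    intro h1
    have h2 := (stab1 (G := G) (i := i) ha' b').2 h1
    rw [hb'] at h2
    exact (G i).ne h2.symm
  have hy : ∀ γ : Γ, iS1 (G := G) (i := i) ha' ((γ * b' : Γ) : Γ ⧸ Subgroup.zpowers a') =
      (γ : Sy h.toFrt) • (G i).y := by
    intro γ
    rw [iS1_mk]
    show ((γ : Sy h.toFrt) * (b' : Sy h.toFrt)) • (G i).x = _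
    rw [mul_smul, hb']
  refine ⟨hb, Equiv.mulRight (⟨(G i).δ, hdel⟩ : Γ), T1 ha' hb' hout, fun r => Or.inl ⟨?_, ?_⟩, ?_⟩
  · apply iS1_inj (G := G) (i := i) ha'
    rw [iS1_T1, iS1_mk, iS1_mk]
    show (r : Sy h.toFrt) • (G i).T ((r : Sy h.toFrt)⁻¹ • (r : Sy h.toFrt) • (G i).x) =
      ((r : Sy h.toFrt) * (G i).δ) • (G i).x
    rw [inv_smul_smul, (G i).Tx, mul_smul]
  · apply iS1_inj (G := G) (i := i) ha'
    rw [iS1_T1, hy, hy]
    show (r : Sy h.toFrt) • (G i).T ((r : Sy h.toFrt)⁻¹ • (r : Sy h.toFrt) • (G i).y) =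
      ((r : Sy h.toFrt) * (G i).δ) • (G i).y
    rw [inv_smul_smul, (G i).Ty, mul_smul]
  · refine ⟨⟨iS1 (G := G) (i := i) ha', fun γ => ⟨i, (γ : Sy h.toFrt)⟩, iS1_inj ha', fun r => ?_, fun r => ?_,
      fun r => ?_, fun r s => ?_, fun r s hs => ?_⟩, fun γ => rfl, fun γ => rfl⟩
    · rfl
    · exact (hy r).symm
    · rfl
    · exact (iS1_T1 ha' hb' hout r s).symm
    · exact T_out1 ha' hb' hout r s hs

end sub1

end Pool.Agent.Lib.MP_688fd0_co.SQ3
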