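import Pool.Agent.Lib.MP_688fd0_co.SQ3.V.NC2
import Pool.Agent.Lib.MP_688fd0_co.SQ3.V.Sub1
import Pool.Agent.Lib.MP_688fd0_co.SQ2.V.Flip2

/-!
NC1: a label that does not commute with `U`, one sheet.
-/

set_option autoImplicit false

namespace Pool.Agent.Lib.MP_688fd0_co.SQ3

open Pool.Agent.Lib.MP_688fd0_co.OSF Pool.Agent.Lib.MP_688fd0_co.SQ2
open V (Puz)

open Classical in
theorem nc1 : NC1S := by
  intro Q _ _ B U P D z F e h ι G hm f g l₀ p V w lc i b p₀ p₁ η gok hη hlη hcomm hl hws hws' hc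
  have : Finite Q := lc.finQ
  have : Fact p.Prime := ⟨lc.prime⟩
  have hNe : NeZero e := ⟨h.he.ne'⟩
  have hep : 0 < e := h.he
  have hbig := lc.big
  set x := (G i).x with hx
  set y := (G i).y with hy
  have hDe : Nat.card D ≤ e := Nat.le_of_dvd hep lc.card
  have hDpos : 0 < Nat.card D := Nat.card_pos
  have hal : V.chi z ^ e = 1 := by rw [lc.al, one_pow]
  set Γ : Subgroup (Sy h.toFrt) := Subgroup.closure {h.cj (x : Q), η} with hΓ
  have hc1 : h.cj (x : Q) ∈ Γ := Subgroup.subset_closure (Or.inl rfl)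
  have hc2 : η ∈ Γ := Subgroup.subset_closure (Or.inr rfl)
  obtain ⟨a', ha'⟩ : ∃ a' : Γ, (a' : Sy h.toFrt) = h.cj (x : Q) := ⟨⟨_, hc1⟩, rfl⟩
  obtain ⟨b', hb'⟩ : ∃ b' : Γ, (b' : Sy h.toFrt) = η := ⟨⟨_, hc2⟩, rfl⟩
  obtain ⟨hb, tau, T, hT, E, hiR, hiS⟩ := exists_sub1 (G := G) (i := i) (Γ := Γ) (a' := a') (b' := b') ha'
    (by rw [hb']; exact hη) gok.out gok.del
  have hord : orderOf a' = e := by
    rw [← Subgroup.orderOf_coe, ha']
    exact h.cj_order x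
  have hna : b'⁻¹ * a' * b' ∉ Subgroup.zpowers a' := by
    intro hmem
    rw [mem_zp (h := h)] at hmem
    have e1 : ((b'⁻¹ * a' * b' : Γ) : Sy h.toFrt) = η⁻¹ * h.cj (x : Q) * η := by
      rw [← ha', ← hb']; rfl
    rw [e1, ha'] at hmem
    have h1 := (h.stab x _).2 hmem
    rw [mul_smul, mul_smul, hη, inv_smul_eq_iff, hη] at h1
    exact gen_ne h.dat gok.edge hcomm (cj_fix h x y h1)
  have htop : Subgroup.closure ({a', b'} : Set Γ) = ⊤ := by
    rw [eq_top_iff]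
    rintro ⟨γ, hγ⟩ -
    induction hγ using Subgroup.closure_induction with
    | mem γ hγ =>
      refine Subgroup.subset_closure ?_
      rcases hγ with hγ | hγ
      · exact Or.inl (Subtype.ext (hγ.trans ha'.symm))
      · exact Or.inr (Subtype.ext ((show γ = η from hγ).trans hb'.symm))
    | one => exact Subgroup.one_mem _
    | mul γ γ' _ _ ih ih' => exact Subgroup.mul_mem _ ih ih'
    | inv γ _ ih => exact Subgroup.inv_mem _ ih
  obtain ⟨hFull, hTwo, hNo, hCo, hdeg⟩ := coset1 Γ a' b' hb tau T hT hna htop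
  have : Fintype Γ := Fintype.ofFinite _
  have : Fintype (SQ2.V.S1 a') := Fintype.ofFinite _
  have hcard : Fintype.card (SQ2.V.S1 a') ≤ e := by
    rw [← Nat.card_eq_fintype_card]
    refine le_trans (h.card_quot Γ x (Subgroup.zpowers a') fun g hg => ?_) hDe
    rw [mem_zp (h := h), ha']
    exact (h.stab x g).1 hg
  have hpe : ((2 * orderOf a' : ℕ) : ZMod p) ≠ 0 := by
    rw [hord, Ne, ZMod.natCast_eq_zero_iff]
    intro h0
    have := Nat.le_of_dvd (by omega) h0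
    omega
  -- the strands
  have hiS1 : E.iS ((1 : Γ) : Γ ⧸ Subgroup.zpowers a') = x := by
    rw [hiS 1]
    show (1 : Sy h.toFrt) • x = x
    rw [one_smul]
  have hiSb : ∀ r : Γ, E.iS ((r * b' : Γ) : Γ ⧸ Subgroup.zpowers a') = (r : Sy h.toFrt) • y := by
    intro r
    rw [hiS]
    show ((r : Sy h.toFrt) * (b' : Sy h.toFrt)) • x = _
    rw [mul_smul, hb', hη]
  have hrange : ∀ s, s ∈ Set.range E.iS ↔ ∃ g ∈ Γ, g • x = s ∨ g • y = s := by
    intro s
    constructor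
    · rintro ⟨q, rfl⟩
      obtain ⟨r, rfl⟩ := QuotientGroup.mk_surjective q
      exact ⟨r, r.2, Or.inl (hiS r).symm⟩
    · rintro ⟨k, hk1, hk2 | hk2⟩
      · exact ⟨((⟨k, hk1⟩ : Γ) : Γ ⧸ Subgroup.zpowers a'), (hiS _).trans hk2⟩
      · exact ⟨(((⟨k, hk1⟩ : Γ) * b' : Γ) : Γ ⧸ Subgroup.zpowers a'), (hiSb _).trans hk2⟩
  have hsum : (∑ s, w (E.iS s : Q)) = wsum h Γ x y w := wsum_eq h Γ x y w E.iS E.inj hrange
  have hone : ∀ n : ℕ, ((1 : Γ) : Γ ⧸ Subgroup.zpowers a') = ((a' ^ n : Γ) : Γ ⧸ Subgroup.zpowers a') := fun n =>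
    QuotientGroup.eq.2 (by rw [inv_one, one_mul]; exact Subgroup.npow_mem_zpowers _ _)
  obtain ⟨n, hn⟩ := hws'
  have hoth : E.iS ((SQ2.V.puz1 a' b' hb tau T hT).oth (a' ^ n) ((1 : Γ) : Γ ⧸ Subgroup.zpowers a')) =
      h.cj (x : Q) ^ n • y := by
    have h2 : (SQ2.V.puz1 a' b' hb tau T hT).oth (a' ^ n) ((1 : Γ) : Γ ⧸ Subgroup.zpowers a') =
        ((a' ^ n * b' : Γ) : Γ ⧸ Subgroup.zpowers a') := by
      unfold SQ2.V.Puz.oth
      rw [if_pos (show ((1 : Γ) : Γ ⧸ Subgroup.zpowers a') = (SQ2.V.puz1 a' b' hb tau T hT).x (a' ^ n) from hone n)]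
      rfl
    rw [h2, hiSb]
    have h3 : ((a' ^ n : Γ) : Sy h.toFrt) = h.cj (x : Q) ^ n := by
      rw [← ha']; rfl
    rw [h3]
  refine ncore h G hm f g l₀ p V w lc i b p₀ p₁ Γ gok (SQ2.V.puz1 a' b' hb tau T hT) E
    (fun r => ⟨r, r.2, hiR r⟩) (fun s hs => (hrange s).2 hs) ((1 : Γ) : Γ ⧸ Subgroup.zpowers a')
    (by rw [hiS1]; exact hl) (a' ^ n) (Or.inl (hone n)) (by rw [hsum]; exact hws)
    (by rw [hsum, hiS1, hoth]; exact hn) hFull hTwo hNo hCo (by omega)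
    ⟨2 * orderOf a', hpe, hdeg⟩ ?_
  rcases hc with hI | hII
  · left
    refine ⟨hI, ?_⟩
    rintro ⟨β, hβ⟩
    have hcne0 : V.chi ((U.U ^ p₀) (x : Q)) ≠ 0 := by
      intro h0
      have h1 : V.chi ((U.U ^ p₀) (x : Q)) * V.chi ((U.U ^ p₀) (x : Q))⁻¹ = 1 := by
        rw [← map_mul, mul_inv_cancel, map_one]
      rw [h0, zero_mul] at h1
      exact zero_ne_one h1
    have h1 := SQ2.V.not_exact1 (a := a') (b := b') ((Xh V hal x).comp Γ.subtype)
      (V.chi ((U.U ^ p₀) (x : Q)) * V.n b) β (fun r => by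
        have h2 := hβ r
        rw [hiR r] at h2
        exact h2) (Nat.card D) (by
        apply Subtype.ext
        show ((b' : Sy h.toFrt)⁻¹ * (a' : Sy h.toFrt) * (b' : Sy h.toFrt) * (a' : Sy h.toFrt)⁻¹) ^ Nat.card D = 1
        apply lv0_pow
        rw [lv_mul, lv_mul, lv_mul, lv_inv, lv_inv]
        ring)
    have hDF : ((Nat.card D : ℕ) : ZMod p) ≠ 0 := by
      rw [Ne, ZMod.natCast_eq_zero_iff]
      intro h0
      have := Nat.le_of_dvd hDpos h0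
      omega
    have h4 : ((Xh V hal x).comp Γ.subtype) a' = V.chi (B.q (U.up (x : Q))) := by
      show Xc V (a' : Sy h.toFrt) = _
      rw [ha']
      exact Xc_cj_self V h hal x
    rw [h4] at h1
    rcases mul_eq_zero.1 h1 with h5 | h5
    · rcases mul_eq_zero.1 h5 with h6 | h6
      · exact hDF h6
      · exact mul_ne_zero hcne0 hI.nb h6
    · exact hI.al _ (sub_eq_zero.1 h5)
  · right
    refine ⟨hII, 1, ?_⟩
    show U.wt V (E.iS ((1 : Γ) : Γ ⧸ Subgroup.zpowers a') : Q) ≠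
      U.wt V (E.iS ((1 * b' : Γ) : Γ ⧸ Subgroup.zpowers a') : Q)
    rw [hiS1, hiSb]
    have h0 : (((1 : Γ) : Sy h.toFrt) • y : F) = y := one_smul _ _
    rw [h0]
    exact wt_ne hII gok.edge

end Pool.Agent.Lib.MP_688fd0_co.SQ3
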