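import Pool.Agent.Lib.MP_688fd0_co.SQ3.V.Loc
import Pool.Agent.Lib.MP_688fd0_co.SQ3.V.RealA
import Pool.Agent.Lib.MP_688fd0_co.SQ2.V.FS

/-!
ONE: labels with the same image as the steps up. The window is extended by `e` levels and one label of the straight piece
of one token is replaced.
-/

set_option autoImplicit false

namespace Pool.Agent.Lib.MP_688fd0_co.SQ3

open Pool.Agent.Lib.MP_688fd0_co.OSF Pool.Agent.Lib.MP_688fd0_co.SQ2
open V (Puz)

universe u v w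

namespace OneE

variable {Q : Type u} [Group Q] [DecidableEq Q] {B : Lb.{u, v} Q}

/-- The other path does not change flat windows. -/
theorem repl_ver {U : Up B} {X : TW B} {n : ℕ} {xs : Q} (hX : Flat U X n xs) (x₁ : Q) (l : List B.L)
    (h : B.fin x₁ l = B.fin x₁ (X.path x₁))
    (hs : (src B x₁ l : Multiset Q) = (src B x₁ (X.path x₁) : Multiset Q)) :
    Ver U X (X.repl x₁ l h) n xs := by
  refine ⟨hX, ⟨hX.pos, hX.top, ?_, hX.xs_mem, hX.w₀, hX.w₁, hX.f_xs, hX.f⟩, rfl, rfl, rfl, rfl, rfl⟩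
  rw [TW.repl_R X x₁ l h hs]; exact hX.reg

/-- The change of volume. -/
theorem repl_dvolw {F : Type w} [CommRing F] (V : Vd B F) (wt : Q → F) (X : TW B) {x₁ : Q} (hx : x₁ ∈ X.tok₀)
    (l : List B.L) (h : B.fin x₁ l = B.fin x₁ (X.path x₁)) :
    dvolw V wt X (X.repl x₁ l h) = wt x₁ * (V.vol x₁ l - V.vol x₁ (X.path x₁)) := by
  unfold dvolw
  rw [Finset.sum_eq_single x₁]
  · rw [TW.repl_path]
  · intro x _ hne
    rw [TW.repl_path_ne X h hne, sub_self, mul_zero]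
  · intro hn; exact absurd hx hn

/-- Extended flat windows are flat. -/
theorem flat_extnU {U : Up B} {X : TW B} {n : ℕ} {xs : Q} (hX : Flat U X n xs) (m : ℕ) :
    Flat U (X.extnU U m) (n + m) xs := by
  induction m with
  | zero => exact hX
  | succ m ih =>
    refine ⟨by have := hX.pos; omega, ?_, ?_, ih.xs_mem, ?_, ?_, ?_, ?_⟩
    · show im U.U (X.extnU U m).L₁ = im (U.U ^ (n + (m + 1))) (X.extnU U m).L₀
      rw [ih.top, ← im_mul, ← pow_succ']; rfl
    · show ((X.extnU U m).extU U).R = ∑ i ∈ Finset.range (n + (m + 1)), (im (U.U ^ i) (X.extnU U m).L₀).val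
      rw [TW.extU_R, ih.reg, ih.top, ← add_assoc, Finset.sum_range_succ]
    · show U.U (X.extnU U m).w₀ = (U.U ^ (n + (m + 1))) (X.extnU U m).u₁
      rw [ih.w₀, ← add_assoc, U.U_pow_succ']
    · show U.U (X.extnU U m).w₁ = (U.U ^ (n + (m + 1))) xs
      rw [ih.w₁, ← add_assoc, U.U_pow_succ']
    · show U.U ((X.extnU U m).f xs) = (U.U ^ (n + (m + 1))) (X.extnU U m).u₀
      rw [ih.f_xs, ← add_assoc, U.U_pow_succ']
    · intro x hx hne
      show U.U ((X.extnU U m).f x) = (U.U ^ (n + (m + 1))) x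
      rw [ih.f x hx hne, ← add_assoc, U.U_pow_succ']

/-- One label of the straight piece of the token `x` is replaced. -/
theorem replUp {U : Up B} {F : Type w} [Field F] (V : Vd B F) (wt : Q → F) {E : TW B} {n₀ : ℕ} {xs x : Q}
    (hE : Flat U E n₀ xs) {e : ℕ} (he : 0 < e) (hx : x ∈ E.tok₀) (hw : wt x ≠ 0) (hn : V.n (U.up (E.f x)) = 0)
    {b' : B.L} (hb : B.q b' = B.q (U.up (E.f x))) (hb0 : V.n b' ≠ 0) :
    ∃ X' : TW B, Ver U (E.extnU U e) X' (n₀ + e) xs ∧ dvolw V wt (E.extnU U e) X' ≠ 0 := by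
  obtain ⟨e, rfl⟩ : ∃ k, e = k + 1 := ⟨e - 1, by omega⟩
  obtain ⟨d1, d2, d3, d4, d5, d6⟩ := E.extnU_data U (e + 1)
  have hx' := TW.mem_tok₀.1 hx
  have hfx : B.fin x (E.path x) = E.f x := E.path_fin x hx'.1 hx'.2.1 hx'.2.2
  have hxt : x ∈ (E.extnU U (e + 1)).tok₀ := by
    rw [TW.mem_tok₀, d1, d2, d3]
    exact hx'
  have hf : B.fin x (E.path x ++ (b' :: U.str e (U.U (E.f x)))) = B.fin x ((E.extnU U (e + 1)).path x) := by
    rw [d6, fin_append, fin_append, hfx, U.str_succ]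
    show B.fin (E.f x * B.q b') _ = B.fin (E.f x * B.q (U.up (E.f x))) _
    rw [hb]
  have hs : (src B x (E.path x ++ (b' :: U.str e (U.U (E.f x)))) : Multiset Q) =
      (src B x ((E.extnU U (e + 1)).path x) : Multiset Q) := by
    rw [d6, src_append, src_append, hfx, U.str_succ]
    show ((_ ++ (E.f x :: src B (E.f x * B.q b') _) : List Q) : Multiset Q) =
      ((_ ++ (E.f x :: src B (E.f x * B.q (U.up (E.f x))) _) : List Q) : Multiset Q)
    rw [hb]
  refine ⟨(E.extnU U (e + 1)).repl x _ hf, repl_ver (flat_extnU hE (e + 1)) x _ hf hs, ?_⟩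
  rw [repl_dvolw V wt _ hxt _ hf, d6, vol_append, vol_append, hfx, U.str_succ]
  refine mul_ne_zero hw ?_
  have h1 : V.vol (E.f x) (b' :: U.str e (U.U (E.f x))) =
      V.chi (E.f x) * V.n b' + V.vol (E.f x * B.q b') (U.str e (U.U (E.f x))) := rfl
  have h2 : V.vol (E.f x) (U.up (E.f x) :: U.str e (U.U (E.f x))) =
      V.chi (E.f x) * V.n (U.up (E.f x)) + V.vol (E.f x * B.q (U.up (E.f x))) (U.str e (U.U (E.f x))) := rfl
  rw [h1, h2, hb, hn]
  have h3 : V.vol x (E.path x) + (V.chi (E.f x) * V.n b' + V.vol (E.f x * B.q (U.up (E.f x)))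
      (U.str e (U.U (E.f x)))) - (V.vol x (E.path x) + (V.chi (E.f x) * 0 +
        V.vol (E.f x * B.q (U.up (E.f x))) (U.str e (U.U (E.f x))))) = V.chi (E.f x) * V.n b' := by ring
  rw [h3]
  exact mul_ne_zero (chi_ne V _) hb0

end OneE

open OneE in
/-- ONE. -/
theorem one : OneS := by
  intro Q _ _ B U P D z F e h ι G hm f g l₀ p V w hC hn hb s hs0 hs1 hws E n₀ hE
  have : Fact p.Prime := ⟨hC.prime⟩
  obtain ⟨d1, d2, d3, d4, d5, d6⟩ := E.extnU_data U e
  have hx : (bigZ G).vt s ((bigZ G).lev f) ∈ E.tok₀ := by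
    rw [TW.mem_tok₀, hE.L₀, hE.u₀, hE.u₁]
    exact ⟨(bigZ G).vt_mem _ _, fun h1 => hs1 ((bigZ G).vt_inj h1), fun h1 => hs0 ((bigZ G).vt_inj h1)⟩
  have hwx : w ((bigZ G).vt s ((bigZ G).lev f)) ≠ 0 := by
    have h1 : w ((bigZ G).vt s ((bigZ G).lev f)) = w (s : Q) := w_pow hC.wl _ _
    rw [h1]
    exact hws
  obtain ⟨b', hb', hb0⟩ := hb (E.f ((bigZ G).vt s ((bigZ G).lev f)))
  obtain ⟨X', g1, g2⟩ := replUp V w hE.flat h.he hx hwx (hn _) hb' hb0
  refine ⟨E.extnU U e, X', n₀ + e, g1, ⟨g1.flat, by rw [d1]; exact hE.L₀, by rw [d2]; exact hE.u₀,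
    by rw [d3]; exact hE.u₁, Dvd.dvd.add hE.dvd (dvd_refl _), by rw [d4]; exact hE.cup⟩, ?_, g2⟩
  have h1 : e ≤ (2 * NW F (Rg ι (Sy h.toFrt)) + 4) * (e + hm) := by
    calc e ≤ 1 * (e + hm) := by omega
      _ ≤ (2 * NW F (Rg ι (Sy h.toFrt)) + 4) * (e + hm) := Nat.mul_le_mul_right _ (by omega)
  omega

end Pool.Agent.Lib.MP_688fd0_co.SQ3
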