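import Pool.Agent.Lib.MP_688fd0_co.SQ3.V.Flip
import Pool.Agent.Lib.MP_688fd0_co.SQ3.V.CMA
import Pool.Agent.Lib.MP_688fd0_co.SQ3.V.FC
import Pool.Agent.Lib.MP_688fd0_co.SQ3.V.One
import Pool.Agent.Lib.MP_688fd0_co.SQ3.V.NC1
import Pool.Agent.Lib.MP_688fd0_co.SQ3.V.NC2
import Pool.Agent.Lib.MP_688fd0_co.SQ3.V.LocSum
import Pool.Agent.Lib.MP_688fd0_co.SQ3.V.Key
import Pool.Agent.Lib.MP_688fd0_co.SQ3.V.CGad
import Pool.Agent.Lib.MP_688fd0_co.SQ3.V.CaseNB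
import Pool.Agent.Lib.MP_688fd0_co.SQ3.V.CaseNC
import Pool.Agent.Lib.MP_688fd0_co.SQ3.V.CaseC1F
import Pool.Agent.Lib.MP_688fd0_co.SQ3.V.CaseC1T
import Pool.Agent.Lib.MP_688fd0_co.SQ3.V.CaseC2O
import Pool.Agent.Lib.MP_688fd0_co.SQ3.V.CaseC2T
import Pool.Agent.Lib.MP_688fd0_co.SQ3.H98.GadN

/-!
# FLIP for all parities

`flipS : FlipS`, the interface statement of `SQ3/Iface.lean`.
-/

set_option autoImplicit false

namespace Pool.Agent.Lib.MP_688fd0_co.SQ3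

/-- **FLIP.** -/
theorem flipS : FlipS :=
  flip gadN1 gadN2 cgadS (case_one one el2) (case_nc gadN1 gadN2 nc1 nc2 locSum1 locSum2)
    (case_c1f cgadS (cma V.keyA)) (case_c1t cgadS gadN1 gadN2 (cma V.keyA) el2 el2c enb) (case_c2o cgadS cmb)
    (case_c2t cgadS gadN1 gadN2 fca fcb el2c enb)

end Pool.Agent.Lib.MP_688fd0_co.SQ3
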