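import Pool.Agent.Lib.MP_688fd0_co.SQ3.V.FlipCases

/-!
FLIP: the assembly of the cases.
-/

set_option autoImplicit false

namespace Pool.Agent.Lib.MP_688fd0_co.SQ3

open Pool.Agent.Lib.MP_688fd0_co.OSF Pool.Agent.Lib.MP_688fd0_co.SQ2
open V (Puz)

/-- A label with the image `A` or `A⁻¹`. -/
theorem case_one (one : OneS) (el2 : EL2S) : CaseOneS := by
  intro Q _ _ B a eps D z k c W H d cl ι x b₁ b₂ j F C P hlam p hp hkp V hz γ hγ b hb h1 h2
  have : Fact (1 < p) := ⟨hp.one_lt⟩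
  have hup : ∀ y, ∃ b', B.q b' = B.q (H.up.up y) ∧ V.n b' ≠ 0 := by
    intro y
    have hinv : B.q (B.inv b) = (B.q b)⁻¹ := B.q_inv b
    have hy : B.q (H.up.up y) = B.q a ∨ B.q (H.up.up y) = (B.q a)⁻¹ := by
      rcases Int.units_eq_one_or (eps y) with h | h
      · left; exact congrArg B.q (upE_pos B a eps H.ea h)
      · right; rw [← B.q_inv]; exact congrArg B.q (upE_neg B a eps H.ea h)
    rcases hb with hb | hb <;> rcases hy with hy | hy
    · exact ⟨b, by rw [hb, hy], h1.nb⟩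
    · exact ⟨B.inv b, by rw [hinv, hb, hy], h2.nb⟩
    · exact ⟨B.inv b, by rw [hinv, hb, hy, inv_inv], h2.nb⟩
    · exact ⟨b, by rw [hb, hy], h1.nb⟩
  have key : ∀ (i : ι) (s : F i), s ≠ (P i).l₀ → s ≠ (P i).l₁ → cl (s : Q) = γ → (P i).Suc V (wcl cl d γ) := by
    intro i s hs₀ hs₁ hs
    refine ⟨(P i).G₀, (P i).G₀, (P i).G₀, (P i).ok₀, (P i).ok₀, (P i).ok₀, ?_⟩
    exact one Q B H.up eps.ker D z (F i) k (H.frd (C.fr i)) (Fin 5) _ _ _ _ _ p V _
      ((P i).lc (P i).ok₀ (P i).ok₀ (P i).ok₀ hp hkp V hz γ) h1.up hup s hs₀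
      (by rw [(P i).othf]; exact hs₁) (wcl_ne hs)
  cases γ with
  | false =>
    obtain ⟨y, hy⟩ := hγ
    obtain ⟨i, s, t, -, -⟩ := exists_win P hy
    exact ⟨i, key i (P i).l₂ (P i).n₀₂ (P i).n₁₂ (P i).cl₂⟩
  | true =>
    obtain ⟨i, v, s, m, b', o, hv, hs, -⟩ := el2 Q B a eps D z k c W H d cl ι x b₁ b₂ j F C P hγ
    refine ⟨i, key i s ?_ ?_ hs⟩
    · intro h
      rw [h, (P i).cl₀] at hs
      exact Bool.false_ne_true hs
    · intro h
      rw [h, (P i).cl₁] at hs
      exact Bool.false_ne_true hs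

section cases

variable {Q : Type} [Group Q] {B : Lb.{0, 0} Q} {a : B.L} {eps : Q →* ℤˣ} {D : Subgroup Q} {z : Q} {k : ℕ} {p : ℕ}

theorem chi_unit [Fact p.Prime] (V : Vd B (ZMod p)) (y : Q) : V.chi y ≠ 0 := by
  intro h
  have h1 : V.chi y * V.chi y⁻¹ = 1 := by rw [← map_mul, mul_inv_cancel, map_one]
  rw [h, zero_mul] at h1
  exact zero_ne_one h1

theorem chi_zp (V : Vd B (ZMod p)) {y : Q} (hy : V.chi y = 1) (n : ℤ) : V.chi (y ^ n) = 1 := by
  have h1 : ∀ n : ℕ, V.chi (y ^ n) = 1 := fun n => by rw [map_pow, hy, one_pow]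
  rcases Int.eq_nat_or_neg n with ⟨n, rfl | rfl⟩
  · rw [zpow_natCast]; exact h1 n
  · have h2 : V.chi (y ^ (-(n : ℤ))) * V.chi (y ^ n) = 1 := by
      rw [← map_mul, ← zpow_natCast, ← zpow_add, neg_add_cancel, zpow_zero, map_one]
    rw [h1, mul_one] at h2
    exact h2

/-- Case I. -/
theorem caseI (H : Hyp B a eps D z k) [Fact p.Prime] (V : Vd B (ZMod p)) (ha : V.n a = 0)
    (hα : V.chi (B.q a) ≠ 1) {b : B.L} (hb : V.n b ≠ 0) : CaseI H.up V b where
  up := H.gauge V ha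
  al := by
    intro y
    rcases Int.units_eq_one_or (eps y) with h | h
    · rw [show H.up.up y = a from upE_pos B a eps H.ea h]; exact hα
    · rw [show H.up.up y = B.inv a from upE_neg B a eps H.ea h, B.q_inv]
      intro h1
      apply hα
      have h2 : V.chi (B.q a) * V.chi (B.q a)⁻¹ = 1 := by rw [← map_mul, mul_inv_cancel, map_one]
      rw [h1, mul_one] at h2
      exact h2
  nb := hb

theorem n_inv_ne [Fact p.Prime] (V : Vd B (ZMod p)) {b : B.L} (hb : V.n b ≠ 0) : V.n (B.inv b) ≠ 0 := by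
  rw [V.n_inv]
  exact neg_ne_zero.2 (mul_ne_zero (chi_unit V _) hb)

/-- The volume of one step up, case II. -/
theorem wt_eq (H : Hyp B a eps D z k) (V : Vd B (ZMod p)) (hα : V.chi (B.q a) = 1) (y : Q) :
    H.up.wt V y = V.chi y * (((eps y : ℤˣ) : ℤ) : ZMod p) * V.n a := by
  show V.chi y * V.n (H.up.up y) = _
  rcases Int.units_eq_one_or (eps y) with h | h
  · rw [show H.up.up y = a from upE_pos B a eps H.ea h, h]; simp
  · rw [show H.up.up y = B.inv a from upE_neg B a eps H.ea h, h, V.n_inv]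
    have h1 : V.chi (B.q a)⁻¹ = 1 := by
      have := chi_zp V hα (-1)
      rwa [zpow_neg_one] at this
    rw [h1]; simp

/-- Case II. -/
theorem caseII (H : Hyp B a eps D z k) [Fact p.Prime] (V : Vd B (ZMod p)) (ha : V.n a ≠ 0)
    (hα : V.chi (B.q a) = 1) {b : B.L} (hb : V.chi (B.q b) ≠ (((eps (B.q b) : ℤˣ) : ℤ) : ZMod p)) :
    CaseII H.up V b where
  al := by
    intro y
    rcases Int.units_eq_one_or (eps y) with h | h
    · rw [show H.up.up y = a from upE_pos B a eps H.ea h]; exact hα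
    · rw [show H.up.up y = B.inv a from upE_neg B a eps H.ea h, B.q_inv]
      have := chi_zp V hα (-1)
      rwa [zpow_neg_one] at this
  om := by
    intro y
    rw [wt_eq H V hα, wt_eq H V hα]
    have h1 : H.up.U y = y * B.q a ^ ((eps y : ℤˣ) : ℤ) := rfl
    rw [h1, eps_mul_zpow B a eps H.ea, map_mul, chi_zp V hα, mul_one]
  ne := by
    intro y h
    rw [wt_eq H V hα, wt_eq H V hα] at h
    have h1 := mul_right_cancel₀ ha h
    rw [map_mul, map_mul, Units.val_mul, Int.cast_mul] at h1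
    have h2 : (((eps y : ℤˣ) : ℤ) : ZMod p) * (((eps y : ℤˣ) : ℤ) : ZMod p) = 1 := by
      rcases Int.units_eq_one_or (eps y) with h | h <;> rw [h] <;> simp
    have h3 : (((eps (B.q b) : ℤˣ) : ℤ) : ZMod p) * (((eps (B.q b) : ℤˣ) : ℤ) : ZMod p) = 1 := by
      rcases Int.units_eq_one_or (eps (B.q b)) with h | h <;> rw [h] <;> simp
    have h4 := chi_unit V y
    apply hb
    apply mul_left_cancel₀ h4
    linear_combination (((eps y : ℤˣ) : ℤ) : ZMod p) * (((eps (B.q b) : ℤˣ) : ℤ) : ZMod p) * h1 -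
      V.chi y * V.chi (B.q b) * h2 * (((eps (B.q b) : ℤˣ) : ℤ) : ZMod p) * (((eps (B.q b) : ℤˣ) : ℤ) : ZMod p)
      - V.chi y * V.chi (B.q b) * h3 + V.chi y * (((eps (B.q b) : ℤˣ) : ℤ) : ZMod p) * h2

theorem chi_inv_eps [Fact p.Prime] (V : Vd B (ZMod p)) {b : B.L}
    (hb : V.chi (B.q b) ≠ (((eps (B.q b) : ℤˣ) : ℤ) : ZMod p)) :
    V.chi (B.q (B.inv b)) ≠ (((eps (B.q (B.inv b)) : ℤˣ) : ℤ) : ZMod p) := by
  intro h
  apply hb
  rw [B.q_inv, map_inv eps, Int.units_inv_eq_self] at h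
  have h1 : V.chi (B.q b) * V.chi (B.q b)⁻¹ = 1 := by rw [← map_mul, mul_inv_cancel, map_one]
  have h3 : (((eps (B.q b) : ℤˣ) : ℤ) : ZMod p) * (((eps (B.q b) : ℤˣ) : ℤ) : ZMod p) = 1 := by
    rcases Int.units_eq_one_or (eps (B.q b)) with h | h <;> rw [h] <;> simp
  rw [h] at h1
  linear_combination (((eps (B.q b) : ℤˣ) : ℤ) : ZMod p) * h1 - V.chi (B.q b) * h3

end cases

/-- FLIP. -/
theorem flip (g1 : GadN1S.{0}) (g2 : GadN2S.{0}) (gc : CGadS.{0}) (one : CaseOneS) (nc : CaseNCS)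
    (c1f : CaseC1FS) (c1t : CaseC1TS) (c2o : CaseC2OS) (c2t : CaseC2TS) : FlipS := by
  intro Q _ _ B a eps D z k H c W d cl ι x b₁ b₂ j F C hlam
  have P : ∀ i, PB H C i := fun i => (exists_PB g1 g2 gc C hlam i).some
  have hk : NeZero k := ⟨H.kpos.ne'⟩
  refine ⟨fun i => tz k (P i).p₀, fun i => ?_, fun i s₁ s₂ hs => ?_, ?_⟩
  · have h1 : tz k (P i).p₀ < k := ZMod.val_lt _
    have h2 := lam_ge (F i).card k c
    show tz k (P i).p₀ ≤ lam (F i).card k c
    omega
  · obtain ⟨e1, e2⟩ := (P i).leaves hlam hs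
    obtain ⟨E, n, h1, h2⟩ := (P i).pg₀.real (j i) (C.ne i)
    have h3 := bnd (H.frd (C.fr i)) ⟨_, C.fx i⟩ c
    refine ⟨E, n, le_trans (h2.trans ?_) h3, ?_⟩
    · exact Nat.mul_le_mul_right _ (by omega)
    · rw [e1, e2]; exact (P i).pg₀.fwin (j i) h1
  · intro p hpf V hkp hz hK γ hγ
    have hp : p.Prime := hpf.out
    rcases hK with ⟨hα, b, hb⟩ | ⟨hα, hna, b, hb⟩
    · -- case I
      set c₀ : ZMod p := V.n a * (V.chi (B.q a) - 1)⁻¹ with hc₀
      have hα' : V.chi (B.q a) - 1 ≠ 0 := sub_ne_zero.2 hα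
      have ha : (V.gauge c₀).n a = 0 := by
        show V.n a - c₀ * (V.chi (B.q a) - 1) = 0
        rw [hc₀, mul_assoc, inv_mul_cancel₀ hα', mul_one, sub_self]
      have hnb : (V.gauge c₀).n b ≠ 0 := by
        intro h
        apply hb
        have h1 : V.n b - c₀ * (V.chi (B.q b) - 1) = 0 := h
        have h2 : V.n a - c₀ * (V.chi (B.q a) - 1) = 0 := ha
        unfold Vd.kap
        linear_combination (V.chi (B.q a) - 1) * h1 - (V.chi (B.q b) - 1) * h2
      have hI : CaseI H.up (V.gauge c₀) b := caseI H (V.gauge c₀) ha hα hnb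
      have hI' : CaseI H.up (V.gauge c₀) (B.inv b) := caseI H (V.gauge c₀) ha hα (n_inv_ne _ hnb)
      obtain ⟨i, hi⟩ : ∃ i, (P i).Suc (V.gauge c₀) (wcl cl d γ) := by
        by_cases hcom : ∀ x, H.up.U (x * B.q b) = H.up.U x * B.q b
        · by_cases h1 : B.q b = B.q a ∨ B.q b = (B.q a)⁻¹
          · exact one Q B a eps D z k c W H d cl ι x b₁ b₂ j F C P hlam p hp hkp (V.gauge c₀) hz γ hγ b h1
              hI hI'
          · push Not at h1
            cases γ with
            | false =>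
              exact c1f Q B a eps D z k c W H d cl ι x b₁ b₂ j F C P hlam p hp hkp (V.gauge c₀) hz hγ b hcom h1.1
                h1.2 hI hI'
            | true =>
              exact c1t Q B a eps D z k c W H d cl ι x b₁ b₂ j F C P hlam p hp hkp (V.gauge c₀) hz hγ b hcom h1.1
                h1.2 hI hI'
        · exact nc Q B a eps D z k c W H d cl ι x b₁ b₂ j F C P hlam p hp hkp (V.gauge c₀) hz γ hγ b hcom
            (Or.inl ⟨hI, hI'⟩)
      refine ⟨i, fun s₁ s₂ hs => ?_⟩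
      obtain ⟨X, X', n, a1, a2, a3, a4⟩ := hi.conc hlam s₁ s₂ hs
      exact ⟨X, X', n, a1, a2, a3, by rwa [gauge_dvolw V c₀ _ a3] at a4⟩
    · -- case II
      have hI : CaseII H.up V b := caseII H V hna hα hb
      have hI' : CaseII H.up V (B.inv b) := caseII H V hna hα (chi_inv_eps V hb)
      obtain ⟨i, hi⟩ : ∃ i, (P i).Suc V (wcl cl d γ) := by
        by_cases hcom : ∀ x, H.up.U (x * B.q b) = H.up.U x * B.q b
        · have hbz : B.q b ∉ Subgroup.zpowers (B.q a) := by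
            rintro ⟨n, hn⟩
            have hn' : B.q a ^ n = B.q b := hn
            apply hb
            rw [← hn', chi_zp V hα, map_zpow, H.ea, one_zpow]
            simp
          by_cases hL : ∃ y, cl y = true
          · exact c2t Q B a eps D z k c W H d cl ι x b₁ b₂ j F C P hlam p hp hkp V hz hL γ b hcom hbz hI
          · have hL' : ∀ y, cl y = false := fun y => by
              by_contra h
              exact hL ⟨y, by simpa using h⟩
            cases γ with
            | false =>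
              exact c2o Q B a eps D z k c W H d cl ι x b₁ b₂ j F C P hlam p hp hkp V hz hL' b hcom hbz hI
            | true => exact absurd hγ hL
        · exact nc Q B a eps D z k c W H d cl ι x b₁ b₂ j F C P hlam p hp hkp V hz γ hγ b hcom (Or.inr ⟨hI, hI'⟩)
      exact ⟨i, fun s₁ s₂ hs => hi.conc hlam s₁ s₂ hs⟩

end Pool.Agent.Lib.MP_688fd0_co.SQ3
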