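import Pool.Agent.Lib.MP_688fd0_co.SQ2.V.FlipDefs

/-!
FLIP: reachable states of the hole puzzle, if steps can be undone.
-/

set_option autoImplicit false

namespace Pool.Agent.Lib.MP_688fd0_co.SQ3.V

open Pool.Agent.Lib.MP_688fd0_co.SQ2.V
open Puz

variable {S R : Type} [DecidableEq S] {P : Puz S R}

theorem J_J (r r' : R) (v : S) (L : S) : P.J r r' v (P.J r r' v L) = L := Equiv.swap_apply_self _ _ _

/-- A predecessor of a reachable state is reachable. -/
theorem pred {Tok : Type} (hret : ∀ s s' : St S R Tok, P.WReach s s' → P.WReach s' s) {s₀ s : St S R Tok} {r : R}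
    {v : S} (hadj : P.Adj s.1 r v) (hs : P.WReach s₀ (P.step r v s)) : P.WReach s₀ s :=
  hs.trans (hret _ _ (WReach.step hadj))

/-- (PRE): another state with the same successor. -/
theorem pre {Tok : Type} (hret : ∀ s s' : St S R Tok, P.WReach s s' → P.WReach s' s) {s₀ s : St S R Tok} {r r₂ : R}
    {v v₂ : S} (hs : P.WReach s₀ s) (hadj : P.Adj s.1 r v) (hadj₂ : P.Adj r₂ r v₂) :
    P.WReach s₀ (r₂, fun t => P.J r₂ r v₂ (P.J s.1 r v (s.2 t))) := by
  refine pred hret (r := r) (v := v₂) hadj₂ ?_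
  have h1 : P.step r v₂ (r₂, fun t => P.J r₂ r v₂ (P.J s.1 r v (s.2 t))) = P.step r v s := by
    refine Prod.ext rfl (funext fun t => ?_)
    show P.T r (P.J r₂ r v₂ (P.J r₂ r v₂ (P.J s.1 r v (s.2 t)))) = P.T r (P.J s.1 r v (s.2 t))
    rw [J_J]
  rw [h1]
  exact hs.trans (WReach.step hadj)

variable {f : R}

/-- (R1). -/
theorem r1 (hret : ∀ s s' : St S R (P.TokOf f), P.WReach s s' → P.WReach s' s) {r : R} {v : S}
    (hadj : P.Adj r f v) : P.WReach (P.st₁ f) (P.stb f r v) := by
  refine pred hret (r := f) (v := v) hadj ?_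
  rw [stb_step P hadj]
  exact WReach.refl _

/-- (HOME): the state with the cap `f` and all tokens home, if there is a rung `e` adjacent to `f` with `T e = 1` and
`tau e` parallel to `e`. -/
theorem home (hret : ∀ s s' : St S R (P.TokOf f), P.WReach s s' → P.WReach s' s) {e : R} {v : S}
    (hadj : P.Adj f e v) (hT : P.T e = 1) (hon : P.On (P.tau e) v) (hoth : P.oth (P.tau e) v = P.oth e v) :
    P.WReach (P.st₁ f) (f, fun t => (t : S)) := by
  have hadj' : P.Adj (P.tau e) f v := ⟨hon, hadj.1, by rw [hoth]; exact fun h => hadj.2.2 h.symm⟩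
  refine pred hret (r := e) (v := v) hadj ?_
  have h1 : P.step e v (f, fun t : P.TokOf f => (t : S)) = P.stb f (P.tau e) v := by
    refine Prod.ext rfl (funext fun t => ?_)
    show P.T e (P.J f e v (t : S)) = if (t : S) = P.oth (P.tau e) v then P.oth f v else t
    rw [hT, hoth]
    show Equiv.swap (P.oth e v) (P.oth f v) (t : S) = _
    by_cases ht : (t : S) = P.oth e v
    · rw [if_pos ht, ht, Equiv.swap_apply_left]
    · rw [if_neg ht]
      refine Equiv.swap_apply_of_ne_of_ne ht fun h' => t.2 ?_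
      rw [h']
      unfold oth On
      by_cases hv : v = P.x f
      · rw [if_pos hv]; exact Or.inr rfl
      · rw [if_neg hv]; exact Or.inl rfl
  rw [h1]
  exact r1 hret hadj'

end Pool.Agent.Lib.MP_688fd0_co.SQ3.V
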