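import Pool.Agent.Lib.MP_688fd0_co.SQ3.V.FlipPath
import Pool.Agent.Lib.MP_688fd0_co.SQ3.V.FlipReach

/-!
FLIP: the gadgets, leaves and strands of the tree paths, in the language of `Up`.
-/

set_option autoImplicit false

namespace Pool.Agent.Lib.MP_688fd0_co.SQ3

open Pool.Agent.Lib.MP_688fd0_co.OSF Pool.Agent.Lib.MP_688fd0_co.SQ2
open V (Puz)

section hyp

variable {Q : Type} [Group Q] {B : Lb.{0, 0} Q} {a : B.L} {eps : Q →* ℤˣ} {D : Subgroup Q} {z : Q} {k : ℕ}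

theorem eps_eps (e : ℤˣ) (m : ℤ) : (e : ℤ) * ((e : ℤ) * m) = m := by
  rcases Int.units_eq_one_or e with h | h <;> rw [h] <;> simp

/-- The lines. -/
theorem Hyp.zpow_eq (H : Hyp B a eps D z k) (x : Q) (n : ℤ) :
    (H.up.U ^ n) x = x * B.q a ^ (((eps x : ℤˣ) : ℤ) * n) := upE_zpow B a eps H.ea x n

theorem Hyp.mul_zpow (H : Hyp B a eps D z k) (x : Q) (n : ℤ) :
    x * B.q a ^ n = (H.up.U ^ (((eps x : ℤˣ) : ℤ) * n)) x := by rw [H.zpow_eq, eps_eps]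

theorem Hyp.per_z (H : Hyp B a eps D z k) (m : ℤ) (x : Q) :
    (H.up.U ^ ((k : ℤ) * m)) x = z ^ ((k : ℤ) * m) * x := by
  obtain ⟨n, rfl | rfl⟩ := m.eq_nat_or_neg
  · rw [← Nat.cast_mul, zpow_natCast, zpow_natCast]
    exact (H.frt ∅).per_mul n x
  · rw [mul_neg, ← Nat.cast_mul, zpow_neg, zpow_neg, zpow_natCast, zpow_natCast, Equiv.Perm.inv_eq_iff_eq,
      (H.frt ∅).per_mul, mul_inv_cancel_left]

/-- The edges at level `n` and at level `n + k m` lead to the same lines. -/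
theorem Hyp.per_edge (H : Hyp B a eps D z k) (m : ℤ) (x b : Q) :
    (H.up.U ^ ((k : ℤ) * m)) x * b = (H.up.U ^ ((k : ℤ) * m)) (x * b) := by
  rw [H.per_z, H.per_z, mul_assoc]

/-- Commuting labels. -/
theorem com_zpow {U : Up B} {b : Q} (h : ∀ x, U.U (x * b) = U.U x * b) (n : ℤ) (x : Q) :
    (U.U ^ n) (x * b) = (U.U ^ n) x * b := by
  have hn : ∀ (n : ℕ) (x : Q), (U.U ^ n) (x * b) = (U.U ^ n) x * b := by
    intro n x
    induction n with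
    | zero => rw [pow_zero]; rfl
    | succ n ih => rw [U.U_pow_succ', ih, h, ← U.U_pow_succ']
  rcases n.eq_nat_or_neg with ⟨n, rfl | rfl⟩
  · rw [zpow_natCast]; exact hn n x
  · rw [zpow_neg, zpow_natCast, Equiv.Perm.inv_eq_iff_eq, hn]
    congr 1
    exact ((U.U ^ n).apply_symm_apply x).symm

/-- A label is not a small power of `a`. -/
theorem not_small {W : ℕ} (hS : Sink B a D W) (b : B.L) (h₁ : B.q b ≠ B.q a) (h₂ : B.q b ≠ (B.q a)⁻¹) (o : ℤ)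
    (ho : |o| ≤ W) : B.q b ≠ B.q a ^ o := by
  intro h
  by_cases h3 : 2 ≤ |o|
  · refine hS b o h3 ho ?_
    rw [h, inv_mul_cancel]
    exact D.one_mem
  · have h4 : o = 0 ∨ o = 1 ∨ o = -1 := by
      have h5 : |o| ≤ 1 := by omega
      have := abs_le.1 h5
      omega
    rcases h4 with rfl | rfl | rfl
    · exact B.ne_one b (by rw [h, zpow_zero])
    · exact h₁ (by rw [h, zpow_one])
    · exact h₂ (by rw [h, zpow_neg, zpow_one])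

end hyp

theorem lam_ge (σ k c : ℕ) : 10000 * (hgt σ (c + k) + 4 * k + 4) ≤ lam σ k c := by
  unfold lam
  have : 10000 ≤ 1000 * (σ * k * σ ^ σ + 10) := by omega
  exact Nat.mul_le_mul_right _ this

theorem hgt_le (σ k c : ℕ) : hgt σ (2 * c + 2 * k) + (2 * c + 2 * k) ≤ lam σ k c := by
  have h := lam_ge σ k c
  unfold hgt at *
  omega

/-- The strand `s` is at distance at most `n` from `x₀`. -/
def Dep {Q : Type} [Group Q] {B : Lb.{0, 0} Q} (U : Up B) (D : Subgroup Q) (F : Finset Q) (x₀ : Q) (c n : ℕ)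
    (s : Q) : Prop :=
  s ∈ F ∧ ∃ l : List B.L, l.length ≤ n ∧ ∃ t : ℤ, |t| ≤ c ∧ Ats U D s (B.fin x₀ l) t

section ctx

variable {Q : Type} [Group Q] [DecidableEq Q] {B : Lb.{0, 0} Q} {a : B.L} {eps : Q →* ℤˣ} {D : Subgroup Q} {z : Q}
  {k c W : ℕ} {H : Hyp B a eps D z k} {d cl : Q → Bool} {ι : Type} {x : ι → Q} {b₁ b₂ : ι → B.L} {j : ι → ℕ}
  {F : ι → Finset Q}

omit [DecidableEq Q] in
theorem Dep.mono {U : Up B} {F' : Finset Q} {x₀ s : Q} {n n' : ℕ} (h : Dep U D F' x₀ c n s) (hn : n ≤ n') :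
    Dep U D F' x₀ c n' s := by
  obtain ⟨h1, l, h2, h3⟩ := h
  exact ⟨h1, l, h2.trans hn, h3⟩

omit [DecidableEq Q] in
/-- Neighbours of a strand. -/
theorem Dep.next (C : Ctx B a H.up D k c W d cl x b₁ b₂ j F) {i : ι} {n : ℕ} {s : Q}
    (hs : Dep H.up D (F i) (x i) c n s) (hn : n + 1 ≤ 4) (b : B.L) (m : ℤ) :
    ∃ s', Dep H.up D (F i) (x i) c (n + 1) s' ∧ ∃ o : ℤ, |o| ≤ 2 * c ∧
      (H.up.U ^ m) s * B.q b = (H.up.U ^ (m + o)) s' := by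
  obtain ⟨-, l, hl, t, ht, hat⟩ := hs
  have hfin : B.fin (x i) (l ++ [b]) = B.fin (x i) l * B.q b := by rw [fin_append]; rfl
  obtain ⟨s', hs', o, t', h1, h2, h3, h4⟩ := H.next (C.fr i) hat (B.q b) (by
    obtain ⟨o, h1, h2⟩ := C.fsh i (l ++ [b]) (by simp; omega)
    rw [hfin] at h2
    exact ⟨o, h1, h2⟩) m
  rw [← hfin] at h4
  exact ⟨s', ⟨hs', l ++ [b], by simp; omega, t', h2, h4⟩, o, by omega, h3⟩

/-- The two gadgets of a path. -/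
structure PB (H : Hyp B a eps D z k) (C : Ctx B a H.up D k c W d cl x b₁ b₂ j F) (i : ι) where
  G₀ : BGad (H.frd (C.fr i)).toFrt
  G₁ : BGad (H.frd (C.fr i)).toFrt
  p₀ : ℕ
  p₀' : ℕ
  p₁ : ℕ
  p₁' : ℕ
  o₀ : ℤ
  o₁ : ℤ
  ho₀ : |o₀| ≤ c
  ho₁ : |o₁| ≤ c
  x₀ : G₀.x = ⟨x i, C.fx i⟩
  x₁ : G₁.x = ⟨x i, C.fx i⟩
  g₀ : AG (H.frd (C.fr i)) G₀ (b₁ i) p₀ p₀' (hgt (F i).card (2 * c + 2 * k)) o₀
  g₁ : AG (H.frd (C.fr i)) G₁ (b₂ i) p₁ p₁' (hgt (F i).card (2 * c + 2 * k)) o₁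

theorem exists_PB (g1 : GadN1S.{0}) (g2 : GadN2S.{0}) (gc : CGadS.{0}) (C : Ctx B a H.up D k c W d cl x b₁ b₂ j F)
    (hlam : ∀ i, lam (F i).card k c ≤ W) (i : ι) : Nonempty (PB H C i) := by
  have hW : hgt (F i).card (2 * c + 2 * k) + (2 * c + 2 * k) ≤ W := (hgt_le _ _ _).trans (hlam i)
  obtain ⟨o₀, h1, h2⟩ := C.fsh i [b₁ i] (by simp)
  obtain ⟨o₁, h3, h4⟩ := C.fsh i [b₂ i] (by simp)
  have e1 : B.fin (x i) [b₁ i] = x i * B.q (b₁ i) := rfl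
  have e2 : B.fin (x i) [b₂ i] = x i * B.q (b₂ i) := rfl
  rw [e1] at h2
  rw [e2] at h4
  have hb₁ : x i * B.q (b₁ i) = (H.up.U ^ (-o₀)) ((H.up.U ^ o₀) (x i * B.q (b₁ i))) := by rw [H.up.zneg]
  have hb₂ : x i * B.q (b₂ i) = (H.up.U ^ (-o₁)) ((H.up.U ^ o₁) (x i * B.q (b₂ i))) := by rw [H.up.zneg]
  have hne₁ : (⟨x i, C.fx i⟩ : F i) ≠ ⟨_, h2⟩ := by
    intro h
    have h5 : x i = (H.up.U ^ o₀) (x i * B.q (b₁ i)) := congrArg Subtype.val h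
    have h6 := C.d₁ i
    rw [hb₁, ← h5, dl_zpow C.d_line] at h6
    simp at h6
  have hne₂ : (⟨x i, C.fx i⟩ : F i) ≠ ⟨_, h4⟩ := by
    intro h
    have h5 : x i = (H.up.U ^ o₁) (x i * B.q (b₂ i)) := congrArg Subtype.val h
    have h6 : B.q (b₂ i) = B.q a ^ (((eps (x i) : ℤˣ) : ℤ) * -o₁) := by
      have h7 : x i * B.q (b₂ i) = x i * B.q a ^ (((eps (x i) : ℤˣ) : ℤ) * -o₁) := by
        rw [← H.zpow_eq]
        conv_rhs => rw [h5]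
        rw [H.up.zneg]
      exact mul_left_cancel h7
    have h8 := C.d₂ i
    rw [h6, H.mul_zpow, dl_zpow C.d_line, ← zpow_natCast, dl_zpow C.d_line] at h8
    simp at h8
  obtain ⟨G₀, p₀, p₀', a1, a2⟩ := anyGad g1 g2 gc H (C.fr i) (c := 2 * c + 2 * k) hW C.sink (H.frd (C.fr i))
    (b₁ i) ⟨x i, C.fx i⟩ ⟨_, h2⟩ hne₁ (-o₀) (by rw [abs_neg]; push_cast; omega) hb₁
  obtain ⟨G₁, p₁, p₁', a3, a4⟩ := anyGad g1 g2 gc H (C.fr i) (c := 2 * c + 2 * k) hW C.sink (H.frd (C.fr i))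
    (b₂ i) ⟨x i, C.fx i⟩ ⟨_, h4⟩ hne₂ (-o₁) (by rw [abs_neg]; push_cast; omega) hb₂
  exact ⟨⟨G₀, G₁, p₀, p₀', p₁, p₁', -o₀, -o₁, by rw [abs_neg]; exact h1, by rw [abs_neg]; exact h3, a1, a3, a2,
    a4⟩⟩

variable {C : Ctx B a H.up D k c W d cl x b₁ b₂ j F} {i : ι}

/-- The gadgets of a path and three other ones. -/
def fam (P : PB H C i) (G₂ G₃ G₄ : BGad (H.frd (C.fr i)).toFrt) : Fin 5 → BGad (H.frd (C.fr i)).toFrt :=
  ![P.G₀, P.G₁, G₂, G₃, G₄]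

theorem PB.pg (P : PB H C i)
    {G₂ G₃ G₄ : BGad (H.frd (C.fr i)).toFrt} (h₂ : OKG (H.frd (C.fr i)) (hgt (F i).card (2 * c + 2 * k)) G₂)
    (h₃ : OKG (H.frd (C.fr i)) (hgt (F i).card (2 * c + 2 * k)) G₃)
    (h₄ : OKG (H.frd (C.fr i)) (hgt (F i).card (2 * c + 2 * k)) G₄) :
    PG (H.frd (C.fr i)) ⟨x i, C.fx i⟩ (b₁ i) (b₂ i) (fam P G₂ G₃ G₄) P.p₀ P.p₀' P.p₁ P.p₁'
      (hgt (F i).card (2 * c + 2 * k)) P.o₀ P.o₁ where
  x₀ := P.x₀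
  x₁ := P.x₁
  g₀ := P.g₀
  g₁ := P.g₁
  ok := by
    intro n
    fin_cases n
    · exact P.g₀.toOKG
    · exact P.g₁.toOKG
    · exact h₂
    · exact h₃
    · exact h₄

/-- The centre. -/
def PB.l₀ (_ : PB H C i) : F i := ⟨x i, C.fx i⟩

/-- The first leaf. -/
noncomputable def PB.l₁ (P : PB H C i) : F i := (H.frd (C.fr i)).cj (x i) ^ ((k - 1) * P.p₀) • P.G₀.y

/-- The second leaf. -/
noncomputable def PB.l₂ (P : PB H C i) : F i := (H.frd (C.fr i)).cj (x i) ^ ((k - 1) * P.p₁ + j i) • P.G₁.y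

/-- The cup rung. -/
noncomputable def PB.f (P : PB H C i) : Rg (Fin 5) (Sy (H.frd (C.fr i)).toFrt) :=
  rf (H.frd (C.fr i)) ⟨x i, C.fx i⟩ P.p₀

/-- The cap rung. -/
noncomputable def PB.g (P : PB H C i) : Rg (Fin 5) (Sy (H.frd (C.fr i)).toFrt) :=
  rg (H.frd (C.fr i)) ⟨x i, C.fx i⟩ P.p₁ (j i)

theorem PB.ok₀ (P : PB H C i) : OKG (H.frd (C.fr i)) (hgt (F i).card (2 * c + 2 * k)) P.G₀ := P.g₀.toOKG

theorem PB.pg₀ (P : PB H C i) :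
    PG (H.frd (C.fr i)) ⟨x i, C.fx i⟩ (b₁ i) (b₂ i) (fam P P.G₀ P.G₀ P.G₀) P.p₀ P.p₀' P.p₁ P.p₁'
      (hgt (F i).card (2 * c + 2 * k)) P.o₀ P.o₁ := P.pg P.ok₀ P.ok₀ P.ok₀

theorem PB.e₁ (P : PB H C i) : x i * B.q (b₁ i) = (H.up.U ^ P.o₀) (P.l₁ : Q) := P.pg₀.yf

theorem PB.e₂ (P : PB H C i) : (H.up.U ^ j i) (x i) * B.q (b₂ i) = (H.up.U ^ (P.o₁ + j i)) (P.l₂ : Q) :=
  P.pg₀.yg (j i)

section fam

variable (P : PB H C i) (G₂ G₃ G₄ : BGad (H.frd (C.fr i)).toFrt)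

theorem PB.xf : (bigP (fam P G₂ G₃ G₄)).x P.f = P.l₀ := P.pg₀.xf

theorem PB.xg : (bigP (fam P G₂ G₃ G₄)).x P.g = P.l₀ := P.pg₀.xg (j i)

theorem PB.yf : (bigP (fam P G₂ G₃ G₄)).y P.f = P.l₁ := rfl

theorem PB.yg : (bigP (fam P G₂ G₃ G₄)).y P.g = P.l₂ := rfl

theorem PB.othf : (bigP (fam P G₂ G₃ G₄)).oth P.f P.l₀ = P.l₁ := P.pg₀.othf

theorem PB.othg : (bigP (fam P G₂ G₃ G₄)).oth P.g P.l₀ = P.l₂ := P.pg₀.othg (j i)

theorem PB.onf : (bigP (fam P G₂ G₃ G₄)).On P.f P.l₀ := Or.inl (P.xf G₂ G₃ G₄).symm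

theorem PB.onf₁ : (bigP (fam P G₂ G₃ G₄)).On P.f P.l₁ := Or.inr rfl

theorem PB.ong : (bigP (fam P G₂ G₃ G₄)).On P.g P.l₀ := Or.inl (P.xg G₂ G₃ G₄).symm

theorem PB.ong₂ : (bigP (fam P G₂ G₃ G₄)).On P.g P.l₂ := Or.inr rfl

theorem PB.adj : (bigP (fam P G₂ G₃ G₄)).Adj P.g P.f P.l₀ := P.pg₀.adj (j i) (C.ne i)

end fam

/-! ### Lines and classes of the ends -/

theorem PB.dl₁ (P : PB H C i) : d (P.l₁ : Q) = !d (x i) := by
  rw [← C.d₁ i, P.e₁, dl_zpow C.d_line]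

theorem PB.dl₂ (P : PB H C i) : d (P.l₂ : Q) = !d (x i) := by
  rw [← C.d₂ i, P.e₂, dl_zpow C.d_line]

theorem PB.cl₀ (P : PB H C i) : cl (P.l₀ : Q) = false := C.c₀ i

theorem PB.cl₁ (P : PB H C i) : cl (P.l₁ : Q) = false := by
  rw [← C.c₁ i, P.e₁, dl_zpow C.c_line]

theorem PB.cl₂ (P : PB H C i) : cl (P.l₂ : Q) = false := by
  rw [← C.c₂ i, P.e₂, dl_zpow C.c_line]

theorem PB.ne₀₁ (P : PB H C i) (t : ℤ) : (P.l₁ : Q) ≠ (H.up.U ^ t) (P.l₀ : Q) := by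
  intro h
  have h1 := P.dl₁
  rw [h, dl_zpow C.d_line] at h1
  have h2 : d (P.l₀ : Q) = d (x i) := rfl
  rw [h2] at h1
  simp at h1

theorem PB.ne₀₂ (P : PB H C i) (t : ℤ) : (P.l₂ : Q) ≠ (H.up.U ^ t) (P.l₀ : Q) := by
  intro h
  have h1 := P.dl₂
  rw [h, dl_zpow C.d_line] at h1
  have h2 : d (P.l₀ : Q) = d (x i) := rfl
  rw [h2] at h1
  simp at h1

theorem PB.ne₁₂ (P : PB H C i) (t : ℤ) : (P.l₂ : Q) ≠ (H.up.U ^ t) (P.l₁ : Q) := by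
  intro h
  refine C.ne i ((P.o₁ + j i) + (t + -P.o₀)) ?_
  rw [P.e₂, P.e₁, h, ← H.up.zadd, ← H.up.zadd]
  congr 2
  ring

theorem PB.n₀₁ (P : PB H C i) : P.l₁ ≠ P.l₀ := fun h => P.ne₀₁ 0 (by rw [H.up.zero, h])

theorem PB.n₀₂ (P : PB H C i) : P.l₂ ≠ P.l₀ := fun h => P.ne₀₂ 0 (by rw [H.up.zero, h])

theorem PB.n₁₂ (P : PB H C i) : P.l₂ ≠ P.l₁ := fun h => P.ne₁₂ 0 (by rw [H.up.zero, h])

theorem PB.dep₀ (P : PB H C i) : Dep H.up D (F i) (x i) c 0 (P.l₀ : Q) := by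
  refine ⟨P.l₀.2, [], le_rfl, 0, by simp, ?_⟩
  show (x i)⁻¹ * (H.up.U ^ (0 : ℤ)) (x i) ∈ D
  rw [H.up.zero, inv_mul_cancel]
  exact D.one_mem

theorem PB.dep₁ (P : PB H C i) : Dep H.up D (F i) (x i) c 1 (P.l₁ : Q) := by
  refine ⟨P.l₁.2, [b₁ i], le_rfl, P.o₀, P.ho₀, ?_⟩
  show (x i * B.q (b₁ i))⁻¹ * (H.up.U ^ P.o₀) (P.l₁ : Q) ∈ D
  rw [← P.e₁, inv_mul_cancel]
  exact D.one_mem

theorem PB.dep₂ (P : PB H C i) : Dep H.up D (F i) (x i) c 1 (P.l₂ : Q) := by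
  have := H.nrm
  refine ⟨P.l₂.2, [b₂ i], le_rfl, P.o₁, P.ho₁, ?_⟩
  show (x i * B.q (b₂ i))⁻¹ * (H.up.U ^ P.o₁) (P.l₂ : Q) ∈ D
  have h1 := congrArg (QuotientGroup.mk' D) P.e₂
  rw [map_mul, H.dat.mk_pow, H.dat.mk_zpow, add_comm, zpow_add, zpow_natCast, mul_assoc, mul_assoc] at h1
  rw [Up.Dat.mk_iff, map_mul, H.dat.mk_zpow]
  exact mul_left_cancel h1

/-- The window strands. -/
def PB.Win (P : PB H C i) (s : F i) : Prop := s = P.l₀ ∨ s = P.l₁ ∨ s = P.l₂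

theorem PB.Win.dep {P : PB H C i} {s : F i} (hs : P.Win s) : Dep H.up D (F i) (x i) c 1 (s : Q) := by
  rcases hs with rfl | rfl | rfl
  · exact P.dep₀.mono (by omega)
  · exact P.dep₁
  · exact P.dep₂

theorem PB.Win.cls {P : PB H C i} {s : F i} (hs : P.Win s) : cl (s : Q) = false := by
  rcases hs with rfl | rfl | rfl
  · exact P.cl₀
  · exact P.cl₁
  · exact P.cl₂

/-- Every vertex of the first tour is on the line of a window strand. -/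
theorem exists_win (P : ∀ i, PB H C i) {w : Q} (hw : cl w = false) :
    ∃ (i : ι) (s : F i) (t : ℤ), (P i).Win s ∧ w = (H.up.U ^ t) (s : Q) := by
  obtain ⟨i, t, h | h | h⟩ := C.cov w hw
  · exact ⟨i, (P i).l₀, t, Or.inl rfl, h⟩
  · refine ⟨i, (P i).l₁, t + (P i).o₀, Or.inr (Or.inl rfl), ?_⟩
    rw [h, (P i).e₁, ← H.up.zadd]
  · refine ⟨i, (P i).l₂, t + ((P i).o₁ + j i), Or.inr (Or.inr rfl), ?_⟩
    rw [h, (P i).e₂, ← H.up.zadd]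

/-! ### The leaves -/

theorem PB.leaves (P : PB H C i) (hlam : ∀ i, lam (F i).card k c ≤ W) {s₁ s₂ : Q}
    (hL : Leaves H.up (F i) (x i) (b₁ i) (b₂ i) (j i) c s₁ s₂) : s₁ = (P.l₁ : Q) ∧ s₂ = (P.l₂ : Q) := by
  have hW : 10000 * (hgt (F i).card (c + k) + 4 * k + 4) ≤ W := (lam_ge _ _ _).trans (hlam i)
  have hW2 : 2 * c + 2 * k ≤ W := by unfold hgt at hW; omega
  have hW' : (2 * (c : ℤ) + 2 * k) ≤ W := by exact_mod_cast hW2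
  obtain ⟨o, ho, e1⟩ := hL.e₁
  obtain ⟨o', ho', e2⟩ := hL.e₂
  have hj : (j i : ℤ) < k := by exact_mod_cast C.j_lt i
  have hj0 : (0 : ℤ) ≤ j i := Int.natCast_nonneg _
  have hk0 : (0 : ℤ) ≤ k := Int.natCast_nonneg _
  have a1 := abs_le.1 ho
  have a2 := abs_le.1 P.ho₀
  have a3 := abs_le.1 ho'
  have a4 := abs_le.1 P.ho₁
  constructor
  · exact P.pg₀.leaf₁ (C.fr i) hL.h₁ e1 (abs_le.2 ⟨by omega, by omega⟩)
  · exact P.pg₀.leaf₂ (j i) (C.fr i) hL.h₂ e2 (abs_le.2 ⟨by omega, by omega⟩)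

/-! ### The goal -/

/-- Success on the path `i` for the weight `w`. -/
def PB.Suc (P : PB H C i) {p : ℕ} (V : Vd B (ZMod p)) (w : Q → ZMod p) : Prop :=
  ∃ G₂ G₃ G₄ : BGad (H.frd (C.fr i)).toFrt,
    OKG (H.frd (C.fr i)) (hgt (F i).card (2 * c + 2 * k)) G₂ ∧
    OKG (H.frd (C.fr i)) (hgt (F i).card (2 * c + 2 * k)) G₃ ∧
    OKG (H.frd (C.fr i)) (hgt (F i).card (2 * c + 2 * k)) G₄ ∧
    LRes (H.frd (C.fr i)) (fam P G₂ G₃ G₄) (hgt (F i).card (2 * c + 2 * k)) P.f P.g P.l₀ p V w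

/-- The conclusion of FLIP at the path `i`. -/
def Conc (H : Hyp B a eps D z k) (c : ℕ) (x : ι → Q) (b₁ b₂ : ι → B.L) (j : ι → ℕ) (F : ι → Finset Q)
    (t₀ : ℕ) {p : ℕ} (V : Vd B (ZMod p)) (w : Q → ZMod p) (i : ι) : Prop :=
  ∀ s₁ s₂ : Q, Leaves H.up (F i) (x i) (b₁ i) (b₂ i) (j i) c s₁ s₂ →
    ∃ (X X' : TW B) (n : ℕ), n ≤ lam (F i).card k c ∧ FWin H.up k (F i) t₀ (x i) s₁ s₂ X n ∧
      Ver H.up X X' n ((H.up.U ^ t₀) s₂) ∧ dvolw V w X X' ≠ 0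

theorem PB.Suc.conc {P : PB H C i} {p : ℕ} {V : Vd B (ZMod p)} {w : Q → ZMod p} (h : P.Suc V w)
    (hlam : ∀ i, lam (F i).card k c ≤ W) : Conc H c x b₁ b₂ j F (tz k P.p₀) V w i := by
  intro s₁ s₂ hs
  obtain ⟨G₂, G₃, G₄, h₂, h₃, h₄, hL⟩ := h
  obtain ⟨e1, e2⟩ := P.leaves hlam hs
  obtain ⟨X, X', n, g1, g2, g3, g4⟩ := (P.pg h₂ h₃ h₄).conc (j i) (C.ne i)
    (bnd (H.frd (C.fr i)) ⟨_, C.fx i⟩ c) hL
  refine ⟨X, X', n, g1, ?_, ?_, g4⟩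
  · rw [e1, e2]; exact g2
  · rw [e2]; exact g3

/-! ### Gadgets at strands -/

omit [DecidableEq Q] in
theorem cW (hlam : ∀ i, lam (F i).card k c ≤ W) (i : ι) : 10 * (c : ℤ) + 10 * k ≤ W := by
  have hW : 10000 * (hgt (F i).card (c + k) + 4 * k + 4) ≤ W := (lam_ge _ _ _).trans (hlam i)
  have hW2 : 10 * c + 10 * k ≤ W := by unfold hgt at hW; omega
  exact_mod_cast hW2

omit [DecidableEq Q] in
/-- The level modulo `k`. -/
theorem Hyp.level (H : Hyp B a eps D z k) (t : ℤ) : ∃ (m : ℕ) (q : ℤ), m < k ∧ t = m + k * q := by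
  have hk : (0 : ℤ) < k := by exact_mod_cast H.kpos
  refine ⟨(t % k).toNat, t / k, ?_, ?_⟩
  · have := Int.emod_lt_of_pos t hk
    have := Int.emod_nonneg t hk.ne'
    omega
  · rw [Int.toNat_of_nonneg (Int.emod_nonneg _ hk.ne')]
    exact (Int.emod_add_mul_ediv t k).symm

omit [DecidableEq Q] in
theorem eps_up (H : Hyp B a eps D z k) (n : ℤ) (y : Q) : eps ((H.up.U ^ n) y) = eps y := by
  rw [H.zpow_eq, eps_mul_zpow B a eps H.ea]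

omit [DecidableEq Q] in
/-- If `b` leads from a line to itself at one level, then at all levels. -/
theorem line_loop (H : Hyp B a eps D z k) {s b : Q} {m m' o : ℤ} (h : (H.up.U ^ m) s * b = (H.up.U ^ (m + o)) s) :
    (H.up.U ^ m') s * b = (H.up.U ^ (m' + o)) s := by
  have h1 : b = B.q a ^ (((eps s : ℤˣ) : ℤ) * o) := by
    have h2 : (H.up.U ^ m) s * b = (H.up.U ^ m) s * B.q a ^ (((eps s : ℤˣ) : ℤ) * o) := by
      rw [h, add_comm, H.up.zadd, H.zpow_eq ((H.up.U ^ m) s) o, eps_up]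
    exact mul_left_cancel h2
  rw [h1, H.mul_zpow, eps_up, eps_eps, ← H.up.zadd, add_comm]

/-- A gadget with a rung from `s` to `s'`. -/
theorem exists_GR (g1 : GadN1S.{0}) (g2 : GadN2S.{0}) (gc : CGadS.{0}) (C : Ctx B a H.up D k c W d cl x b₁ b₂ j F)
    (hlam : ∀ i, lam (F i).card k c ≤ W) {s s' : F i} {n : ℕ} (hs : Dep H.up D (F i) (x i) c n (s : Q))
    (hn : n + 1 ≤ 4) (hne : s ≠ s') {m : ℕ} {b : B.L} {o : ℤ} (ho : |o| ≤ 2 * c)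
    (he : (H.up.U ^ m) (s : Q) * B.q b = (H.up.U ^ ((m : ℤ) + o)) (s' : Q)) :
    ∃ (G : BGad (H.frd (C.fr i)).toFrt) (g : Sy (H.frd (C.fr i)).toFrt), g • G.x = s ∧ g • G.y = s' ∧
      OKG (H.frd (C.fr i)) (hgt (F i).card (2 * c + 2 * k)) G := by
  have hW : hgt (F i).card (2 * c + 2 * k) + (2 * c + 2 * k) ≤ W := (hgt_le _ _ _).trans (hlam i)
  have hcW := cW hlam i
  obtain ⟨s₁, hs₁, o₀, ho₀, e₀⟩ := hs.next C hn b 0
  rw [H.up.zero, zero_add] at e₀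
  have hne' : s ≠ ⟨s₁, hs₁.1⟩ := by
    intro h
    have h1 : (s : Q) = s₁ := congrArg Subtype.val h
    have h2 := line_loop (b := B.q b) (m := 0) (m' := m) (o := o₀) H (by rw [H.up.zero, zero_add, e₀, h1])
    rw [zpow_natCast, he] at h2
    have := (C.fr i).eq s'.2 s.2 h2 (by
      have := abs_le.1 ho
      have := abs_le.1 ho₀
      exact abs_le.2 ⟨by omega, by omega⟩)
    exact hne (Subtype.ext this.2.symm)
  obtain ⟨G, p, p', a1, a2⟩ := anyGad g1 g2 gc H (C.fr i) (c := 2 * c + 2 * k) hW C.sink (H.frd (C.fr i))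
    b s ⟨s₁, hs₁.1⟩ hne' o₀ (by push_cast; omega) e₀
  have h := H.frd (C.fr i)
  refine ⟨G, (H.frd (C.fr i)).cj (s : Q) ^ ((k - 1) * p + m), ?_, ?_, a2.toOKG⟩
  · rw [a1, (H.frd (C.fr i)).cj_pow_self]
  · have h1 := a2.edge
    rw [a1] at h1
    have h3 : (k - 1) * p + m + p = k * p + m := by have := k_eq H.kpos p; omega
    have h2 := (H.frd (C.fr i)).rungY (n := (k - 1) * p + m) (m := m) (q := p) h1 h3
    rw [a2.off, he] at h2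
    have := (C.fr i).eq s'.2 (Subtype.property _) h2 (by
      have := abs_le.1 ho
      have := abs_le.1 ho₀
      exact abs_le.2 ⟨by omega, by omega⟩)
    exact Subtype.ext this.2.symm

/-- A commuting gadget. -/
theorem exists_CG (gc : CGadS.{0}) (C : Ctx B a H.up D k c W d cl x b₁ b₂ j F)
    {s : F i} {n : ℕ} (hs : Dep H.up D (F i) (x i) c n (s : Q)) (hlam : ∀ i, lam (F i).card k c ≤ W)
    (hn : n + 1 ≤ 4) {b : B.L} (hcom : ∀ x, H.up.U (x * B.q b) = H.up.U x * B.q b) (hb₁ : B.q b ≠ B.q a)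
    (hb₂ : B.q b ≠ (B.q a)⁻¹) :
    ∃ (s' : F i) (o : ℤ) (G : BGad (H.frd (C.fr i)).toFrt) (p p' : ℕ), s' ≠ s ∧
      Dep H.up D (F i) (x i) c (n + 1) (s' : Q) ∧ |o| ≤ 2 * c ∧ (s : Q) * B.q b = (H.up.U ^ o) (s' : Q) ∧
      G.x = s ∧ G.y = s' ∧ COK (H.frd (C.fr i)) G b p p' ∧
      OKG (H.frd (C.fr i)) (hgt (F i).card (2 * c + 2 * k)) G := by
  have hcW := cW hlam i
  obtain ⟨s₁, hs₁, o₀, ho₀, e₀⟩ := hs.next C hn b 0
  rw [H.up.zero, zero_add] at e₀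
  have hne : s ≠ ⟨s₁, hs₁.1⟩ := by
    intro h
    have h1 : (s : Q) = s₁ := congrArg Subtype.val h
    rw [← h1, H.zpow_eq] at e₀
    refine not_small C.sink b hb₁ hb₂ _ ?_ (mul_left_cancel e₀)
    have h2 : |((eps (s : Q) : ℤˣ) : ℤ) * o₀| = |o₀| := by
      rcases Int.units_eq_one_or (eps (s : Q)) with hx | hx
      · rw [hx]; simp
      · rw [hx]; simp
    omega
  obtain ⟨G, p, p', h1, h2, h3, -, h5⟩ := gc Q B H.up eps.ker D z (F i) k (H.frd (C.fr i)) b hcom s ⟨s₁, hs₁.1⟩ o₀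
    hne e₀
  have h0 : (o₀.natAbs : ℤ) ≤ 2 * c := by rw [Int.natCast_natAbs]; exact ho₀
  exact ⟨⟨s₁, hs₁.1⟩, o₀, G, p, p', hne.symm, hs₁, ho₀, e₀, h1, h2, h5, h5.okg (h3.trans (by unfold hgt; omega))⟩

/-- The weights of the classes. -/
theorem wcl_line (C : Ctx B a H.up D k c W d cl x b₁ b₂ j F) {R : Type} [CommRing R] (γ : Bool) (y : Q) :
    (wcl cl d γ (H.up.U y) : R) = wcl cl d γ y := by
  unfold wcl
  rw [C.c_line, C.d_line]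

theorem wcl_zpow (C : Ctx B a H.up D k c W d cl x b₁ b₂ j F) {R : Type} [CommRing R] (γ : Bool) (y : Q) (t : ℤ) :
    (wcl cl d γ ((H.up.U ^ t) y) : R) = wcl cl d γ y := dl_zpow (wcl_line C γ) y t

omit [DecidableEq Q] in
theorem wcl_ne {p : ℕ} [Fact (1 < p)] {γ : Bool} {y : Q} (h : cl y = γ) : (wcl cl d γ y : ZMod p) ≠ 0 := by
  unfold wcl
  rw [if_pos h]
  split_ifs
  · exact one_ne_zero
  · exact neg_ne_zero.2 one_ne_zero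

omit [DecidableEq Q] in
theorem wcl_zero {R : Type} [CommRing R] {γ : Bool} {y : Q} (h : cl y ≠ γ) : (wcl cl d γ y : R) = 0 := if_neg h

omit [DecidableEq Q] in
theorem wcl_neg {R : Type} [CommRing R] {γ : Bool} {y y' : Q} (h : cl y' = cl y) (hd : d y' = !d y) :
    (wcl cl d γ y' : R) = - wcl cl d γ y := by
  unfold wcl
  rw [h, hd]
  by_cases h1 : cl y = γ
  · rw [if_pos h1, if_pos h1]
    cases d y <;> simp
  · rw [if_neg h1, if_neg h1, neg_zero]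

/-- The local context of a path. -/
theorem PB.lc (P : PB H C i) {G₂ G₃ G₄ : BGad (H.frd (C.fr i)).toFrt}
    (h₂ : OKG (H.frd (C.fr i)) (hgt (F i).card (2 * c + 2 * k)) G₂)
    (h₃ : OKG (H.frd (C.fr i)) (hgt (F i).card (2 * c + 2 * k)) G₃)
    (h₄ : OKG (H.frd (C.fr i)) (hgt (F i).card (2 * c + 2 * k)) G₄) {p : ℕ} (hp : p.Prime) (hkp : 4 * k < p)
    (V : Vd B (ZMod p)) (hz : V.chi z = 1) (γ : Bool) :
    LC (H.frd (C.fr i)) (fam P G₂ G₃ G₄) (hgt (F i).card (2 * c + 2 * k)) P.f P.g P.l₀ p V (wcl cl d γ) :=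
  (P.pg h₂ h₃ h₄).lc H.fin H.card (j i) (C.ne i) hp hkp V hz (wcl_line C γ)
    (wcl_neg (by rw [C.c₁ i]; exact (C.c₀ i).symm) (C.d₁ i)) (wcl_neg (by rw [C.c₂ i]; exact (C.c₀ i).symm) (C.d₂ i))

/-- Steps can be undone. -/
theorem PB.ret (P : PB H C i) (G₂ G₃ G₄ : BGad (H.frd (C.fr i)).toFrt)
    (s s' : Puz.St (F i) (Rg (Fin 5) (Sy (H.frd (C.fr i)).toFrt)) ((bigP (fam P G₂ G₃ G₄)).TokOf P.f)) :
    (bigP (fam P G₂ G₃ G₄)).WReach s s' → (bigP (fam P G₂ G₃ G₄)).WReach s' s :=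
  bigRet (H.frd (C.fr i)) (fam P G₂ G₃ G₄) _ s s'

end ctx

end Pool.Agent.Lib.MP_688fd0_co.SQ3
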