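import Pool.Agent.Lib.MP_688fd0_co.SQ3.V.RealDefs
import Pool.Agent.Lib.MP_688fd0_co.SQ2.V.Big

/-!
The big puzzle of a frontier from base gadgets, in the language of `Up`.

`F` is the frontier at level `0`; its symmetry group `Sy` consists of the pairs (permutation of `F`, level mod `e`) which
are given by left multiplications with elements of `D z ^ t`. The rungs of one type are a copy of `Sy`.
-/

set_option autoImplicit false

namespace Pool.Agent.Lib.MP_688fd0_co.SQ3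

open Pool.Agent.Lib.MP_688fd0_co.OSF Pool.Agent.Lib.MP_688fd0_co.SQ2
open V (Puz)

universe v w

variable {Q : Type} [Group Q] {B : Lb.{0, v} Q}

/-- The frontier: the left multiplications by `P` preserve the labels, `U x ∈ z x D`, and `U ^ e` is the left
multiplication by `z ^ e`. -/
structure Frt (U : Up B) (P D : Subgroup Q) (z : Q) (F : Finset Q) (e : ℕ) : Prop where
  dat : U.Dat P D z
  he : 0 < e
  zc : ∀ g ∈ P, g * z = z * g
  per : ∀ x, (U.U ^ e) x = z ^ e * x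

/-- `π` is the action of `d z ^ t` on the strands. -/
def Acts (U : Up B) (D : Subgroup Q) (z : Q) (F : Finset Q) (π : Equiv.Perm F) (t : ℕ) (d : Q) : Prop :=
  d ∈ D ∧ ∀ s : F, d * z ^ t * (s : Q) = (U.U ^ t) (π s : Q)

section frt

variable {U : Up B} {P D : Subgroup Q} {z : Q} {F : Finset Q} {e : ℕ}

theorem Frt.conj_pow (hF : Frt U P D z F e) (t : ℕ) {d : Q} (hd : d ∈ D) : z ^ t * d * (z ^ t)⁻¹ ∈ D :=
  hF.dat.conj _ hd

theorem Frt.conj_pow' (hF : Frt U P D z F e) (t : ℕ) {d : Q} (hd : d ∈ D) : (z ^ t)⁻¹ * d * z ^ t ∈ D :=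
  hF.dat.conj' _ hd

theorem Frt.zc_pow (hF : Frt U P D z F e) (t : ℕ) {g : Q} (hg : g ∈ P) : g * z ^ t = z ^ t * g := by
  have h : Commute g z := hF.zc g hg
  exact (h.pow_right t)

theorem Frt.mem_P (hF : Frt U P D z F e) {d : Q} (hd : d ∈ D) (t : ℕ) : d * z ^ t ∈ P :=
  P.mul_mem (hF.dat.le hd) (P.pow_mem hF.dat.hz t)

theorem Frt.per_mul (hF : Frt U P D z F e) (k : ℕ) (x : Q) : (U.U ^ (e * k)) x = z ^ (e * k) * x := by
  induction k with
  | zero => rw [Nat.mul_zero, pow_zero, pow_zero, one_mul]; rfl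
  | succ k ih =>
    rw [Nat.mul_succ, U.U_pow_add, ih, hF.dat.com_pow (P.pow_mem hF.dat.hz _), hF.per, ← mul_assoc, ← pow_add]

theorem Frt.Per (hF : Frt U P D z F e) : Per U e (z ^ e) :=
  ⟨hF.per, fun x => hF.dat.upc _ (P.pow_mem hF.dat.hz e) x⟩

theorem Acts.mul (hF : Frt U P D z F e) {π π' : Equiv.Perm F}
    {t t' : ℕ} {d d' : Q} (h : Acts U D z F π t d) (h' : Acts U D z F π' t' d') :
    Acts U D z F (π * π') (t + t') (d * (z ^ t * d' * (z ^ t)⁻¹)) := by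
  refine ⟨D.mul_mem h.1 (hF.conj_pow t h'.1), fun s => ?_⟩
  have h1 := h'.2 s
  have h2 := h.2 (π' s)
  show _ = (U.U ^ (t + t')) ((π (π' s) : F) : Q)
  calc d * (z ^ t * d' * (z ^ t)⁻¹) * z ^ (t + t') * (s : Q)
      = d * z ^ t * (d' * z ^ t' * (s : Q)) := by rw [pow_add]; group
    _ = (U.U ^ t') (d * z ^ t * (π' s : Q)) := by rw [h1, hF.dat.com_pow (hF.mem_P h.1 t)]
    _ = _ := by rw [h2, ← U.U_pow_add]

theorem Acts.add (hF : Frt U P D z F e) {π : Equiv.Perm F}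
    {t : ℕ} {d : Q} (h : Acts U D z F π t d) (k : ℕ) : Acts U D z F π (t + e * k) d := by
  refine ⟨h.1, fun s => ?_⟩
  rw [pow_add, ← mul_assoc d, mul_assoc (d * z ^ t), ← hF.per_mul, ← hF.dat.com_pow (hF.mem_P h.1 t), h.2 s,
    ← U.U_pow_add]

theorem Acts.sub (hF : Frt U P D z F e) {π : Equiv.Perm F}
    {t : ℕ} {d : Q} {k : ℕ} (h : Acts U D z F π (t + e * k) d) : Acts U D z F π t d := by
  refine ⟨h.1, fun s => ?_⟩
  have h1 := h.2 s
  rw [pow_add, ← mul_assoc d, mul_assoc (d * z ^ t), ← hF.per_mul, ← hF.dat.com_pow (hF.mem_P h.1 t),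
    U.U_pow_add] at h1
  exact (U.U ^ (e * k)).injective h1

theorem Acts.shift (hF : Frt U P D z F e) {π : Equiv.Perm F}
    {t t' : ℕ} {d : Q} (h : Acts U D z F π t d) (ht : (t : ZMod e) = (t' : ZMod e)) : Acts U D z F π t' d := by
  have hm : t ≡ t' [MOD e] := (ZMod.natCast_eq_natCast_iff _ _ _).1 ht
  rcases le_total t t' with hle | hle
  · obtain ⟨k, hk⟩ := (Nat.modEq_iff_dvd' hle).1 hm
    have : t' = t + e * k := by omega
    rw [this]; exact h.add hF k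
  · obtain ⟨k, hk⟩ := (Nat.modEq_iff_dvd' hle).1 hm.symm
    have : t = t' + e * k := by omega
    rw [this] at h; exact h.sub hF

theorem Acts.inv (hF : Frt U P D z F e) {π : Equiv.Perm F}
    {t : ℕ} {d : Q} (h : Acts U D z F π t d) : Acts U D z F π⁻¹ ((e - 1) * t) ((z ^ t)⁻¹ * d⁻¹ * z ^ t) := by
  refine ⟨hF.conj_pow' t (D.inv_mem h.1), fun s => ?_⟩
  have h1 := h.2 (π⁻¹ s)
  have h0 : π (π⁻¹ s) = s := π.apply_symm_apply s
  rw [h0] at h1
  have h3 : (e - 1) * t + t = e * t := by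
    obtain ⟨k, hk⟩ : ∃ k, e = k + 1 := ⟨e - 1, by have := hF.he; omega⟩
    rw [hk, Nat.add_sub_cancel]; ring
  have h4 : z ^ t * z ^ ((e - 1) * t) = z ^ (e * t) := by rw [← pow_add, add_comm, h3]
  have hP := P.inv_mem (hF.mem_P h.1 t)
  have h2 : ((π⁻¹ s : F) : Q) = (d * z ^ t)⁻¹ * (U.U ^ t) (s : Q) := by rw [← h1]; group
  rw [h2, ← hF.dat.com_pow hP, ← U.U_pow_add, add_comm t, h3, hF.per_mul]
  have h5 := hF.zc_pow (e * t) (hF.dat.le (D.inv_mem h.1))
  calc (z ^ t)⁻¹ * d⁻¹ * z ^ t * z ^ ((e - 1) * t) * (s : Q)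
      = (z ^ t)⁻¹ * (d⁻¹ * z ^ (e * t)) * (s : Q) := by rw [← h4]; group
    _ = z ^ (e * t) * ((z ^ t)⁻¹ * d⁻¹) * (s : Q) := by
        rw [h5, ← mul_assoc, ← mul_assoc]
        congr 2
        have : Commute (z ^ t)⁻¹ (z ^ (e * t)) := (Commute.refl z).pow_pow _ _ |>.inv_left
        exact this.eq
    _ = _ := by rw [mul_inv_rev]; group

end frt

/-- The symmetry group of the frontier. -/
def Sy {U : Up B} {P D : Subgroup Q} {z : Q} {F : Finset Q} {e : ℕ} (hF : Frt U P D z F e) :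
    Subgroup (Equiv.Perm F × Multiplicative (ZMod e)) where
  carrier := {h | ∃ (t : ℕ) (d : Q), (t : ZMod e) = h.2.toAdd ∧ Acts U D z F h.1 t d}
  mul_mem' := by
    rintro ⟨π, l⟩ ⟨π', l'⟩ ⟨t, d, h1, h2⟩ ⟨t', d', h1', h2'⟩
    exact ⟨t + t', _, by rw [Nat.cast_add, h1, h1']; rfl, h2.mul hF h2'⟩
  one_mem' := ⟨0, 1, by simp, D.one_mem, fun s => by simp⟩
  inv_mem' := by
    rintro ⟨π, l⟩ ⟨t, d, h1, h2⟩
    refine ⟨(e - 1) * t, _, ?_, h2.inv hF⟩
    have h1' : (t : ZMod e) = l.toAdd := h1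
    have h3 : (((e - 1) * t + t : ℕ) : ZMod e) = 0 := by
      have : (e - 1) * t + t = e * t := by
        obtain ⟨k, hk⟩ : ∃ k, e = k + 1 := ⟨e - 1, by have := hF.he; omega⟩
        rw [hk, Nat.add_sub_cancel]; ring
      rw [this, Nat.cast_mul, ZMod.natCast_self, zero_mul]
    rw [Nat.cast_add] at h3
    rw [eq_neg_of_add_eq_zero_left h3, h1']
    rfl

section sy

variable {U : Up B} {P D : Subgroup Q} {z : Q} {F : Finset Q} {e : ℕ} {hF : Frt U P D z F e}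

instance : MulAction (Sy hF) F where
  smul h s := h.1.1 s
  one_smul _ := rfl
  mul_smul _ _ _ := rfl

/-- The level. -/
def lv (h : Sy hF) : ZMod e := h.1.2.toAdd

theorem lv_mul (h k : Sy hF) : lv (h * k) = lv h + lv k := rfl

theorem lv_one : lv (1 : Sy hF) = 0 := rfl

theorem exists_d (h : Sy hF) (t : ℕ) (ht : (t : ZMod e) = lv h) : ∃ d, Acts U D z F h.1.1 t d := by
  obtain ⟨t', d, h1, h2⟩ := h.2
  exact ⟨d, h2.shift hF (h1.trans ht.symm)⟩

open Classical in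
/-- The element of `D z ^ t` that belongs to `h`. -/
noncomputable def uu (h : Sy hF) (t : ℕ) : Q :=
  if ht : (t : ZMod e) = lv h then (exists_d h t ht).choose * z ^ t else 1

theorem uu_spec (h : Sy hF) (t : ℕ) (ht : (t : ZMod e) = lv h) (s : F) :
    uu h t * (s : Q) = (U.U ^ t) ((h • s : F) : Q) := by
  unfold uu
  rw [dif_pos ht]
  exact (exists_d h t ht).choose_spec.2 s

theorem uu_mem (h : Sy hF) (t : ℕ) (ht : (t : ZMod e) = lv h) : ∃ d ∈ D, uu h t = d * z ^ t := by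
  unfold uu
  rw [dif_pos ht]
  exact ⟨_, (exists_d h t ht).choose_spec.1, rfl⟩

theorem uu_P (h : Sy hF) (t : ℕ) (ht : (t : ZMod e) = lv h) : uu h t ∈ P := by
  obtain ⟨d, hd, e1⟩ := uu_mem h t ht
  rw [e1]
  exact hF.mem_P hd t

theorem uu_inv (h : Sy hF) (t : ℕ) (ht : (t : ZMod e) = lv h) (s : F) :
    (uu h t)⁻¹ * (U.U ^ t) (s : Q) = ((h⁻¹ • s : F) : Q) := by
  rw [inv_mul_eq_iff_eq_mul, uu_spec h t ht, smul_inv_smul]

end sy

variable [DecidableEq Q]

/-- A base gadget: the cup rung joins the strands `x` and `y` (at level `0`), the cap rung is its translate by `δ`. -/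
structure BGad {U : Up B} {P D : Subgroup Q} {z : Q} {F : Finset Q} {e : ℕ} (hF : Frt U P D z F e) where
  x : F
  y : F
  ne : x ≠ y
  δ : Sy hF
  T : Equiv.Perm F
  Tx : T x = δ • x
  Ty : T y = δ • y
  H : ℕ
  X : TW B
  L₀ : X.L₀ = F
  L₁ : X.L₁ = im (U.U ^ H) F
  u₀ : X.u₀ = x
  u₁ : X.u₁ = y
  w₀ : X.w₀ = (U.U ^ H) ((δ • x : F) : Q)
  w₁ : X.w₁ = (U.U ^ H) ((δ • y : F) : Q)
  f : ∀ s : F, s ≠ x → s ≠ y → X.f s = (U.U ^ H) (T s : Q)
  reg : X.R = ∑ i ∈ Finset.range H, (im (U.U ^ i) F).val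

section big

variable {U : Up B} {P D : Subgroup Q} {z : Q} {F : Finset Q} {e : ℕ} {hF : Frt U P D z F e} {ι : Type}
  (G : ι → BGad hF)

/-- The big puzzle. -/
def bigP : Puz F (Rg ι (Sy hF)) where
  x r := r.h • (G r.i).x
  y r := r.h • (G r.i).y
  ne r h := (G r.i).ne (smul_left_cancel _ h)
  tau :=
    { toFun := fun r => ⟨r.i, r.h * (G r.i).δ⟩
      invFun := fun r => ⟨r.i, r.h * (G r.i).δ⁻¹⟩
      left_inv := fun r => by simp
      right_inv := fun r => by simp }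
  T r :=
    { toFun := fun s => r.h • (G r.i).T (r.h⁻¹ • s)
      invFun := fun s => r.h • (G r.i).T.symm (r.h⁻¹ • s)
      left_inv := fun s => by simp
      right_inv := fun s => by simp }
  T_ends r := by
    left
    constructor
    · show r.h • (G r.i).T (r.h⁻¹ • r.h • (G r.i).x) = (r.h * (G r.i).δ) • (G r.i).x
      rw [inv_smul_smul, (G r.i).Tx, mul_smul]
    · show r.h • (G r.i).T (r.h⁻¹ • r.h • (G r.i).y) = (r.h * (G r.i).δ) • (G r.i).y
      rw [inv_smul_smul, (G r.i).Ty, mul_smul]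

omit [DecidableEq Q] in
theorem lt_F (h : Sy hF) (t : ℕ) (ht : (t : ZMod e) = lv h) (n : ℕ) :
    lt (uu h t) (im (U.U ^ n) F) =
      Finset.univ.map ⟨fun s : F => (U.U ^ (t + n)) (s : Q),
        fun _ _ h => Subtype.ext ((U.U ^ (t + n)).injective h)⟩ := by
  ext x
  rw [mem_lt, Finset.mem_map]
  constructor
  · intro hx
    rw [mem_im] at hx
    refine ⟨h • ⟨_, hx⟩, Finset.mem_univ _, ?_⟩
    show (U.U ^ (t + n)) ((h • (⟨_, hx⟩ : F) : F) : Q) = x
    rw [U.U_pow_add, ← uu_spec h t ht, hF.dat.com_pow (uu_P h t ht)]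
    show uu h t * (U.U ^ n) ((U.U ^ n)⁻¹ ((uu h t)⁻¹ * x)) = x
    have h1 : (U.U ^ n) ((U.U ^ n)⁻¹ ((uu h t)⁻¹ * x)) = (uu h t)⁻¹ * x :=
      (U.U ^ n).apply_symm_apply _
    rw [h1, mul_inv_cancel_left]
  · rintro ⟨s, _, rfl⟩
    show (uu h t)⁻¹ * (U.U ^ (t + n)) (s : Q) ∈ im (U.U ^ n) F
    rw [U.U_pow_add, ← hF.dat.com_pow (P.inv_mem (uu_P h t ht)), uu_inv h t ht]
    exact map_mem_im.2 (h⁻¹ • s : F).2

/-- The realisation of the big puzzle. -/
noncomputable def bigZ : Real (bigP G) B U where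
  g := Subtype.val
  inj := Subtype.val_injective
  e := e
  he := hF.he
  lev r := (lv r.h).val
  lev_lt r := by have : NeZero e := ⟨hF.he.ne'⟩; exact ZMod.val_lt _
  H r := (G r.i).H
  gad r t := ((G r.i).X).tr (uu r.h t)
  L₀ r t ht := by
    have : NeZero e := ⟨hF.he.ne'⟩
    have h1 := lt_F r.h t (lv_lev ht) 0
    rw [pow_zero, im_one, add_zero] at h1
    show lt (uu r.h t) (G r.i).X.L₀ = _
    rw [(G r.i).L₀, ← h1]
  L₁ r t ht := by
    have : NeZero e := ⟨hF.he.ne'⟩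
    show lt (uu r.h t) (G r.i).X.L₁ = _
    rw [(G r.i).L₁, lt_F r.h t (lv_lev ht)]
  u₀ r t ht := by
    have : NeZero e := ⟨hF.he.ne'⟩
    show uu r.h t * (G r.i).X.u₀ = _
    rw [(G r.i).u₀, uu_spec r.h t (lv_lev ht)]; rfl
  u₁ r t ht := by
    have : NeZero e := ⟨hF.he.ne'⟩
    show uu r.h t * (G r.i).X.u₁ = _
    rw [(G r.i).u₁, uu_spec r.h t (lv_lev ht)]; rfl
  w₀ r t ht := by
    have : NeZero e := ⟨hF.he.ne'⟩
    show uu r.h t * (G r.i).X.w₀ = _
    rw [(G r.i).w₀, ← hF.dat.com_pow (uu_P r.h t (lv_lev ht)), uu_spec r.h t (lv_lev ht), ← U.U_pow_add,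
      ← mul_smul]; rfl
  w₁ r t ht := by
    have : NeZero e := ⟨hF.he.ne'⟩
    show uu r.h t * (G r.i).X.w₁ = _
    rw [(G r.i).w₁, ← hF.dat.com_pow (uu_P r.h t (lv_lev ht)), uu_spec r.h t (lv_lev ht), ← U.U_pow_add,
      ← mul_smul]; rfl
  f r t ht s hs := by
    have : NeZero e := ⟨hF.he.ne'⟩
    show uu r.h t * (G r.i).X.f ((uu r.h t)⁻¹ * (U.U ^ t) (s : Q)) = _
    rw [uu_inv r.h t (lv_lev ht), (G r.i).f, ← hF.dat.com_pow (uu_P r.h t (lv_lev ht)),
      uu_spec r.h t (lv_lev ht), ← U.U_pow_add]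
    · rfl
    · intro h0
      apply hs
      left
      show s = r.h • (G r.i).x
      rw [← h0, smul_inv_smul]
    · intro h0
      apply hs
      right
      show s = r.h • (G r.i).y
      rw [← h0, smul_inv_smul]
  reg r t ht := by
    have : NeZero e := ⟨hF.he.ne'⟩
    rw [TW.tr_R, (G r.i).reg, ← Multiset.coe_mapAddMonoidHom, map_sum, Finset.sum_Ico_eq_sum_range,
      Nat.add_sub_cancel_left]
    refine Finset.sum_congr rfl fun n _ => ?_
    rw [← lt_F r.h t (lv_lev ht) n]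
    rfl

/-! ### Homogeneity -/

/-- Translation of rungs. -/
def trR (k : Sy hF) (r : Rg ι (Sy hF)) : Rg ι (Sy hF) := ⟨r.i, k * r.h⟩

theorem on_tr (k : Sy hF) (r : Rg ι (Sy hF)) (s : F) : (bigP G).On (trR k r) (k • s) ↔ (bigP G).On r s := by
  have h1 : (bigP G).x (trR k r) = k • (bigP G).x r := mul_smul _ _ _
  have h2 : (bigP G).y (trR k r) = k • (bigP G).y r := mul_smul _ _ _
  unfold Puz.On
  rw [h1, h2, smul_left_cancel_iff, smul_left_cancel_iff]

theorem oth_tr (k : Sy hF) (r : Rg ι (Sy hF)) (s : F) :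
    (bigP G).oth (trR k r) (k • s) = k • (bigP G).oth r s := by
  have h1 : (bigP G).x (trR k r) = k • (bigP G).x r := mul_smul _ _ _
  have h2 : (bigP G).y (trR k r) = k • (bigP G).y r := mul_smul _ _ _
  unfold Puz.oth
  rw [h1, h2]
  by_cases h : s = (bigP G).x r
  · rw [if_pos h, if_pos (by rw [h])]
  · rw [if_neg h, if_neg (fun h' => h (smul_left_cancel _ h'))]

theorem adj_tr (k : Sy hF) (r r' : Rg ι (Sy hF)) (s : F) :
    (bigP G).Adj (trR k r) (trR k r') (k • s) ↔ (bigP G).Adj r r' s := by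
  unfold Puz.Adj
  rw [on_tr, on_tr, oth_tr, oth_tr, Ne, smul_left_cancel_iff]

/-- HOM. -/
theorem bigHom [Fintype (Rg ι (Sy hF))] : (bigP G).Hom := by
  intro r
  have ht : (bigP G).tau r = trR (r.h * (G r.i).δ * r.h⁻¹) r := by
    show (⟨r.i, r.h * (G r.i).δ⟩ : Rg ι (Sy hF)) = ⟨r.i, _⟩
    rw [inv_mul_cancel_right]
  set k := r.h * (G r.i).δ * r.h⁻¹ with hk
  rw [ht]
  have : {p : Rg ι (Sy hF) × F | (bigP G).Adj (trR k r) p.1 p.2} =
      (fun p : Rg ι (Sy hF) × F => (trR k p.1, k • p.2)) '' {p | (bigP G).Adj r p.1 p.2} := by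
    ext ⟨r', s⟩
    constructor
    · intro h
      refine ⟨(trR k⁻¹ r', k⁻¹ • s), ?_, ?_⟩
      · show (bigP G).Adj r (trR k⁻¹ r') (k⁻¹ • s)
        rw [← adj_tr G k, smul_inv_smul]
        have : trR k (trR k⁻¹ r') = r' := by
          show (⟨r'.i, k * (k⁻¹ * r'.h)⟩ : Rg ι (Sy hF)) = r'
          rw [mul_inv_cancel_left]
        rw [this]; exact h
      · show (trR k (trR k⁻¹ r'), k • k⁻¹ • s) = (r', s)
        rw [smul_inv_smul]
        have : trR k (trR k⁻¹ r') = r' := by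
          show (⟨r'.i, k * (k⁻¹ * r'.h)⟩ : Rg ι (Sy hF)) = r'
          rw [mul_inv_cancel_left]
        rw [this]
    · rintro ⟨⟨r₁, s₁⟩, h1, h2⟩
      have h3 : trR k r₁ = r' := congrArg Prod.fst h2
      have h4 : k • s₁ = s := congrArg Prod.snd h2
      rw [← h3, ← h4]
      exact (adj_tr G k r r₁ s₁).2 h1
  rw [this, Set.ncard_image_of_injective]
  rintro ⟨r₁, s₁⟩ ⟨r₂, s₂⟩ h
  have h3 : trR k r₁ = trR k r₂ := congrArg Prod.fst h
  have h4 : k • s₁ = k • s₂ := congrArg Prod.snd h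
  have h5 : r₁.i = r₂.i := congrArg (fun r => r.i) h3
  have h6 : k * r₁.h = k * r₂.h := congrArg (fun r => r.h) h3
  have h7 : r₁ = r₂ := by
    cases r₁; cases r₂
    simp only at h5 h6
    rw [h5, mul_left_cancel h6]
  rw [h7, smul_left_cancel k h4]

/-! ### Volumes -/

section vols

variable {R : Type} [CommRing R] (V : Vd B R)

/-- The character of the symmetry group. -/
noncomputable def Xc (h : Sy hF) : R := V.chi (uu h (lv h).val)

omit [DecidableEq Q] in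
theorem uu_eq (h : Sy hF) (t : ℕ) (ht : (t : ZMod e) = lv h) (s : F) :
    uu h t = (U.U ^ t) ((h • s : F) : Q) * (s : Q)⁻¹ := by
  rw [← uu_spec h t ht s, mul_inv_cancel_right]

omit [DecidableEq Q] in
theorem uu_add (h : Sy hF) (t : ℕ) (ht : (t : ZMod e) = lv h) (k : ℕ) (s : F) :
    uu h (t + e * k) = z ^ (e * k) * uu h t := by
  have ht' : ((t + e * k : ℕ) : ZMod e) = lv h := by
    rw [Nat.cast_add, Nat.cast_mul, ZMod.natCast_self, zero_mul, add_zero, ht]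
  rw [uu_eq h _ ht' s, uu_eq h t ht s, U.U_pow_add, hF.per_mul, mul_assoc]

omit [DecidableEq Q] in
theorem chi_zpow (hal : V.chi z ^ e = 1) (k : ℕ) : V.chi (z ^ (e * k)) = 1 := by
  rw [pow_mul, map_pow, map_pow, hal, one_pow]

omit [DecidableEq Q] in
theorem Xc_eq (hal : V.chi z ^ e = 1) (s : F) (h : Sy hF) (t : ℕ) (ht : (t : ZMod e) = lv h) :
    V.chi (uu h t) = Xc V h := by
  have : NeZero e := ⟨hF.he.ne'⟩
  have h1 : (((lv h).val : ℕ) : ZMod e) = lv h := ZMod.natCast_zmod_val _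
  have h2 : t % e = (lv h).val % e :=
    (ZMod.natCast_eq_natCast_iff t (lv h).val e).1 (ht.trans h1.symm)
  have h3 : (lv h).val % e = (lv h).val := Nat.mod_eq_of_lt (ZMod.val_lt _)
  have h4 : t = (lv h).val + e * (t / e) := by
    conv_lhs => rw [← Nat.mod_add_div t e, h2, h3]
  unfold Xc
  conv_lhs => rw [h4]
  rw [uu_add h _ h1 _ s, map_mul, chi_zpow V hal, one_mul]

omit [DecidableEq Q] in
theorem Xc_mul (hal : V.chi z ^ e = 1) (s : F) (h k : Sy hF) : Xc V (h * k) = Xc V h * Xc V k := by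
  have : NeZero e := ⟨hF.he.ne'⟩
  have h1 : (((lv h).val : ℕ) : ZMod e) = lv h := ZMod.natCast_zmod_val _
  have h2 : (((lv k).val : ℕ) : ZMod e) = lv k := ZMod.natCast_zmod_val _
  have h3 : (((lv k).val + (lv h).val : ℕ) : ZMod e) = lv (h * k) := by
    rw [Nat.cast_add, h1, h2, add_comm]; rfl
  rw [← Xc_eq V hal s (h * k) _ h3, ← Xc_eq V hal s h _ h1, ← Xc_eq V hal s k _ h2, ← map_mul]
  congr 1
  rw [uu_eq _ _ h3 s, U.U_pow_add, mul_smul]
  have e1 := uu_spec h _ h1 (k • s)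
  have e2 := uu_spec k _ h2 s
  have e3 : (U.U ^ (lv h).val) ((U.U ^ (lv k).val) ((h • k • s : F) : Q)) =
      (U.U ^ (lv k).val) ((U.U ^ (lv h).val) ((h • k • s : F) : Q)) := by
    rw [← U.U_pow_add, ← U.U_pow_add, add_comm]
  rw [e3, ← e1, hF.dat.com_pow (uu_P h _ h1), ← e2]
  group

/-- VOLS. -/
theorem bigVols (hal : V.chi z ^ e = 1) :
    Vols (bigZ G) (z ^ e) V (fun r => Xc V r.h * V.vol (G r.i).x (G r.i).X.cup)
      (fun r => Xc V r.h * V.vol (G r.i).X.w₀ (G r.i).X.cap)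
      (fun r s => Xc V r.h * V.vol ((r.h⁻¹ • s : F) : Q) ((G r.i).X.path ((r.h⁻¹ • s : F) : Q))) := by
  have : NeZero e := ⟨hF.he.ne'⟩
  refine ⟨by rw [map_pow, hal], fun r t ht => ?_, fun r t ht => ?_, fun r t ht s hs => ?_⟩
  · have ht' : (t : ZMod e) = lv r.h := lv_lev ht
    have h1 : (bigZ G).vt ((bigP G).x r) t = uu r.h t * (G r.i).x := (uu_spec r.h t ht' _).symm
    rw [h1]
    show V.vol (uu r.h t * (G r.i).x) (G r.i).X.cup = _
    rw [vol_tr, Xc_eq V hal (G r.i).x _ _ ht']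
  · have ht' : (t : ZMod e) = lv r.h := lv_lev ht
    show V.vol (uu r.h t * (G r.i).X.w₀) (G r.i).X.cap = _
    rw [vol_tr, Xc_eq V hal (G r.i).x _ _ ht']
  · have ht' : (t : ZMod e) = lv r.h := lv_lev ht
    show V.vol ((U.U ^ t) (s : Q)) ((G r.i).X.path ((uu r.h t)⁻¹ * (U.U ^ t) (s : Q))) = _
    rw [uu_inv r.h t ht']
    have h1 : (U.U ^ t) (s : Q) = uu r.h t * ((r.h⁻¹ • s : F) : Q) := by
      rw [uu_spec r.h t ht', smul_inv_smul]
    rw [h1, vol_tr, Xc_eq V hal (G r.i).x _ _ ht']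

/-- In the gauge `n (up x) = 0` the caps have the voltages of the rungs. -/
theorem big_ca (hal : V.chi z ^ e = 1)
    (hc : ∀ i, V.vol (G i).X.w₀ (G i).X.cap = Xc V (G i).δ * V.vol (G i).x (G i).X.cup)
    (r : Rg ι (Sy hF)) :
    Xc V r.h * V.vol (G r.i).X.w₀ (G r.i).X.cap =
      Xc V ((bigP G).tau r).h * V.vol (G ((bigP G).tau r).i).x (G ((bigP G).tau r).i).X.cup := by
  have h1 : ((bigP G).tau r).i = r.i := rfl
  have h2 : Xc V ((bigP G).tau r).h = Xc V r.h * Xc V (G r.i).δ := Xc_mul V hal (G r.i).x _ _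
  rw [h2, hc, mul_assoc]
  rfl

end vols

end big

end Pool.Agent.Lib.MP_688fd0_co.SQ3
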