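import Pool.Agent.Lib.MP_688fd0_co.SQ3.V.FlipCases
import Pool.Agent.Lib.MP_688fd0_co.SQ3.V.Lines

/-!
V-C-NB: neighbour strands.
-/

set_option autoImplicit false

namespace Pool.Agent.Lib.MP_688fd0_co.SQ3

open Pool.Agent.Lib.MP_688fd0_co.OSF Pool.Agent.Lib.MP_688fd0_co.SQ2
open V (Puz)

section

variable {Q : Type} [Group Q] {B : Lb.{0, 0} Q} {a : B.L} {eps : Q →* ℤˣ} {D : Subgroup Q} {z : Q} {k : ℕ}

/-- The line of a vertex does not change along the line. -/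
theorem Hyp.ln_up (H : Hyp B a eps D z k) (t : ℤ) (y : Q) : ln B a ((H.up.U ^ t) y) = ln B a y := by
  show (((H.up.U ^ t) y : Q) : Q ⧸ Subgroup.zpowers (B.q a)) = (y : Q ⧸ Subgroup.zpowers (B.q a))
  rw [H.zpow_eq, eq_comm, QuotientGroup.eq, inv_mul_cancel_left]
  exact ⟨_, rfl⟩

variable [DecidableEq Q] {c W : ℕ} {H : Hyp B a eps D z k} {d cl : Q → Bool} {ι : Type} {x : ι → Q} {b₁ b₂ : ι → B.L}
  {j : ι → ℕ} {F : ι → Finset Q}

/-- There is a line of the first tour. -/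
theorem Ctx.exists_first (C : Ctx B a H.up D k c W d cl x b₁ b₂ j F) : ∃ y, cl y = false := by
  have hfin := H.fin
  obtain ⟨n, hn, hc⟩ := C.oddc
  have h1 : 0 < Nat.card {y : Q // cl y = false} := by
    rw [hc]
    exact Nat.mul_pos hn.pos (orderOf_pos _)
  obtain ⟨⟨y, hy⟩⟩ := (Nat.card_pos_iff.1 h1).1
  exact ⟨y, hy⟩

end

theorem el2 : EL2S := by
  intro Q _ _ B a eps D z k c W H d cl ι x b₁ b₂ j F C P hT
  obtain ⟨y, b, hy, hyb⟩ := exists_edge H.gen cl C.exists_first hT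
  obtain ⟨i, v, t, hwin, hvt⟩ := exists_win P hyb
  obtain ⟨m, q, hm, ht⟩ := H.level t
  have h1 : y * B.q b * B.q (B.inv b) = y := by rw [B.q_inv, mul_inv_cancel_right]
  have h2 : cl ((H.up.U ^ m) (v : Q) * B.q (B.inv b)) = true := by
    rw [← hy, ← h1, hvt, ht, add_comm, H.up.zadd, zpow_natCast, H.per_edge, dl_zpow C.c_line]
  obtain ⟨s', hs', o, ho, he⟩ := hwin.dep.next C (by omega) (B.inv b) m
  rw [zpow_natCast] at he
  refine ⟨i, v, ⟨s', hs'.1⟩, m, B.inv b, o, hwin, ?_, hm, ho, he, hs'⟩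
  rw [he, dl_zpow C.c_line] at h2
  exact h2

theorem el2c : EL2cS := by
  intro Q _ _ B a eps D z k c W H d cl ι x b₁ b₂ j F C P hT b hcom hb
  obtain ⟨y, hy⟩ := hT
  have h1 : cl (y * (B.q b)⁻¹) = false := by
    by_contra h
    rw [Bool.not_eq_false] at h
    obtain ⟨t, ht⟩ := C.one _ _ hy h
    rw [H.zpow_eq] at ht
    have h2 := mul_left_cancel ht
    refine hb ⟨-(((eps y : ℤˣ) : ℤ) * t), ?_⟩
    show B.q a ^ (-(((eps y : ℤˣ) : ℤ) * t)) = B.q b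
    rw [zpow_neg, ← h2, inv_inv]
  obtain ⟨i, v, t, hwin, hvt⟩ := exists_win P h1
  refine ⟨i, v, hwin, ?_⟩
  have h2 : y = (H.up.U ^ t) ((v : Q) * B.q b) := by
    rw [com_zpow hcom, ← hvt, inv_mul_cancel_right]
  rw [← hy, h2, dl_zpow C.c_line]

theorem enb : ENbS := by
  intro Q _ _ B a eps D z k c W H d cl ι x b₁ b₂ j F C i s n hs hn l
  have hfin := H.fin
  obtain ⟨r, b, h1, h2⟩ := nbr2 H.gen C.three (s : Q) l
  obtain ⟨m, q, hm, ht⟩ := H.level (((eps (s : Q) : ℤˣ) : ℤ) * r)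
  have h3 : ln B a ((s : Q) * B.q a ^ r * B.q b) = ln B a ((H.up.U ^ m) (s : Q) * B.q b) := by
    rw [H.mul_zpow, ht, add_comm, H.up.zadd, zpow_natCast, H.per_edge, H.ln_up]
  obtain ⟨s', hs', o, ho, he⟩ := hs.next C hn b m
  rw [zpow_natCast] at he
  have h4 : ln B a s' = ln B a ((s : Q) * B.q a ^ r * B.q b) := by
    rw [h3, he, H.ln_up]
  refine ⟨⟨s', hs'.1⟩, m, b, o, ?_, ?_, hm, ho, he, hs'⟩
  · show ln B a s' ≠ _
    rw [h4]
    exact h1
  · show ln B a s' ≠ _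
    rw [h4]
    exact h2

end Pool.Agent.Lib.MP_688fd0_co.SQ3
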