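import Pool.Agent.Lib.MP_688fd0_co.SQ3.V.GOK
import Pool.Agent.Lib.MP_688fd0_co.SQ3.Iface
import Pool.Agent.Lib.MP_688fd0_co.SQ3.V.MP
import Pool.Agent.Lib.MP_688fd0_co.SQ2.V.FlipDefs
import Pool.Agent.Lib.MP_688fd0_co.SQ2.V.Coset1
import Pool.Agent.Lib.MP_688fd0_co.SQ2.V.Coset2

/-!
Chapter V (flips), stage E: statements of the rows (paper: 4114, section 5).

Part 1: the abstract hole puzzle (`SQ2/V/Defs.lean`, `Walk.lean`, `FlipDefs.lean`), for arbitrary weights `d : S → F` of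
the strands. Part 2: one frontier (`LC`, `LRes`). Part 3: groups.
-/

set_option autoImplicit false

namespace Pool.Agent.Lib.MP_688fd0_co.SQ3.V

open Pool.Agent.Lib.MP_688fd0_co.SQ2.V
open Puz

/-! ### The abstract puzzle -/

/-- FLIP A (from `lemmaAp`). -/
def FlipAES : Prop := ∀ (S R Sb Rb F : Type) [Fintype S] [DecidableEq S] [Fintype R] [Fintype Sb] [DecidableEq Sb]
  [Fintype Rb] [Field F] (P : Puz S R) (Pb : Puz Sb Rb) (E : Sub P Pb) (V : R → F) (θ : R → S → F) (d : S → F)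
  (f g : R) (l₀ : S) (s : St S R (P.TokOf f)) (r : Rb),
  (∀ s s' : St S R (P.TokOf f), P.WReach s s' → P.WReach s' s) → P.Adj g f l₀ →
  (∀ r s, s ∉ Set.range E.iS → θ (E.iR r) s = 0) →
  P.WReach (P.st₁ f) s → s.1 = E.iR r → Function.Injective s.2 → (∀ L, (∃ t, s.2 t = L) ↔ ¬ P.On s.1 L) →
  (∑ t, if s.2 t ∈ Set.range E.iS then d t else 0) ≠ 0 →
  Pb.Full → Pb.TwoN → Pb.NoCut → Pb.ConnS → ((Fintype.card Sb).factorial : F) ≠ 0 → (2 : F) ≠ 0 →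
  (∃ δ : ℕ, (δ : F) ≠ 0 ∧ ∀ L, {r | Pb.On r L}.ncard = δ) →
  (¬ ∃ b : Sb → F, ∀ r, V (E.iR r) = b (Pb.y r) - b (Pb.x r)) →
  P.Flip V θ d f g l₀

/-- FLIP B (from `lemmaBp`). -/
def FlipBES : Prop := ∀ (S R Sb Rb F : Type) [Fintype S] [DecidableEq S] [Fintype R] [Fintype Sb] [DecidableEq Sb]
  [Fintype Rb] [Field F] (P : Puz S R) (Pb : Puz Sb Rb) (E : Sub P Pb) (χ : S → F) (d : S → F)
  (f : R) (s : St S R (P.TokOf f)) (r : Rb),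
  P.WReach (P.st₁ f) s → s.1 = E.iR r → Function.Injective s.2 → (∀ L, (∃ t, s.2 t = L) ↔ ¬ P.On s.1 L) →
  (∑ t, if s.2 t ∈ Set.range E.iS then d t else 0) ≠ 0 →
  Pb.Full → Pb.TwoN → Pb.NoCut → Pb.ConnS → ((Fintype.card Sb).factorial : F) ≠ 0 → (2 : F) ≠ 0 →
  (∃ δ : ℕ, (δ : F) ≠ 0 ∧ ∀ L, {r | Pb.On r L}.ncard = δ) →
  (∃ r, χ (E.iS (Pb.x r)) ≠ χ (E.iS (Pb.y r))) →
  P.FlipG χ d f

/-- START-W: `v₀` is one of `l₀, l₁, l₂`, `r₀` and `r₁` are rungs of the component at `v₀` with different other ends. -/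
def StartWS : Prop := ∀ (S R Sb Rb F : Type) [Fintype S] [DecidableEq S] [Fintype R] [Fintype Sb] [DecidableEq Sb]
  [Fintype Rb] [Field F] (P : Puz S R) (Pb : Puz Sb Rb) (E : Sub P Pb) (d : S → F) (f g : R) (l₀ : S) (v₀ : Sb)
  (r₀ r₁ : Rb),
  (∀ s s' : St S R (P.TokOf f), P.WReach s s' → P.WReach s' s) → P.Adj g f l₀ →
  d (P.oth f l₀) = - d l₀ → d (P.oth g l₀) = - d l₀ →
  (E.iS v₀ = l₀ ∨ E.iS v₀ = P.oth f l₀ ∨ E.iS v₀ = P.oth g l₀) →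
  Pb.On r₀ v₀ → Pb.On r₁ v₀ → Pb.oth r₁ v₀ ≠ Pb.oth r₀ v₀ → (∑ s, d (E.iS s)) ≠ 0 →
  (∑ s, d (E.iS s)) - d (E.iS v₀) - d (E.iS (Pb.oth r₀ v₀)) ≠ 0 →
  ∃ (s : St S R (P.TokOf f)) (r : Rb), P.WReach (P.st₁ f) s ∧ s.1 = E.iR r ∧
    Function.Injective s.2 ∧ (∀ L, (∃ t, s.2 t = L) ↔ ¬ P.On s.1 L) ∧
    (∑ t, if s.2 t ∈ Set.range E.iS then d t else 0) ≠ 0

/-- KEY A: two parallel rungs `e`, `tau e` without twist at a reachable state. -/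
def KeyAS : Prop := ∀ (S R F : Type) [Fintype S] [DecidableEq S] [Field F] (P : Puz S R) (V : R → F)
  (θ : R → S → F) (d : S → F) (f g : R) (l₀ : S) (s : St S R (P.TokOf f)) (t : P.TokOf f) (v : S) (e : R),
  (∀ s s' : St S R (P.TokOf f), P.WReach s s' → P.WReach s' s) → P.Adj g f l₀ →
  P.WReach (P.st₁ f) s → P.Adj s.1 e v → P.T e = 1 → P.T (P.tau e) = 1 →
  (∀ L, ¬ P.On e L → θ e L = θ (P.tau e) L) → s.2 t = P.oth e v → d t ≠ 0 →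
  P.volr V e v - P.volr V (P.tau e) v ≠ P.volr V (P.tau e) v - P.volr V (P.tau (P.tau e)) v →
  P.Flip V θ d f g l₀

/-- KEY B: the weights of the tokens next to the holes, if there is no flip. -/
def KeyBS : Prop := ∀ (S R F : Type) [Fintype S] [DecidableEq S] [Field F] (P : Puz S R) (χ d : S → F)
  (f : R) (s : St S R (P.TokOf f)) (t t' : P.TokOf f) (v : S) (r r' : R),
  ¬ P.FlipG χ d f → P.WReach (P.st₁ f) s → P.Adj s.1 r v → χ v ≠ χ (P.oth s.1 v) → s.2 t = P.oth r v →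
  (P.Adj s.1 r' v → s.2 t' = P.oth r' v → d t' = d t) ∧
  (P.Adj s.1 r' (P.oth s.1 v) → s.2 t' = P.oth r' (P.oth s.1 v) → d t' = - d t)

end Pool.Agent.Lib.MP_688fd0_co.SQ3.V

namespace Pool.Agent.Lib.MP_688fd0_co.SQ3

open Pool.Agent.Lib.MP_688fd0_co.OSF Pool.Agent.Lib.MP_688fd0_co.SQ2
open V (Puz)

/-! ### One frontier -/

section

variable {Q : Type} [Group Q] [DecidableEq Q] {B : Lb.{0, 0} Q} {U : Up B} {P D : Subgroup Q} {z : Q} {F : Finset Q}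
  {e : ℕ}

/-- The local context: a tree path with centre strand `l₀` and rungs `f`, `g` in the big puzzle of the base gadgets `G`,
a prime `p` and a weight `w` of the lines. -/
structure LC (h : FrD U P D z F e) {ι : Type} (G : ι → BGad h.toFrt) (hm : ℕ)
    (f g : Rg ι (Sy h.toFrt)) (l₀ : F) (p : ℕ) (V : Vd B (ZMod p)) (w : Q → ZMod p) : Prop where
  finQ : Finite Q
  finι : Finite ι
  card : Nat.card D ∣ e
  prime : p.Prime
  big : 4 * e < p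
  al : V.chi z = 1
  ht : ∀ i, (G i).H ≤ hm
  cap : ∀ (i : ι) (V' : Vd B (ZMod p)), (∀ x, V'.n (U.up x) = 0) → V'.chi z ^ e = 1 →
    V'.vol (G i).X.w₀ (G i).X.cap = Xc V' (G i).δ * V'.vol (G i).x (G i).X.cup
  adj : (bigP G).Adj g f l₀
  wl : ∀ y, w (U.U y) = w y
  wf : w ((bigP G).oth f l₀ : Q) = - w (l₀ : Q)
  wg : w ((bigP G).oth g l₀ : Q) = - w (l₀ : Q)

/-- The conclusion: two versions of a flat window of the tree path with different volumes, as soon as there is a flat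
window of the tree path. -/
def LRes (h : FrD U P D z F e) {ι : Type} (G : ι → BGad h.toFrt) (hm : ℕ)
    (f g : Rg ι (Sy h.toFrt)) (l₀ : F) (p : ℕ) (V : Vd B (ZMod p)) (w : Q → ZMod p) : Prop :=
  ∀ (E : TW B) (n₀ : ℕ), EWr (bigZ G) f g l₀ E n₀ →
    ∃ (X X' : TW B) (n : ℕ), Ver U X X' n ((bigZ G).vt ((bigP G).oth g l₀) ((bigZ G).lev f)) ∧
      EWr (bigZ G) f g l₀ X n ∧ n ≤ 2 * n₀ + (2 * NW F (Rg ι (Sy h.toFrt)) + 4) * (e + hm) ∧ dvolw V w X X' ≠ 0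

open Classical in
/-- The sum of the weights of the component of `x` and `y`. -/
noncomputable def wsum (h : FrD U P D z F e) (Γ : Subgroup (Sy h.toFrt)) (x y : F) {R : Type} [CommRing R]
    (w : Q → R) : R :=
  ∑ s : F, if ∃ g ∈ Γ, g • x = s ∨ g • y = s then w (s : Q) else 0

/-- Case I: `chi ≠ 1` on the steps up, in the gauge `n (up x) = 0`, and `n b ≠ 0`. -/
structure CaseI (U : Up B) {p : ℕ} (V : Vd B (ZMod p)) (b : B.L) : Prop where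
  up : ∀ x, V.n (U.up x) = 0
  al : ∀ x, V.chi (B.q (U.up x)) ≠ 1
  nb : V.n b ≠ 0

/-- Case II: `chi = 1` on the steps up, and the volume of one step up is different on the two ends of `b`. -/
structure CaseII (U : Up B) {p : ℕ} (V : Vd B (ZMod p)) (b : B.L) : Prop where
  al : ∀ x, V.chi (B.q (U.up x)) = 1
  om : ∀ x, U.wt V (U.U x) = U.wt V x
  ne : ∀ x, U.wt V (x * B.q b) ≠ U.wt V x

end

/-- NC2: a label which does not commute with `U`, two sheets. -/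
def NC2S : Prop := ∀ (Q : Type) [Group Q] [DecidableEq Q] (B : Lb.{0, 0} Q) (U : Up B) (P D : Subgroup Q) (z : Q)
  (F : Finset Q) (e : ℕ) (h : FrD U P D z F e) (ι : Type) (G : ι → BGad h.toFrt) (hm : ℕ)
  (f g : Rg ι (Sy h.toFrt)) (l₀ : F) (p : ℕ) (V : Vd B (ZMod p)) (w : Q → ZMod p), LC h G hm f g l₀ p V w →
  ∀ (i : ι) (b : B.L) (p₀ p₁ : ℕ),
    GOK h (G i) b p₀ p₁ (Subgroup.closure {h.cj ((G i).x : Q), h.cj ((G i).y : Q)}) →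
    (∀ k : Sy h.toFrt, k • (G i).x ≠ (G i).y) → (∀ x, U.U (x * B.q b) ≠ U.U x * B.q b) →
    ((G i).x = l₀ ∨ (G i).x = (bigP G).oth f l₀ ∨ (G i).x = (bigP G).oth g l₀) →
    wsum h (Subgroup.closure {h.cj ((G i).x : Q), h.cj ((G i).y : Q)}) (G i).x (G i).y w ≠ 0 →
    (∃ n : ℕ, wsum h (Subgroup.closure {h.cj ((G i).x : Q), h.cj ((G i).y : Q)}) (G i).x (G i).y w -
      w ((G i).x : Q) - w ((h.cj ((G i).x : Q) ^ n • (G i).y : F) : Q) ≠ 0) →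
    (CaseI U V b ∨ CaseII U V b) → LRes h G hm f g l₀ p V w

/-- NC1: a label which does not commute with `U`, one sheet. -/
def NC1S : Prop := ∀ (Q : Type) [Group Q] [DecidableEq Q] (B : Lb.{0, 0} Q) (U : Up B) (P D : Subgroup Q) (z : Q)
  (F : Finset Q) (e : ℕ) (h : FrD U P D z F e) (ι : Type) (G : ι → BGad h.toFrt) (hm : ℕ)
  (f g : Rg ι (Sy h.toFrt)) (l₀ : F) (p : ℕ) (V : Vd B (ZMod p)) (w : Q → ZMod p), LC h G hm f g l₀ p V w →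
  ∀ (i : ι) (b : B.L) (p₀ p₁ : ℕ) (η : Sy h.toFrt),
    GOK h (G i) b p₀ p₁ (Subgroup.closure {h.cj ((G i).x : Q), η}) →
    η • (G i).x = (G i).y → lv η = (p₁ : ZMod e) - p₀ → (∀ x, U.U (x * B.q b) ≠ U.U x * B.q b) →
    ((G i).x = l₀ ∨ (G i).x = (bigP G).oth f l₀ ∨ (G i).x = (bigP G).oth g l₀) →
    wsum h (Subgroup.closure {h.cj ((G i).x : Q), η}) (G i).x (G i).y w ≠ 0 →
    (∃ n : ℕ, wsum h (Subgroup.closure {h.cj ((G i).x : Q), η}) (G i).x (G i).y w -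
      w ((G i).x : Q) - w ((h.cj ((G i).x : Q) ^ n • (G i).y : F) : Q) ≠ 0) →
    (CaseI U V b ∨ CaseII U V b) → LRes h G hm f g l₀ p V w

/-- CMA: a commuting label, case I: a reachable state `s` with a token of weight `≠ 0` on the neighbour `(G i).y` of an
end `(G i).x` of the cap. -/
def CMAS : Prop := ∀ (Q : Type) [Group Q] [DecidableEq Q] (B : Lb.{0, 0} Q) (U : Up B) (P D : Subgroup Q) (z : Q)
  (F : Finset Q) (e : ℕ) (h : FrD U P D z F e) (ι : Type) (G : ι → BGad h.toFrt) (hm : ℕ)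
  (f g : Rg ι (Sy h.toFrt)) (l₀ : F) (p : ℕ) (V : Vd B (ZMod p)) (w : Q → ZMod p), LC h G hm f g l₀ p V w →
  ∀ (i : ι) (b : B.L) (p₀ p₁ : ℕ), COK h (G i) b p₀ p₁ → CaseI U V b →
    ∀ (s : Puz.St F (Rg ι (Sy h.toFrt)) ((bigP G).TokOf f)) (t : (bigP G).TokOf f),
      (bigP G).WReach ((bigP G).st₁ f) s → (bigP G).On s.1 (G i).x → (bigP G).oth s.1 (G i).x ≠ (G i).y →
      s.2 t = (G i).y → w ((t : F) : Q) ≠ 0 → LRes h G hm f g l₀ p V w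

/-- FCA: a commuting label, case II, at the centre. -/
def FCAS : Prop := ∀ (Q : Type) [Group Q] [DecidableEq Q] (B : Lb.{0, 0} Q) (U : Up B) (P D : Subgroup Q) (z : Q)
  (F : Finset Q) (e : ℕ) (h : FrD U P D z F e) (ι : Type) (G : ι → BGad h.toFrt) (hm : ℕ)
  (f g : Rg ι (Sy h.toFrt)) (l₀ : F) (p : ℕ) (V : Vd B (ZMod p)) (w : Q → ZMod p), LC h G hm f g l₀ p V w →
  ∀ (i : ι) (b : B.L) (p₀ p₁ : ℕ), COK h (G i) b p₀ p₁ → CaseII U V b → (G i).x = l₀ →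
    (G i).y ≠ (bigP G).oth f l₀ → (G i).y ≠ (bigP G).oth g l₀ →
    LRes h G hm f g l₀ p V w ∨ w ((bigP G).oth g l₀ : Q) = w ((G i).y : Q)

/-- FCB: a commuting label, case II, at a leaf `(G i).x`; `r` is another rung at `(G i).y`. -/
def FCBS : Prop := ∀ (Q : Type) [Group Q] [DecidableEq Q] (B : Lb.{0, 0} Q) (U : Up B) (P D : Subgroup Q) (z : Q)
  (F : Finset Q) (e : ℕ) (h : FrD U P D z F e) (ι : Type) (G : ι → BGad h.toFrt) (hm : ℕ)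
  (f g : Rg ι (Sy h.toFrt)) (l₀ : F) (p : ℕ) (V : Vd B (ZMod p)) (w : Q → ZMod p), LC h G hm f g l₀ p V w →
  ∀ (i : ι) (b : B.L) (p₀ p₁ : ℕ), COK h (G i) b p₀ p₁ → CaseII U V b →
    ((G i).x = (bigP G).oth f l₀ ∨ (G i).x = (bigP G).oth g l₀) →
    (G i).y ≠ l₀ → (G i).y ≠ (bigP G).oth f l₀ → (G i).y ≠ (bigP G).oth g l₀ →
    ∀ r : Rg ι (Sy h.toFrt), (bigP G).On r (G i).y → (bigP G).oth r (G i).y ≠ (G i).x →
      LRes h G hm f g l₀ p V w ∨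
        (if (bigP G).oth r (G i).y = l₀ then w ((G i).y : Q) else w ((bigP G).oth r (G i).y : Q)) =
          - w ((G i).y : Q)

/-- CMB: a commuting label, case II, weights `± 1`. The rungs of the types `i₀`, `i₁`, `i₂` join `x₋ - x₀`, `x₀ - x₁`,
`x₁ - x₂`. -/
def CMBS : Prop := ∀ (Q : Type) [Group Q] [DecidableEq Q] (B : Lb.{0, 0} Q) (U : Up B) (P D : Subgroup Q) (z : Q)
  (F : Finset Q) (e : ℕ) (h : FrD U P D z F e) (ι : Type) (G : ι → BGad h.toFrt) (hm : ℕ)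
  (f g : Rg ι (Sy h.toFrt)) (l₀ : F) (p : ℕ) (V : Vd B (ZMod p)) (w : Q → ZMod p), LC h G hm f g l₀ p V w →
  ∀ (i₀ i₁ i₂ : ι) (b : B.L) (p₀ p₁ p₂ q₀ q₁ q₂ : ℕ),
    COK h (G i₀) b p₀ q₀ → COK h (G i₁) b p₁ q₁ → COK h (G i₂) b p₂ q₂ → CaseII U V b →
    (∀ x, w x = 1 ∨ w x = -1) →
    (G i₁).x = (G i₀).y → (G i₂).x = (G i₁).y →
    ((G i₁).x = l₀ ∨ (G i₁).x = (bigP G).oth f l₀ ∨ (G i₁).x = (bigP G).oth g l₀) →
    (G i₀).x ≠ (G i₁).y → (G i₂).y ≠ (G i₁).x →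
    (LRes h G hm f g l₀ p V w ∨ w ((G i₁).y : Q) = w ((G i₀).x : Q)) ∧
    (w ((G i₁).x : Q) = w ((G i₁).y : Q) → w ((G i₁).x : Q) = w ((G i₀).x : Q) →
      LRes h G hm f g l₀ p V w ∨ w ((G i₂).y : Q) = - w ((G i₁).y : Q))

/-- ONE: labels with the same image as the steps up. -/
def OneS : Prop := ∀ (Q : Type) [Group Q] [DecidableEq Q] (B : Lb.{0, 0} Q) (U : Up B) (P D : Subgroup Q) (z : Q)
  (F : Finset Q) (e : ℕ) (h : FrD U P D z F e) (ι : Type) (G : ι → BGad h.toFrt) (hm : ℕ)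
  (f g : Rg ι (Sy h.toFrt)) (l₀ : F) (p : ℕ) (V : Vd B (ZMod p)) (w : Q → ZMod p), LC h G hm f g l₀ p V w →
  (∀ x, V.n (U.up x) = 0) → (∀ x, ∃ b', B.q b' = B.q (U.up x) ∧ V.n b' ≠ 0) →
  ∀ s : F, s ≠ l₀ → s ≠ (bigP G).oth f l₀ → w (s : Q) ≠ 0 → LRes h G hm f g l₀ p V w

/-- The words of total level `0` in `A` and `b A ^ σ b⁻¹` (both of level `1`). -/
def K02 {Q : Type} [Group Q] (A b : Q) (σ : ℤ) : Subgroup Q :=
  Subgroup.closure {g | ∃ i : ℤ, g = A ^ i * (b * A ^ σ * b⁻¹ * A⁻¹) * (A ^ i)⁻¹}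

/-- The words of total level `0` in `A` (of level `1`) and `b` (of level `j`). -/
def K01 {Q : Type} [Group Q] (A b : Q) (j : ℤ) : Subgroup Q :=
  Subgroup.closure {g | ∃ i : ℤ, g = A ^ i * (b * (A ^ j)⁻¹) * (A ^ i)⁻¹}

/-- The weight of the two-sheet component of `v`. -/
noncomputable def DS2 {Q : Type} [Group Q] {R : Type} [CommRing R] (A b : Q) (σ : ℤ) (w : Q → R) (v : Q) : R :=
  ∑ᶠ κ : K02 A b σ, (w (v * κ) + w (v * κ * b))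

/-- The weight of the one-sheet component of `v`. -/
noncomputable def DS1 {Q : Type} [Group Q] {R : Type} [CommRing R] (A b : Q) (j : ℤ) (w : Q → R) (v : Q) : R :=
  ∑ᶠ κ : K01 A b j, w (v * κ)

/-- LOCSUM2: the sum of the weights of a component, two sheets. -/
def LocSum2S : Prop := ∀ (Q : Type) [Group Q] [Finite Q] (B : Lb.{0, 0} Q) (U : Up B) (P D : Subgroup Q) (z : Q)
  (F : Finset Q) (e : ℕ) (h : FrD U P D z F e) (A b : Q) (σ : ℤ),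
  (∀ x, (U.U x = x * A ∧ U.U (x * b) = x * b * A ^ σ) ∨ (U.U x = x * A⁻¹ ∧ U.U (x * b) = x * b * A ^ (-σ))) →
  ∀ (x y : F) (p p' : ℕ), (U.U ^ p) (x : Q) * b = (U.U ^ p') (y : Q) → (∀ k : Sy h.toFrt, k • x ≠ y) →
  ∀ (R : Type) [CommRing R] (w : Q → R), (∀ x, w (U.U x) = w x) → ∀ n : ℤ,
    wsum h (Subgroup.closure {h.cj (x : Q), h.cj (y : Q)}) x y w = DS2 A b σ w ((U.U ^ n) (x : Q))

/-- LOCSUM1: the sum of the weights of a component, one sheet. -/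
def LocSum1S : Prop := ∀ (Q : Type) [Group Q] [Finite Q] (B : Lb.{0, 0} Q) (U : Up B) (P D : Subgroup Q) (z : Q)
  (F : Finset Q) (e : ℕ) (h : FrD U P D z F e) (A : Q), (∀ x, U.U x = x * A ∨ U.U x = x * A⁻¹) →
  ∀ (x y : F) (b : Q) (p p' : ℕ) (j : ℤ) (η : Sy h.toFrt), (U.U ^ ((p' : ℤ) - p)) (x : Q) = x * A ^ j →
  (U.U ^ p) (x : Q) * b = (U.U ^ p') (y : Q) → η • x = y → lv η = (p' : ZMod e) - p →
  ∀ (R : Type) [CommRing R] (w : Q → R), (∀ x, w (U.U x) = w x) → ∀ n : ℤ,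
    wsum h (Subgroup.closure {h.cj (x : Q), η}) x y w = DS1 A b j w ((U.U ^ n) (x : Q))

/-! ### Groups -/

/-- NOTEXACT2: two sheets. -/
def NotExact2S : Prop := ∀ (G F : Type) [Group G] [Field F] (a c : G) (χ : G →* F) (nb : F)
  (B0 : G ⧸ Subgroup.zpowers a → F) (B1 : G ⧸ Subgroup.zpowers c → F), (∀ r : G, χ r * nb = B1 r - B0 r) →
  ∀ n₀ : ℕ, ((a * c)⁻¹ * (c * a)) ^ n₀ = 1 → (n₀ : F) * nb * (χ a - 1) * (χ c - 1) = 0

/-- COSET2: the two-sheet place for all parities. -/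
def Coset2S : Prop := ∀ (G : Type) [Group G] [Finite G] (a c : G) (tau : Equiv.Perm G)
  (T : G → Equiv.Perm (SQ2.V.S2 a c))
  (hT : ∀ r, (T r (Sum.inl (r : G ⧸ Subgroup.zpowers a)) = Sum.inl (tau r : G ⧸ Subgroup.zpowers a) ∧
        T r (Sum.inr (r : G ⧸ Subgroup.zpowers c)) = Sum.inr (tau r : G ⧸ Subgroup.zpowers c)) ∨
      (T r (Sum.inl (r : G ⧸ Subgroup.zpowers a)) = Sum.inr (tau r : G ⧸ Subgroup.zpowers c) ∧
        T r (Sum.inr (r : G ⧸ Subgroup.zpowers c)) = Sum.inl (tau r : G ⧸ Subgroup.zpowers a))),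
  a ∉ Subgroup.zpowers c → orderOf a = orderOf c → Subgroup.closure ({a, c} : Set G) = ⊤ →
  (SQ2.V.puz2 a c tau T hT).Full ∧ (SQ2.V.puz2 a c tau T hT).TwoN ∧ (SQ2.V.puz2 a c tau T hT).NoCut ∧
  (SQ2.V.puz2 a c tau T hT).ConnS ∧ ∀ L, {r | (SQ2.V.puz2 a c tau T hT).On r L}.ncard = orderOf a

/-- COSET1: the one-sheet place for all parities. -/
def Coset1S : Prop := ∀ (G : Type) [Group G] [Finite G] (a b : G) (hb : b ∉ Subgroup.zpowers a)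
  (tau : Equiv.Perm G) (T : G → Equiv.Perm (SQ2.V.S1 a))
  (hT : ∀ r, (T r (r : G ⧸ Subgroup.zpowers a) = (tau r : G ⧸ Subgroup.zpowers a) ∧
        T r ((r * b : G) : G ⧸ Subgroup.zpowers a) = ((tau r * b : G) : G ⧸ Subgroup.zpowers a)) ∨
      (T r (r : G ⧸ Subgroup.zpowers a) = ((tau r * b : G) : G ⧸ Subgroup.zpowers a) ∧
        T r ((r * b : G) : G ⧸ Subgroup.zpowers a) = (tau r : G ⧸ Subgroup.zpowers a))),
  b⁻¹ * a * b ∉ Subgroup.zpowers a → Subgroup.closure ({a, b} : Set G) = ⊤ →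
  (SQ2.V.puz1 a b hb tau T hT).Full ∧ (SQ2.V.puz1 a b hb tau T hT).TwoN ∧ (SQ2.V.puz1 a b hb tau T hT).NoCut ∧
  (SQ2.V.puz1 a b hb tau T hT).ConnS ∧ ∀ L, {r | (SQ2.V.puz1 a b hb tau T hT).On r L}.ncard = 2 * orderOf a

/-- PLACE-W, two sheets. -/
def PlaceW2S : Prop := ∀ (Q : Type) [Group Q] [Finite Q] (D : Subgroup Q) (_ : D.Normal) (A b : Q) (d cl : Q → Bool),
  (∀ x, d (x * A) = d x) → (∀ x, cl (x * A) = cl x) →
  (∀ y y', cl y = true → cl y' = true → ∃ t : ℤ, y' = y * A ^ t) →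
  (∃ n : ℕ, Odd n ∧ Nat.card {y : Q // cl y = false} = n * orderOf A) →
  b ∉ Subgroup.zpowers A →
  ∀ σ : ℤ, (σ = 1 ∨ σ = -1) → (A ^ σ)⁻¹ * (b * A * b⁻¹) ∈ D → b * A * b⁻¹ ≠ A ^ σ →
  (A ^ σ)⁻¹ * (b⁻¹ * A * b) ∈ D → b⁻¹ * A * b ≠ A ^ σ →
  ∀ γ : Bool, (∃ y, cl y = γ) →
  ∃ (v b' : Q), (b' = b ∨ b' = b⁻¹) ∧ cl v = false ∧ DS2 A b' σ (wcl cl d γ : Q → ℤ) v ≠ 0 ∧
    DS2 A b' σ (wcl cl d γ : Q → ℤ) v - wcl cl d γ v - wcl cl d γ (v * b') ≠ 0 ∧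
    |DS2 A b' σ (wcl cl d γ : Q → ℤ) v| ≤ 2 * Nat.card D

/-- PLACE-W, one sheet. -/
def PlaceW1S : Prop := ∀ (Q : Type) [Group Q] [Finite Q] (D : Subgroup Q) (_ : D.Normal) (A b : Q) (d cl : Q → Bool),
  (∀ x, d (x * A) = d x) → (∀ x, cl (x * A) = cl x) →
  (∀ y y', cl y = true → cl y' = true → ∃ t : ℤ, y' = y * A ^ t) →
  (∃ n : ℕ, Odd n ∧ Nat.card {y : Q // cl y = false} = n * orderOf A) →
  ∀ j : ℤ, (A ^ j)⁻¹ * b ∈ D → b * A ≠ A * b →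
  ∀ γ : Bool, (∃ y, cl y = γ) →
  ∃ (v b' : Q) (j' : ℤ), ((b' = b ∧ j' = j) ∨ (b' = b⁻¹ ∧ j' = -j)) ∧ cl v = false ∧
    DS1 A b' j' (wcl cl d γ : Q → ℤ) v ≠ 0 ∧
    DS1 A b' j' (wcl cl d γ : Q → ℤ) v - wcl cl d γ v - wcl cl d γ (v * b') ≠ 0 ∧
    |DS1 A b' j' (wcl cl d γ : Q → ℤ) v| ≤ Nat.card D

end Pool.Agent.Lib.MP_688fd0_co.SQ3
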