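import Pool.Agent.Lib.MP_688fd0_co.SQ3.V.HypDat
import Pool.Agent.Lib.MP_688fd0_co.SQ3.V.Loc
import Pool.Agent.Lib.MP_688fd0_co.SQ3.H98.BG

/-!
FLIP: the basic facts about frontiers, strands and rungs at the vertices of a frontier, in the language of `Up`.
-/

set_option autoImplicit false

namespace Pool.Agent.Lib.MP_688fd0_co.SQ3

open Pool.Agent.Lib.MP_688fd0_co.OSF Pool.Agent.Lib.MP_688fd0_co.SQ2
open V (Puz)

theorem Up.zadd {Q : Type} [Group Q] {B : Lb.{0, 0} Q} (U : Up B) (m n : ℤ) (x : Q) :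
    (U.U ^ (m + n)) x = (U.U ^ m) ((U.U ^ n) x) := by rw [zpow_add]; rfl

theorem Up.zero {Q : Type} [Group Q] {B : Lb.{0, 0} Q} (U : Up B) (x : Q) : (U.U ^ (0 : ℤ)) x = x := by
  rw [zpow_zero]; rfl

theorem Up.zneg {Q : Type} [Group Q] {B : Lb.{0, 0} Q} (U : Up B) (m : ℤ) (x : Q) :
    (U.U ^ (-m)) ((U.U ^ m) x) = x := by
  rw [← U.zadd, neg_add_cancel, U.zero]

theorem Up.zneg' {Q : Type} [Group Q] {B : Lb.{0, 0} Q} (U : Up B) (m : ℤ) (x : Q) :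
    (U.U ^ m) ((U.U ^ (-m)) x) = x := by
  rw [← U.zadd, add_neg_cancel, U.zero]

section basics

variable {Q : Type} [Group Q] {B : Lb.{0, 0} Q} {a : B.L} {eps : Q →* ℤˣ} {D : Subgroup Q} {z : Q} {k : ℕ}

/-- Equal vertices. -/
theorem Fr.eq {U : Up B} {W : ℕ} {F : Finset Q} (hF : Fr U D W F) {s s' : Q} (hs : s ∈ F) (hs' : s' ∈ F) {u v : ℤ}
    (h : (U.U ^ u) s = (U.U ^ v) s') (hW : |u - v| ≤ W) : u = v ∧ s = s' := by
  have h1 : (U.U ^ (u - v)) s = s' := by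
    have h2 : (U.U ^ (-v)) ((U.U ^ u) s) = s' := by rw [h, U.zneg]
    rw [← U.zadd] at h2
    rw [sub_eq_neg_add]
    exact h2
  have h2 := hF.disj s hs (u - v) hW (by rw [h1]; exact hs')
  refine ⟨by omega, ?_⟩
  rw [h2, U.zero] at h1
  exact h1

/-- The strand `s` lies in the sheet of the vertex `y`, at the level `t`. -/
def Ats (U : Up B) (D : Subgroup Q) (s y : Q) (t : ℤ) : Prop := y⁻¹ * (U.U ^ t) s ∈ D

/-- The next strand. -/
theorem Hyp.next (H : Hyp B a eps D z k) {W c : ℕ} {F : Finset Q} (hF : Fr H.up D W F) {s y : Q} {t : ℤ}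
    (hs : Ats H.up D s y t) (b : Q) (hy : ∃ o : ℤ, |o| ≤ c ∧ (H.up.U ^ o) (y * b) ∈ F) (n : ℤ) :
    ∃ s' ∈ F, ∃ o t' : ℤ, |o| ≤ c + |t| ∧ |t'| ≤ c ∧ (H.up.U ^ n) s * b = (H.up.U ^ (n + o)) s' ∧
      Ats H.up D s' (y * b) t' := by
  have := H.nrm
  obtain ⟨o', ho', hm⟩ := hy
  have h2 : QuotientGroup.mk' D y = QuotientGroup.mk' D z ^ t * QuotientGroup.mk' D s := by
    rw [← H.dat.mk_zpow]
    exact Up.Dat.mk_iff.1 hs
  set s' : Q := (H.up.U ^ (o' + t - n)) ((H.up.U ^ n) s * b) with hs'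
  have h4 : QuotientGroup.mk' D ((H.up.U ^ o') (y * b)) = QuotientGroup.mk' D s' := by
    rw [hs', H.dat.mk_zpow, H.dat.mk_zpow, map_mul, map_mul, H.dat.mk_zpow, h2]
    generalize QuotientGroup.mk' D z = Z
    generalize QuotientGroup.mk' D s = S
    generalize QuotientGroup.mk' D b = T
    have e1 : Z ^ (o' + t - n) * (Z ^ n * S * T) = Z ^ (o' + t - n + n) * (S * T) := by
      rw [zpow_add]; group
    rw [e1, sub_add_cancel, zpow_add]
    group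
  have h5 : s' ∈ F := by
    have h6 := hF.inv _ hm _ (Up.Dat.mk_iff.2 h4)
    rwa [mul_inv_cancel_left] at h6
  refine ⟨s', h5, -(o' + t), -o', ?_, by rw [abs_neg]; exact ho', ?_, ?_⟩
  · rw [abs_neg]
    calc |o' + t| ≤ |o'| + |t| := abs_add_le _ _
      _ ≤ c + |t| := by omega
  · rw [hs']
    have e1 : n + -(o' + t) = -(o' + t - n) := by ring
    rw [e1, H.up.zneg]
  · show (y * b)⁻¹ * (H.up.U ^ (-o')) s' ∈ D
    rw [Up.Dat.mk_iff, H.dat.mk_zpow, ← h4, H.dat.mk_zpow, ← mul_assoc, ← zpow_add, neg_add_cancel, zpow_zero,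
      one_mul]

end basics

/-! ### Rungs at vertices -/

section rungs

variable {Q : Type} [Group Q] {B : Lb.{0, 0} Q} {U : Up B} {P D : Subgroup Q} {z : Q} {F : Finset Q} {e : ℕ}

/-- The far end of the rung at `U ^ m x`. -/
theorem FrD.rungY (h : FrD U P D z F e) {x y : F} {b : Q} {p p' n m q : ℕ}
    (hedge : (U.U ^ p) (x : Q) * b = (U.U ^ p') (y : Q)) (hn : n + p = e * q + m) :
    (U.U ^ m) (x : Q) * b = (U.U ^ ((p' : ℤ) - p + m)) ((h.cj (x : Q) ^ n • y : F) : Q) := by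
  have hg := h.dat.gen_mem (x : Q)
  -- the level `n + p`
  have h1 : (U.U ^ (n + p)) (x : Q) = U.gen (x : Q) ^ n * (U.U ^ p) (x : Q) := by
    have e1 := h.dat.zpow_gen ((U.U ^ p) (x : Q)) n
    rw [gen_up_nat h.dat, zpow_natCast, zpow_natCast] at e1
    rw [← e1, add_comm, U.U_pow_add]
  have h2 : (U.U ^ (n + p)) (x : Q) = z ^ (e * q) * (U.U ^ m) (x : Q) := by
    rw [hn, add_comm, U.U_pow_add, h.toFrt.per_mul]
  have h3 : z ^ (e * q) * ((U.U ^ m) (x : Q) * b) = z ^ (e * q) *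
      (U.U ^ ((p' : ℤ) - p + m)) ((h.cj (x : Q) ^ n • y : F) : Q) := by
    rw [← mul_assoc, ← h2, h1, mul_assoc, hedge]
    have e2 : U.gen (x : Q) ^ n * (U.U ^ p') (y : Q) = (U.U ^ p') ((U.U ^ n) ((h.cj (x : Q) ^ n • y : F) : Q)) := by
      rw [h.cj_pow_up, h.dat.com_pow (P.pow_mem hg n)]
    rw [e2, ← U.U_pow_add, ← h.toFrt.per_mul]
    have e3 : (((n + p' : ℕ)) : ℤ) = ((e * q : ℕ) : ℤ) + ((p' : ℤ) - p + m) := by
      have : (n : ℤ) + p = ((e * q : ℕ) : ℤ) + m := by exact_mod_cast hn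
      push_cast at this ⊢
      linarith
    rw [← zpow_natCast U.U (n + p'), e3, U.zadd, zpow_natCast]
  exact mul_left_cancel h3

end rungs

/-! ### The path gadgets -/

section core

variable {Q : Type} [Group Q] [DecidableEq Q] {B : Lb.{0, 0} Q} {a : B.L} {eps : Q →* ℤˣ} {D : Subgroup Q} {z : Q}
  {k : ℕ}

/-- Conditions on all gadgets. -/
structure OKG {U : Up B} {P : Subgroup Q} {F : Finset Q} (h : FrD U P D z F k) (hm : ℕ) (G : BGad h.toFrt) :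
    Prop where
  ht : G.H ≤ hm
  cap : ∀ (R : Type) [CommRing R] (V : Vd B R), (∀ x, V.n (U.up x) = 0) → V.chi z ^ k = 1 →
    V.vol G.X.w₀ G.X.cap = Xc V G.δ * V.vol G.x G.X.cup

theorem COK.okg {U : Up B} {P : Subgroup Q} {F : Finset Q} {h : FrD U P D z F k} {G : BGad h.toFrt} {b : B.L}
    {p p' hm : ℕ} (hG : COK h G b p p') (hH : G.H ≤ hm) : OKG h hm G := ⟨hH, hG.cap⟩

theorem GOK.okg {U : Up B} {P : Subgroup Q} {F : Finset Q} {h : FrD U P D z F k} {G : BGad h.toFrt} {b : B.L}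
    {p p' hm : ℕ} {Γ : Subgroup (Sy h.toFrt)} (hG : GOK h G b p p' Γ) (hH : G.H ≤ hm) : OKG h hm G := ⟨hH, hG.cap⟩

/-- Any gadget. -/
structure AG {U : Up B} {P : Subgroup Q} {F : Finset Q} (h : FrD U P D z F k) (G : BGad h.toFrt) (b : B.L)
    (p p' hm : ℕ) (o : ℤ) : Prop extends OKG h hm G where
  off : (p' : ℤ) - p = o
  edge : (U.U ^ p) (G.x : Q) * B.q b = (U.U ^ p') (G.y : Q)

omit [DecidableEq Q] in
/-- `A` and `z` have the same image modulo `D`. -/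
theorem Hyp.mk_a (H : Hyp B a eps D z k) [D.Normal] : QuotientGroup.mk' D (B.q a) = QuotientGroup.mk' D z :=
  (Up.Dat.mk_iff.1 H.mem).symm

omit [DecidableEq Q] in
/-- The level of an element is seen on every sheet. -/
theorem Hyp.mem_lev (H : Hyp B a eps D z k) (s b : Q) (j : ℤ) :
    s⁻¹ * (H.up.U ^ (-j)) (s * b) ∈ D ↔ (B.q a ^ (((eps s : ℤˣ) : ℤ) * j))⁻¹ * b ∈ D := by
  have := H.nrm
  have h1 : QuotientGroup.mk' D (s * z * s⁻¹) = QuotientGroup.mk' D z ^ ((eps s : ℤˣ) : ℤ) := by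
    rw [H.tw, map_zpow]
  have h2 : QuotientGroup.mk' D s * QuotientGroup.mk' D z ^ (((eps s : ℤˣ) : ℤ) * j) =
      QuotientGroup.mk' D z ^ j * QuotientGroup.mk' D s := by
    have h3 : QuotientGroup.mk' D s * QuotientGroup.mk' D z ^ (((eps s : ℤˣ) : ℤ) * j) *
        (QuotientGroup.mk' D s)⁻¹ = QuotientGroup.mk' D z ^ j := by
      rw [← conj_zpow]
      have h4 : QuotientGroup.mk' D s * QuotientGroup.mk' D z * (QuotientGroup.mk' D s)⁻¹ =
          QuotientGroup.mk' D z ^ ((eps s : ℤˣ) : ℤ) := by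
        rw [← h1, map_mul, map_mul, map_inv]
      rw [h4, ← zpow_mul]
      congr 1
      rcases Int.units_eq_one_or (eps s) with hx | hx
      · rw [hx]; simp
      · rw [hx]; simp
    rw [← h3, inv_mul_cancel_right]
  rw [Up.Dat.mk_iff, Up.Dat.mk_iff, map_zpow, H.mk_a, H.dat.mk_zpow, map_mul, zpow_neg]
  constructor
  · intro h3
    have h4 : QuotientGroup.mk' D z ^ j * QuotientGroup.mk' D s = QuotientGroup.mk' D s * QuotientGroup.mk' D b := by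
      conv_lhs => rw [h3]
      rw [mul_inv_cancel_left]
    rw [← h2] at h4
    exact mul_left_cancel h4
  · intro h3
    rw [← h3, h2, inv_mul_cancel_left]

omit [DecidableEq Q] in
/-- Small levels of labels. -/
theorem Hyp.small_lev (H : Hyp B a eps D z k) {W c : ℕ} (hS : Sink B a D W) (hcW : c ≤ W) (b : B.L) (s : Q) (j : ℤ)
    (hj : |j| ≤ c) (hm : s⁻¹ * (H.up.U ^ (-j)) (s * B.q b) ∈ D) : |j| ≤ 1 := by
  by_contra h
  rw [H.mem_lev] at hm
  have h1 : |((eps s : ℤˣ) : ℤ) * j| = |j| := by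
    rcases Int.units_eq_one_or (eps s) with hx | hx
    · rw [hx]; simp
    · rw [hx]; simp
  refine hS b _ (by rw [h1]; omega) (by rw [h1]; omega) hm

/-- Gadgets for all labels. -/
theorem anyGad (g1 : GadN1S.{0}) (g2 : GadN2S.{0}) (gc : CGadS.{0}) (H : Hyp B a eps D z k) {W c : ℕ} {F : Finset Q}
    (hF : Fr H.up D W F) (hW : hgt F.card c + c ≤ W) (hS : Sink B a D W) (h : FrD H.up eps.ker D z F k) (b : B.L)
    (s₀ s₁ : F) (hne : s₀ ≠ s₁) (o : ℤ) (ho : |o| ≤ c) (hb : (s₀ : Q) * B.q b = (H.up.U ^ o) (s₁ : Q)) :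
    ∃ (G : BGad h.toFrt) (p p' : ℕ), G.x = s₀ ∧ AG h G b p p' (hgt F.card c) o := by
  have hs₁ : (H.up.U ^ (-o)) ((s₀ : Q) * B.q b) = s₁ := by rw [hb, H.up.zneg]
  by_cases hcom : ∀ x, H.up.U (x * B.q b) = H.up.U x * B.q b
  · obtain ⟨G, p, p', h1, h2, h3, h4, h5⟩ := gc Q B H.up eps.ker D z F k h b hcom s₀ s₁ o hne hb
    refine ⟨G, p, p', h1, ⟨h5.okg (h3.trans ?_), h4, h5.edge⟩⟩
    have h0 : (o.natAbs : ℤ) ≤ c := by rw [Int.natCast_natAbs]; exact ho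
    unfold hgt; omega
  · by_cases hD : (s₀ : Q)⁻¹ * (s₁ : Q) ∈ D
    · rw [← hs₁] at hD
      have ho1 := H.small_lev hS (by omega : c ≤ W) b s₀ o ho hD
      obtain ⟨G, p, p', η, h1, h2, h3, h4, h5, h6⟩ := g1 Q B H.up eps.ker D z F k h c b o ho1 s₀ hD (by
        rw [hs₁]; exact fun h => hne (Subtype.ext h.symm))
      exact ⟨G, p, p', h1, ⟨h6.okg h2, h3, h6.edge⟩⟩
    · rw [← hs₁] at hD
      obtain ⟨G, p, p', h1, h2, h3, h4, h5⟩ := g2 Q B H.up eps.ker D z F k h c W hF.disj (by omega) b s₀ o ho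
        (by rw [hs₁]; exact s₁.2) hD
      exact ⟨G, p, p', h1, ⟨h5.okg h2, h3, h5.edge⟩⟩

end core

end Pool.Agent.Lib.MP_688fd0_co.SQ3
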