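import Pool.Agent.Lib.MP_688fd0_co.SQ3.V.FlipCtx

/-!
FLIP: statements of the cases.
-/

set_option autoImplicit false

namespace Pool.Agent.Lib.MP_688fd0_co.SQ3

open Pool.Agent.Lib.MP_688fd0_co.OSF Pool.Agent.Lib.MP_688fd0_co.SQ2
open V (Puz)

/-- The line of a vertex. -/
abbrev ln {Q : Type} [Group Q] (B : Lb.{0, 0} Q) (a : B.L) (y : Q) : Q ⧸ Subgroup.zpowers (B.q a) := (y : Q ⧸ _)

/-- A strand of the second tour is a neighbour of a window strand. -/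
def EL2S : Prop :=
  ∀ (Q : Type) [Group Q] [DecidableEq Q] (B : Lb.{0, 0} Q) (a : B.L) (eps : Q →* ℤˣ) (D : Subgroup Q) (z : Q)
    (k c W : ℕ) (H : Hyp B a eps D z k) (d cl : Q → Bool) (ι : Type) (x : ι → Q) (b₁ b₂ : ι → B.L) (j : ι → ℕ)
    (F : ι → Finset Q) (C : Ctx B a H.up D k c W d cl x b₁ b₂ j F) (P : ∀ i, PB H C i), (∃ y, cl y = true) →
    ∃ (i : ι) (v s : F i) (m : ℕ) (b : B.L) (o : ℤ), (P i).Win v ∧ cl (s : Q) = true ∧ m < k ∧ |o| ≤ 2 * c ∧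
      (H.up.U ^ m) (v : Q) * B.q b = (H.up.U ^ ((m : ℤ) + o)) (s : Q) ∧ Dep H.up D (F i) (x i) c 2 (s : Q)

/-- The same with a given commuting label. -/
def EL2cS : Prop :=
  ∀ (Q : Type) [Group Q] [DecidableEq Q] (B : Lb.{0, 0} Q) (a : B.L) (eps : Q →* ℤˣ) (D : Subgroup Q) (z : Q)
    (k c W : ℕ) (H : Hyp B a eps D z k) (d cl : Q → Bool) (ι : Type) (x : ι → Q) (b₁ b₂ : ι → B.L) (j : ι → ℕ)
    (F : ι → Finset Q) (C : Ctx B a H.up D k c W d cl x b₁ b₂ j F) (P : ∀ i, PB H C i), (∃ y, cl y = true) →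
    ∀ b : B.L, (∀ x, H.up.U (x * B.q b) = H.up.U x * B.q b) → B.q b ∉ Subgroup.zpowers (B.q a) →
    ∃ (i : ι) (v : F i), (P i).Win v ∧ cl ((v : Q) * B.q b) = true

/-- A neighbour strand of `s` on a line different from the line of `s` and from `l`. -/
def ENbS : Prop :=
  ∀ (Q : Type) [Group Q] [DecidableEq Q] (B : Lb.{0, 0} Q) (a : B.L) (eps : Q →* ℤˣ) (D : Subgroup Q) (z : Q)
    (k c W : ℕ) (H : Hyp B a eps D z k) (d cl : Q → Bool) (ι : Type) (x : ι → Q) (b₁ b₂ : ι → B.L) (j : ι → ℕ)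
    (F : ι → Finset Q) (_ : Ctx B a H.up D k c W d cl x b₁ b₂ j F) (i : ι) (s : F i) (n : ℕ),
    Dep H.up D (F i) (x i) c n (s : Q) → n + 1 ≤ 4 → ∀ l : Q ⧸ Subgroup.zpowers (B.q a),
    ∃ (s' : F i) (m : ℕ) (b : B.L) (o : ℤ), ln B a (s' : Q) ≠ ln B a (s : Q) ∧ ln B a (s' : Q) ≠ l ∧ m < k ∧
      |o| ≤ 2 * c ∧ (H.up.U ^ m) (s : Q) * B.q b = (H.up.U ^ ((m : ℤ) + o)) (s' : Q) ∧
      Dep H.up D (F i) (x i) c (n + 1) (s' : Q)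

/-- NC: a label that does not commute with `U`. -/
def CaseNCS : Prop :=
  ∀ (Q : Type) [Group Q] [DecidableEq Q] (B : Lb.{0, 0} Q) (a : B.L) (eps : Q →* ℤˣ) (D : Subgroup Q) (z : Q)
    (k c W : ℕ) (H : Hyp B a eps D z k) (d cl : Q → Bool) (ι : Type) (x : ι → Q) (b₁ b₂ : ι → B.L) (j : ι → ℕ)
    (F : ι → Finset Q) (C : Ctx B a H.up D k c W d cl x b₁ b₂ j F) (P : ∀ i, PB H C i),
    (∀ i, lam (F i).card k c ≤ W) → ∀ (p : ℕ), p.Prime → 4 * k < p → ∀ (V : Vd B (ZMod p)), V.chi z = 1 →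
    ∀ γ : Bool, (∃ y, cl y = γ) → ∀ b : B.L, (¬ ∀ x, H.up.U (x * B.q b) = H.up.U x * B.q b) →
    ((CaseI H.up V b ∧ CaseI H.up V (B.inv b)) ∨ (CaseII H.up V b ∧ CaseII H.up V (B.inv b))) →
    ∃ i, (P i).Suc V (wcl cl d γ)

/-- A label with the image `A` or `A⁻¹`. -/
def CaseOneS : Prop :=
  ∀ (Q : Type) [Group Q] [DecidableEq Q] (B : Lb.{0, 0} Q) (a : B.L) (eps : Q →* ℤˣ) (D : Subgroup Q) (z : Q)
    (k c W : ℕ) (H : Hyp B a eps D z k) (d cl : Q → Bool) (ι : Type) (x : ι → Q) (b₁ b₂ : ι → B.L) (j : ι → ℕ)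
    (F : ι → Finset Q) (C : Ctx B a H.up D k c W d cl x b₁ b₂ j F) (P : ∀ i, PB H C i),
    (∀ i, lam (F i).card k c ≤ W) → ∀ (p : ℕ), p.Prime → 4 * k < p → ∀ (V : Vd B (ZMod p)), V.chi z = 1 →
    ∀ γ : Bool, (∃ y, cl y = γ) → ∀ b : B.L, (B.q b = B.q a ∨ B.q b = (B.q a)⁻¹) →
    CaseI H.up V b → CaseI H.up V (B.inv b) → ∃ i, (P i).Suc V (wcl cl d γ)

/-- A commuting label, case I, the first tour. -/
def CaseC1FS : Prop :=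
  ∀ (Q : Type) [Group Q] [DecidableEq Q] (B : Lb.{0, 0} Q) (a : B.L) (eps : Q →* ℤˣ) (D : Subgroup Q) (z : Q)
    (k c W : ℕ) (H : Hyp B a eps D z k) (d cl : Q → Bool) (ι : Type) (x : ι → Q) (b₁ b₂ : ι → B.L) (j : ι → ℕ)
    (F : ι → Finset Q) (C : Ctx B a H.up D k c W d cl x b₁ b₂ j F) (P : ∀ i, PB H C i),
    (∀ i, lam (F i).card k c ≤ W) → ∀ (p : ℕ), p.Prime → 4 * k < p → ∀ (V : Vd B (ZMod p)), V.chi z = 1 →
    (∃ y, cl y = false) → ∀ b : B.L, (∀ x, H.up.U (x * B.q b) = H.up.U x * B.q b) → B.q b ≠ B.q a →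
    B.q b ≠ (B.q a)⁻¹ → CaseI H.up V b → CaseI H.up V (B.inv b) → ∃ i, (P i).Suc V (wcl cl d false)

/-- A commuting label, case I, the second tour. -/
def CaseC1TS : Prop :=
  ∀ (Q : Type) [Group Q] [DecidableEq Q] (B : Lb.{0, 0} Q) (a : B.L) (eps : Q →* ℤˣ) (D : Subgroup Q) (z : Q)
    (k c W : ℕ) (H : Hyp B a eps D z k) (d cl : Q → Bool) (ι : Type) (x : ι → Q) (b₁ b₂ : ι → B.L) (j : ι → ℕ)
    (F : ι → Finset Q) (C : Ctx B a H.up D k c W d cl x b₁ b₂ j F) (P : ∀ i, PB H C i),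
    (∀ i, lam (F i).card k c ≤ W) → ∀ (p : ℕ), p.Prime → 4 * k < p → ∀ (V : Vd B (ZMod p)), V.chi z = 1 →
    (∃ y, cl y = true) → ∀ b : B.L, (∀ x, H.up.U (x * B.q b) = H.up.U x * B.q b) → B.q b ≠ B.q a →
    B.q b ≠ (B.q a)⁻¹ → CaseI H.up V b → CaseI H.up V (B.inv b) → ∃ i, (P i).Suc V (wcl cl d true)

/-- A commuting label, case II, one tour. -/
def CaseC2OS : Prop :=
  ∀ (Q : Type) [Group Q] [DecidableEq Q] (B : Lb.{0, 0} Q) (a : B.L) (eps : Q →* ℤˣ) (D : Subgroup Q) (z : Q)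
    (k c W : ℕ) (H : Hyp B a eps D z k) (d cl : Q → Bool) (ι : Type) (x : ι → Q) (b₁ b₂ : ι → B.L) (j : ι → ℕ)
    (F : ι → Finset Q) (C : Ctx B a H.up D k c W d cl x b₁ b₂ j F) (P : ∀ i, PB H C i),
    (∀ i, lam (F i).card k c ≤ W) → ∀ (p : ℕ), p.Prime → 4 * k < p → ∀ (V : Vd B (ZMod p)), V.chi z = 1 →
    (∀ y, cl y = false) → ∀ b : B.L, (∀ x, H.up.U (x * B.q b) = H.up.U x * B.q b) →
    B.q b ∉ Subgroup.zpowers (B.q a) → CaseII H.up V b → ∃ i, (P i).Suc V (wcl cl d false)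

/-- A commuting label, case II, two tours. -/
def CaseC2TS : Prop :=
  ∀ (Q : Type) [Group Q] [DecidableEq Q] (B : Lb.{0, 0} Q) (a : B.L) (eps : Q →* ℤˣ) (D : Subgroup Q) (z : Q)
    (k c W : ℕ) (H : Hyp B a eps D z k) (d cl : Q → Bool) (ι : Type) (x : ι → Q) (b₁ b₂ : ι → B.L) (j : ι → ℕ)
    (F : ι → Finset Q) (C : Ctx B a H.up D k c W d cl x b₁ b₂ j F) (P : ∀ i, PB H C i),
    (∀ i, lam (F i).card k c ≤ W) → ∀ (p : ℕ), p.Prime → 4 * k < p → ∀ (V : Vd B (ZMod p)), V.chi z = 1 →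
    (∃ y, cl y = true) → ∀ γ : Bool, ∀ b : B.L, (∀ x, H.up.U (x * B.q b) = H.up.U x * B.q b) →
    B.q b ∉ Subgroup.zpowers (B.q a) → CaseII H.up V b → ∃ i, (P i).Suc V (wcl cl d γ)

end Pool.Agent.Lib.MP_688fd0_co.SQ3
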