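import Pool.Agent.Lib.MP_688fd0_co.SQ3.V.FlipBase
import Pool.Agent.Lib.MP_688fd0_co.SQ3.V.RealA
import Pool.Agent.Lib.MP_688fd0_co.SQ2.V.Ret

/-!
FLIP: the rungs and windows of one tree path, in the language of `Up`.
-/

set_option autoImplicit false

namespace Pool.Agent.Lib.MP_688fd0_co.SQ3

open Pool.Agent.Lib.MP_688fd0_co.OSF Pool.Agent.Lib.MP_688fd0_co.SQ2
open V (Puz)

/-- Functions that are constant on the lines. -/
theorem dl_zpow {Q : Type} [Group Q] {B : Lb.{0, 0} Q} {U : Up B} {α : Type} {d : Q → α} (hd : ∀ y, d (U.U y) = d y)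
    (y : Q) (t : ℤ) : d ((U.U ^ t) y) = d y := by
  induction t using Int.induction_on with
  | zero => rw [U.zero]
  | succ n ih => rw [add_comm, U.zadd, zpow_one, hd, ih]
  | pred n ih =>
    rw [← ih]
    have e1 : (U.U ^ (-(n : ℤ))) y = U.U ((U.U ^ (-(n : ℤ) - 1)) y) := by
      have e2 : (U.U ^ (1 + (-(n : ℤ) - 1))) y = U.U ((U.U ^ (-(n : ℤ) - 1)) y) := by
        rw [U.zadd, zpow_one]
      rw [← e2]
      congr 2
      ring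
    rw [e1, hd]

theorem k_eq {k : ℕ} (hk : 0 < k) (p : ℕ) : (k - 1) * p + p = k * p := by
  obtain ⟨m, rfl⟩ : ∃ m, k = m + 1 := ⟨k - 1, by omega⟩
  rw [Nat.add_sub_cancel]; ring

section path

variable {Q : Type} [Group Q] [DecidableEq Q] {B : Lb.{0, 0} Q} {U : Up B} {P D : Subgroup Q} {z : Q} {k : ℕ}

/-- The gadgets of a path: `G 0` of the label `b₁`, `G 1` of the label `b₂`, both at the strand `x`. -/
structure PG {F : Finset Q} (h : FrD U P D z F k) (x : F) (b₁ b₂ : B.L) (G : Fin 5 → BGad h.toFrt)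
    (p₀ p₀' p₁ p₁' hm : ℕ) (o₀ o₁ : ℤ) : Prop where
  x₀ : (G 0).x = x
  x₁ : (G 1).x = x
  g₀ : AG h (G 0) b₁ p₀ p₀' hm o₀
  g₁ : AG h (G 1) b₂ p₁ p₁' hm o₁
  ok : ∀ i, OKG h hm (G i)

/-- The cup rung of the path. -/
noncomputable def rf {F : Finset Q} (h : FrD U P D z F k) (x : F) (p₀ : ℕ) : Rg (Fin 5) (Sy h.toFrt) :=
  ⟨0, h.cj (x : Q) ^ ((k - 1) * p₀)⟩

/-- The cap rung of the path. -/
noncomputable def rg {F : Finset Q} (h : FrD U P D z F k) (x : F) (p₁ j : ℕ) : Rg (Fin 5) (Sy h.toFrt) :=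
  ⟨1, h.cj (x : Q) ^ ((k - 1) * p₁ + j)⟩

variable {F : Finset Q} {h : FrD U P D z F k} {x : F} {b₁ b₂ : B.L} {G : Fin 5 → BGad h.toFrt}
  {p₀ p₀' p₁ p₁' hm : ℕ} {o₀ o₁ : ℤ}

theorem PG.xf (W : PG h x b₁ b₂ G p₀ p₀' p₁ p₁' hm o₀ o₁) : (bigP G).x (rf h x p₀) = x := by
  show h.cj (x : Q) ^ ((k - 1) * p₀) • (G 0).x = x
  rw [W.x₀, h.cj_pow_self]

theorem PG.xg (W : PG h x b₁ b₂ G p₀ p₀' p₁ p₁' hm o₀ o₁) (j : ℕ) : (bigP G).x (rg h x p₁ j) = x := by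
  show h.cj (x : Q) ^ ((k - 1) * p₁ + j) • (G 1).x = x
  rw [W.x₁, h.cj_pow_self]

theorem PG.yf (W : PG h x b₁ b₂ G p₀ p₀' p₁ p₁' hm o₀ o₁) :
    (x : Q) * B.q b₁ = (U.U ^ o₀) ((bigP G).y (rf h x p₀) : Q) := by
  have h1 := W.g₀.edge
  rw [W.x₀] at h1
  have h2 := h.rungY (n := (k - 1) * p₀) (m := 0) (q := p₀) h1 (k_eq h.he p₀)
  rw [pow_zero, Nat.cast_zero, add_zero, W.g₀.off] at h2
  exact h2

theorem PG.yg (W : PG h x b₁ b₂ G p₀ p₀' p₁ p₁' hm o₀ o₁) (j : ℕ) :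
    (U.U ^ j) (x : Q) * B.q b₂ = (U.U ^ (o₁ + j)) ((bigP G).y (rg h x p₁ j) : Q) := by
  have h1 := W.g₁.edge
  rw [W.x₁] at h1
  have h3 : (k - 1) * p₁ + j + p₁ = k * p₁ + j := by have := k_eq h.he p₁; omega
  have h2 := h.rungY (n := (k - 1) * p₁ + j) (m := j) (q := p₁) h1 h3
  rw [W.g₁.off] at h2
  exact h2

theorem PG.othf (W : PG h x b₁ b₂ G p₀ p₀' p₁ p₁' hm o₀ o₁) :
    (bigP G).oth (rf h x p₀) x = (bigP G).y (rf h x p₀) := by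
  unfold Puz.oth
  rw [if_pos W.xf.symm]

theorem PG.othg (W : PG h x b₁ b₂ G p₀ p₀' p₁ p₁' hm o₀ o₁) (j : ℕ) :
    (bigP G).oth (rg h x p₁ j) x = (bigP G).y (rg h x p₁ j) := by
  unfold Puz.oth
  rw [if_pos (W.xg j).symm]

theorem PG.adj (W : PG h x b₁ b₂ G p₀ p₀' p₁ p₁' hm o₀ o₁) (j : ℕ)
    (hne : ∀ t : ℤ, (U.U ^ t) ((x : Q) * B.q b₁) ≠ (U.U ^ j) (x : Q) * B.q b₂) :
    (bigP G).Adj (rg h x p₁ j) (rf h x p₀) x := by
  refine ⟨Or.inl (W.xg j).symm, Or.inl W.xf.symm, ?_⟩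
  rw [W.othf, W.othg]
  intro h0
  apply hne ((o₁ + j) + -o₀)
  rw [W.yf, W.yg j, h0, ← U.zadd]
  congr 2
  ring

/-- The leaf `s₁`. -/
theorem PG.leaf₁ (W : PG h x b₁ b₂ G p₀ p₀' p₁ p₁' hm o₀ o₁) {w : ℕ} (hF : Fr U D w F) {s₁ : Q} (hs : s₁ ∈ F)
    {o : ℤ} (ho : (x : Q) * B.q b₁ = (U.U ^ o) s₁) (hW : |o - o₀| ≤ w) :
    s₁ = ((bigP G).y (rf h x p₀) : Q) :=
  (hF.eq hs ((bigP G).y (rf h x p₀)).2 (ho.symm.trans W.yf) hW).2

/-- The leaf `s₂`. -/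
theorem PG.leaf₂ (W : PG h x b₁ b₂ G p₀ p₀' p₁ p₁' hm o₀ o₁) (j : ℕ) {w : ℕ} (hF : Fr U D w F) {s₂ : Q}
    (hs : s₂ ∈ F) {o : ℤ} (ho : (U.U ^ j) (x : Q) * B.q b₂ = (U.U ^ o) s₂) (hW : |o - (o₁ + j)| ≤ w) :
    s₂ = ((bigP G).y (rg h x p₁ j) : Q) :=
  (hF.eq hs ((bigP G).y (rg h x p₁ j)).2 (ho.symm.trans (W.yg j)) hW).2

theorem fr_eq (t : ℕ) : (bigZ G).Fr t = im (U.U ^ t) F := by
  ext y
  rw [Real.mem_Fr, mem_im]
  constructor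
  · rintro ⟨s, rfl⟩
    show (U.U ^ t)⁻¹ ((U.U ^ t) (s : Q)) ∈ F
    have h1 : (U.U ^ t)⁻¹ ((U.U ^ t) (s : Q)) = s := (U.U ^ t).symm_apply_apply _
    rw [h1]; exact s.2
  · intro hy
    exact ⟨⟨_, hy⟩, (U.U ^ t).apply_symm_apply y⟩

/-- The start level of the windows of the path. -/
def tz (k p₀ : ℕ) : ℕ := ((((k - 1) * p₀ : ℕ) : ZMod k)).val

theorem PG.lev_f (_ : PG h x b₁ b₂ G p₀ p₀' p₁ p₁' hm o₀ o₁) : (bigZ G).lev (rf h x p₀) = tz k p₀ := by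
  show (lv (h.cj (x : Q) ^ ((k - 1) * p₀))).val = _
  rw [h.cj_pow_lv]
  rfl

/-- The windows of the path are the windows of the assembly. -/
theorem PG.fwin (W : PG h x b₁ b₂ G p₀ p₀' p₁ p₁' hm o₀ o₁) (j : ℕ) {E : TW B} {n : ℕ}
    (hE : EWr (bigZ G) (rf h x p₀) (rg h x p₁ j) x E n) :
    FWin U k F (tz k p₀) x ((bigP G).y (rf h x p₀)) ((bigP G).y (rg h x p₁ j)) E n := by
  have h1 := hE.L₀
  have h2 := hE.u₀
  have h3 := hE.u₁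
  have h4 := hE.flat
  rw [W.lev_f] at h1 h2 h3 h4
  rw [W.othf] at h2
  rw [W.othg] at h4
  exact ⟨h1.trans (fr_eq (h := h) _), h3, h2, h4, hE.dvd⟩

/-! ### The conclusion for one path -/

theorem PG.lc (W : PG h x b₁ b₂ G p₀ p₀' p₁ p₁' hm o₀ o₁) (hfin : Finite Q) (hcard : Nat.card D ∣ k) (j : ℕ)
    (hne : ∀ t : ℤ, (U.U ^ t) ((x : Q) * B.q b₁) ≠ (U.U ^ j) (x : Q) * B.q b₂) {p : ℕ} (hp : p.Prime)
    (hkp : 4 * k < p) (V : Vd B (ZMod p)) (hz : V.chi z = 1) {w : Q → ZMod p} (hw : ∀ y, w (U.U y) = w y)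
    (h₁ : w ((x : Q) * B.q b₁) = - w (x : Q)) (h₂ : w ((U.U ^ j) (x : Q) * B.q b₂) = - w (x : Q)) :
    LC h G hm (rf h x p₀) (rg h x p₁ j) x p V w where
  finQ := hfin
  finι := inferInstance
  card := hcard
  prime := hp
  big := hkp
  al := hz
  ht := fun i => (W.ok i).ht
  cap := fun i V' => (W.ok i).cap _ V'
  adj := W.adj j hne
  wl := hw
  wf := by rw [W.othf, ← dl_zpow hw _ o₀, ← W.yf, h₁]
  wg := by rw [W.othg, ← dl_zpow hw _ (o₁ + j), ← W.yg j, h₂]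

omit [DecidableEq Q] in
theorem sy_finite (h : FrD U P D z F k) : Finite (Sy h.toFrt) := by
  have : NeZero k := ⟨h.he.ne'⟩
  have : Finite (Multiplicative (ZMod k)) := inferInstanceAs (Finite (ZMod k))
  infer_instance

/-- Steps can be undone. -/
theorem bigRet (h : FrD U P D z F k) (G : Fin 5 → BGad h.toFrt) (Tok : Type) [Fintype Tok]
    (s s' : Puz.St F (Rg (Fin 5) (Sy h.toFrt)) Tok) (hs : (bigP G).WReach s s') : (bigP G).WReach s' s := by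
  classical
  have := sy_finite h
  have := Fintype.ofFinite (Rg (Fin 5) (Sy h.toFrt))
  exact V.ret F (Rg (Fin 5) (Sy h.toFrt)) Tok (bigP G) (bigHom G) s s' hs

/-- Windows of the path. -/
theorem PG.real (W : PG h x b₁ b₂ G p₀ p₀' p₁ p₁' hm o₀ o₁) (j : ℕ)
    (hne : ∀ t : ℤ, (U.U ^ t) ((x : Q) * B.q b₁) ≠ (U.U ^ j) (x : Q) * B.q b₂) :
    ∃ (E : TW B) (n : ℕ), EWr (bigZ G) (rf h x p₀) (rg h x p₁ j) x E n ∧
      n ≤ (NW F (Rg (Fin 5) (Sy h.toFrt)) + 2) * (k + hm) := by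
  have := sy_finite h
  have := Fintype.ofFinite (Rg (Fin 5) (Sy h.toFrt))
  have hadj := W.adj j hne
  have h0 : (bigP G).WReach ((bigP G).stb (rf h x p₀) (rg h x p₁ j) x) ((bigP G).st₁ (rf h x p₀)) :=
    ⟨[(rf h x p₀, x)], ⟨hadj, trivial⟩, Puz.stb_step (bigP G) hadj⟩
  exact real0 F (Rg (Fin 5) (Sy h.toFrt)) (bigP G) Q B U (bigZ G) (z ^ k) (rf h x p₀) (rg h x p₁ j) x hm
    h.toFrt.Per (fun r => (W.ok r.i).ht) hadj (bigRet h G _ _ _ h0)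

/-- The conclusion. -/
theorem PG.conc (W : PG h x b₁ b₂ G p₀ p₀' p₁ p₁' hm o₀ o₁) (j : ℕ)
    (hne : ∀ t : ℤ, (U.U ^ t) ((x : Q) * B.q b₁) ≠ (U.U ^ j) (x : Q) * B.q b₂) {p : ℕ} {w : Q → ZMod p}
    {V : Vd B (ZMod p)} {Λ : ℕ} (hΛ : (4 * NW F (Rg (Fin 5) (Sy h.toFrt)) + 8) * (k + hm) ≤ Λ)
    (hL : LRes h G hm (rf h x p₀) (rg h x p₁ j) x p V w) :
    ∃ (X X' : TW B) (n : ℕ), n ≤ Λ ∧ FWin U k F (tz k p₀) x
      ((bigP G).y (rf h x p₀)) ((bigP G).y (rg h x p₁ j)) X n ∧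
      Ver U X X' n ((U.U ^ tz k p₀) ((bigP G).y (rg h x p₁ j) : Q)) ∧
      dvolw V w X X' ≠ 0 := by
  obtain ⟨E, n₀, h1, h2⟩ := W.real j hne
  obtain ⟨X, X', n, g1, g2, g4, g5⟩ := hL E n₀ h1
  refine ⟨X, X', n, ?_, W.fwin j g2, ?_, g5⟩
  · refine le_trans (g4.trans ?_) hΛ
    calc 2 * n₀ + (2 * NW F (Rg (Fin 5) (Sy h.toFrt)) + 4) * (k + hm)
        ≤ 2 * ((NW F (Rg (Fin 5) (Sy h.toFrt)) + 2) * (k + hm)) +
          (2 * NW F (Rg (Fin 5) (Sy h.toFrt)) + 4) * (k + hm) := by gcongr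
      _ = _ := by ring
  · rw [W.lev_f, W.othg] at g1
    exact g1

/-! ### The bound -/

omit [DecidableEq Q] in
/-- A symmetry is determined by its level and the image of one strand. -/
theorem card_sy_le (h : FrD U P D z F k) (hF : F.Nonempty) : Nat.card (Sy h.toFrt) ≤ F.card * k := by
  obtain ⟨s, hs⟩ := hF
  have : NeZero k := ⟨h.he.ne'⟩
  let f : Sy h.toFrt → F × ZMod k := fun g => (g • (⟨s, hs⟩ : F), lv g)
  have hf : Function.Injective f := by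
    intro g g' hgk
    have h1 : lv g = lv g' := (Prod.ext_iff.1 hgk).2
    have h2 : g • (⟨s, hs⟩ : F) = g' • (⟨s, hs⟩ : F) := (Prod.ext_iff.1 hgk).1
    exact sy_ext' h1 ⟨s, hs⟩ h2
  have h1 := Nat.card_le_card_of_injective f hf
  have h2 : Nat.card F = F.card := by rw [Nat.card_eq_fintype_card, Fintype.card_coe]
  rwa [Nat.card_prod, h2, Nat.card_zmod] at h1

omit [DecidableEq Q] in
theorem NW_le (h : FrD U P D z F k) (hF : F.Nonempty) :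
    NW F (Rg (Fin 5) (Sy h.toFrt)) ≤ 10 * (F.card * k * F.card ^ F.card) + 2 := by
  have h0 : Nat.card (Rg (Fin 5) (Sy h.toFrt)) = Nat.card (Fin 5) * Nat.card (Sy h.toFrt) := by
    rw [← Nat.card_prod]
    exact Nat.card_congr (Rg.equiv _ _).symm
  have h1 : Nat.card (Rg (Fin 5) (Sy h.toFrt)) ≤ 5 * (F.card * k) := by
    rw [h0, Nat.card_eq_fintype_card (α := Fin 5), Fintype.card_fin]
    exact Nat.mul_le_mul_left 5 (card_sy_le h hF)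
  have h2 : Nat.card F = F.card := by rw [Nat.card_eq_fintype_card, Fintype.card_coe]
  unfold NW
  rw [h2]
  have h3 := Nat.mul_le_mul_right (F.card ^ F.card) h1
  have h4 : 5 * (F.card * k) * F.card ^ F.card = 5 * (F.card * k * F.card ^ F.card) := by ring
  omega

omit [DecidableEq Q] in
/-- The bound for FLIP. -/
theorem bnd (h : FrD U P D z F k) (hF : F.Nonempty) (c : ℕ) :
    (4 * NW F (Rg (Fin 5) (Sy h.toFrt)) + 8) * (k + hgt F.card (2 * c + 2 * k)) ≤ lam F.card k c := by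
  have h1 := NW_le h hF
  unfold lam hgt
  generalize F.card * k * F.card ^ F.card = X at h1 ⊢
  generalize NW F (Rg (Fin 5) (Sy h.toFrt)) = N at h1 ⊢
  generalize F.card.factorial = Y
  have h2 : 4 * N + 8 ≤ 40 * X + 16 := by omega
  have h3 : k + (4 * Y + 4 * (2 * c + 2 * k) + 8) ≤ 2 * (4 * Y + 4 * (c + k) + 8 + 4 * k + 4) := by omega
  calc (4 * N + 8) * (k + (4 * Y + 4 * (2 * c + 2 * k) + 8))
      ≤ (40 * X + 16) * (2 * (4 * Y + 4 * (c + k) + 8 + 4 * k + 4)) := Nat.mul_le_mul h2 h3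
    _ = (80 * X + 32) * (4 * Y + 4 * (c + k) + 8 + 4 * k + 4) := by ring
    _ ≤ (1000 * (X + 10)) * (4 * Y + 4 * (c + k) + 8 + 4 * k + 4) :=
        Nat.mul_le_mul_right _ (by omega)

end path

end Pool.Agent.Lib.MP_688fd0_co.SQ3
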