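import Pool.Agent.Lib.MP_688fd0_co.SQ3.V.CMA
import Pool.Agent.Lib.MP_688fd0_co.SQ3.V.One
import Pool.Agent.Lib.MP_688fd0_co.SQ3.V.Real0
import Pool.Agent.Lib.MP_688fd0_co.SQ3.V.FlipPath

/-!
Chapter V for one window (`c₀ ≤ 2`): the weights `w` are constant only on the strands, and there is no condition on the
weights of the rungs `f` and `g`.
-/

set_option autoImplicit false

namespace Pool.Agent.Lib.MP_688fd0_co.SQ3

open Pool.Agent.Lib.MP_688fd0_co.OSF Pool.Agent.Lib.MP_688fd0_co.SQ2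
open V (Puz)

/-- The weight `w` is constant on the strands (up to the level `e`). -/
def LW {Q : Type} [Group Q] {B : Lb.{0, 0} Q} (U : Up B) (F : Finset Q) (e : ℕ) {R : Type} (w : Q → R) : Prop :=
  ∀ s ∈ F, ∀ t < e, w ((U.U ^ t) s) = w s

/-- The local context for local weights. -/
structure LC0 {Q : Type} [Group Q] [DecidableEq Q] {B : Lb.{0, 0} Q} {U : Up B} {P D : Subgroup Q} {z : Q}
    {F : Finset Q} {e : ℕ} (h : FrD U P D z F e) {ι : Type} (G : ι → BGad h.toFrt) (hm : ℕ)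
    (f g : Rg ι (Sy h.toFrt)) (l₀ : F) (p : ℕ) (V : Vd B (ZMod p)) (w : Q → ZMod p) : Prop where
  finQ : Finite Q
  finι : Finite ι
  card : Nat.card D ∣ e
  prime : p.Prime
  big : 4 * e < p
  al : V.chi z = 1
  ht : ∀ i, (G i).H ≤ hm
  cap : ∀ (i : ι) (V' : Vd B (ZMod p)), (∀ x, V'.n (U.up x) = 0) → V'.chi z ^ e = 1 →
    V'.vol (G i).X.w₀ (G i).X.cap = Xc V' (G i).δ * V'.vol (G i).x (G i).X.cup
  adj : (bigP G).Adj g f l₀
  wl : LW U F e w

theorem LC0.wlev {Q : Type} [Group Q] [DecidableEq Q] {B : Lb.{0, 0} Q} {U : Up B} {P D : Subgroup Q} {z : Q}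
    {F : Finset Q} {e : ℕ} {h : FrD U P D z F e} {ι : Type} {G : ι → BGad h.toFrt} {hm : ℕ}
    {f g : Rg ι (Sy h.toFrt)} {l₀ : F} {p : ℕ} {V : Vd B (ZMod p)} {w : Q → ZMod p}
    (hL : LC0 h G hm f g l₀ p V w) (s : F) : w ((bigZ G).vt s ((bigZ G).lev f)) = w ((bigZ G).g s) :=
  hL.wl s s.2 _ ((bigZ G).lev_lt f)

open CMA SQ2.V SQ2.V.FC1

/-- CMA for local weights. -/
theorem cma0 (key : V.KeyAS) {Q : Type} [Group Q] [DecidableEq Q] {B : Lb.{0, 0} Q} {U : Up B} {P D : Subgroup Q}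
    {z : Q} {F : Finset Q} {e : ℕ} {h : FrD U P D z F e} {ι : Type} {G : ι → BGad h.toFrt} {hm : ℕ}
    {f g : Rg ι (Sy h.toFrt)} {l₀ : F} {p : ℕ} {V : Vd B (ZMod p)} {w : Q → ZMod p}
    (hL : LC0 h G hm f g l₀ p V w) {i : ι} {b : B.L} {p₀ p₁ : ℕ} (hC : COK h (G i) b p₀ p₁) (hI : CaseI U V b)
    {s : Puz.St F (Rg ι (Sy h.toFrt)) ((bigP G).TokOf f)} {t : (bigP G).TokOf f}
    (hs : (bigP G).WReach ((bigP G).st₁ f) s) (hon : (bigP G).On s.1 (G i).x)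
    (hoth : (bigP G).oth s.1 (G i).x ≠ (G i).y) (ht : s.2 t = (G i).y) (hwt : w ((t : F) : Q) ≠ 0) :
    LRes h G hm f g l₀ p V w := by
  intro E n₀ hE
  have : Finite ι := hL.finι
  have : Finite (Sy h.toFrt) := finSy h.toFrt
  have : Fact p.Prime := ⟨hL.prime⟩
  have hal : V.chi z ^ e = 1 := by rw [hL.al, one_pow]
  have hn := hI.up
  have hvols := bigVols G V hal
  have hfin : Finite (Rg ι (Sy h.toFrt)) := inferInstance
  have hsym : ∀ s s' : Puz.St F (Rg ι (Sy h.toFrt)) ((bigP G).TokOf f),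
      (bigP G).WReach s s' → (bigP G).WReach s' s := ret _ _ _ (bigP G) (bigHom G)
  -- the rungs of the label
  have hT : ∀ k : Sy h.toFrt, (bigP G).T ⟨i, k⟩ = 1 := by
    intro k
    apply Equiv.ext
    intro s
    show k • (G i).T (k⁻¹ • s) = s
    rw [hC.T, Equiv.Perm.one_apply, smul_inv_smul]
  have hθ : ∀ (k : Sy h.toFrt) (s : F), ¬ (bigP G).On ⟨i, k⟩ s →
      Xc V k * V.vol ((k⁻¹ • s : F) : Q) ((G i).X.path ((k⁻¹ • s : F) : Q)) = 0 := by
    intro k s hs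
    rw [hC.path (ZMod p) V hn (k⁻¹ • s), mul_zero]
    · intro h0
      apply hs
      left
      show s = k • (G i).x
      rw [← h0, smul_inv_smul]
    · intro h0
      apply hs
      right
      show s = k • (G i).y
      rw [← h0, smul_inv_smul]
  have hx1 : (bigP G).x ⟨i, 1⟩ = (G i).x := one_smul _ _
  have hon1 : (bigP G).On ⟨i, 1⟩ (G i).x := Or.inl hx1.symm
  have hoth1 : (bigP G).oth ⟨i, 1⟩ (G i).x = (G i).y := by
    unfold Puz.oth
    rw [if_pos hx1.symm]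
    show (1 : Sy h.toFrt) • (G i).y = (G i).y
    rw [one_smul]
  have hadj : (bigP G).Adj s.1 ⟨i, 1⟩ (G i).x := ⟨hon, hon1, by rw [hoth1]; exact hoth⟩
  have ht1 := tau_on (bigP G) (hT 1) hon1
  have hδ : (G i).δ • (G i).x = (G i).x := by rw [hC.del, h.cj_self]
  have hflip : (bigP G).Flip (fun r => Xc V r.h * V.vol (G r.i).x (G r.i).X.cup)
      (fun r s => Xc V r.h * V.vol ((r.h⁻¹ • s : F) : Q) ((G r.i).X.path ((r.h⁻¹ • s : F) : Q)))
      (fun s => w (s : Q)) f g l₀ := by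
    refine key F (Rg ι (Sy h.toFrt)) (ZMod p) (bigP G) _ _ _ f g l₀ s t (G i).x ⟨i, 1⟩ hsym hL.adj hs hadj
      (hT 1) (hT _) ?_ (by rw [hoth1]; exact ht) hwt ?_
    · intro L hL'
      have h2 : ¬ (bigP G).On ((bigP G).tau ⟨i, 1⟩) L := by
        intro h3
        apply hL'
        rw [on_iff (bigP G) hon1]
        rw [on_iff (bigP G) ht1.1, ht1.2] at h3
        exact h3
      exact (hθ 1 L hL').trans (hθ ((1 : Sy h.toFrt) * (G i).δ) L h2).symm
    · have v0 : (bigP G).volr (fun r => Xc V r.h * V.vol (G r.i).x (G r.i).X.cup) ⟨i, 1⟩ (G i).x =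
          V.vol (G i).x (G i).X.cup := by
        unfold Puz.volr
        rw [if_pos hx1.symm]
        show Xc V (1 : Sy h.toFrt) * V.vol (G i).x (G i).X.cup = _
        rw [Xc_one V hal (G i).x, one_mul]
      obtain ⟨α, hα⟩ : ∃ α, α = V.chi (B.q (U.up ((G i).x : Q))) := ⟨_, rfl⟩
      have hα1 : α - 1 ≠ 0 := sub_ne_zero.2 (hα ▸ hI.al _)
      have hξ : Xc V (G i).δ = α := by
        rw [hC.del, hα]
        exact Xc_cj h V hal (G i).x
      have hx2 : (bigP G).x ⟨i, (1 : Sy h.toFrt) * (G i).δ⟩ = (G i).x := by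
        show ((1 : Sy h.toFrt) * (G i).δ) • (G i).x = (G i).x
        rw [one_mul, hδ]
      have hx3 : (bigP G).x ⟨i, (1 : Sy h.toFrt) * (G i).δ * (G i).δ⟩ = (G i).x := by
        show ((1 : Sy h.toFrt) * (G i).δ * (G i).δ) • (G i).x = (G i).x
        rw [one_mul, mul_smul, hδ, hδ]
      have t1 : (bigP G).tau ⟨i, 1⟩ = ⟨i, (1 : Sy h.toFrt) * (G i).δ⟩ := rfl
      have t2 : (bigP G).tau ((bigP G).tau ⟨i, 1⟩) = ⟨i, (1 : Sy h.toFrt) * (G i).δ * (G i).δ⟩ := rfl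
      have v1 : (bigP G).volr (fun r => Xc V r.h * V.vol (G r.i).x (G r.i).X.cup) ((bigP G).tau ⟨i, 1⟩) (G i).x =
          α * V.vol (G i).x (G i).X.cup := by
        unfold Puz.volr
        rw [t1, if_pos hx2.symm]
        show Xc V ((1 : Sy h.toFrt) * (G i).δ) * V.vol (G i).x (G i).X.cup = _
        rw [one_mul, hξ]
      have v2 : (bigP G).volr (fun r => Xc V r.h * V.vol (G r.i).x (G r.i).X.cup)
          ((bigP G).tau ((bigP G).tau ⟨i, 1⟩)) (G i).x = α * α * V.vol (G i).x (G i).X.cup := by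
        unfold Puz.volr
        rw [t2, if_pos hx3.symm]
        show Xc V ((1 : Sy h.toFrt) * (G i).δ * (G i).δ) * V.vol (G i).x (G i).X.cup = _
        rw [one_mul, Xc_mul V hal (G i).x, hξ]
      rw [v0, v1, v2]
      have hvol : V.vol (G i).x (G i).X.cup ≠ 0 := by
        rw [hC.cup (ZMod p) V hn]
        exact mul_ne_zero (CMA.chi_ne V _) hI.nb
      intro h0
      have h3 : (α - 1) * (α - 1) * V.vol (G i).x (G i).X.cup = 0 := by linear_combination h0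
      exact (mul_ne_zero (mul_ne_zero hα1 hα1) hvol) h3
  have : Fintype (Rg ι (Sy h.toFrt)) := Fintype.ofFinite _
  obtain ⟨X, X', n, h1, h2, h3, h4, h5⟩ := realA0 F (Rg ι (Sy h.toFrt)) (bigP G) Q B U (bigZ G) (z ^ e) (ZMod p) V _ _ _
    w f g l₀ hm E n₀ h.toFrt.Per (fun r => hL.ht r.i) hL.adj hsym hvols hn
    (fun r => big_ca G V hal (fun i => hL.cap i V hn hal) r) hL.wlev hE hflip
  refine ⟨X, X', n, h1, h2, ?_, h5⟩
  refine h4.trans ?_
  have : (bigZ G).e = e := rfl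
  rw [this]
  omega

open OneE in
/-- ONE for local weights. -/
theorem one0 {Q : Type} [Group Q] [DecidableEq Q] {B : Lb.{0, 0} Q} {U : Up B} {P D : Subgroup Q}
    {z : Q} {F : Finset Q} {e : ℕ} {h : FrD U P D z F e} {ι : Type} {G : ι → BGad h.toFrt} {hm : ℕ}
    {f g : Rg ι (Sy h.toFrt)} {l₀ : F} {p : ℕ} {V : Vd B (ZMod p)} {w : Q → ZMod p}
    (hC : LC0 h G hm f g l₀ p V w) (hn : ∀ x, V.n (U.up x) = 0)
    (hb : ∀ x, ∃ b', B.q b' = B.q (U.up x) ∧ V.n b' ≠ 0) (s : F) (hs0 : s ≠ l₀) (hs1 : s ≠ (bigP G).oth f l₀)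
    (hws : w (s : Q) ≠ 0) : LRes h G hm f g l₀ p V w := by
  intro E n₀ hE
  have : Fact p.Prime := ⟨hC.prime⟩
  obtain ⟨d1, d2, d3, d4, d5, d6⟩ := E.extnU_data U e
  have hx : (bigZ G).vt s ((bigZ G).lev f) ∈ E.tok₀ := by
    rw [TW.mem_tok₀, hE.L₀, hE.u₀, hE.u₁]
    exact ⟨(bigZ G).vt_mem _ _, fun h1 => hs1 ((bigZ G).vt_inj h1), fun h1 => hs0 ((bigZ G).vt_inj h1)⟩
  have hwx : w ((bigZ G).vt s ((bigZ G).lev f)) ≠ 0 := by
    rw [hC.wlev]
    exact hws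
  obtain ⟨b', hb', hb0⟩ := hb (E.f ((bigZ G).vt s ((bigZ G).lev f)))
  obtain ⟨X', g1, g2⟩ := replUp V w hE.flat h.he hx hwx (hn _) hb' hb0
  refine ⟨E.extnU U e, X', n₀ + e, g1, ⟨g1.flat, by rw [d1]; exact hE.L₀, by rw [d2]; exact hE.u₀,
    by rw [d3]; exact hE.u₁, Dvd.dvd.add hE.dvd (dvd_refl _), by rw [d4]; exact hE.cup⟩, ?_, g2⟩
  have h1 : e ≤ (2 * NW F (Rg ι (Sy h.toFrt)) + 4) * (e + hm) := by
    calc e ≤ 1 * (e + hm) := by omega
      _ ≤ (2 * NW F (Rg ι (Sy h.toFrt)) + 4) * (e + hm) := Nat.mul_le_mul_right _ (by omega)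
  omega


/-- Class II (waiting): two reachable exits with different costs of waiting. -/
theorem wait0 {Q : Type} [Group Q] [DecidableEq Q] {B : Lb.{0, 0} Q} {U : Up B} {P D : Subgroup Q}
    {z : Q} {F : Finset Q} {e : ℕ} {h : FrD U P D z F e} {ι : Type} {G : ι → BGad h.toFrt} {hm : ℕ}
    {f g : Rg ι (Sy h.toFrt)} {l₀ : F} {p : ℕ} {V : Vd B (ZMod p)} {w : Q → ZMod p}
    (hL : LC0 h G hm f g l₀ p V w) (hom : ∀ x, U.wt V (U.U x) = U.wt V x)
    {s : Puz.St F (Rg ι (Sy h.toFrt)) ((bigP G).TokOf f)} {r' : Rg ι (Sy h.toFrt)} {v : F}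
    (hs : (bigP G).WReach ((bigP G).st₁ f) s) (hadj : (bigP G).Adj s.1 r' v)
    (hne : (bigP G).gam (fun s : F => U.wt V (s : Q)) (fun t : (bigP G).TokOf f => w ((t : F) : Q)) s r' v ≠
      (bigP G).gam (fun s : F => U.wt V (s : Q)) (fun t : (bigP G).TokOf f => w ((t : F) : Q))
        ((bigP G).stb f g l₀) f l₀) : LRes h G hm f g l₀ p V w := by
  intro E n₀ hE
  have : Finite ι := hL.finι
  have : Finite (Sy h.toFrt) := finSy h.toFrt
  have : Fact p.Prime := ⟨hL.prime⟩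
  have hal : V.chi z ^ e = 1 := by rw [hL.al, one_pow]
  have hvols := bigVols G V hal
  have hfin : Finite (Rg ι (Sy h.toFrt)) := inferInstance
  have hsym : ∀ s s' : Puz.St F (Rg ι (Sy h.toFrt)) ((bigP G).TokOf f),
      (bigP G).WReach s s' → (bigP G).WReach s' s := ret _ _ _ (bigP G) (bigHom G)
  have he : (((bigZ G).e : ℕ) : ZMod p) ≠ 0 := by
    intro h0
    have h1 := (ZMod.natCast_eq_zero_iff _ _).1 h0
    have h2 := Nat.le_of_dvd h.he h1
    have := hL.big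
    have h3 : (bigZ G).e = e := rfl
    omega
  have : Fintype (Rg ι (Sy h.toFrt)) := Fintype.ofFinite _
  obtain ⟨X, X', n, h1, h2, h3, h4, h5⟩ := realB0 F (Rg ι (Sy h.toFrt)) (bigP G) Q B U (bigZ G) (z ^ e) (ZMod p) V _ _ _
    w f g l₀ hm E n₀ h.toFrt.Per (fun r => hL.ht r.i) hL.adj hsym hvols hom he hL.wlev hE ⟨s, r', v, hs, hadj, hne⟩
  refine ⟨X, X', n, h1, h2, ?_, h5⟩
  refine h4.trans ?_
  have : (bigZ G).e = e := rfl
  rw [this]
  omega

/-- The context of a path. -/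
theorem PG.lc0 {Q : Type} [Group Q] [DecidableEq Q] {B : Lb.{0, 0} Q} {U : Up B} {P D : Subgroup Q} {z : Q} {k : ℕ}
    {F : Finset Q} {h : FrD U P D z F k} {x : F} {b₁ b₂ : B.L} {G : Fin 5 → BGad h.toFrt} {p₀ p₀' p₁ p₁' hm : ℕ}
    {o₀ o₁ : ℤ} (W : PG h x b₁ b₂ G p₀ p₀' p₁ p₁' hm o₀ o₁) (hfin : Finite Q) (hcard : Nat.card D ∣ k) (j : ℕ)
    (hne : ∀ t : ℤ, (U.U ^ t) ((x : Q) * B.q b₁) ≠ (U.U ^ j) (x : Q) * B.q b₂) {p : ℕ} (hp : p.Prime)
    (hkp : 4 * k < p) (V : Vd B (ZMod p)) (hz : V.chi z = 1) {w : Q → ZMod p} (hw : LW U F k w) :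
    LC0 h G hm (rf h x p₀) (rg h x p₁ j) x p V w where
  finQ := hfin
  finι := inferInstance
  card := hcard
  prime := hp
  big := hkp
  al := hz
  ht := fun i => (W.ok i).ht
  cap := fun i V' => (W.ok i).cap _ V'
  adj := W.adj j hne
  wl := hw

end Pool.Agent.Lib.MP_688fd0_co.SQ3
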