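import Pool.Agent.Lib.MP_688fd0_co.SQ3.V.Loc
import Pool.Agent.Lib.MP_688fd0_co.SQ2.V.Start

/-!
Chapter V, stage E, module START-W: a reachable state with cap in a component and total weight `≠ 0` there, for arbitrary
weights of the strands.
-/

set_option autoImplicit false

namespace Pool.Agent.Lib.MP_688fd0_co.SQ3.V

open Pool.Agent.Lib.MP_688fd0_co.SQ2.V
open Puz

namespace StartW

/-- The choice of the rung. -/
theorem choose_rungw {S R Sb Rb F : Type} [Fintype S] [DecidableEq S] [Fintype Sb] [DecidableEq Sb]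
    [Field F] {P : Puz S R} {Pb : Puz Sb Rb} (E : Sub P Pb) (d : S → F)
    [DecidablePred (· ∈ Set.range E.iS)] (v₀ : Sb) (w : S) (r₀ r₁ : Rb) (hw : d w = - d (E.iS v₀))
    (h₀ : Pb.On r₀ v₀) (h₁ : Pb.On r₁ v₀) (hne : Pb.oth r₁ v₀ ≠ Pb.oth r₀ v₀)
    (hs : (∑ s, d (E.iS s)) ≠ 0)
    (hs0 : (∑ s, d (E.iS s)) - d (E.iS v₀) - d (E.iS (Pb.oth r₀ v₀)) ≠ 0) :
    ∃ r, Pb.On r v₀ ∧ E.iS (Pb.oth r v₀) ≠ w ∧
      (∑ s, d (E.iS s)) - d (E.iS v₀) - d (E.iS (Pb.oth r v₀)) +
        (if w ∈ Set.range E.iS then d (E.iS (Pb.oth r v₀)) - d w else 0) ≠ 0 := by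
  by_cases hwr : w ∈ Set.range E.iS
  · have hval : ∀ r : Rb, (∑ s, d (E.iS s)) - d (E.iS v₀) - d (E.iS (Pb.oth r v₀)) +
        (if w ∈ Set.range E.iS then d (E.iS (Pb.oth r v₀)) - d w else 0) ≠ 0 := by
      intro r
      rw [if_pos hwr, hw]
      intro h3
      apply hs
      linear_combination h3
    by_cases h3 : E.iS (Pb.oth r₀ v₀) = w
    · exact ⟨r₁, h₁, fun h4 => hne (E.inj (h4.trans h3.symm)), hval r₁⟩
    · exact ⟨r₀, h₀, h3, hval r₀⟩
  · refine ⟨r₀, h₀, fun h3 => hwr ⟨_, h3⟩, ?_⟩
    rw [if_neg hwr, add_zero]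
    exact hs0

end StartW

open StartW in
open Start in
/-- START-W. -/
theorem startw : StartWS := by
  intro S R Sb Rb F _ _ _ _ _ _ _ P Pb E d f g l₀ v₀ r₀ r₁ hsym ha hd1 hd2 hv₀ hr₀ hr₁ hr₀₁ hs hs0
  have hback : P.WReach (P.st₁ f) (P.stb f g l₀) := by
    refine hsym _ _ ?_
    have := WReach.step (P := P) (s := P.stb f g l₀) (r' := f) (v := l₀) ha
    rwa [P.stb_step ha] at this
  have hL1 : P.oth f l₀ ≠ l₀ := oth_ne ha.2.1
  have hL2 : P.oth g l₀ ≠ l₀ := oth_ne ha.1
  by_cases hv1 : E.iS v₀ = P.oth f l₀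
  · -- the cap at `l₁`
    set w := l₀ with hw
    have hfv : P.On f (E.iS v₀) := by rw [hv1]; exact on_oth f l₀
    have hofv : P.oth f (E.iS v₀) = w := by rw [hv1]; exact oth_oth ha.2.1
    have hdw : d w = - d (E.iS v₀) := by rw [hv1, hd1]; ring
    obtain ⟨r, hr1, hr2, hr3⟩ := choose_rungw E d v₀ w r₀ r₁ hdw hr₀ hr₁ hr₀₁ hs hs0
    have hon : P.On (E.iR r) (E.iS v₀) := (E.on_iff r v₀).2 hr1
    have hoth : P.oth (E.iR r) (E.iS v₀) = E.iS (Pb.oth r v₀) := E.oth_eq r v₀
    set u := E.iS (Pb.oth r v₀) with hu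
    have huv : u ≠ E.iS v₀ := by rw [← hoth]; exact oth_ne hon
    have hvw : E.iS v₀ ≠ w := by rw [hv1]; exact hL1
    have hFf : ∀ L, P.On f L ↔ L = E.iS v₀ ∨ L = w := by
      intro L
      rw [on_iff hfv, hofv]
    have hFr : ∀ L, P.On (E.iR r) L ↔ L = E.iS v₀ ∨ L = u := by
      intro L
      rw [on_iff hon, hoth]
    have hadj : P.Adj (E.iR r) f (E.iS v₀) := ⟨hon, hfv, by rw [hoth, hofv]; exact hr2⟩
    let s : St S R (P.TokOf f) := (E.iR r, fun t => if (t : S) = u then w else (t : S))
    have hstep : P.step f (E.iS v₀) s = P.st₁ f := by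
      refine Prod.ext rfl (funext fun t => ?_)
      show P.T f (P.J (E.iR r) f (E.iS v₀) (if (t : S) = u then w else (t : S))) = P.T f t
      congr 1
      unfold J
      rw [hofv, hoth]
      by_cases h : (t : S) = u
      · rw [if_pos h, Equiv.swap_apply_left, h]
      · rw [if_neg h]
        refine Equiv.swap_apply_of_ne_of_ne (fun h' => t.2 ?_) h
        rw [h']
        exact (hFf w).2 (Or.inr rfl)
    have hreach : P.WReach (P.st₁ f) s := by
      refine hsym _ _ ?_
      have := WReach.step (P := P) (s := s) (r' := f) (v := E.iS v₀) hadj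
      rwa [hstep] at this
    have hgood : P.Good s := by
      constructor
      · intro t t' htt
        have htt' : (if (t : S) = u then w else (t : S)) = if (t' : S) = u then w else (t' : S) := htt
        have e : ∀ a : P.TokOf f, (a : S) ≠ w := fun a ha' => a.2 ((hFf _).2 (Or.inr ha'))
        by_cases h1 : (t : S) = u <;> by_cases h3 : (t' : S) = u
        · exact Subtype.ext (h1.trans h3.symm)
        · rw [if_pos h1, if_neg h3] at htt'
          exact absurd htt'.symm (e t')
        · rw [if_neg h1, if_pos h3] at htt'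
          exact absurd htt' (e t)
        · rw [if_neg h1, if_neg h3] at htt'
          exact Subtype.ext htt'
      · intro L
        show (∃ t : P.TokOf f, (if (t : S) = u then w else (t : S)) = L) ↔ ¬ P.On (E.iR r) L
        rw [hFr]
        constructor
        · rintro ⟨t, ht⟩ hL
          have ht2 := t.2
          rw [hFf] at ht2
          push Not at ht2
          by_cases h1 : (t : S) = u
          · rw [if_pos h1] at ht
            rcases hL with hL | hL
            · exact hvw (hL.symm.trans ht.symm)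
            · exact hr2 (hL.symm.trans ht.symm)
          · rw [if_neg h1] at ht
            rcases hL with hL | hL
            · exact ht2.1 (ht.trans hL)
            · exact h1 (ht.trans hL)
        · intro hL
          push Not at hL
          by_cases h1 : L = w
          · refine ⟨⟨u, ?_⟩, ?_⟩
            · rw [hFf]
              rintro (h3 | h3)
              · exact huv h3
              · exact hr2 h3
            · rw [if_pos rfl, h1]
          · refine ⟨⟨L, ?_⟩, ?_⟩
            · rw [hFf]
              rintro (h3 | h3)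
              · exact hL.1 h3
              · exact h1 h3
            · exact if_neg hL.2
    refine ⟨s, r, hreach, rfl, hgood.1, hgood.2, ?_⟩
    have e1 := sum_good P (good_home P f)
      (fun L => if (if L = u then w else L) ∈ Set.range E.iS then d L else 0)
    have e2 := core_sum (Set.range E.iS) d (v := E.iS v₀) (w := w) (u := u) hvw huv hr2 ⟨_, rfl⟩
      ⟨_, rfl⟩
    have e3 : (∑ t, if s.2 t ∈ Set.range E.iS then d t else 0) =
        ∑ L, if L = E.iS v₀ ∨ L = w then (0 : F) else
          if (if L = u then w else L) ∈ Set.range E.iS then d L else 0 := by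
      refine e1.trans (Finset.sum_congr rfl fun L _ => ?_)
      by_cases h3 : P.On f L
      · rw [if_pos h3, if_pos ((hFf L).1 h3)]
      · rw [if_neg h3, if_neg (fun h4 => h3 ((hFf L).2 h4))]
    rw [e3, e2, sum_range E.inj]
    exact hr3
  · -- a step from `stb`
    have hgv : P.On g (E.iS v₀) := by
      rcases hv₀ with h | h | h
      · rw [h]; exact ha.1
      · exact absurd h hv1
      · rw [h]; exact on_oth g l₀
    set w := P.oth g (E.iS v₀) with hw
    have hdw : d w = - d (E.iS v₀) := by
      rcases hv₀ with h | h | h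
      · rw [hw, h, hd2]
      · exact absurd h hv1
      · rw [hw, h, oth_oth ha.1, hd2]; ring
    obtain ⟨r, hr1, hr2, hr3⟩ := choose_rungw E d v₀ w r₀ r₁ hdw hr₀ hr₁ hr₀₁ hs hs0
    have hon : P.On (E.iR r) (E.iS v₀) := (E.on_iff r v₀).2 hr1
    have hoth : P.oth (E.iR r) (E.iS v₀) = E.iS (Pb.oth r v₀) := E.oth_eq r v₀
    set u := E.iS (Pb.oth r v₀) with hu
    have huv : u ≠ E.iS v₀ := by rw [← hoth]; exact oth_ne hon
    have hvw : E.iS v₀ ≠ w := (oth_ne hgv).symm
    have hGg : ∀ L, P.On g L ↔ L = E.iS v₀ ∨ L = w := on_iff hgv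
    have hadj : P.Adj g (E.iR r) (E.iS v₀) := ⟨hgv, hon, by rw [hoth]; exact hr2.symm⟩
    have hgood := good_stb ha
    refine ⟨P.step (E.iR r) (E.iS v₀) (P.stb f g l₀), Pb.tau r, hback.trans (WReach.step hadj),
      E.tau r, (good_step hadj hgood).1, (good_step hadj hgood).2, ?_⟩
    have e1 := sum_good P hgood
      (fun L => if P.J g (E.iR r) (E.iS v₀) L ∈ Set.range E.iS then d L else 0)
    have e2 := core_sum (Set.range E.iS) d (v := E.iS v₀) (w := w) (u := u) hvw huv hr2 ⟨_, rfl⟩
      ⟨_, rfl⟩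
    have hdt : ∀ t : P.TokOf f, d t = d ((P.stb f g l₀).2 t) := by
      intro t
      show d t = d (if (t : S) = P.oth g l₀ then P.oth f l₀ else (t : S))
      by_cases h : (t : S) = P.oth g l₀
      · rw [if_pos h, h, hd1, hd2]
      · rw [if_neg h]
    have e3 : (∑ t, if (P.step (E.iR r) (E.iS v₀) (P.stb f g l₀)).2 t ∈ Set.range E.iS
        then d t else 0) =
        ∑ L, if L = E.iS v₀ ∨ L = w then (0 : F) else
          if (if L = u then w else L) ∈ Set.range E.iS then d L else 0 := by
      refine Eq.trans (Finset.sum_congr rfl fun t _ => ?_)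
        (e1.trans (Finset.sum_congr rfl fun L _ => ?_))
      · show (if P.T (E.iR r) (P.J g (E.iR r) (E.iS v₀) ((P.stb f g l₀).2 t)) ∈ Set.range E.iS
          then d t else 0) = if P.J g (E.iR r) (E.iS v₀) ((P.stb f g l₀).2 t) ∈ Set.range E.iS
            then d ((P.stb f g l₀).2 t) else 0
        rw [hdt t]
        by_cases h : P.J g (E.iR r) (E.iS v₀) ((P.stb f g l₀).2 t) ∈ Set.range E.iS
        · rw [if_pos h, if_pos ((T_mem E r _).2 h)]
        · rw [if_neg h, if_neg (fun h' => h ((T_mem E r _).1 h'))]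
      · by_cases h3 : P.On g L
        · have h4 := (hGg L).1 h3
          rw [if_pos h4]
          exact if_pos h3
        · have h4 : ¬ (L = E.iS v₀ ∨ L = w) := fun h4 => h3 ((hGg L).2 h4)
          rw [if_neg h4]
          refine (if_neg h3).trans ?_
          push Not at h4
          have hJ : P.J g (E.iR r) (E.iS v₀) L = if L = u then w else L := by
            unfold J
            rw [hoth]
            by_cases h5 : L = u
            · rw [if_pos h5, h5, Equiv.swap_apply_left]
            · rw [if_neg h5]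
              exact Equiv.swap_apply_of_ne_of_ne h5 h4.2
          rw [hJ]
    rw [e3, e2, sum_range E.inj]
    exact hr3

end Pool.Agent.Lib.MP_688fd0_co.SQ3.V
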