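import Pool.Agent.Lib.MP_688fd0_co.SQ3.V.SyL
import Pool.Agent.Lib.MP_688fd0_co.SQ3.V.FlipE
import Pool.Agent.Lib.MP_688fd0_co.SQ3.V.StartW
import Pool.Agent.Lib.MP_688fd0_co.SQ3.V.RealA
import Pool.Agent.Lib.MP_688fd0_co.SQ2.V.Ret

/-!
The common part of NC1 and NC2: a component of the big puzzle gives two versions of a window.

`nflipA` is the core for case I: from a reachable state with cap in the component to a flip.
-/

set_option autoImplicit false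

namespace Pool.Agent.Lib.MP_688fd0_co.SQ3

open Pool.Agent.Lib.MP_688fd0_co.OSF Pool.Agent.Lib.MP_688fd0_co.SQ2
open V (Puz)
open SQ2.V.Puz (St)

section

variable {Q : Type} [Group Q] [DecidableEq Q] {B : Lb.{0, 0} Q} {U : Up B} {P D : Subgroup Q} {z : Q} {F : Finset Q}
  {e : ℕ}

/-- Case I: a reachable state with cap in the component gives a flip. -/
theorem nflipA (h : FrD U P D z F e) {ι : Type} [Finite ι] (G : ι → BGad h.toFrt)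
    (f g : Rg ι (Sy h.toFrt)) (l₀ : F) (p : ℕ) [Fact p.Prime] (V : Vd B (ZMod p)) (w : Q → ZMod p)
    (hadj : (bigP G).Adj g f l₀) (hp2 : (2 : ZMod p) ≠ 0)
    (i : ι) (b : B.L) (p₀ p₁ : ℕ) (Γ : Subgroup (Sy h.toFrt)) (gok : GOK h (G i) b p₀ p₁ Γ)
    (hup : ∀ x, V.n (U.up x) = 0)
    {Sb Rb : Type} [Fintype Sb] [DecidableEq Sb] [Fintype Rb] (Pb : Puz Sb Rb) (E : SQ2.V.Sub (bigP G) Pb)
    (hi : ∀ r, ∃ k ∈ Γ, E.iR r = ⟨i, k⟩)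
    (hS : ∀ s : F, (∃ k ∈ Γ, k • (G i).x = s ∨ k • (G i).y = s) → s ∈ Set.range E.iS)
    (s : St F (Rg ι (Sy h.toFrt)) ((bigP G).TokOf f)) (r : Rb)
    (hs : (bigP G).WReach ((bigP G).st₁ f) s) (hsr : s.1 = E.iR r) (hinj : Function.Injective s.2)
    (hgood : ∀ L, (∃ t, s.2 t = L) ↔ ¬ (bigP G).On s.1 L)
    (hsum : (∑ t : (bigP G).TokOf f, if s.2 t ∈ Set.range E.iS then w ((t : F) : Q) else 0) ≠ 0)
    (h1 : Pb.Full) (h2 : Pb.TwoN) (h3 : Pb.NoCut) (h4 : Pb.ConnS) (h5 : Fintype.card Sb < p)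
    (h6 : ∃ δ : ℕ, (δ : ZMod p) ≠ 0 ∧ ∀ L, {r | Pb.On r L}.ncard = δ)
    (h9 : ¬ ∃ β : Sb → ZMod p, ∀ r, Xc V (E.iR r).h * (V.chi ((U.U ^ p₀) ((G i).x : Q)) * V.n b) =
      β (Pb.y r) - β (Pb.x r)) :
    (bigP G).Flip (fun r => Xc V r.h * V.vol (G r.i).x (G r.i).X.cup)
      (fun r s => Xc V r.h * V.vol ((r.h⁻¹ • s : F) : Q) ((G r.i).X.path ((r.h⁻¹ • s : F) : Q)))
      (fun s => w (s : Q)) f g l₀ := by
  have hNe : NeZero e := ⟨h.he.ne'⟩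
  have : Fintype (Rg ι (Sy h.toFrt)) := Fintype.ofFinite _
  have hsym : ∀ s s' : St F (Rg ι (Sy h.toFrt)) ((bigP G).TokOf f),
      (bigP G).WReach s s' → (bigP G).WReach s' s := SQ2.V.ret _ _ _ (bigP G) (bigHom G)
  have hfac : ((Fintype.card Sb).factorial : ZMod p) ≠ 0 := by
    rw [Ne, ZMod.natCast_eq_zero_iff, (Fact.out : p.Prime).dvd_factorial]
    omega
  have hcu : ∀ r, Xc V (E.iR r).h * V.vol (G (E.iR r).i).x (G (E.iR r).i).X.cup =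
      Xc V (E.iR r).h * (V.chi ((U.U ^ p₀) ((G i).x : Q)) * V.n b) := by
    intro r
    obtain ⟨k, hk1, hk2⟩ := hi r
    rw [hk2]
    rw [gok.cup _ V hup]
  refine SQ3.V.flipAE F (Rg ι (Sy h.toFrt)) Sb Rb (ZMod p) (bigP G) Pb E
    (fun r => Xc V r.h * V.vol (G r.i).x (G r.i).X.cup)
    (fun r s => Xc V r.h * V.vol ((r.h⁻¹ • s : F) : Q) ((G r.i).X.path ((r.h⁻¹ • s : F) : Q)))
    (fun s => w (s : Q)) f g l₀ s r hsym hadj ?_ hs hsr hinj hgood hsum h1 h2 h3 h4 hfac hp2 h6 ?_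
  · intro r s hs
    obtain ⟨k, hk1, hk2⟩ := hi r
    rw [hk2]
    show Xc V k * V.vol ((k⁻¹ • s : F) : Q) ((G i).X.path ((k⁻¹ • s : F) : Q)) = 0
    rw [gok.path _ V hup (k⁻¹ • s), mul_zero]
    intro k' hk'
    constructor
    · intro h0
      apply hs
      refine hS s ⟨k * k', Γ.mul_mem hk1 hk', Or.inl ?_⟩
      rw [mul_smul, h0, smul_inv_smul]
    · intro h0
      apply hs
      refine hS s ⟨k * k', Γ.mul_mem hk1 hk', Or.inr ?_⟩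
      rw [mul_smul, h0, smul_inv_smul]
  · rintro ⟨β, hβ⟩
    exact h9 ⟨β, fun r => by rw [← hcu r]; exact hβ r⟩

/-- From a component of type `i` to the conclusion. -/
theorem ncore (h : FrD U P D z F e) {ι : Type} (G : ι → BGad h.toFrt) (hm : ℕ)
    (f g : Rg ι (Sy h.toFrt)) (l₀ : F) (p : ℕ) (V : Vd B (ZMod p)) (w : Q → ZMod p) (lc : LC h G hm f g l₀ p V w)
    (i : ι) (b : B.L) (p₀ p₁ : ℕ) (Γ : Subgroup (Sy h.toFrt)) (gok : GOK h (G i) b p₀ p₁ Γ)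
    {Sb Rb : Type} [Fintype Sb] [DecidableEq Sb] [Fintype Rb] (Pb : Puz Sb Rb) (E : SQ2.V.Sub (bigP G) Pb)
    (hi : ∀ r, ∃ k ∈ Γ, E.iR r = ⟨i, k⟩)
    (hS : ∀ s : F, (∃ k ∈ Γ, k • (G i).x = s ∨ k • (G i).y = s) → s ∈ Set.range E.iS)
    (v₀ : Sb) (hv₀ : E.iS v₀ = l₀ ∨ E.iS v₀ = (bigP G).oth f l₀ ∨ E.iS v₀ = (bigP G).oth g l₀)
    (r₀ : Rb) (hr₀ : Pb.On r₀ v₀) (h7 : (∑ s, w (E.iS s : Q)) ≠ 0)
    (h8 : (∑ s, w (E.iS s : Q)) - w (E.iS v₀ : Q) - w (E.iS (Pb.oth r₀ v₀) : Q) ≠ 0)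
    (h1 : Pb.Full) (h2 : Pb.TwoN) (h3 : Pb.NoCut) (h4 : Pb.ConnS) (h5 : Fintype.card Sb < p)
    (h6 : ∃ δ : ℕ, (δ : ZMod p) ≠ 0 ∧ ∀ L, {r | Pb.On r L}.ncard = δ)
    (hc : (CaseI U V b ∧ ¬ ∃ β : Sb → ZMod p, ∀ r,
        Xc V (E.iR r).h * (V.chi ((U.U ^ p₀) ((G i).x : Q)) * V.n b) = β (Pb.y r) - β (Pb.x r)) ∨
      (CaseII U V b ∧ ∃ r, U.wt V (E.iS (Pb.x r) : Q) ≠ U.wt V (E.iS (Pb.y r) : Q))) :
    LRes h G hm f g l₀ p V w := by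
  intro W n₀ hW
  have : Fact p.Prime := ⟨lc.prime⟩
  have : Finite ι := lc.finι
  have : Finite Q := lc.finQ
  have hNe : NeZero e := ⟨h.he.ne'⟩
  have : Fintype (Rg ι (Sy h.toFrt)) := Fintype.ofFinite _
  have hp2 : (2 : ZMod p) ≠ 0 := by
    intro h0
    have hep := h.he
    have hbig := lc.big
    have h0' : ((2 : ℕ) : ZMod p) = 0 := by exact_mod_cast h0
    have := Nat.le_of_dvd (by norm_num) ((ZMod.natCast_eq_zero_iff 2 p).1 h0')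
    omega
  have hsym : ∀ s s' : St F (Rg ι (Sy h.toFrt)) ((bigP G).TokOf f),
      (bigP G).WReach s s' → (bigP G).WReach s' s := SQ2.V.ret _ _ _ (bigP G) (bigHom G)
  have hfac : ((Fintype.card Sb).factorial : ZMod p) ≠ 0 := by
    rw [Ne, ZMod.natCast_eq_zero_iff, lc.prime.dvd_factorial]
    omega
  have hal : V.chi z ^ e = 1 := by rw [lc.al, one_pow]
  obtain ⟨r₁, hr₁⟩ := h2 r₀ v₀ hr₀
  -- START
  obtain ⟨s, r, hs, hsr, hinj, hgood, hsum⟩ := SQ3.V.startw F (Rg ι (Sy h.toFrt)) Sb Rb (ZMod p) (bigP G) Pb E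
    (fun s => w (s : Q)) f g l₀ v₀ r₀ r₁ hsym lc.adj lc.wf lc.wg hv₀ hr₀ hr₁.2.1 hr₁.2.2.symm h7 h8
  have hper : Per U (bigZ G).e (z ^ e) := h.toFrt.Per
  have hH : ∀ r, (bigZ G).H r ≤ hm := fun r => lc.ht r.i
  have he : (bigZ G).e = e := rfl
  rcases hc with ⟨hI, h9⟩ | ⟨hII, h10⟩
  · have hflip := nflipA h G f g l₀ p V w lc.adj hp2 i b p₀ p₁ Γ gok hI.up Pb E hi hS s r hs hsr hinj hgood hsum
      h1 h2 h3 h4 h5 h6 h9
    have hca := big_ca G V hal (fun i => lc.cap i V hI.up hal)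
    obtain ⟨X, X', n, k1, k2, k3, k4, k5⟩ := realA F (Rg ι (Sy h.toFrt)) (bigP G) Q B U (bigZ G) (z ^ e) (ZMod p) V
      _ _ _ w f g l₀ hm W n₀ hper hH lc.adj hsym (bigVols G V hal) hI.up hca lc.wl hW hflip
    exact ⟨X, X', n, k1, k2, k4.trans (by rw [he]; omega), k5⟩
  · have he0 : (((bigZ G).e : ℕ) : ZMod p) ≠ 0 := by
      rw [he, Ne, ZMod.natCast_eq_zero_iff]
      intro hdvd
      have := Nat.le_of_dvd h.he hdvd
      have := lc.big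
      omega
    have hflip := SQ3.V.flipBE F (Rg ι (Sy h.toFrt)) Sb Rb (ZMod p) (bigP G) Pb E
      (fun s => U.wt V (s : Q)) (fun s => w (s : Q)) f s r hs hsr hinj hgood hsum h1 h2 h3 h4 hfac hp2 h6 h10
    obtain ⟨X, X', n, k1, k2, k3, k4, k5⟩ := realB F (Rg ι (Sy h.toFrt)) (bigP G) Q B U (bigZ G) (z ^ e) (ZMod p) V
      _ _ _ w f g l₀ hm W n₀ hper hH lc.adj hsym (bigVols G V hal) hII.om he0 lc.wl lc.wf lc.wg hW hflip
    exact ⟨X, X', n, k1, k2, k4.trans (by rw [he]; omega), k5⟩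

end

end Pool.Agent.Lib.MP_688fd0_co.SQ3
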