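import Pool.Agent.Lib.MP_688fd0_co.SQ3.V.GOK

/-!
Lemmas on the symmetry group of a frontier, in the language of `Up`.
-/

set_option autoImplicit false

namespace Pool.Agent.Lib.MP_688fd0_co.SQ3

open Pool.Agent.Lib.MP_688fd0_co.OSF Pool.Agent.Lib.MP_688fd0_co.SQ2

universe v

section sy

variable {Q : Type} [Group Q] {B : Lb.{0, v} Q} {U : Up B} {P D : Subgroup Q} {z : Q} {F : Finset Q} {e : ℕ}
  {hF : Frt U P D z F e}

theorem lv_pow (h : Sy hF) (n : ℕ) : lv (h ^ n) = (n : ZMod e) * lv h := by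
  induction n with
  | zero => simp [lv_one]
  | succ n ih => rw [pow_succ, lv_mul, ih, Nat.cast_succ, add_mul, one_mul]

theorem lv_inv (h : Sy hF) : lv h⁻¹ = - lv h := rfl

/-- A symmetry of level `0`. -/
theorem lv0_act (h : Sy hF) (h0 : lv h = 0) : ∃ d ∈ D, ∀ s : F, d * (s : Q) = ((h • s : F) : Q) := by
  obtain ⟨d, hd⟩ := exists_d h 0 (by rw [Nat.cast_zero, h0])
  refine ⟨d, hd.1, fun s => ?_⟩
  have h1 := hd.2 s
  rw [pow_zero, mul_one, pow_zero] at h1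
  exact h1

theorem lv0_pow (h : Sy hF) (h0 : lv h = 0) : h ^ Nat.card D = 1 := by
  obtain ⟨d, hd, h1⟩ := lv0_act h h0
  refine sy_ext ?_ fun s => ?_
  · rw [lv_pow, h0, mul_zero, lv_one]
  · have key : ∀ n : ℕ, d ^ n * (s : Q) = ((h ^ n • s : F) : Q) := by
      intro n
      induction n with
      | zero => rw [pow_zero, pow_zero, one_mul, one_smul]
      | succ n ih => rw [pow_succ', pow_succ', mul_assoc, ih, h1, mul_smul]
    refine Subtype.ext ?_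
    rw [← key, one_smul]
    have h2 : (⟨d, hd⟩ : D) ^ Nat.card D = 1 := pow_card_eq_one'
    have h3 : d ^ Nat.card D = 1 := congrArg Subtype.val h2
    rw [h3, one_mul]

instance instFiniteSy [NeZero e] : Finite (Sy hF) := by
  have : Fintype (Multiplicative (ZMod e)) := inferInstanceAs (Fintype (ZMod e))
  infer_instance

end sy

section quot

variable {Q : Type} [Group Q] {B : Lb.{0, v} Q} {U : Up B} {P D : Subgroup Q} {z : Q} {F : Finset Q} {e : ℕ}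

/-- A symmetry preserves the sheets. -/
theorem FrD.smul_mem (h : FrD U P D z F e) (g : Sy h.toFrt) (x : F) : (x : Q)⁻¹ * ((g • x : F) : Q) ∈ D := by
  have : NeZero e := ⟨h.he.ne'⟩
  obtain ⟨t, ht⟩ : ∃ t, t = (lv g).val := ⟨_, rfl⟩
  obtain ⟨d, hd⟩ := exists_d g t (by rw [ht]; exact ZMod.natCast_zmod_val _)
  have h1 : d * z ^ t * (x : Q) = (U.U ^ t) ((g • x : F) : Q) := hd.2 x
  have h2 := h.dat.mem_zpow (t : ℤ) ((g • x : F) : Q)
  rw [zpow_natCast, zpow_natCast, ← h1] at h2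
  -- `(g x)⁻¹ z ^ (-t) d z ^ t x ∈ D`
  have h3 := h.dat.conj' (x : Q) (h.dat.conj' (z ^ t) hd.1)
  have h4 := D.mul_mem h2 (D.inv_mem h3)
  have e1 : ((g • x : F) : Q)⁻¹ * ((z ^ t)⁻¹ * (d * z ^ t * (x : Q))) *
      ((x : Q)⁻¹ * ((z ^ t)⁻¹ * d * z ^ t) * (x : Q))⁻¹ = ((g • x : F) : Q)⁻¹ * (x : Q) := by group
  rw [e1] at h4
  have h5 := D.inv_mem h4
  rw [mul_inv_rev, inv_inv] at h5
  exact h5

/-- An orbit has at most `|D|` strands. -/
theorem FrD.card_quot (h : FrD U P D z F e) [Finite Q] (Γ : Subgroup (Sy h.toFrt)) (x : F) (H : Subgroup Γ)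
    (hH : ∀ g : Γ, (g : Sy h.toFrt) • x = x → g ∈ H) : Nat.card (Γ ⧸ H) ≤ Nat.card D := by
  refine Nat.card_le_card_of_injective
    (fun q : Γ ⧸ H => (⟨_, h.smul_mem (q.out : Γ) x⟩ : D)) fun q q' hq => ?_
  have h1 : (x : Q)⁻¹ * ((((q.out : Γ) : Sy h.toFrt) • x : F) : Q) =
      (x : Q)⁻¹ * ((((q'.out : Γ) : Sy h.toFrt) • x : F) : Q) := congrArg Subtype.val hq
  have h2 : ((q.out : Γ) : Sy h.toFrt) • x = ((q'.out : Γ) : Sy h.toFrt) • x :=
    Subtype.ext (mul_left_cancel h1)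
  rw [← Quotient.out_eq' q, ← Quotient.out_eq' q']
  refine QuotientGroup.eq.2 (hH _ ?_)
  show (((q.out : Γ) : Sy h.toFrt)⁻¹ * ((q'.out : Γ) : Sy h.toFrt)) • x = x
  rw [mul_smul, ← h2, inv_smul_smul]

/-- The stabiliser of a strand in a subgroup. -/
theorem FrD.stab_sub (h : FrD U P D z F e) (Γ : Subgroup (Sy h.toFrt)) (s : F) (hs : h.cj (s : Q) ∈ Γ) (g : Γ) :
    (g : Sy h.toFrt) • s = s ↔ g ∈ Subgroup.zpowers (⟨h.cj (s : Q), hs⟩ : Γ) := by
  rw [h.stab s]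
  constructor
  · rintro ⟨n, hn⟩
    refine ⟨n, Subtype.ext ?_⟩
    show ((⟨h.cj (s : Q), hs⟩ : Γ) ^ n : Γ).1 = g.1
    rw [← hn]; rfl
  · rintro ⟨n, hn⟩
    refine ⟨n, ?_⟩
    rw [← hn]; rfl

end quot

section xc

variable {Q : Type} [Group Q] {B : Lb.{0, v} Q} {U : Up B} {P D : Subgroup Q} {z : Q} {F : Finset Q} {e : ℕ}
variable {R : Type} [CommRing R] (V : Vd B R)

theorem Xc_one {hF : Frt U P D z F e} (hal : V.chi z ^ e = 1) (s : F) : Xc V (1 : Sy hF) = 1 := by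
  have h1 : ((0 : ℕ) : ZMod e) = lv (1 : Sy hF) := by rw [Nat.cast_zero, lv_one]
  rw [← Xc_eq V hal s _ 0 h1, uu_eq _ 0 h1 s, one_smul, pow_zero]
  show V.chi ((s : Q) * (s : Q)⁻¹) = 1
  rw [mul_inv_cancel, map_one]

/-- The character of `gen w` (`w` any vertex). -/
theorem Xc_cj (h : FrD U P D z F e) (hal : V.chi z ^ e = 1) (s : F) (w : Q) :
    Xc V (h.cj w) = V.chi (U.gen w) := by
  have h1 : ((1 : ℕ) : ZMod e) = lv (h.cj w) := by rw [Nat.cast_one, h.cj_lv]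
  rw [← Xc_eq V hal s _ 1 h1, uu_eq _ 1 h1 s, pow_one, h.cj_up, mul_inv_cancel_right]

theorem chi_gen (w : Q) : V.chi (U.gen w) = V.chi (B.q (U.up w)) := by
  have h1 : U.U w = w * B.q (U.up w) := U.hU w
  have h2 : V.chi w * V.chi w⁻¹ = 1 := by rw [← map_mul, mul_inv_cancel, map_one]
  unfold Up.gen
  rw [h1, map_mul, map_mul]
  linear_combination (V.chi (B.q (U.up w))) * h2

theorem Xc_cj_self (h : FrD U P D z F e) (hal : V.chi z ^ e = 1) (s : F) :
    Xc V (h.cj (s : Q)) = V.chi (B.q (U.up (s : Q))) := by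
  rw [Xc_cj V h hal s, chi_gen]

/-- The character of the symmetry group. -/
noncomputable def Xh {hF : Frt U P D z F e} (hal : V.chi z ^ e = 1) (s : F) : Sy hF →* R where
  toFun := Xc V
  map_one' := Xc_one V hal s
  map_mul' := Xc_mul V hal s

end xc

end Pool.Agent.Lib.MP_688fd0_co.SQ3
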